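import Pool.Agent.Lib.MP_1d980c_gt.Kum.ALiftA

/-! Lifts on the circle: near the points `±1`. -/

set_option autoImplicit false
open Topology Complex ComplexConjugate Pool.Agent.S4T2 Pool.Agent.BlowC
open scoped Manifold ContDiff

namespace Pool.Agent.Kum

/-- at `z = ±1`: `X z = n / 2` and `arg (y ^ 2) = 4 π (X y - n / 2)` near `z`. -/
theorem Lft.arg {X : Circle → ℝ} {z : Circle} (h : Lft X z) (hz : z⁻¹ = z) :
    ∃ n : ℤ, X z = n / 2 ∧
      ∀ᶠ y : Circle in 𝓝 z, Complex.arg ((y : ℂ) ^ 2) = 4 * Real.pi * (X y - n / 2) := by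
  have h' : ∀ᶠ y in 𝓝 z, ContMDiffAt (𝓡 1) 𝓘(ℝ, ℝ) ∞ X y ∧
      Circle.exp (2 * Real.pi * X y) = y := h
  have h0 := h'.self_of_nhds
  have hpi := Real.pi_pos
  have hzz : z * z = 1 := by
    have h1 := inv_mul_cancel z
    rwa [hz] at h1
  have h1 : Circle.exp (4 * Real.pi * X z) = 1 := by
    have h2 : 4 * Real.pi * X z = 2 * Real.pi * X z + 2 * Real.pi * X z := by ring
    rw [h2, Circle.exp_add, h0.2, hzz]
  obtain ⟨n, hn⟩ := Circle.exp_eq_one.1 h1
  have hXz : X z = n / 2 := by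
    have h2 : 2 * Real.pi * (2 * X z) = 2 * Real.pi * n := by linarith
    have h3 := mul_left_cancel₀ (by positivity : (2 * Real.pi : ℝ) ≠ 0) h2
    linarith
  refine ⟨n, hXz, ?_⟩
  have hc : ContinuousAt X z := h0.1.continuousAt
  have hc2 : ContinuousAt (fun y => 4 * Real.pi * (X y - n / 2)) z :=
    continuousAt_const.mul (hc.sub continuousAt_const)
  have hI : ∀ᶠ y in 𝓝 z, 4 * Real.pi * (X y - n / 2) ∈ Set.Ioo (-Real.pi) Real.pi := by
    refine hc2.eventually (isOpen_Ioo.mem_nhds ?_)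
    show 4 * Real.pi * (X z - n / 2) ∈ Set.Ioo (-Real.pi) Real.pi
    rw [hXz, sub_self, mul_zero]
    exact ⟨by linarith, hpi⟩
  filter_upwards [h', hI] with y hy hyI
  have h4 : Circle.exp (4 * Real.pi * (X y - n / 2)) = y * y := by
    have h5 : 4 * Real.pi * (X y - n / 2) =
        2 * Real.pi * X y + 2 * Real.pi * X y + (-(n * (2 * Real.pi))) := by ring
    rw [h5, Circle.exp_add, Circle.exp_add, hy.2, Circle.exp_neg, Circle.exp_int_mul_two_pi,
      inv_one, mul_one]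
  have h3 : ((y : ℂ) ^ 2) = ((Circle.exp (4 * Real.pi * (X y - n / 2)) : Circle) : ℂ) := by
    rw [h4, Circle.coe_mul, sq]
  rw [h3, Circle.arg_exp hyI.1 hyI.2.le]

end Pool.Agent.Kum
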