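import Pool.Agent.Lib.MP_1d980c_gt.Kum.AInvl
import Pool.Agent.Lib.MP_1d980c_gt.Kum.ALift
import Pool.Agent.Lib.MP_1d980c_gt.Kum.APhi

/-! Relations between charts of different types. -/

set_option autoImplicit false
open Topology Complex ComplexConjugate Pool.Agent.S4T2 Pool.Agent.BlowC
open scoped Manifold ContDiff

namespace Pool.Agent.Kum

variable {C EW HW W R' : Type} [TopologicalSpace C] [ChartedSpace ℂ C] [IsManifold 𝓘(ℂ) ∞ C]
  [NormedAddCommGroup EW] [NormedSpace ℝ EW] [TopologicalSpace HW] {JW : ModelWithCorners ℝ EW HW}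
  [TopologicalSpace W] [ChartedSpace HW W] [NormedAddCommGroup R'] [NormedSpace ℂ R']
  {σ : C → C} {g : C → ℂ} {GW : W → Set ((W → ℂ) × (W → ℂ) × (W → R'))}

omit [TopologicalSpace C] [ChartedSpace ℂ C] [IsManifold 𝓘(ℂ) ∞ C] in
private theorem across_ne {g : C → ℂ} (η : Bool) {c : C} (h : g c ≠ 0) : aF g η c ≠ 0 := by
  cases η
  · simpa [aF] using h
  · simpa [aF] using h

/-- with `a = aF g η y ≠ 0`: the chart of the other type is `(χ, z₂ / a, z₁ / a, r)`. Use
`phi1_inv`, `phi2_inv` (the other `a` is `a⁻¹`, the other `v` is `conj v`, the other sign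
is the opposite one). -/
theorem gch_other (η : Bool) (χ : C → ℂ) (X Y : Circle → ℝ)
    (d : (W → ℂ) × (W → ℂ) × (W → R')) {y : (C × Circle × Circle) × W} (h : g y.1.1 ≠ 0) :
    gch g (!η) χ X Y d y = ((gch g η χ X Y d y).1, (gch g η χ X Y d y).2.2.1 / aF g η y.1.1,
      (gch g η χ X Y d y).2.1 / aF g η y.1.1, (gch g η χ X Y d y).2.2.2) := by
  have ha : aF g η y.1.1 ≠ 0 := across_ne η h
  have ha' : aF g (!η) y.1.1 = (aF g η y.1.1)⁻¹ := by
    cases η <;> simp [aF]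
  have hs : sg (!η) = -sg η := by
    cases η <;> simp [sg]
  have hv : (⟨X y.1.2.1, sg (!η) * Y y.1.2.2⟩ : ℂ) =
      conj (⟨X y.1.2.1, sg η * Y y.1.2.2⟩ : ℂ) := by
    apply Complex.ext
    · simp
    · simp [hs]
  unfold gch
  simp only [ha', hv, phi1_inv ha, phi2_inv ha, Complex.conj_conj]
  refine Prod.ext rfl (Prod.ext ?_ (Prod.ext ?_ rfl))
  · simp only [hs]
    field_simp
    push_cast
    ring
  · simp only [hs]
    field_simp
    push_cast
    ring

theorem gch_rel_other (hg : OddFun σ g) {η : Bool} {χ : C → ℂ} {X Y : Circle → ℝ}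
    {d : (W → ℂ) × (W → ℂ) × (W → R')} {y : (C × Circle × Circle) × W}
    (h0 : HolAt (aF g η) y.1.1) (h1 : Cd χ y.1.1) (hne : g y.1.1 ≠ 0) :
    HolRel y (gch g η χ X Y d) (gch g (!η) χ X Y d) := by
  obtain ⟨gh, hgh, hev⟩ := h1.fac h0
  have ha : aF g η y.1.1 ≠ 0 := across_ne η hne
  have hgh0 : gh (χ y.1.1) ≠ 0 := by
    rw [← hev.self_of_nhds]
    exact ha
  have c1 : Filter.Tendsto (fun x : (C × Circle × Circle) × W => x.1.1) (𝓝 y) (𝓝 y.1.1) :=
    (continuous_fst.comp continuous_fst).tendsto y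
  have hc : ContinuousAt (aF g η) y.1.1 := h0.self_of_nhds.continuousAt
  have hne' : ∀ᶠ c in 𝓝 y.1.1, aF g η c ≠ 0 := hc.eventually_ne ha
  refine ⟨fun x => (x.1, x.2.2.1 / gh x.1, x.2.1 / gh x.1, x.2.2.2), ?_, ?_⟩
  · have e1 : (gch g η χ X Y d y).1 = χ y.1.1 := rfl
    have k1 : ContDiffAt ℂ ∞ (fun x : ℂ × ℂ × (ℂ × R') => gh x.1) (gch g η χ X Y d y) := by
      have k2 : ContDiffAt ℂ ∞ gh ((gch g η χ X Y d y).1) := by
        rw [e1]
        exact hgh
      exact k2.comp _ contDiffAt_fst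
    have k0 : gh (gch g η χ X Y d y).1 ≠ 0 := by
      rw [e1]
      exact hgh0
    have k3 : ContDiffAt ℂ ∞ (fun x : ℂ × ℂ × (ℂ × R') => x.2.2.1) (gch g η χ X Y d y) := by
      fun_prop
    have k4 : ContDiffAt ℂ ∞ (fun x : ℂ × ℂ × (ℂ × R') => x.2.1) (gch g η χ X Y d y) := by
      fun_prop
    have k5 : ContDiffAt ℂ ∞ (fun x : ℂ × ℂ × (ℂ × R') => x.2.2.2) (gch g η χ X Y d y) := by
      fun_prop
    exact contDiffAt_fst.prodMk ((k3.div k1 k0).prodMk ((k4.div k1 k0).prodMk k5))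
  · filter_upwards [c1.eventually hev, c1.eventually hne'] with x hx hx'
    have hgx : g x.1.1 ≠ 0 := by
      intro h2
      apply hx'
      cases η <;> simp [aF, h2]
    rw [gch_other η χ X Y d hgx]
    have e1 : (gch g η χ X Y d x).1 = χ x.1.1 := rfl
    simp only [e1, ← hx]

end Pool.Agent.Kum
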