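import Pool.Agent.Lib.MP_1d980c_gt.Kum.ADefs

/-! Holomorphic functions on a curve. -/

set_option autoImplicit false
open Topology Complex ComplexConjugate Pool.Agent.S4T2 Pool.Agent.BlowC
open scoped Manifold ContDiff

namespace Pool.Agent.Kum

variable {C : Type} [TopologicalSpace C] [ChartedSpace ℂ C]

theorem aF_false (g : C → ℂ) : aF g false = g := by
  funext c
  simp [aF]

theorem aF_true (g : C → ℂ) : aF g true = fun c => (g c)⁻¹ := by
  funext c
  simp [aF]

theorem HolAt.ev {f : C → ℂ} {c : C} (h : HolAt f c) : ∀ᶠ y in 𝓝 c, HolAt f y :=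
  eventually_eventually_nhds.2 h

variable [IsManifold 𝓘(ℂ) ∞ C]

private theorem one_of_infty : IsManifold 𝓘(ℂ) 1 C :=
  IsManifold.of_le (n := ∞) (by exact_mod_cast le_top)

private theorem smoothAt {f : C → ℂ} {c : C} (h : HolAt f c) :
    ContMDiffAt 𝓘(ℂ) 𝓘(ℂ) ∞ f c := by
  have h1 : IsManifold 𝓘(ℂ) 1 C := one_of_infty
  rw [contMDiffAt_iff]
  refine ⟨h.self_of_nhds.continuousAt, ?_⟩
  set φ := chartAt ℂ c with hφ
  have hc : c ∈ φ.source := mem_chart_source ℂ c
  -- differentiability of the function read in the chart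
  have hd : ∀ᶠ z in 𝓝 (φ c), DifferentiableAt ℂ (f ∘ φ.symm) z := by
    have h2 : ∀ᶠ z in 𝓝 (φ c), MDifferentiableAt 𝓘(ℂ) 𝓘(ℂ) f (φ.symm z) := by
      have h3 : Filter.Tendsto φ.symm (𝓝 (φ c)) (𝓝 c) := by
        have h4 := φ.continuousAt_symm (φ.map_source hc)
        rw [ContinuousAt, φ.left_inv hc] at h4
        exact h4
      exact h3.eventually h
    filter_upwards [h2, φ.open_target.mem_nhds (φ.map_source hc)] with z hz hzt
    rw [← mdifferentiableAt_iff_differentiableAt]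
    exact hz.comp z (mdifferentiableAt_atlas_symm (chart_mem_atlas ℂ c) hzt)
  obtain ⟨U, hU, hUo, hcU⟩ := eventually_nhds_iff.1 hd
  have han : AnalyticAt ℂ (f ∘ φ.symm) (φ c) :=
    DifferentiableOn.analyticAt (s := U) (fun z hz => (hU z hz).differentiableWithinAt)
      (hUo.mem_nhds hcU)
  have hcd : ContDiffAt ℂ ∞ (f ∘ φ.symm) (φ c) := han.contDiffAt
  exact hcd.contDiffWithinAt

/-- holomorphic functions are smooth: read in a chart, a complex differentiable function on an
open subset of `ℂ` is analytic. -/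
theorem HolAt.smooth {f : C → ℂ} {c : C} (h : HolAt f c) :
    ∀ᶠ y in 𝓝 c, ContMDiffAt 𝓘(ℂ) 𝓘(ℂ) ∞ f y := by
  filter_upwards [h.ev] with y hy
  exact smoothAt hy

/-- the charts are holomorphic coordinates. -/
theorem exists_cd (c : C) : ∃ χ, Cd χ c := by
  have h1 : IsManifold 𝓘(ℂ) 1 C := one_of_infty
  refine ⟨chartAt ℂ c, ?_, ?_⟩
  · filter_upwards [(chartAt ℂ c).open_source.mem_nhds (mem_chart_source ℂ c)] with y hy
    exact mdifferentiableAt_atlas (chart_mem_atlas ℂ c) hy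
  · intro h0
    have h2 := (mdifferentiable_chart (I := 𝓘(ℂ)) c).mfderiv_injective (mem_chart_source ℂ c)
    rw [h0] at h2
    have h3 : (1 : ℂ) = 0 := h2 (a₁ := (1 : ℂ)) (a₂ := (0 : ℂ)) rfl
    exact one_ne_zero h3

end Pool.Agent.Kum
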