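import Pool.Agent.Lib.MP_1d980c_gt.Kum.ACurA

/-! Holomorphic coordinates on a curve. -/

set_option autoImplicit false
open Topology Complex ComplexConjugate Pool.Agent.S4T2 Pool.Agent.BlowC
open scoped Manifold ContDiff

namespace Pool.Agent.Kum

variable {C : Type} [TopologicalSpace C] [ChartedSpace ℂ C] [IsManifold 𝓘(ℂ) ∞ C]

/-- reading in the chart at `c`. -/
private noncomputable def rd (f : C → ℂ) (c : C) : ℂ → ℂ := fun z => f ((chartAt ℂ c).symm z)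

omit [IsManifold 𝓘(ℂ) ∞ C] in
private lemma rd_chart (f : C → ℂ) {c y : C} (hy : y ∈ (chartAt ℂ c).source) :
    rd f c (chartAt ℂ c y) = f y := by
  simp [rd, (chartAt ℂ c).left_inv hy]

private lemma rd_diff {f : C → ℂ} {c : C} (h : HolAt f c) :
    ∀ᶠ z in 𝓝 (chartAt ℂ c c), DifferentiableAt ℂ (rd f c) z := by
  have h2 : Filter.Tendsto (chartAt ℂ c).symm (𝓝 (chartAt ℂ c c)) (𝓝 c) :=
    (chartAt ℂ c).tendsto_symm (mem_chart_source ℂ c)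
  have h1 : ∀ᶠ z in 𝓝 (chartAt ℂ c c),
      MDifferentiableAt 𝓘(ℂ) 𝓘(ℂ) f ((chartAt ℂ c).symm z) := h2.eventually h
  have h3 : ∀ᶠ z in 𝓝 (chartAt ℂ c c), z ∈ (chartAt ℂ c).target :=
    (chartAt ℂ c).open_target.mem_nhds ((chartAt ℂ c).map_source (mem_chart_source ℂ c))
  filter_upwards [h1, h3] with z hz hz'
  have h4 : MDifferentiableAt 𝓘(ℂ) 𝓘(ℂ) (chartAt ℂ c).symm z :=
    mdifferentiableAt_atlas_symm (chart_mem_atlas ℂ c) hz'
  have h5 : MDifferentiableAt 𝓘(ℂ) 𝓘(ℂ) (f ∘ (chartAt ℂ c).symm) z := hz.comp z h4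
  exact h5.differentiableAt

private lemma rd_an {f : C → ℂ} {c : C} (h : HolAt f c) :
    AnalyticAt ℂ (rd f c) (chartAt ℂ c c) :=
  analyticAt_iff_eventually_differentiableAt.2 (rd_diff h)

omit [IsManifold 𝓘(ℂ) ∞ C] in
private lemma chart_ev (c : C) {P : ℂ → Prop} (h : ∀ᶠ z in 𝓝 (chartAt ℂ c c), P z) :
    ∀ᶠ y in 𝓝 c, y ∈ (chartAt ℂ c).source ∧ P (chartAt ℂ c y) := by
  have h1 : Filter.Tendsto (chartAt ℂ c) (𝓝 c) (𝓝 (chartAt ℂ c c)) :=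
    (chartAt ℂ c).continuousAt (mem_chart_source ℂ c)
  filter_upwards [h1.eventually h, (chartAt ℂ c).open_source.mem_nhds (mem_chart_source ℂ c)]
    with y hy hy' using ⟨hy', hy⟩

private lemma mf_ne {f : C → ℂ} {c y : C} (hy : y ∈ (chartAt ℂ c).source)
    (hd : DifferentiableAt ℂ (rd f c) (chartAt ℂ c y)) :
    mfderiv 𝓘(ℂ) 𝓘(ℂ) f y ≠ 0 ↔ deriv (rd f c) (chartAt ℂ c y) ≠ 0 := by
  have h1 : MDifferentiableAt 𝓘(ℂ) 𝓘(ℂ) (chartAt ℂ c) y :=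
    mdifferentiableAt_atlas (chart_mem_atlas ℂ c) hy
  have h2 : f =ᶠ[𝓝 y] (rd f c ∘ chartAt ℂ c) := by
    filter_upwards [(chartAt ℂ c).open_source.mem_nhds hy] with y' hy'
    exact (rd_chart f hy').symm
  have h3 : ∀ v, mfderiv 𝓘(ℂ) 𝓘(ℂ) f y v =
      fderiv ℂ (rd f c) (chartAt ℂ c y) (mfderiv 𝓘(ℂ) 𝓘(ℂ) (chartAt ℂ c) y v) := by
    intro v
    rw [h2.mfderiv_eq, mfderiv_comp y hd.mdifferentiableAt h1, mfderiv_eq_fderiv]
    rfl
  have h4 : Function.Surjective (mfderiv 𝓘(ℂ) 𝓘(ℂ) (chartAt ℂ c) y) :=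
    (mdifferentiable_chart c).mfderiv_surjective hy
  rw [not_iff_not]
  constructor
  · intro h
    obtain ⟨v, hv⟩ := h4 (1 : ℂ)
    have h5 := h3 v
    rw [hv, h] at h5
    rw [← fderiv_apply_one_eq_deriv]
    exact h5.symm
  · intro h
    have h6 : fderiv ℂ (rd f c) (chartAt ℂ c y) = 0 := by
      rw [← toSpanSingleton_deriv, h]
      simp
    refine ContinuousLinearMap.ext fun v => ?_
    rw [h3 v, h6]
    rfl

private lemma exists_inv {F : ℂ → ℂ} {z0 : ℂ} (hF : AnalyticAt ℂ F z0) (h0 : deriv F z0 ≠ 0) :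
    ∃ G : ℂ → ℂ, ContDiffAt ℂ ∞ G (F z0) ∧ ∀ᶠ z in 𝓝 z0, G (F z) = z := by
  have hc : ContDiffAt ℂ ∞ F z0 := hF.contDiffAt
  let f' : ℂ ≃L[ℂ] ℂ := ContinuousLinearEquiv.unitsEquivAut ℂ (Units.mk0 (deriv F z0) h0)
  have hf' : HasFDerivAt F (f' : ℂ →L[ℂ] ℂ) z0 := by
    have h1 := hF.differentiableAt.hasDerivAt.hasFDerivAt
    have h2 : (f' : ℂ →L[ℂ] ℂ) = ContinuousLinearMap.toSpanSingleton ℂ (deriv F z0) := by
      ext
      simp [f']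
    rw [h2]
    exact h1
  have hn : (∞ : WithTop ℕ∞) ≠ 0 := by simp
  refine ⟨hc.localInverse hf' hn, hc.to_localInverse hf' hn, ?_⟩
  exact (hc.hasStrictFDerivAt' hf' hn).eventually_left_inverse

theorem Cd.ev {χ : C → ℂ} {c : C} (h : Cd χ c) : ∀ᶠ y in 𝓝 c, Cd χ y := by
  have h0 := (rd_an h.1).deriv.continuousAt
  have h1 : deriv (rd χ c) (chartAt ℂ c c) ≠ 0 :=
    (mf_ne (mem_chart_source ℂ c) (rd_an h.1).differentiableAt).1 h.2
  have h2 : ∀ᶠ z in 𝓝 (chartAt ℂ c c), deriv (rd χ c) z ≠ 0 := h0.eventually_ne h1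
  filter_upwards [chart_ev c h2, chart_ev c (rd_diff h.1), h.1.ev] with y h3 h4 h5
  exact ⟨h5, (mf_ne h3.1 h4.2).2 h3.2⟩

/-- a holomorphic function is a holomorphic function of a coordinate: holomorphic inverse function
theorem. -/
theorem Cd.fac {χ a : C → ℂ} {c : C} (h : Cd χ c) (ha : HolAt a c) :
    ∃ gh : ℂ → ℂ, ContDiffAt ℂ ∞ gh (χ c) ∧ ∀ᶠ y in 𝓝 c, a y = gh (χ y) := by
  have h1 : deriv (rd χ c) (chartAt ℂ c c) ≠ 0 :=
    (mf_ne (mem_chart_source ℂ c) (rd_an h.1).differentiableAt).1 h.2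
  obtain ⟨G, hG1, hG2⟩ := exists_inv (rd_an h.1) h1
  have h2 := hG2.self_of_nhds
  rw [rd_chart χ (mem_chart_source ℂ c)] at hG1 h2
  refine ⟨rd a c ∘ G, ?_, ?_⟩
  · have h3 : ContDiffAt ℂ ∞ (rd a c) (G (χ c)) := by
      rw [h2]
      exact (rd_an ha).contDiffAt
    exact h3.comp _ hG1
  · filter_upwards [chart_ev c hG2] with y hy
    have h4 := hy.2
    rw [rd_chart χ hy.1] at h4
    simp only [Function.comp_apply]
    rw [h4, rd_chart a hy.1]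

/-- a coordinate is locally injective. -/
theorem Cd.locInj {χ : C → ℂ} {c : C} (h : Cd χ c) :
    ∃ U ∈ 𝓝 c, Set.InjOn χ U := by
  have h1 : deriv (rd χ c) (chartAt ℂ c c) ≠ 0 :=
    (mf_ne (mem_chart_source ℂ c) (rd_an h.1).differentiableAt).1 h.2
  obtain ⟨G, hG1, hG2⟩ := exists_inv (rd_an h.1) h1
  refine ⟨_, chart_ev c hG2, ?_⟩
  intro x hx y hy hxy
  have h2 := hx.2
  have h3 := hy.2
  rw [rd_chart χ hx.1] at h2
  rw [rd_chart χ hy.1] at h3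
  apply (chartAt ℂ c).injOn hx.1 hy.1
  rw [← h2, ← h3, hxy]

end Pool.Agent.Kum
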