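import Pool.Agent.Lib.MP_1d980c_gt.Kum.ACur

/-! Curves as real manifolds. -/

set_option autoImplicit false
open Topology Complex ComplexConjugate Pool.Agent.S4T2 Pool.Agent.BlowC
open scoped Manifold ContDiff

namespace Pool.Agent.Kum

variable {C : Type} [TopologicalSpace C] [ChartedSpace ℂ C] [IsManifold 𝓘(ℂ) ∞ C]

/-- the transition functions are smooth over `ℂ`, hence over `ℝ`. -/
theorem isManifold_real (C : Type) [TopologicalSpace C] [ChartedSpace ℂ C]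
    [IsManifold 𝓘(ℂ) ∞ C] : IsManifold 𝓘(ℝ, ℂ) ∞ C := by
  apply isManifold_of_contDiffOn
  intro e e' he he'
  have h1 := (contDiffGroupoid ∞ 𝓘(ℂ)).compatible he he'
  have h2 := (mem_groupoid_of_pregroupoid.1 h1).1
  have h3 : ContDiffOn ℂ ∞ (𝓘(ℂ) ∘ (e.symm ≫ₕ e') ∘ 𝓘(ℂ).symm)
      (𝓘(ℂ).symm ⁻¹' (e.symm ≫ₕ e').source ∩ Set.range 𝓘(ℂ)) := h2
  exact h3.restrict_scalars ℝ

omit [IsManifold 𝓘(ℂ) ∞ C] in
private theorem ACurR_real {f : C → ℂ} {c : C} (h : ContMDiffAt 𝓘(ℂ) 𝓘(ℂ) ∞ f c) :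
    ContMDiffAt 𝓘(ℝ, ℂ) 𝓘(ℝ, ℂ) ∞ f c := by
  rw [contMDiffAt_iff] at h ⊢
  exact ⟨h.1, h.2.restrict_scalars ℝ⟩

theorem HolAt.real {f : C → ℂ} {c : C} (h : HolAt f c) :
    ContMDiffAt 𝓘(ℝ, ℂ) 𝓘(ℝ, ℂ) ∞ f c := ACurR_real h.smooth.self_of_nhds

theorem Cd.real {χ : C → ℂ} {c : C} (h : Cd χ c) (ξ : ℂ) (hξ : dm 𝓘(ℝ, ℂ) χ c ξ = 0) : ξ = 0 := by
  have h1 : ContMDiffAt 𝓘(ℂ) 𝓘(ℂ) ∞ χ c := h.1.smooth.self_of_nhds
  have hd : MDifferentiableAt 𝓘(ℂ) 𝓘(ℂ) χ c := h1.mdifferentiableAt (by simp)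
  have hd' : MDifferentiableAt 𝓘(ℝ, ℂ) 𝓘(ℝ, ℂ) χ c :=
    (ACurR_real h1).mdifferentiableAt (by simp)
  have hne := h.2
  set g : ℂ → ℂ := writtenInExtChartAt 𝓘(ℂ) 𝓘(ℂ) c χ with hg
  have e1 : mfderiv 𝓘(ℂ) 𝓘(ℂ) χ c = fderiv ℂ g (extChartAt 𝓘(ℂ) c c) := by
    rw [mfderiv, if_pos hd, ModelWithCorners.range_eq_univ, fderivWithin_univ]
  have e2 : mfderiv 𝓘(ℝ, ℂ) 𝓘(ℝ, ℂ) χ c = fderiv ℝ g (extChartAt 𝓘(ℂ) c c) := by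
    rw [mfderiv, if_pos hd', ModelWithCorners.range_eq_univ, fderivWithin_univ]
    rfl
  have hgd : DifferentiableAt ℂ g (extChartAt 𝓘(ℂ) c c) := by
    have h2 := (mdifferentiableAt_iff _ _).1 hd
    have h3 := h2.2
    rw [ModelWithCorners.range_eq_univ, differentiableWithinAt_univ] at h3
    exact h3
  have h4 : fderiv ℝ g (extChartAt 𝓘(ℂ) c c) ξ = fderiv ℂ g (extChartAt 𝓘(ℂ) c c) ξ := by
    rw [hgd.fderiv_restrictScalars ℝ]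
    rfl
  have h5 : fderiv ℂ g (extChartAt 𝓘(ℂ) c c) ξ = 0 := by
    rw [← h4]
    have h6 : dm 𝓘(ℝ, ℂ) χ c ξ = fderiv ℝ g (extChartAt 𝓘(ℂ) c c) ξ := by
      unfold dm
      rw [e2]
      rfl
    rw [← h6]
    exact hξ
  by_contra hξ0
  apply hne
  rw [e1]
  refine ContinuousLinearMap.ext fun z => ?_
  have h7 : z = (z / ξ) • ξ := by
    rw [smul_eq_mul, div_mul_cancel₀ _ hξ0]
  rw [h7, map_smul, h5, smul_zero]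
  rfl

end Pool.Agent.Kum
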