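import Pool.Agent.Lib.MP_1d980c_gt.Kum.KDefs
import Pool.Agent.Lib.MP_1d980c_gt.Blow.BaseBridgeA

/-! The charts of the product with a curve and two circles: definitions. -/

set_option autoImplicit false
open Topology Complex ComplexConjugate Pool.Agent.S4T2 Pool.Agent.BlowC
open scoped Manifold ContDiff

namespace Pool.Agent.Kum

/-! ## The curve -/

section curve

variable {C : Type} [TopologicalSpace C] [ChartedSpace ℂ C]

/-- `f` is holomorphic near `c`. -/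
def HolAt (f : C → ℂ) (c : C) : Prop := ∀ᶠ y in 𝓝 c, MDifferentiableAt 𝓘(ℂ) 𝓘(ℂ) f y

/-- `f` is a holomorphic coordinate near `c`. -/
def Cd (f : C → ℂ) (c : C) : Prop := HolAt f c ∧ mfderiv 𝓘(ℂ) 𝓘(ℂ) f c ≠ 0

/-- `σ` is a holomorphic involution and `g` is an odd meromorphic function (with value `0` at the
poles), with a simple zero or a simple pole at each fixed point of `σ`. -/
structure OddFun (σ : C → C) (g : C → ℂ) : Prop where
  hol : MDifferentiable 𝓘(ℂ) 𝓘(ℂ) σ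
  inv : ∀ c, σ (σ c) = c
  odd : ∀ c, g (σ c) = -g c
  mero : ∀ c, HolAt g c ∨ (g c = 0 ∧ HolAt (fun x => (g x)⁻¹) c)
  iso : ∀ c, ∀ᶠ x in 𝓝[≠] c, g x ≠ 0
  simple : ∀ c, σ c = c → Cd g c ∨ Cd (fun x => (g x)⁻¹) c

/-- the involution `(σ, -1)` of `C × T²`. -/
noncomputable def tau (σ : C → C) (x : C × Circle × Circle) : C × Circle × Circle :=
  (σ x.1, x.2.1⁻¹, x.2.2⁻¹)

open Classical in
/-- the type of a point: `false` if `g` is holomorphic there, `true` otherwise. -/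
noncomputable def ty (g : C → ℂ) (c : C) : Bool := if HolAt g c then false else true

/-- `g` or `1 / g`. -/
noncomputable def aF (g : C → ℂ) (η : Bool) (c : C) : ℂ := if η then (g c)⁻¹ else g c

/-- the sign of a type. -/
def sg (η : Bool) : ℝ := if η then -1 else 1

/-- the first coordinate at the fixed point `e`. -/
noncomputable def sK (g : C → ℂ) (e x : C × Circle × Circle) : ℂ := aF g (ty g e.1) x.1

/-- the second coordinate at the fixed point `e`. -/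
noncomputable def tK (g : C → ℂ) (e x : C × Circle × Circle) : ℂ :=
  ⟨arg ((x.2.1 : ℂ) ^ 2), sg (ty g e.1) * arg ((x.2.2 : ℂ) ^ 2)⟩

end curve

/-! ## The cutoff functions -/

/-- a smooth monotone function, equal to `n / 2` near `n / 2`. -/
noncomputable def fK (x : ℝ) : ℝ := ((⌊2 * x⌋ : ℝ) + Real.smoothTransition (3 * Int.fract (2 * x) - 1)) / 2

/-- the two components of `fK`. -/
noncomputable def ph (v : ℂ) : ℂ := ⟨fK v.re, fK v.im⟩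

/-- the cutoff function on the Riemann sphere. -/
noncomputable def om (a : ℂ) : ℝ := Real.smoothTransition (3 * ‖a‖ ^ 2 / (1 + ‖a‖ ^ 2) - 1)

noncomputable def phi1 (a v : ℂ) : ℂ := ((1 - om a : ℝ) : ℂ) * v + (om a : ℂ) * ph v

noncomputable def phi2 (a v : ℂ) : ℂ := (om a : ℂ) * v + ((1 - om a : ℝ) : ℂ) * ph v

/-! ## The germs -/

/-- `X` is a local inverse of `x ↦ exp (2 π i x)` near `z`. -/
def Lft (X : Circle → ℝ) (z : Circle) : Prop :=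
  ∀ᶠ y in 𝓝 z, ContMDiffAt (𝓡 1) 𝓘(ℝ, ℝ) ∞ X y ∧ Circle.exp (2 * Real.pi * X y) = y

/-- the derivative of a vector valued function on a manifold. -/
noncomputable def dm {E H M F : Type} [NormedAddCommGroup E] [NormedSpace ℝ E]
    [TopologicalSpace H] (I : ModelWithCorners ℝ E H) [TopologicalSpace M] [ChartedSpace H M]
    [NormedAddCommGroup F] [NormedSpace ℝ F] (f : M → F) (x : M) (ξ : E) : F :=
  (mfderiv I 𝓘(ℝ, F) f x : E →L[ℝ] F) ξ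

section germs

variable {C EW HW W R' : Type} [TopologicalSpace C] [ChartedSpace ℂ C]
  [NormedAddCommGroup EW] [NormedSpace ℝ EW] [TopologicalSpace HW] (JW : ModelWithCorners ℝ EW HW)
  [TopologicalSpace W] [ChartedSpace HW W] [NormedAddCommGroup R'] [NormedSpace ℂ R']

/-- the germs `(b₁, b₂, r)` on `W`: `r` is a submersion onto a complex vector space, and `b₁`,
`b₂` are coordinates of its two dimensional fibres, whose imaginary parts are constant along the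
fibres. -/
structure WGerms (GW : W → Set ((W → ℂ) × (W → ℂ) × (W → R'))) : Prop where
  ex : ∀ w, ∃ d, d ∈ GW w
  opn : ∀ w, ∀ d ∈ GW w, ∀ᶠ w' in 𝓝 w, d ∈ GW w'
  smooth : ∀ w, ∀ d ∈ GW w, ContMDiffAt JW 𝓘(ℝ, ℂ) ∞ d.1 w ∧ ContMDiffAt JW 𝓘(ℝ, ℂ) ∞ d.2.1 w ∧
    ContMDiffAt JW 𝓘(ℝ, R') ∞ d.2.2 w
  real : ∀ w, ∀ d ∈ GW w, ∀ ξ, dm JW d.2.2 w ξ = 0 →
    (dm JW d.1 w ξ).im = 0 ∧ (dm JW d.2.1 w ξ).im = 0
  inj : ∀ w, ∀ d ∈ GW w, ∀ ξ, dm JW d.2.2 w ξ = 0 → dm JW d.1 w ξ = 0 → dm JW d.2.1 w ξ = 0 →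
    ξ = 0
  trans : ∀ w, ∀ d ∈ GW w, ∀ d' ∈ GW w, ∃ (h1 h2 : R' → ℂ) (H : R' → R'),
    ContDiffAt ℂ ∞ h1 (d.2.2 w) ∧ ContDiffAt ℂ ∞ h2 (d.2.2 w) ∧ ContDiffAt ℂ ∞ H (d.2.2 w) ∧
    ∀ᶠ w' in 𝓝 w, d'.1 w' = d.1 w' + h1 (d.2.2 w') ∧ d'.2.1 w' = d.2.1 w' + h2 (d.2.2 w') ∧
      d'.2.2 w' = H (d.2.2 w')

/-- the chart of type `η`. -/
noncomputable def gch (g : C → ℂ) (η : Bool) (χ : C → ℂ) (X Y : Circle → ℝ)
    (d : (W → ℂ) × (W → ℂ) × (W → R')) (y : (C × Circle × Circle) × W) : ℂ × ℂ × (ℂ × R') :=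
  (χ y.1.1,
    phi1 (aF g η y.1.1) ⟨X y.1.2.1, sg η * Y y.1.2.2⟩ -
      aF g η y.1.1 * (sg η * d.1 y.2 - I * d.2.1 y.2),
    sg η * d.1 y.2 + I * d.2.1 y.2 +
      aF g η y.1.1 * conj (phi2 (aF g η y.1.1) ⟨X y.1.2.1, sg η * Y y.1.2.2⟩),
    d.2.2 y.2)

/-- the germs of charts. -/
def GmA (g : C → ℂ) (GW : W → Set ((W → ℂ) × (W → ℂ) × (W → R')))
    (y : (C × Circle × Circle) × W) : Set ((C × Circle × Circle) × W → ℂ × ℂ × (ℂ × R')) :=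
  {f | ∃ (η : Bool) (χ : C → ℂ) (X Y : Circle → ℝ) (d : (W → ℂ) × (W → ℂ) × (W → R')),
    HolAt (aF g η) y.1.1 ∧ Cd χ y.1.1 ∧ Lft X y.1.2.1 ∧ Lft Y y.1.2.2 ∧ d ∈ GW y.2 ∧
      f = gch g η χ X Y d}

/-- the special germs of type `η`. -/
noncomputable def spd (η : Bool) (d : (W → ℂ) × (W → ℂ) × (W → R')) :
    (W → ℂ) × (W → ℂ × R') :=
  (fun w => 4 * Real.pi * (sg η * d.1 w - I * d.2.1 w),
    fun w => (sg η * d.1 w + I * d.2.1 w, d.2.2 w))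

/-- the special germs. -/
def SpA (g : C → ℂ) (GW : W → Set ((W → ℂ) × (W → ℂ) × (W → R')))
    (y : (C × Circle × Circle) × W) : Set ((W → ℂ) × (W → ℂ × R')) :=
  {δ | ∃ d ∈ GW y.2, δ = spd (ty g y.1.1) d}

end germs

/-- the model of `C × S¹ × S¹`. -/
noncomputable abbrev IC : ModelWithCorners ℝ (ℂ × EuclideanSpace ℝ (Fin 1) × EuclideanSpace ℝ (Fin 1))
    (ModelProd ℂ (ModelProd (EuclideanSpace ℝ (Fin 1)) (EuclideanSpace ℝ (Fin 1)))) :=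
  𝓘(ℝ, ℂ).prod ((𝓡 1).prod (𝓡 1))

/-- the ambient chart: a function of `(χ, x, y, b₁, b₂, r)`. -/
noncomputable def PhiG {R' : Type} (gh : ℂ → ℂ) (x : ℂ × ℝ × ℝ × ℂ × ℂ × R') : ℂ × ℂ × (ℂ × R') :=
  (x.1,
    phi1 (gh x.1) ⟨x.2.1, x.2.2.1⟩ - gh x.1 * (x.2.2.2.1 - I * x.2.2.2.2.1),
    x.2.2.2.1 + I * x.2.2.2.2.1 + gh x.1 * conj (phi2 (gh x.1) ⟨x.2.1, x.2.2.1⟩),
    x.2.2.2.2.2)

/-- the frame of type `η`. -/
noncomputable def frame {C W R' : Type} (η : Bool) (χ : C → ℂ) (X Y : Circle → ℝ)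
    (d : (W → ℂ) × (W → ℂ) × (W → R')) (y : (C × Circle × Circle) × W) :
    ℂ × ℝ × ℝ × ℂ × ℂ × R' :=
  (χ y.1.1, X y.1.2.1, sg η * Y y.1.2.2, sg η * d.1 y.2, d.2.1 y.2, d.2.2 y.2)

end Pool.Agent.Kum
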