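import Pool.Agent.Lib.MP_1d980c_gt.Kum.ACurR
import Pool.Agent.Lib.MP_1d980c_gt.Kum.ALift

/-! The frame is an immersion. -/

set_option autoImplicit false
open Topology Complex ComplexConjugate Pool.Agent.S4T2 Pool.Agent.BlowC
open scoped Manifold ContDiff

namespace Pool.Agent.Kum

section aux

variable {E H M A B : Type} [NormedAddCommGroup E] [NormedSpace ℝ E] [TopologicalSpace H]
  {I : ModelWithCorners ℝ E H} [TopologicalSpace M] [ChartedSpace H M]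
  [NormedAddCommGroup A] [NormedSpace ℝ A] [NormedAddCommGroup B] [NormedSpace ℝ B]

/-- the derivative, as a map between vector spaces -/
private def HD (I : ModelWithCorners ℝ E H) (f : M → A) (x : M) (L : E →L[ℝ] A) : Prop :=
  HasMFDerivAt I 𝓘(ℝ, A) f x L

private theorem hd_pair {f : M → A} {g : M → B} {x : M} {L : E →L[ℝ] A} {L' : E →L[ℝ] B}
    (hf : HD I f x L) (hg : HD I g x L') : HD I (fun y => (f y, g y)) x (L.prod L') :=
  ⟨hf.1.prodMk hg.1, hf.2.prodMk hg.2⟩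

private theorem hd_dm {f : M → A} {x : M} {L : E →L[ℝ] A} (hf : HD I f x L) (ξ : E) :
    dm I f x ξ = L ξ := by
  unfold dm
  rw [HasMFDerivAt.mfderiv hf]
  rfl

private theorem hd_of {f : M → A} {x : M} (hf : ContMDiffAt I 𝓘(ℝ, A) ∞ f x) :
    ∃ L : E →L[ℝ] A, HD I f x L ∧ ∀ ξ, dm I f x ξ = L ξ := by
  have h := (hf.mdifferentiableAt (by simp)).hasMFDerivAt
  exact ⟨_, h, fun ξ => rfl⟩

private theorem hd_smul {f : M → A} {x : M} {L : E →L[ℝ] A} (hf : HD I f x L) (c : ℝ) :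
    HD I (fun y => c • f y) x (c • L) :=
  HasMFDerivAt.const_smul (f := f) hf c

variable {E' H' M' : Type} [NormedAddCommGroup E'] [NormedSpace ℝ E'] [TopologicalSpace H']
  {I' : ModelWithCorners ℝ E' H'} [TopologicalSpace M'] [ChartedSpace H' M']

private theorem hd_fst {f : M → A} {p : M × M'} {L : E →L[ℝ] A} (hf : HD I f p.1 L) :
    HD (I.prod I') (fun q : M × M' => f q.1) p (L.comp (ContinuousLinearMap.fst ℝ E E')) :=
  HasMFDerivAt.comp (g := f) (f := Prod.fst) p hf (hasMFDerivAt_fst p)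

private theorem hd_snd {f : M' → A} {p : M × M'} {L : E' →L[ℝ] A} (hf : HD I' f p.2 L) :
    HD (I.prod I') (fun q : M × M' => f q.2) p (L.comp (ContinuousLinearMap.snd ℝ E E')) :=
  HasMFDerivAt.comp (g := f) (f := Prod.snd) p hf (hasMFDerivAt_snd p)

private theorem sm_fst {f : M → A} {p : M × M'} (hf : ContMDiffAt I 𝓘(ℝ, A) ∞ f p.1) :
    ContMDiffAt (I.prod I') 𝓘(ℝ, A) ∞ (fun q : M × M' => f q.1) p :=
  ContMDiffAt.comp (g := f) p hf contMDiffAt_fst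

private theorem sm_snd {f : M' → A} {p : M × M'} (hf : ContMDiffAt I' 𝓘(ℝ, A) ∞ f p.2) :
    ContMDiffAt (I.prod I') 𝓘(ℝ, A) ∞ (fun q : M × M' => f q.2) p :=
  ContMDiffAt.comp (g := f) p hf contMDiffAt_snd

private theorem sm_smul {f : M → A} {x : M} (hf : ContMDiffAt I 𝓘(ℝ, A) ∞ f x) (c : ℝ) :
    ContMDiffAt I 𝓘(ℝ, A) ∞ (fun y => c • f y) x :=
  ContMDiffAt.comp (g := fun a : A => c • a) x (contDiff_id.const_smul c).contMDiff.contMDiffAt hf

end aux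

variable {C EW HW W R' : Type} [TopologicalSpace C] [ChartedSpace ℂ C] [IsManifold 𝓘(ℂ) ∞ C]
  [NormedAddCommGroup EW] [NormedSpace ℝ EW] [TopologicalSpace HW] {JW : ModelWithCorners ℝ EW HW}
  [TopologicalSpace W] [ChartedSpace HW W] [NormedAddCommGroup R'] [NormedSpace ℂ R']
  {σ : C → C} {g : C → ℂ} {GW : W → Set ((W → ℂ) × (W → ℂ) × (W → R'))}

private theorem frame_rw {η : Bool} {χ : C → ℂ} {X Y : Circle → ℝ}
    {d : (W → ℂ) × (W → ℂ) × (W → R')} : frame η χ X Y d =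
      fun y : (C × Circle × Circle) × W => (χ y.1.1, X y.1.2.1, sg η • Y y.1.2.2,
        sg η • d.1 y.2, d.2.1 y.2, d.2.2 y.2) := by
  funext y
  simp only [frame, smul_eq_mul, Complex.real_smul]

/-- smoothness of a product of smooth functions of the factors. -/
theorem frame_smooth (hW : WGerms JW GW) {η : Bool} {χ : C → ℂ} {X Y : Circle → ℝ}
    {d : (W → ℂ) × (W → ℂ) × (W → R')} {y : (C × Circle × Circle) × W} (h1 : Cd χ y.1.1)
    (h2 : Lft X y.1.2.1) (h3 : Lft Y y.1.2.2) (h4 : d ∈ GW y.2) :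
    ContMDiffAt (IC.prod JW) 𝓘(ℝ, ℂ × ℝ × ℝ × ℂ × ℂ × R') ∞ (frame η χ X Y d) y := by
  obtain ⟨d1, d2, d3⟩ := hW.smooth _ d h4
  rw [frame_rw]
  have hX : ContMDiffAt (𝓡 1) 𝓘(ℝ, ℝ) ∞ X y.1.2.1 := h2.self_of_nhds.1
  have hY : ContMDiffAt (𝓡 1) 𝓘(ℝ, ℝ) ∞ Y y.1.2.2 := h3.self_of_nhds.1
  have e1 : ContMDiffAt (IC.prod JW) 𝓘(ℝ, ℂ) ∞
      (fun y : (C × Circle × Circle) × W => χ y.1.1) y :=
    sm_fst (I := IC) (f := fun z : C × Circle × Circle => χ z.1) (p := y)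
      (sm_fst (f := χ) (p := y.1) h1.1.real)
  have e2 : ContMDiffAt (IC.prod JW) 𝓘(ℝ, ℝ) ∞
      (fun y : (C × Circle × Circle) × W => X y.1.2.1) y :=
    sm_fst (I := IC) (f := fun z : C × Circle × Circle => X z.2.1) (p := y)
      (sm_snd (f := fun z : Circle × Circle => X z.1) (p := y.1)
        (sm_fst (f := X) (p := y.1.2) hX))
  have e3 : ContMDiffAt (IC.prod JW) 𝓘(ℝ, ℝ) ∞
      (fun y : (C × Circle × Circle) × W => Y y.1.2.2) y :=
    sm_fst (I := IC) (f := fun z : C × Circle × Circle => Y z.2.2) (p := y)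
      (sm_snd (f := fun z : Circle × Circle => Y z.2) (p := y.1)
        (sm_snd (f := Y) (p := y.1.2) hY))
  have e4 : ContMDiffAt (IC.prod JW) 𝓘(ℝ, ℂ) ∞
      (fun y : (C × Circle × Circle) × W => d.1 y.2) y := sm_snd (f := d.1) (p := y) d1
  have e5 : ContMDiffAt (IC.prod JW) 𝓘(ℝ, ℂ) ∞
      (fun y : (C × Circle × Circle) × W => d.2.1 y.2) y := sm_snd (f := d.2.1) (p := y) d2
  have e6 : ContMDiffAt (IC.prod JW) 𝓘(ℝ, R') ∞
      (fun y : (C × Circle × Circle) × W => d.2.2 y.2) y := sm_snd (f := d.2.2) (p := y) d3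
  exact e1.prodMk_space (e2.prodMk_space ((sm_smul e3 _).prodMk_space
    ((sm_smul e4 _).prodMk_space (e5.prodMk_space e6))))

/-- the derivative of the frame is `(dχ ξ₁, dX ξ₂, ± dY ξ₃, ± db₁ ζ, db₂ ζ, dr ζ)`. -/
theorem frame_dm (hW : WGerms JW GW) {η : Bool} {χ : C → ℂ} {X Y : Circle → ℝ}
    {d : (W → ℂ) × (W → ℂ) × (W → R')} {y : (C × Circle × Circle) × W} (h1 : Cd χ y.1.1)
    (h2 : Lft X y.1.2.1) (h3 : Lft Y y.1.2.2) (h4 : d ∈ GW y.2)
    (ξ : (ℂ × EuclideanSpace ℝ (Fin 1) × EuclideanSpace ℝ (Fin 1)) × EW) :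
    dm (IC.prod JW) (frame η χ X Y d) y ξ =
      (dm 𝓘(ℝ, ℂ) χ y.1.1 ξ.1.1, dm (𝓡 1) X y.1.2.1 ξ.1.2.1, sg η * dm (𝓡 1) Y y.1.2.2 ξ.1.2.2,
        sg η * dm JW d.1 y.2 ξ.2, dm JW d.2.1 y.2 ξ.2, dm JW d.2.2 y.2 ξ.2) := by
  obtain ⟨d1, d2, d3⟩ := hW.smooth _ d h4
  rw [frame_rw]
  have hX : ContMDiffAt (𝓡 1) 𝓘(ℝ, ℝ) ∞ X y.1.2.1 := h2.self_of_nhds.1
  have hY : ContMDiffAt (𝓡 1) 𝓘(ℝ, ℝ) ∞ Y y.1.2.2 := h3.self_of_nhds.1
  obtain ⟨L1, l1, k1⟩ := hd_of h1.1.real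
  obtain ⟨L2, l2, k2⟩ := hd_of hX
  obtain ⟨L3, l3, k3⟩ := hd_of hY
  obtain ⟨L4, l4, k4⟩ := hd_of d1
  obtain ⟨L5, l5, k5⟩ := hd_of d2
  obtain ⟨L6, l6, k6⟩ := hd_of d3
  have e1 := hd_fst (I := IC) (I' := JW) (f := fun z : C × Circle × Circle => χ z.1) (p := y)
      (hd_fst (f := χ) (p := y.1) l1)
  have e2 := hd_fst (I := IC) (I' := JW) (f := fun z : C × Circle × Circle => X z.2.1) (p := y)
      (hd_snd (f := fun z : Circle × Circle => X z.1) (p := y.1)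
        (hd_fst (f := X) (p := y.1.2) l2))
  have e3 := hd_fst (I := IC) (I' := JW) (f := fun z : C × Circle × Circle => Y z.2.2) (p := y)
      (hd_snd (f := fun z : Circle × Circle => Y z.2) (p := y.1)
        (hd_snd (f := Y) (p := y.1.2) l3))
  have e4 := hd_snd (I := IC) (I' := JW) (f := d.1) (p := y) l4
  have e5 := hd_snd (I := IC) (I' := JW) (f := d.2.1) (p := y) l5
  have e6 := hd_snd (I := IC) (I' := JW) (f := d.2.2) (p := y) l6
  have e := hd_pair e1 (hd_pair e2 (hd_pair (hd_smul e3 (sg η))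
    (hd_pair (hd_smul e4 (sg η)) (hd_pair e5 e6))))
  rw [hd_dm e, k1, k2, k3, k4, k5, k6]
  simp only [← smul_eq_mul, ← Complex.real_smul]
  rfl

end Pool.Agent.Kum
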