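import Pool.Agent.Lib.MP_1d980c_gt.Kum.ADefs

/-! The function `fK`. -/

set_option autoImplicit false
open Topology Complex ComplexConjugate Pool.Agent.S4T2 Pool.Agent.BlowC
open scoped Manifold ContDiff

namespace Pool.Agent.Kum

private theorem fK_key (k : ℤ) {x : ℝ} (h1 : (k : ℝ) - 1 / 3 < 2 * x)
    (h2 : 2 * x < (k : ℝ) + 4 / 3) :
    fK x = ((k : ℝ) + Real.smoothTransition (3 * (2 * x - k) - 1)) / 2 := by
  unfold fK
  rcases lt_or_ge (2 * x) (k : ℝ) with h | h
  · have hf : ⌊2 * x⌋ = k - 1 := by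
      rw [Int.floor_eq_iff]
      push_cast
      constructor <;> linarith
    have hfr : Int.fract (2 * x) = 2 * x - k + 1 := by
      unfold Int.fract
      rw [hf]
      push_cast
      ring
    rw [hf, hfr, Real.smoothTransition.one_of_one_le (by linarith),
      Real.smoothTransition.zero_of_nonpos (by linarith)]
    push_cast
    ring
  · rcases lt_or_ge (2 * x) ((k : ℝ) + 1) with h' | h'
    · have hf : ⌊2 * x⌋ = k := by
        rw [Int.floor_eq_iff]
        constructor <;> linarith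
      have hfr : Int.fract (2 * x) = 2 * x - k := by
        unfold Int.fract
        rw [hf]
      rw [hf, hfr]
    · have hf : ⌊2 * x⌋ = k + 1 := by
        rw [Int.floor_eq_iff]
        push_cast
        constructor <;> linarith
      have hfr : Int.fract (2 * x) = 2 * x - k - 1 := by
        unfold Int.fract
        rw [hf]
        push_cast
        ring
      rw [hf, hfr, Real.smoothTransition.zero_of_nonpos (by linarith),
        Real.smoothTransition.one_of_one_le (by linarith)]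
      push_cast
      ring

private theorem fK_key' (x : ℝ) : ∀ᶠ y in 𝓝 x,
    fK y = ((⌊2 * x⌋ : ℝ) + Real.smoothTransition (3 * (2 * y - ⌊2 * x⌋) - 1)) / 2 := by
  have h1 := Int.floor_le (2 * x)
  have h2 := Int.lt_floor_add_one (2 * x)
  have h3 : ∀ᶠ y in 𝓝 x, y ∈ Set.Ioo (x - 1 / 6) (x + 1 / 6) :=
    Ioo_mem_nhds (by linarith) (by linarith)
  filter_upwards [h3] with y hy
  exact fK_key _ (by linarith [hy.1]) (by linarith [hy.2])

/-- Near a point which is not a half integer, `⌊2 x⌋` is constant and `Int.fract (2 x) = 2 x - ⌊2 x⌋`;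
near a half integer `fK` is constant (`fK_half`), because `3 t - 1 ≤ 0` for `t ≤ 1 / 3` and
`3 t - 1 ≥ 1` for `t ≥ 2 / 3`. -/
theorem fK_half (n : ℤ) : ∀ᶠ x in 𝓝 ((n : ℝ) / 2), fK x = n / 2 := by
  have h3 : ∀ᶠ y in 𝓝 ((n : ℝ) / 2), y ∈ Set.Ioo ((n : ℝ) / 2 - 1 / 6) ((n : ℝ) / 2 + 1 / 6) :=
    Ioo_mem_nhds (by linarith) (by linarith)
  filter_upwards [h3] with y hy
  rw [fK_key n (by linarith [hy.1]) (by linarith [hy.2]),
    Real.smoothTransition.zero_of_nonpos (by linarith [hy.2]), add_zero]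

theorem fK_smooth : ContDiff ℝ ∞ fK := by
  rw [contDiff_iff_contDiffAt]
  intro x
  refine ContDiffAt.congr_of_eventuallyEq ?_ (fK_key' x)
  have h : ContDiff ℝ ∞ fun y : ℝ =>
      ((⌊2 * x⌋ : ℝ) + Real.smoothTransition (3 * (2 * y - ⌊2 * x⌋) - 1)) / 2 := by
    have h1 : ContDiff ℝ ∞ fun y : ℝ => 3 * (2 * y - ⌊2 * x⌋) - 1 := by fun_prop
    exact (contDiff_const.add (Real.smoothTransition.contDiff.comp h1)).div_const 2
  exact h.contDiffAt

theorem fK_add (x : ℝ) (n : ℤ) : fK (x + n) = fK x + n := by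
  unfold fK
  have h : 2 * (x + n) = 2 * x + ((2 * n : ℤ) : ℝ) := by push_cast; ring
  rw [h, Int.floor_add_intCast, Int.fract_add_intCast]
  push_cast
  ring

private theorem sT_symm (t : ℝ) :
    Real.smoothTransition (1 - t) = 1 - Real.smoothTransition t := by
  unfold Real.smoothTransition
  have h := Real.smoothTransition.pos_denom t
  rw [sub_sub_cancel, add_comm (expNegInvGlue (1 - t)) (expNegInvGlue t), eq_sub_iff_add_eq,
    ← add_div, add_comm (expNegInvGlue (1 - t)) (expNegInvGlue t), div_self h.ne']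

/-- `smoothTransition t + smoothTransition (1 - t) = 1` (compare `bet` in `S4/Bet.lean`); treat the
half integers separately. -/
theorem fK_neg (x : ℝ) : fK (-x) = -fK x := by
  have h1 := Int.floor_le (2 * x)
  have h2 := Int.lt_floor_add_one (2 * x)
  rw [fK_key ⌊2 * x⌋ (x := x) (by linarith) (by linarith),
    fK_key (-⌊2 * x⌋ - 1) (x := -x) (by push_cast; linarith) (by push_cast; linarith)]
  have h3 : (3 : ℝ) * (2 * -x - ((-⌊2 * x⌋ - 1 : ℤ) : ℝ)) - 1 =
      1 - (3 * (2 * x - ⌊2 * x⌋) - 1) := by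
    push_cast
    ring
  rw [h3, sT_symm]
  push_cast
  ring

/-- `fK` is monotone. -/
theorem fK_deriv (x : ℝ) : 0 ≤ deriv fK x := by
  have h1 : fK =ᶠ[𝓝 x] fun y =>
      ((⌊2 * x⌋ : ℝ) + Real.smoothTransition (3 * (2 * y - ⌊2 * x⌋) - 1)) / 2 := fK_key' x
  rw [h1.deriv_eq]
  apply Monotone.deriv_nonneg
  intro y z hyz
  have h2 : Real.smoothTransition (3 * (2 * y - ⌊2 * x⌋) - 1) ≤
      Real.smoothTransition (3 * (2 * z - ⌊2 * x⌋) - 1) :=
    Real.smoothTransition.monotone (by linarith)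
  show _ / 2 ≤ _ / 2
  linarith

end Pool.Agent.Kum
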