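import Pool.Agent.Lib.MP_1d980c_gt.Kum.ACur
import Pool.Agent.Lib.MP_1d980c_gt.Kum.ALift
import Pool.Agent.Lib.MP_1d980c_gt.Kum.APhi

/-! Relations between charts of the same type. -/

set_option autoImplicit false
open Topology Complex ComplexConjugate Pool.Agent.S4T2 Pool.Agent.BlowC
open scoped Manifold ContDiff

namespace Pool.Agent.Kum

variable {C EW HW W R' : Type} [TopologicalSpace C] [ChartedSpace ℂ C] [IsManifold 𝓘(ℂ) ∞ C]
  [NormedAddCommGroup EW] [NormedSpace ℝ EW] [TopologicalSpace HW] {JW : ModelWithCorners ℝ EW HW}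
  [TopologicalSpace W] [ChartedSpace HW W] [NormedAddCommGroup R'] [NormedSpace ℂ R']
  {σ : C → C} {g : C → ℂ} {GW : W → Set ((W → ℂ) × (W → ℂ) × (W → R'))}

private theorem sg_int (η : Bool) (n : ℤ) : ∃ n' : ℤ, sg η * (n : ℝ) = (n' : ℝ) := by
  cases η with
  | false => exact ⟨n, by simp [sg]⟩
  | true => exact ⟨-n, by simp [sg]⟩

/-- Let `χ' = H χ`, `X' = X + m`, `Y' = Y + n`, `b₁' = b₁ + h₁(r)`, `b₂' = b₂ + h₂(r)`,
`r' = Hr(r)`, `a = gh χ` near `y`, `λ = ⟨m, ± n⟩`. Then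
`z₁' = z₁ + λ - a (± h₁ - i h₂)`, `z₂' = z₂ + (± h₁ + i h₂) + a conj λ`: the relation is
`(χ, z₁, z₂, r) ↦ (H χ, z₁ + λ - gh χ (± h₁ r - i h₂ r), z₂ + ... + gh χ conj λ, Hr r)`. -/
theorem gch_rel_same (hW : WGerms JW GW) {η : Bool} {χ χ' : C → ℂ} {X Y X' Y' : Circle → ℝ}
    {d d' : (W → ℂ) × (W → ℂ) × (W → R')} {y : (C × Circle × Circle) × W}
    (h0 : HolAt (aF g η) y.1.1)
    (h1 : Cd χ y.1.1) (h2 : Lft X y.1.2.1) (h3 : Lft Y y.1.2.2) (h4 : d ∈ GW y.2)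
    (h1' : Cd χ' y.1.1) (h2' : Lft X' y.1.2.1) (h3' : Lft Y' y.1.2.2) (h4' : d' ∈ GW y.2) :
    HolRel y (gch g η χ X Y d) (gch g η χ' X' Y' d') := by
  obtain ⟨Hc, hHc, eHc⟩ := h1.fac h1'.1
  obtain ⟨gh, hgh, egh⟩ := h1.fac h0
  obtain ⟨m, em⟩ := h2.diff h2'
  obtain ⟨n, en⟩ := h3.diff h3'
  obtain ⟨k1, k2, Hr, hk1, hk2, hHr, eW⟩ := hW.trans y.2 d h4 d' h4'
  obtain ⟨n', hn'⟩ := sg_int η n
  have c11 : ContinuousAt (fun y : (C × Circle × Circle) × W => y.1.1) y := by fun_prop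
  have c12 : ContinuousAt (fun y : (C × Circle × Circle) × W => y.1.2.1) y := by fun_prop
  have c13 : ContinuousAt (fun y : (C × Circle × Circle) × W => y.1.2.2) y := by fun_prop
  have c2 : ContinuousAt (fun y : (C × Circle × Circle) × W => y.2) y := by fun_prop
  set lam : ℂ := ⟨(m : ℝ), (n' : ℝ)⟩ with hlam
  refine ⟨fun x => (Hc x.1, x.2.1 + lam - gh x.1 * (sg η * k1 x.2.2.2 - I * k2 x.2.2.2),
    x.2.2.1 + (sg η * k1 x.2.2.2 + I * k2 x.2.2.2) + gh x.1 * conj lam, Hr x.2.2.2), ?_, ?_⟩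
  · have p1 : ContDiffAt ℂ ∞ (fun x : ℂ × ℂ × (ℂ × R') => x.1) (gch g η χ X Y d y) := by fun_prop
    have p2 : ContDiffAt ℂ ∞ (fun x : ℂ × ℂ × (ℂ × R') => x.2.1) (gch g η χ X Y d y) := by fun_prop
    have p3 : ContDiffAt ℂ ∞ (fun x : ℂ × ℂ × (ℂ × R') => x.2.2.1) (gch g η χ X Y d y) := by
      fun_prop
    have p4 : ContDiffAt ℂ ∞ (fun x : ℂ × ℂ × (ℂ × R') => x.2.2.2) (gch g η χ X Y d y) := by
      fun_prop
    have q1 : ContDiffAt ℂ ∞ (fun x : ℂ × ℂ × (ℂ × R') => Hc x.1) (gch g η χ X Y d y) :=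
      ContDiffAt.comp (gch g η χ X Y d y) (g := Hc) hHc p1
    have q2 : ContDiffAt ℂ ∞ (fun x : ℂ × ℂ × (ℂ × R') => gh x.1) (gch g η χ X Y d y) :=
      ContDiffAt.comp (gch g η χ X Y d y) (g := gh) hgh p1
    have q3 : ContDiffAt ℂ ∞ (fun x : ℂ × ℂ × (ℂ × R') => k1 x.2.2.2) (gch g η χ X Y d y) :=
      ContDiffAt.comp (gch g η χ X Y d y) (g := k1) hk1 p4
    have q4 : ContDiffAt ℂ ∞ (fun x : ℂ × ℂ × (ℂ × R') => k2 x.2.2.2) (gch g η χ X Y d y) :=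
      ContDiffAt.comp (gch g η χ X Y d y) (g := k2) hk2 p4
    have q5 : ContDiffAt ℂ ∞ (fun x : ℂ × ℂ × (ℂ × R') => Hr x.2.2.2) (gch g η χ X Y d y) :=
      ContDiffAt.comp (gch g η χ X Y d y) (g := Hr) hHr p4
    refine q1.prodMk (ContDiffAt.prodMk ?_ (ContDiffAt.prodMk ?_ q5))
    · exact (p2.add contDiffAt_const).sub
        (q2.mul ((contDiffAt_const.mul q3).sub (contDiffAt_const.mul q4)))
    · exact (p3.add ((contDiffAt_const.mul q3).add (contDiffAt_const.mul q4))).add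
        (q2.mul contDiffAt_const)
  · filter_upwards [c11.eventually eHc, c11.eventually egh, c12.eventually em, c13.eventually en,
      c2.eventually eW] with z e1 e2 e3 e4 e5
    obtain ⟨e5, e6, e7⟩ := e5
    simp only [gch]
    rw [e1, e2, e3, e4, e5, e6, e7]
    have hv : (⟨X z.1.2.1 + m, sg η * (Y z.1.2.2 + n)⟩ : ℂ) =
        ⟨X z.1.2.1, sg η * Y z.1.2.2⟩ + ⟨(m : ℝ), (n' : ℝ)⟩ := by
      apply Complex.ext
      · simp
      · simp only [Complex.add_im]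
        rw [mul_add, hn']
    rw [hv, phi1_add, phi2_add, map_add, ← hlam]
    refine Prod.ext rfl (Prod.ext ?_ (Prod.ext ?_ rfl))
    · simp only
      ring
    · simp only
      ring

end Pool.Agent.Kum
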