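import Pool.Agent.Lib.MP_1d980c_gt.Kum.ADefs

/-! The special germs. -/

set_option autoImplicit false
open Topology Complex ComplexConjugate Pool.Agent.S4T2 Pool.Agent.BlowC
open scoped Manifold ContDiff

namespace Pool.Agent.Kum

variable {C EW HW W R' : Type} [TopologicalSpace C] [ChartedSpace ℂ C] [IsManifold 𝓘(ℂ) ∞ C]
  [NormedAddCommGroup EW] [NormedSpace ℝ EW] [TopologicalSpace HW] {JW : ModelWithCorners ℝ EW HW}
  [TopologicalSpace W] [ChartedSpace HW W] [NormedAddCommGroup R'] [NormedSpace ℂ R']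
  {σ : C → C} {g : C → ℂ} {GW : W → Set ((W → ℂ) × (W → ℂ) × (W → R'))}

/-- the derivative of a continuous linear function of `f`. -/
private theorem asp_dm {E H M F F' : Type} [NormedAddCommGroup E] [NormedSpace ℝ E]
    [TopologicalSpace H] {I : ModelWithCorners ℝ E H} [TopologicalSpace M] [ChartedSpace H M]
    [NormedAddCommGroup F] [NormedSpace ℝ F] [NormedAddCommGroup F'] [NormedSpace ℝ F']
    (L : F →L[ℝ] F') {f : M → F} {x : M} (hf : MDifferentiableAt I 𝓘(ℝ, F) f x) (ξ : E) :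
    dm I (fun y => L (f y)) x ξ = L (dm I f x ξ) := by
  have h1 := (L.hasMFDerivAt (x := f x)).comp x hf.hasMFDerivAt
  have h2 := h1.mfderiv
  unfold dm
  have h3 : mfderiv I 𝓘(ℝ, F') (fun y => L (f y)) x = L.comp (mfderiv I 𝓘(ℝ, F) f x) := h2
  rw [h3]
  rfl

omit [IsManifold 𝓘(ℂ) ∞ C] in
theorem spA_smooth (hW : WGerms JW GW) {e : C × Circle × Circle} {w : W}
    {δ : (W → ℂ) × (W → ℂ × R')} (h : δ ∈ SpA g GW (e, w)) :
    ContMDiffAt JW 𝓘(ℝ, ℂ) ∞ δ.1 w ∧ ContMDiffAt JW 𝓘(ℝ, ℂ × R') ∞ δ.2 w := by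
  obtain ⟨d, hd, rfl⟩ := h
  obtain ⟨h1, h2, h3⟩ := hW.smooth w d hd
  set η := ty g e.1
  have hP : ContMDiffAt JW 𝓘(ℝ, ℂ × ℂ × R') ∞ (fun x => (d.1 x, d.2.1 x, d.2.2 x)) w :=
    h1.prodMk_space (h2.prodMk_space h3)
  constructor
  · have k1 : ContDiff ℝ ∞ (fun p : ℂ × ℂ × R' => 4 * (Real.pi : ℂ) * (sg η * p.1 - I * p.2.1)) := by
      fun_prop
    exact k1.contDiffAt.comp_contMDiffAt (x := w) hP
  · have k1 : ContDiff ℝ ∞ (fun p : ℂ × ℂ × R' => ((sg η : ℂ) * p.1 + I * p.2.1, p.2.2)) := by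
      fun_prop
    exact k1.contDiffAt.comp_contMDiffAt (x := w) hP

omit [IsManifold 𝓘(ℂ) ∞ C] in
/-- kernel of `d(± b₁ + i b₂, r)`: `dr ξ = 0`, so `db₁ ξ`, `db₂ ξ` are real, so both vanish. -/
theorem spA_inj (hW : WGerms JW GW) {e : C × Circle × Circle} {w : W}
    {δ : (W → ℂ) × (W → ℂ × R')} (h : δ ∈ SpA g GW (e, w)) :
    Function.Injective (mfderiv JW 𝓘(ℝ, ℂ × R') δ.2 w) := by
  obtain ⟨d, hd, rfl⟩ := h
  obtain ⟨h1, h2, h3⟩ := hW.smooth w d hd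
  set η := ty g e.1
  have hP : MDifferentiableAt JW 𝓘(ℝ, ℂ × ℂ × R') (fun x => (d.1 x, d.2.1 x, d.2.2 x)) w :=
    (h1.prodMk_space (h2.prodMk_space h3)).mdifferentiableAt (by simp)
  rw [injective_iff_map_eq_zero]
  intro ξ hξ
  set P : W → ℂ × ℂ × R' := fun x => (d.1 x, d.2.1 x, d.2.2 x) with hPdef
  set q : ℂ × ℂ × R' := dm JW P w ξ with hq
  have q1 : dm JW d.1 w ξ = q.1 := asp_dm (ContinuousLinearMap.fst ℝ ℂ (ℂ × R')) hP ξ
  have q2 : dm JW d.2.1 w ξ = q.2.1 :=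
    asp_dm ((ContinuousLinearMap.fst ℝ ℂ R').comp (ContinuousLinearMap.snd ℝ ℂ (ℂ × R'))) hP ξ
  have q3 : dm JW d.2.2 w ξ = q.2.2 :=
    asp_dm ((ContinuousLinearMap.snd ℝ ℂ R').comp (ContinuousLinearMap.snd ℝ ℂ (ℂ × R'))) hP ξ
  have hlin : ∃ L : (ℂ × ℂ × R') →L[ℝ] (ℂ × R'), ∀ p, L p = ((sg η : ℂ) * p.1 + I * p.2.1, p.2.2) := by
    refine ⟨((((sg η : ℂ) • (ContinuousLinearMap.fst ℝ ℂ (ℂ × R'))) +
      (I • ((ContinuousLinearMap.fst ℝ ℂ R').comp (ContinuousLinearMap.snd ℝ ℂ (ℂ × R')))))).prod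
      ((ContinuousLinearMap.snd ℝ ℂ R').comp (ContinuousLinearMap.snd ℝ ℂ (ℂ × R'))), ?_⟩
    intro p
    rfl
  obtain ⟨L, hL⟩ := hlin
  have q4 := asp_dm L hP ξ
  have q5 : (fun y => L (P y)) = (spd η d).2 := by
    funext y
    rw [hL]
    rfl
  change dm JW (fun y => L (P y)) w ξ = L q at q4
  rw [q5, hL] at q4
  have q6 : dm JW (spd η d).2 w ξ = 0 := hξ
  rw [q6] at q4
  have r1 : (sg η : ℂ) * q.1 + I * q.2.1 = 0 := (congrArg Prod.fst q4).symm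
  have r2 : q.2.2 = 0 := (congrArg Prod.snd q4).symm
  rw [r2] at q3
  obtain ⟨i1, i2⟩ := hW.real w d hd ξ q3
  rw [q1] at i1
  rw [q2] at i2
  have hs : sg η ≠ 0 := by
    unfold sg
    split_ifs <;> norm_num
  have r3 := congrArg Complex.re r1
  have r4 := congrArg Complex.im r1
  simp [i1, i2] at r3 r4
  have s1 : q.1 = 0 := by
    apply Complex.ext
    · rcases r3 with r3 | r3
      · exact absurd r3 hs
      · simpa using r3
    · simpa using i1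
  have s2 : q.2.1 = 0 := by
    apply Complex.ext
    · simpa using r4
    · simpa using i2
  rw [s1] at q1
  rw [s2] at q2
  exact hW.inj w d hd ξ q3 q1 q2

omit [IsManifold 𝓘(ℂ) ∞ C] in
/-- `κ' = κ + 4 π (± h₁(r) - i h₂(r))`, `ρ' = (θ + (± h₁(r) + i h₂(r)), H(r))`. -/
theorem spA_rel (hW : WGerms JW GW) {e : C × Circle × Circle} {w : W}
    {δ δ' : (W → ℂ) × (W → ℂ × R')} (h : δ ∈ SpA g GW (e, w)) (h' : δ' ∈ SpA g GW (e, w)) :
    ∃ (k : ℂ × R' → ℂ) (H : ℂ × R' → ℂ × R'),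
      ContDiffAt ℂ ∞ k (δ.2 w) ∧ ContDiffAt ℂ ∞ H (δ.2 w) ∧
      ∀ᶠ w' in 𝓝 w, δ'.1 w' = δ.1 w' + k (δ.2 w') ∧ δ'.2 w' = H (δ.2 w') := by
  obtain ⟨d, hd, rfl⟩ := h
  obtain ⟨d', hd', rfl⟩ := h'
  obtain ⟨h1, h2, H, k1, k2, k3, hev⟩ := hW.trans w d hd d' hd'
  simp only
  set η := ty g e.1
  have hv : ((spd η d).2 w).2 = d.2.2 w := rfl
  have m1 : ContDiffAt ℂ ∞ (fun p : ℂ × R' => h1 p.2) ((spd η d).2 w) := by
    have n1 : ContDiffAt ℂ ∞ h1 ((spd η d).2 w).2 := k1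
    exact n1.comp _ contDiffAt_snd
  have m2 : ContDiffAt ℂ ∞ (fun p : ℂ × R' => h2 p.2) ((spd η d).2 w) := by
    have n1 : ContDiffAt ℂ ∞ h2 ((spd η d).2 w).2 := k2
    exact n1.comp _ contDiffAt_snd
  have m3 : ContDiffAt ℂ ∞ (fun p : ℂ × R' => H p.2) ((spd η d).2 w) := by
    have n1 : ContDiffAt ℂ ∞ H ((spd η d).2 w).2 := k3
    exact n1.comp _ contDiffAt_snd
  refine ⟨fun p => 4 * (Real.pi : ℂ) * ((sg η : ℂ) * h1 p.2 - I * h2 p.2),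
    fun p => (p.1 + ((sg η : ℂ) * h1 p.2 + I * h2 p.2), H p.2), ?_, ?_, ?_⟩
  · exact contDiffAt_const.mul ((contDiffAt_const.mul m1).sub (contDiffAt_const.mul m2))
  · exact (contDiffAt_fst.add ((contDiffAt_const.mul m1).add (contDiffAt_const.mul m2))).prodMk m3
  · filter_upwards [hev] with w' hw'
    obtain ⟨a1, a2, a3⟩ := hw'
    refine ⟨?_, Prod.ext ?_ ?_⟩
    · simp only [spd, a1, a2]
      ring
    · simp only [spd, a1, a2]
      ring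
    · simp only [spd, a3]

end Pool.Agent.Kum
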