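import Pool.Agent.Lib.MP_1d980c_gt.Kum.KDefs
import Pool.Agent.Lib.MP_1d980c_gt.Blow.Germs

/-! Equivalence of germs. -/

set_option autoImplicit false
open Topology Complex ComplexConjugate Pool.Agent.S4T2 Pool.Agent.BlowC
open scoped Manifold ContDiff

namespace Pool.Agent.Kum

section

variable {X F : Type} [TopologicalSpace X] [NormedAddCommGroup F] [NormedSpace ℂ F] {x : X}
  {f g h : X → F}

theorem Eqv.symm (h1 : Eqv x f g) : Eqv x g f := ⟨h1.2, h1.1⟩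

theorem Eqv.trans (h1 : Eqv x f g) (h2 : Eqv x g h) : Eqv x f h :=
  ⟨holRel_trans h1.1 h2.1, holRel_trans h2.2 h1.2⟩

theorem Eqv.refl : Eqv x f f :=
  ⟨⟨id, contDiffAt_id, Filter.Eventually.of_forall fun _ => rfl⟩,
    ⟨id, contDiffAt_id, Filter.Eventually.of_forall fun _ => rfl⟩⟩

theorem Eqv.of_eventuallyEq (h1 : f =ᶠ[𝓝 x] g) : Eqv x f g :=
  ⟨⟨id, contDiffAt_id, h1.mono fun _ h => h.symm⟩, ⟨id, contDiffAt_id, h1⟩⟩

theorem Eqv.comp {Y : Type} [TopologicalSpace Y] {b : Y → X} {y : Y} (hb : ContinuousAt b y)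
    (h1 : Eqv (b y) f g) : Eqv y (f ∘ b) (g ∘ b) := ⟨holRel_comp hb h1.1, holRel_comp hb h1.2⟩

end

end Pool.Agent.Kum
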