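import Pool.Agent.Lib.MP_1d980c_gt.Kum.AInvl
import Pool.Agent.Lib.MP_1d980c_gt.Kum.ALift
import Pool.Agent.Lib.MP_1d980c_gt.Kum.APhi
import Pool.Agent.Lib.MP_1d980c_gt.Kum.KAlg

/-! The charts near the fixed points. -/

set_option autoImplicit false
open Topology Complex ComplexConjugate Pool.Agent.S4T2 Pool.Agent.BlowC
open scoped Manifold ContDiff

namespace Pool.Agent.Kum

variable {C EW HW W R' : Type} [TopologicalSpace C] [ChartedSpace ℂ C] [IsManifold 𝓘(ℂ) ∞ C]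
  [NormedAddCommGroup EW] [NormedSpace ℝ EW] [TopologicalSpace HW] {JW : ModelWithCorners ℝ EW HW}
  [TopologicalSpace W] [ChartedSpace HW W] [NormedAddCommGroup R'] [NormedSpace ℂ R']
  {σ : C → C} {g : C → ℂ} {GW : W → Set ((W → ℂ) × (W → ℂ) × (W → R'))}

/-- Near the fixed point `e` take `χ = aF g η` (`η = ty g e.1`, a coordinate by `ty_cd`) and lifts
`X`, `Y`: near `(e, w)` one has `phi1 a v = v`, `phi2 a v = v₀` (`phi_near`; `aF g η` is continuous
and `0` at `e.1`), and `tK g e x = 4 π (v - v₀)` (`Lft.arg`). So `gch = (a, v₀ + (t - a κ) / (4 π),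
θ + a conj v₀, r)` with `spec = (a, t - a κ, (θ, r))`. -/
theorem gch_spec (hg : OddFun σ g) (hW : WGerms JW GW) {e : C × Circle × Circle}
    (he : tau σ e = e) {w : W} {d : (W → ℂ) × (W → ℂ) × (W → R')} (hd : d ∈ GW w) :
    ∃ (X Y : Circle → ℝ) (v₀ : ℂ), Lft X e.2.1 ∧ Lft Y e.2.2 ∧
      ∀ᶠ y in 𝓝 (e, w), gch g (ty g e.1) (aF g (ty g e.1)) X Y d y =
        ((spec (sK g e) (tK g e) (spd (ty g e.1) d) y).1,
          v₀ + (spec (sK g e) (tK g e) (spd (ty g e.1) d) y).2.1 / (4 * Real.pi),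
          (spec (sK g e) (tK g e) (spd (ty g e.1) d) y).2.2.1 +
            (spec (sK g e) (tK g e) (spd (ty g e.1) d) y).1 * conj v₀,
          (spec (sK g e) (tK g e) (spd (ty g e.1) d) y).2.2.2) := by
  have he1 : σ e.1 = e.1 := congrArg Prod.fst he
  have he2 : e.2.1⁻¹ = e.2.1 := congrArg (fun x => x.2.1) he
  have he3 : e.2.2⁻¹ = e.2.2 := congrArg (fun x => x.2.2) he
  obtain ⟨X, hX⟩ := exists_lft e.2.1
  obtain ⟨Y, hY⟩ := exists_lft e.2.2
  obtain ⟨m, hm1, hm2⟩ := hX.arg he2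
  obtain ⟨n, hn1, hn2⟩ := hY.arg he3
  set η := ty g e.1 with hη
  obtain ⟨n', hn'⟩ : ∃ n' : ℤ, sg η * ((n : ℝ) / 2) = (n' : ℝ) / 2 := by
    cases η
    · exact ⟨n, by simp [sg]⟩
    · exact ⟨-n, by simp [sg]; ring⟩
  refine ⟨X, Y, ⟨m / 2, n' / 2⟩, hX, hY, ?_⟩
  have hcX : ContinuousAt X e.2.1 := hX.self_of_nhds.1.continuousAt
  have hcY : ContinuousAt Y e.2.2 := hY.self_of_nhds.1.continuousAt
  have hca : ContinuousAt (aF g η) e.1 := (hg.ty_hol e.1).self_of_nhds.continuousAt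
  have ha0 : aF g η e.1 = 0 := hg.aF_fix he1 η
  have c1 : Filter.Tendsto (fun x : (C × Circle × Circle) × W => x.1.1) (𝓝 (e, w)) (𝓝 e.1) :=
    (continuous_fst.comp continuous_fst).tendsto (e, w)
  have c2 : Filter.Tendsto (fun x : (C × Circle × Circle) × W => x.1.2.1) (𝓝 (e, w))
      (𝓝 e.2.1) := (continuous_fst.comp (continuous_snd.comp continuous_fst)).tendsto (e, w)
  have c3 : Filter.Tendsto (fun x : (C × Circle × Circle) × W => x.1.2.2) (𝓝 (e, w))
      (𝓝 e.2.2) := (continuous_snd.comp (continuous_snd.comp continuous_fst)).tendsto (e, w)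
  have t1 : Filter.Tendsto (fun x : (C × Circle × Circle) × W => aF g η x.1.1) (𝓝 (e, w))
      (𝓝 (0 : ℂ)) := by
    have := hca.tendsto.comp c1
    rwa [ha0] at this
  have t2 : Filter.Tendsto (fun x : (C × Circle × Circle) × W => X x.1.2.1) (𝓝 (e, w))
      (𝓝 ((m : ℝ) / 2)) := by
    have := hcX.tendsto.comp c2
    rwa [hm1] at this
  have t3 : Filter.Tendsto (fun x : (C × Circle × Circle) × W => sg η * Y x.1.2.2) (𝓝 (e, w))
      (𝓝 ((n' : ℝ) / 2)) := by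
    have := (hcY.tendsto.comp c3).const_mul (sg η)
    rwa [hn1, hn'] at this
  have t4 : Filter.Tendsto (fun x : (C × Circle × Circle) × W =>
      (⟨X x.1.2.1, sg η * Y x.1.2.2⟩ : ℂ)) (𝓝 (e, w)) (𝓝 (⟨m / 2, n' / 2⟩ : ℂ)) := by
    have k1 : Continuous (fun p : ℝ × ℝ => (⟨p.1, p.2⟩ : ℂ)) :=
      Complex.equivRealProdCLM.symm.continuous
    have k2 := (k1.tendsto ((m : ℝ) / 2, (n' : ℝ) / 2)).comp (t2.prodMk_nhds t3)
    exact k2
  have t5 := (t1.prodMk_nhds t4).eventually (phi_near m n')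
  filter_upwards [t5, c2.eventually hm2, c3.eventually hn2] with y h5 h6 h7
  obtain ⟨p1, p2⟩ := h5
  have hpi : (Real.pi : ℂ) ≠ 0 := by exact_mod_cast Real.pi_ne_zero
  have htK : tK g e y.1 = 4 * Real.pi *
      ((⟨X y.1.2.1, sg η * Y y.1.2.2⟩ : ℂ) - (⟨m / 2, n' / 2⟩ : ℂ)) := by
    unfold tK
    rw [h6, h7]
    apply Complex.ext
    · simp
    · simp only [Complex.mul_im, Complex.sub_im, Complex.sub_re, Complex.mul_re, Complex.ofReal_re,
        Complex.ofReal_im, Complex.re_ofNat, Complex.im_ofNat, ← hn']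
      ring
  have hsK : sK g e y.1 = aF g η y.1.1 := rfl
  unfold gch spec
  rw [p1, p2]
  refine Prod.ext rfl (Prod.ext ?_ (Prod.ext ?_ rfl))
  · simp only [htK, hsK, spd]
    field_simp
    ring
  · simp only [hsK, spd]

/-- an affine change of coordinates. -/
theorem eqv_aff {X R' : Type} [TopologicalSpace X] [NormedAddCommGroup R'] [NormedSpace ℂ R']
    {x : X} {f h : X → ℂ × ℂ × (ℂ × R')} (v₀ : ℂ)
    (hh : ∀ᶠ y in 𝓝 x, h y = ((f y).1, v₀ + (f y).2.1 / (4 * Real.pi),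
      (f y).2.2.1 + (f y).1 * conj v₀, (f y).2.2.2)) : Eqv x f h := by
  have hpi : (Real.pi : ℂ) ≠ 0 := by exact_mod_cast Real.pi_ne_zero
  have hpi4 : (4 * (Real.pi : ℂ)) ≠ 0 := mul_ne_zero (by norm_num) hpi
  constructor
  · refine ⟨fun p => (p.1, v₀ + p.2.1 / (4 * Real.pi), p.2.2.1 + p.1 * conj v₀, p.2.2.2), ?_, hh⟩
    have k1 : ContDiffAt ℂ ∞ (fun p : ℂ × ℂ × (ℂ × R') => v₀ + p.2.1 / (4 * (Real.pi : ℂ))) (f x) := by
      have : ContDiffAt ℂ ∞ (fun p : ℂ × ℂ × (ℂ × R') => p.2.1) (f x) := by fun_prop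
      exact contDiffAt_const.add (this.div_const _)
    have k2 : ContDiffAt ℂ ∞ (fun p : ℂ × ℂ × (ℂ × R') => p.2.2.1 + p.1 * conj v₀) (f x) := by
      have h1 : ContDiffAt ℂ ∞ (fun p : ℂ × ℂ × (ℂ × R') => p.2.2.1) (f x) := by fun_prop
      exact h1.add (contDiffAt_fst.mul contDiffAt_const)
    have k3 : ContDiffAt ℂ ∞ (fun p : ℂ × ℂ × (ℂ × R') => p.2.2.2) (f x) := by fun_prop
    exact contDiffAt_fst.prodMk (k1.prodMk (k2.prodMk k3))
  · refine ⟨fun p => (p.1, (p.2.1 - v₀) * (4 * Real.pi), p.2.2.1 - p.1 * conj v₀, p.2.2.2), ?_, ?_⟩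
    · have k1 : ContDiffAt ℂ ∞ (fun p : ℂ × ℂ × (ℂ × R') => (p.2.1 - v₀) * (4 * (Real.pi : ℂ)))
          (h x) := by
        have : ContDiffAt ℂ ∞ (fun p : ℂ × ℂ × (ℂ × R') => p.2.1) (h x) := by fun_prop
        exact (this.sub contDiffAt_const).mul contDiffAt_const
      have k2 : ContDiffAt ℂ ∞ (fun p : ℂ × ℂ × (ℂ × R') => p.2.2.1 - p.1 * conj v₀) (h x) := by
        have h1 : ContDiffAt ℂ ∞ (fun p : ℂ × ℂ × (ℂ × R') => p.2.2.1) (h x) := by fun_prop
        exact h1.sub (contDiffAt_fst.mul contDiffAt_const)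
      have k3 : ContDiffAt ℂ ∞ (fun p : ℂ × ℂ × (ℂ × R') => p.2.2.2) (h x) := by fun_prop
      exact contDiffAt_fst.prodMk (k1.prodMk (k2.prodMk k3))
    · filter_upwards [hh] with y hy
      rw [hy]
      refine Prod.ext rfl (Prod.ext ?_ (Prod.ext ?_ rfl))
      · simp only
        field_simp
        ring
      · simp only
        ring

/-- hence near the fixed point some chart is equivalent to `spec`. -/
theorem gmA_spec (hg : OddFun σ g) (hW : WGerms JW GW) {e : C × Circle × Circle}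
    (he : tau σ e = e) {w : W} {d : (W → ℂ) × (W → ℂ) × (W → R')} (hd : d ∈ GW w) :
    ∀ᶠ y in 𝓝 (e, w), ∃ f ∈ GmA g GW y,
      Eqv y (spec (sK g e) (tK g e) (spd (ty g e.1) d)) f := by
  obtain ⟨X, Y, v₀, hX, hY, hev⟩ := gch_spec hg hW he hd
  have he1 : σ e.1 = e.1 := congrArg Prod.fst he
  have h0 := hg.ty_hol e.1
  have h1 := hg.ty_cd he1
  have c1 : Filter.Tendsto (fun x : (C × Circle × Circle) × W => x.1.1) (𝓝 (e, w)) (𝓝 e.1) :=
    (continuous_fst.comp continuous_fst).tendsto (e, w)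
  have c2 : Filter.Tendsto (fun x : (C × Circle × Circle) × W => x.1.2.1) (𝓝 (e, w))
      (𝓝 e.2.1) := (continuous_fst.comp (continuous_snd.comp continuous_fst)).tendsto (e, w)
  have c3 : Filter.Tendsto (fun x : (C × Circle × Circle) × W => x.1.2.2) (𝓝 (e, w))
      (𝓝 e.2.2) := (continuous_snd.comp (continuous_snd.comp continuous_fst)).tendsto (e, w)
  have c4 : Filter.Tendsto (fun x : (C × Circle × Circle) × W => x.2) (𝓝 (e, w)) (𝓝 w) :=
    continuous_snd.tendsto (e, w)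
  filter_upwards [eventually_eventually_nhds.2 hev, c1.eventually h0.ev, c1.eventually h1.ev,
    c2.eventually hX.ev, c3.eventually hY.ev, c4.eventually (hW.opn _ _ hd)] with y k1 k2 k3 k4 k5 k6
  exact ⟨_, ⟨_, _, X, Y, d, k2, k3, k4, k5, k6, rfl⟩, eqv_aff v₀ k1⟩

end Pool.Agent.Kum
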