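import Pool.Agent.Lib.MP_1d980c_gt.Kum.AInvl
import Pool.Agent.Lib.MP_1d980c_gt.Kum.ALift
import Pool.Agent.Lib.MP_1d980c_gt.Kum.APhi
import Pool.Agent.Lib.MP_1d980c_gt.Kum.KAlg

/-! The charts and the involution. -/

set_option autoImplicit false
set_option linter.unusedSectionVars false
open Topology Complex ComplexConjugate Pool.Agent.S4T2 Pool.Agent.BlowC
open scoped Manifold ContDiff

namespace Pool.Agent.Kum

variable {C EW HW W R' : Type} [TopologicalSpace C] [ChartedSpace ℂ C] [IsManifold 𝓘(ℂ) ∞ C]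
  [NormedAddCommGroup EW] [NormedSpace ℝ EW] [TopologicalSpace HW] {JW : ModelWithCorners ℝ EW HW}
  [TopologicalSpace W] [ChartedSpace HW W] [NormedAddCommGroup R'] [NormedSpace ℂ R']
  {σ : C → C} {g : C → ℂ} {GW : W → Set ((W → ℂ) × (W → ℂ) × (W → R'))}

/-- with `χ' = χ ∘ σ`, `X' y = - X y⁻¹`, `Y' y = - Y y⁻¹`: `gch ∘ (τ × id) = (χ', - z₁', z₂', r)`
(`aF g η ∘ σ = - aF g η`, `phi1_neg`, `phi2_neg`). -/
theorem gch_tau (hg : OddFun σ g) (η : Bool) (χ : C → ℂ) (X Y : Circle → ℝ)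
    (d : (W → ℂ) × (W → ℂ) × (W → R')) (y : (C × Circle × Circle) × W) :
    gch g η χ X Y d (tau σ y.1, y.2) =
      ((gch g η (fun x => χ (σ x)) (fun z => -X z⁻¹) (fun z => -Y z⁻¹) d y).1,
        -(gch g η (fun x => χ (σ x)) (fun z => -X z⁻¹) (fun z => -Y z⁻¹) d y).2.1,
        (gch g η (fun x => χ (σ x)) (fun z => -X z⁻¹) (fun z => -Y z⁻¹) d y).2.2) := by
  obtain ⟨⟨c, z, w⟩, p⟩ := y
  have hv : (⟨X z⁻¹, sg η * Y w⁻¹⟩ : ℂ) = -(⟨-X z⁻¹, sg η * -Y w⁻¹⟩ : ℂ) := by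
    apply Complex.ext
    · simp
    · simp
  unfold gch tau
  simp only
  rw [hg.aF_odd η c, hv, phi1_neg, phi2_neg, map_neg]
  refine Prod.ext rfl (Prod.ext ?_ (Prod.ext ?_ rfl))
  · simp only
    ring
  · simp only
    ring

/-- `(z₀, z₁, z₂) ↦ (z₀, - z₁, z₂)` is holomorphic. -/
theorem eqv_neg {X R : Type} [TopologicalSpace X] [NormedAddCommGroup R] [NormedSpace ℂ R] {x : X}
    {f : X → ℂ × ℂ × R} : Eqv x f (fun y => ((f y).1, -(f y).2.1, (f y).2.2)) := by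
  have h1 : ContDiff ℂ ∞ (fun q : ℂ × ℂ × R => (q.1, -q.2.1, q.2.2)) := by fun_prop
  refine ⟨⟨_, h1.contDiffAt, Filter.Eventually.of_forall fun y => rfl⟩,
    ⟨_, h1.contDiffAt, Filter.Eventually.of_forall fun y => ?_⟩⟩
  simp

/-- the pull back of a chart by `τ` is equivalent to a chart. -/
theorem gmA_tau (hg : OddFun σ g) {y : (C × Circle × Circle) × W}
    {f : (C × Circle × Circle) × W → ℂ × ℂ × (ℂ × R')} (hf : f ∈ GmA g GW (tau σ y.1, y.2)) :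
    ∃ f' ∈ GmA g GW y, Eqv y f' (fun x => f (tau σ x.1, x.2)) := by
  obtain ⟨η, χ, X, Y, d, h1, h2, h3, h4, h5, rfl⟩ := hf
  refine ⟨gch g η (fun x => χ (σ x)) (fun z => -X z⁻¹) (fun z => -Y z⁻¹) d,
    ⟨η, _, _, _, d, hg.aF_holAt h1, hg.cd h2, h3.inv, h4.inv, h5, rfl⟩, ?_⟩
  have h6 : (fun x : (C × Circle × Circle) × W => gch g η χ X Y d (tau σ x.1, x.2)) = fun x =>
      ((gch g η (fun x => χ (σ x)) (fun z => -X z⁻¹) (fun z => -Y z⁻¹) d x).1,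
        -(gch g η (fun x => χ (σ x)) (fun z => -X z⁻¹) (fun z => -Y z⁻¹) d x).2.1,
        (gch g η (fun x => χ (σ x)) (fun z => -X z⁻¹) (fun z => -Y z⁻¹) d x).2.2) :=
    funext fun x => gch_tau hg η χ X Y d x
  rw [h6]
  exact eqv_neg

end Pool.Agent.Kum
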