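import Pool.Agent.Lib.MP_1d980c_gt.Kum.ASmooth
import Pool.Agent.Lib.MP_1d980c_gt.Kum.ARel
import Pool.Agent.Lib.MP_1d980c_gt.Kum.ACross
import Pool.Agent.Lib.MP_1d980c_gt.Kum.ATau
import Pool.Agent.Lib.MP_1d980c_gt.Kum.ASpec
import Pool.Agent.Lib.MP_1d980c_gt.Kum.ASp

/-! The germ atlas of `C × T² × W`. -/

set_option autoImplicit false
open Topology Complex ComplexConjugate Pool.Agent.S4T2 Pool.Agent.BlowC
open scoped Manifold ContDiff

namespace Pool.Agent.Kum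

variable {C EW HW W R' : Type} [TopologicalSpace C] [ChartedSpace ℂ C] [IsManifold 𝓘(ℂ) ∞ C]
  [NormedAddCommGroup EW] [NormedSpace ℝ EW] [TopologicalSpace HW] {JW : ModelWithCorners ℝ EW HW}
  [TopologicalSpace W] [ChartedSpace HW W] [NormedAddCommGroup R'] [NormedSpace ℂ R']
  {σ : C → C} {g : C → ℂ} {GW : W → Set ((W → ℂ) × (W → ℂ) × (W → R'))}

theorem gmA_rel (hg : OddFun σ g) (hW : WGerms JW GW) {y : (C × Circle × Circle) × W}
    {f f' : (C × Circle × Circle) × W → ℂ × ℂ × (ℂ × R')} (hf : f ∈ GmA g GW y)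
    (hf' : f' ∈ GmA g GW y) : HolRel y f f' := by
  obtain ⟨η, χ, X, Y, d, h0, h1, h2, h3, h4, rfl⟩ := hf
  obtain ⟨η', χ', X', Y', d', h0', h1', h2', h3', h4', rfl⟩ := hf'
  by_cases hη : η' = η
  · subst hη
    exact gch_rel_same hW h0 h1 h2 h3 h4 h1' h2' h3' h4'
  · have hη' : η' = !η := by
      cases η <;> cases η' <;> simp_all
    subst hη'
    have hne : g y.1.1 ≠ 0 := by
      cases η
      · exact hg.both h0 h0'
      · exact hg.both h0' h0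
    exact holRel_trans (gch_rel_other hg h0 h1 hne)
      (gch_rel_same hW h0' h1 h2 h3 h4 h1' h2' h3' h4')

theorem gmA_eqv (hg : OddFun σ g) (hW : WGerms JW GW) {y : (C × Circle × Circle) × W}
    {f f' : (C × Circle × Circle) × W → ℂ × ℂ × (ℂ × R')} (hf : f ∈ GmA g GW y)
    (hf' : f' ∈ GmA g GW y) : Eqv y f f' := ⟨gmA_rel hg hW hf hf', gmA_rel hg hW hf' hf⟩

theorem gmA_ex (hg : OddFun σ g) (hW : WGerms JW GW) (y : (C × Circle × Circle) × W) :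
    ∃ f ∈ GmA g GW y, ∀ᶠ x in 𝓝 y, f ∈ GmA g GW x := by
  obtain ⟨χ, h1⟩ := exists_cd y.1.1
  obtain ⟨X, h2⟩ := exists_lft y.1.2.1
  obtain ⟨Y, h3⟩ := exists_lft y.1.2.2
  obtain ⟨d, h4⟩ := hW.ex y.2
  have h0 := hg.ty_hol y.1.1
  have c1 : Filter.Tendsto (fun x : (C × Circle × Circle) × W => x.1.1) (𝓝 y) (𝓝 y.1.1) :=
    (continuous_fst.comp continuous_fst).tendsto y
  have c2 : Filter.Tendsto (fun x : (C × Circle × Circle) × W => x.1.2.1) (𝓝 y) (𝓝 y.1.2.1) :=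
    (continuous_fst.comp (continuous_snd.comp continuous_fst)).tendsto y
  have c3 : Filter.Tendsto (fun x : (C × Circle × Circle) × W => x.1.2.2) (𝓝 y) (𝓝 y.1.2.2) :=
    (continuous_snd.comp (continuous_snd.comp continuous_fst)).tendsto y
  have c4 : Filter.Tendsto (fun x : (C × Circle × Circle) × W => x.2) (𝓝 y) (𝓝 y.2) :=
    continuous_snd.tendsto y
  refine ⟨gch g (ty g y.1.1) χ X Y d, ⟨_, χ, X, Y, d, h0, h1, h2, h3, h4, rfl⟩, ?_⟩
  filter_upwards [c1.eventually h0.ev, c1.eventually h1.ev, c2.eventually h2.ev,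
    c3.eventually h3.ev, c4.eventually (hW.opn _ _ h4)] with x k0 k1 k2 k3 k4
  exact ⟨_, χ, X, Y, d, k0, k1, k2, k3, k4, rfl⟩

theorem kgerms (hg : OddFun σ g) (hW : WGerms JW GW) :
    KGerms IC JW (tau σ) (sK g) (tK g) (GmA g GW) (SpA g GW) where
  ex x _ := gmA_ex hg hW x
  smooth x _ f hf := gmA_smooth hg hW hf
  inj x _ f hf := gmA_inj hg hW hf
  rel x _ f hf f' hf' := gmA_rel hg hW hf hf'
  invr x _ f hf f' hf' := by
    obtain ⟨f2, h2, h3⟩ := gmA_tau (y := x) hg hf'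
    exact (gmA_eqv hg hW hf h2).trans h3
  sp_ex e w _ := by
    obtain ⟨d, hd⟩ := hW.ex w
    refine ⟨spd (ty g e.1) d, ⟨d, hd, rfl⟩, ?_⟩
    filter_upwards [hW.opn w d hd] with w' hw'
    exact ⟨d, hw', rfl⟩
  sp_smooth e w _ δ hδ := ⟨(spA_smooth hW hδ).1, (spA_smooth hW hδ).2, spA_inj hW hδ⟩
  sp_rel e w _ δ hδ δ' hδ' := spA_rel hW hδ hδ'
  sp_gm e w he δ hδ := by
    obtain ⟨d, hd, rfl⟩ := hδ
    filter_upwards [gmA_spec hg hW he hd] with y hy _ f hf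
    obtain ⟨f', hf', h⟩ := hy
    exact h.trans (gmA_eqv hg hW hf' hf)

end Pool.Agent.Kum
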