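import Pool.Agent.Lib.MP_1d980c_gt.Kum.AInvlB

/-! The involution and the odd function. -/

set_option autoImplicit false
open Topology Complex ComplexConjugate Pool.Agent.S4T2 Pool.Agent.BlowC
open scoped Manifold ContDiff

namespace Pool.Agent.Kum



end Pool.Agent.Kum
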