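import Pool.Agent.Lib.MP_1d980c_gt.Kum.ACur

/-! The involution and the odd function. -/

set_option autoImplicit false
open Topology Complex ComplexConjugate Pool.Agent.S4T2 Pool.Agent.BlowC
open scoped Manifold ContDiff

namespace Pool.Agent.Kum

variable {C : Type} [TopologicalSpace C] [ChartedSpace ℂ C] [IsManifold 𝓘(ℂ) ∞ C]
  {σ : C → C} {g : C → ℂ}

theorem OddFun.cont (h : OddFun σ g) : Continuous σ :=
  h.hol.continuous

theorem OddFun.holAt (h : OddFun σ g) {f : C → ℂ} {c : C} (hf : HolAt f (σ c)) :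
    HolAt (fun x => f (σ x)) c := by
  have h1 : ∀ᶠ y in 𝓝 c, MDifferentiableAt 𝓘(ℂ) 𝓘(ℂ) f (σ y) :=
    h.cont.continuousAt.tendsto.eventually hf
  filter_upwards [h1] with y hy
  exact hy.comp y (h.hol y)

/-- `σ` is an involution, so its derivative does not vanish. -/
theorem OddFun.cd (h : OddFun σ g) {f : C → ℂ} {c : C} (hf : Cd f (σ c)) :
    Cd (fun x => f (σ x)) c := by
  have h1 : HolAt (fun x => f (σ x)) c := h.holAt hf.1
  refine ⟨h1, fun h0 => hf.2 ?_⟩
  have h2 : ∀ c' : C, c' = c → mfderiv 𝓘(ℂ) 𝓘(ℂ) (fun x => f (σ x)) c' = 0 ∧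
      MDifferentiableAt 𝓘(ℂ) 𝓘(ℂ) (fun x => f (σ x)) c' := by
    rintro c' rfl
    exact ⟨h0, h1.self_of_nhds⟩
  obtain ⟨h3, h4⟩ := h2 (σ (σ c)) (h.inv c)
  have h5 := mfderiv_comp (σ c) h4 (h.hol (σ c))
  have h6 : (fun x => f (σ x)) ∘ σ = f := by
    funext x
    show f (σ (σ x)) = f x
    rw [h.inv]
  rw [h6, h3] at h5
  rw [h5]
  exact ContinuousLinearMap.zero_comp _

theorem OddFun.aF_odd (h : OddFun σ g) (η : Bool) (c : C) : aF g η (σ c) = -aF g η c := by
  cases η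
  · simp only [aF, Bool.false_eq_true, if_false]
    exact h.odd c
  · simp only [aF, if_true]
    rw [h.odd c, inv_neg]

theorem OddFun.aF_holAt (h : OddFun σ g) {η : Bool} {c : C} (hf : HolAt (aF g η) (σ c)) :
    HolAt (aF g η) c := by
  have h1 : HolAt (fun x => aF g η (σ x)) c := h.holAt hf
  filter_upwards [h1] with y hy
  have h2 := hy.neg
  have h3 : -(fun x => aF g η (σ x)) = aF g η := by
    funext x
    show -(aF g η (σ x)) = aF g η x
    rw [h.aF_odd, neg_neg]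
  rwa [h3] at h2

end Pool.Agent.Kum
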