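import Pool.Agent.Lib.MP_1d980c_gt.Kum.AInvlA

/-! The odd function at its zeros and poles and at the fixed points. -/

set_option autoImplicit false
open Topology Complex ComplexConjugate Pool.Agent.S4T2 Pool.Agent.BlowC
open scoped Manifold ContDiff

namespace Pool.Agent.Kum

variable {C : Type} [TopologicalSpace C] [ChartedSpace ℂ C] [IsManifold 𝓘(ℂ) ∞ C]
  {σ : C → C} {g : C → ℂ}

omit [IsManifold 𝓘(ℂ) ∞ C] in
/-- a space with charts in `ℂ` has no isolated points. -/
private theorem neBot_punctured (c : C) : (𝓝[≠] c).NeBot := by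
  refine ⟨fun h => ?_⟩
  have h1 : IsOpen ({c} : Set C) := isOpen_singleton_iff_punctured_nhds c |>.2 h
  have h2 := (chartAt ℂ c).isOpen_image_of_subset_source h1
    (Set.singleton_subset_iff.2 (mem_chart_source ℂ c))
  rw [Set.image_singleton] at h2
  exact not_isOpen_singleton _ h2

/-- if `g` and `1 / g` are both holomorphic at `c`, then `g c ≠ 0` (the punctured neighbourhoods
of a point of `C` are not empty). -/
theorem OddFun.both (h : OddFun σ g) {c : C} (h1 : HolAt (aF g false) c) (h2 : HolAt (aF g true) c) :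
    g c ≠ 0 := by
  intro h0
  have hn := neBot_punctured c
  rw [aF_false] at h1
  rw [aF_true] at h2
  have c1 : ContinuousAt g c := h1.self_of_nhds.continuousAt
  have c2 : ContinuousAt (fun x => (g x)⁻¹) c := h2.self_of_nhds.continuousAt
  have t1 : Filter.Tendsto (fun x => g x * (g x)⁻¹) (𝓝[≠] c) (𝓝 (g c * (g c)⁻¹)) :=
    (c1.mul c2).tendsto.mono_left nhdsWithin_le_nhds
  rw [h0, zero_mul] at t1
  have t2 : Filter.Tendsto (fun x => g x * (g x)⁻¹) (𝓝[≠] c) (𝓝 1) := by
    refine (Filter.tendsto_congr' ?_).2 tendsto_const_nhds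
    filter_upwards [h.iso c] with x hx
    exact mul_inv_cancel₀ hx
  exact zero_ne_one (tendsto_nhds_unique t1 t2)

theorem OddFun.ty_hol (h : OddFun σ g) (c : C) : HolAt (aF g (ty g c)) c := by
  by_cases hc : HolAt g c
  · have : ty g c = false := by simp [ty, hc]
    rw [this, aF_false]
    exact hc
  · have : ty g c = true := by simp [ty, hc]
    rw [this, aF_true]
    rcases h.mero c with h1 | h1
    · exact absurd h1 hc
    · exact h1.2

private theorem OddFun.g_fix (h : OddFun σ g) {c : C} (hc : σ c = c) : g c = 0 := by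
  have h1 := h.odd c
  rw [hc] at h1
  exact self_eq_neg.1 h1

/-- at a fixed point the function of the right type is a coordinate. -/
theorem OddFun.ty_cd (h : OddFun σ g) {c : C} (hc : σ c = c) : Cd (aF g (ty g c)) c := by
  by_cases h1 : HolAt g c
  · have : ty g c = false := by simp [ty, h1]
    rw [this, aF_false]
    rcases h.simple c hc with h2 | h2
    · exact h2
    · exact absurd (h.g_fix hc) (h.both (by rw [aF_false]; exact h1) (by rw [aF_true]; exact h2.1))
  · have : ty g c = true := by simp [ty, h1]
    rw [this, aF_true]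
    rcases h.simple c hc with h2 | h2
    · exact absurd h2.1 h1
    · exact h2

theorem OddFun.aF_fix (h : OddFun σ g) {c : C} (hc : σ c = c) (η : Bool) : aF g η c = 0 := by
  have h1 := h.g_fix hc
  cases η <;> simp [aF, h1]

/-- the fixed points of `σ` are isolated: near a fixed point `aF g (ty g c)` is injective, odd,
and `0` at `c`; near another point use continuity (`C` is Hausdorff). -/
theorem OddFun.isolated [T2Space C] (h : OddFun σ g) (c : C) : ∀ᶠ x in 𝓝[≠] c, σ x ≠ x := by
  by_cases hc : σ c = c
  · obtain ⟨U, hU, hinj⟩ := (h.ty_cd hc).locInj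
    filter_upwards [mem_nhdsWithin_of_mem_nhds hU, self_mem_nhdsWithin] with x hx hxc hσ
    apply hxc
    exact hinj hx (mem_of_mem_nhds hU) ((h.aF_fix hσ _).trans (h.aF_fix hc _).symm)
  · have h1 : IsOpen {x | σ x ≠ x} := isOpen_ne_fun h.cont continuous_id
    exact mem_nhdsWithin_of_mem_nhds (h1.mem_nhds hc)

end Pool.Agent.Kum
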