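import Pool.Agent.Lib.MP_1d980c_gt.Kum.ADefs

/-! The function `om`. -/

set_option autoImplicit false
open Topology Complex ComplexConjugate Pool.Agent.S4T2 Pool.Agent.BlowC
open scoped Manifold ContDiff

namespace Pool.Agent.Kum

theorem om_smooth : ContDiff ℝ ∞ om := by
  have h1 : ContDiff ℝ ∞ (fun a : ℂ => 3 * ‖a‖ ^ 2 / (1 + ‖a‖ ^ 2) - 1) := by
    have h2 : ContDiff ℝ ∞ (fun a : ℂ => ‖a‖ ^ 2) := contDiff_norm_sq ℝ
    refine ContDiff.sub (ContDiff.div (contDiff_const.mul h2) (contDiff_const.add h2) ?_)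
      contDiff_const
    intro a
    positivity
  exact Real.smoothTransition.contDiff.comp h1

/-- `om a = 0` for `‖a‖ ^ 2 ≤ 1 / 2`. -/
theorem om_zero : ∀ᶠ a in 𝓝 (0 : ℂ), om a = 0 := by
  have h1 : ∀ᶠ a : ℂ in 𝓝 0, ‖a‖ ^ 2 < 1 / 2 := by
    have h2 : ContinuousAt (fun a : ℂ => ‖a‖ ^ 2) 0 := by fun_prop
    exact h2.eventually_lt_const (by simp)
  filter_upwards [h1] with a ha
  refine Real.smoothTransition.zero_of_nonpos ?_
  have h3 : (0 : ℝ) < 1 + ‖a‖ ^ 2 := by positivity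
  rw [sub_nonpos, div_le_one h3]
  linarith

theorem om_nonneg (a : ℂ) : 0 ≤ om a := Real.smoothTransition.nonneg _

theorem om_le_one (a : ℂ) : om a ≤ 1 := Real.smoothTransition.le_one _

theorem om_ne {a : ℂ} (h : om a ≠ 0) : a ≠ 0 := by
  rintro rfl
  exact h om_zero.self_of_nhds

theorem om_neg (a : ℂ) : om (-a) = om a := by
  unfold om
  rw [norm_neg]

/-- `smoothTransition t + smoothTransition (1 - t) = 1`. -/
theorem om_inv {a : ℂ} (h : a ≠ 0) : om a⁻¹ = 1 - om a := by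
  have h1 : 0 < ‖a‖ := norm_pos_iff.2 h
  have h2 : 3 * ‖a⁻¹‖ ^ 2 / (1 + ‖a⁻¹‖ ^ 2) - 1 = 1 - (3 * ‖a‖ ^ 2 / (1 + ‖a‖ ^ 2) - 1) := by
    rw [norm_inv]
    field_simp
    ring
  unfold om
  rw [h2]
  unfold Real.smoothTransition
  have h3 := Real.smoothTransition.pos_denom (3 * ‖a‖ ^ 2 / (1 + ‖a‖ ^ 2) - 1)
  have h4 : 1 - (1 - (3 * ‖a‖ ^ 2 / (1 + ‖a‖ ^ 2) - 1)) = 3 * ‖a‖ ^ 2 / (1 + ‖a‖ ^ 2) - 1 := by
    ring
  rw [h4, add_comm (expNegInvGlue (1 - _))]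
  rw [eq_sub_iff_add_eq, ← add_div, add_comm (expNegInvGlue (1 - _)), div_self h3.ne']

end Pool.Agent.Kum
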