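import Pool.Agent.Lib.MP_1d980c_gt.Kum.AFun
import Pool.Agent.Lib.MP_1d980c_gt.Kum.AOm

/-! The kernel: algebra. -/

set_option autoImplicit false
open Topology Complex ComplexConjugate Pool.Agent.S4T2 Pool.Agent.BlowC
open scoped Manifold ContDiff

namespace Pool.Agent.Kum

/-- `M₁ = ⟨((1 - ω) + ω p₁) x, ((1 - ω) + ω p₂) y⟩`, `M₂ = ⟨(ω + (1 - ω) p₁) x, (ω + (1 - ω) p₂) y⟩`
and real `b₁, b₂`: `b₁ - i b₂ = - conj a * M₂`, so `M₁ + |a|² M₂ = 0`, and the factor
`((1 - ω) + ω pᵢ + |a|² (ω + (1 - ω) pᵢ))` is positive (if `ω = 1` then `a ≠ 0`). -/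
theorem ker_alg {a b1 b2 : ℂ} {w p1 p2 x y : ℝ} (hw0 : 0 ≤ w) (hw1 : w ≤ 1) (hwa : w ≠ 0 → a ≠ 0)
    (hp1 : 0 ≤ p1) (hp2 : 0 ≤ p2) (hb1 : b1.im = 0) (hb2 : b2.im = 0)
    (h1 : (⟨((1 - w) + w * p1) * x, ((1 - w) + w * p2) * y⟩ : ℂ) - a * (b1 - I * b2) = 0)
    (h2 : b1 + I * b2 + a * conj (⟨(w + (1 - w) * p1) * x, (w + (1 - w) * p2) * y⟩ : ℂ) = 0) :
    x = 0 ∧ y = 0 ∧ b1 = 0 ∧ b2 = 0 := by
  -- real and imaginary parts
  have r1 := congrArg Complex.re h1
  have i1 := congrArg Complex.im h1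
  have r2 := congrArg Complex.re h2
  have i2 := congrArg Complex.im h2
  simp only [Complex.sub_re, Complex.sub_im, Complex.add_re, Complex.add_im, Complex.mul_re,
    Complex.mul_im, Complex.I_re, Complex.I_im, Complex.conj_re, Complex.conj_im, hb1, hb2,
    Complex.zero_re, Complex.zero_im] at r1 i1 r2 i2
  set u := a.re
  set v := a.im
  set c := b1.re
  set d := b2.re
  have e1 : c = -(u * ((w + (1 - w) * p1) * x) + v * ((w + (1 - w) * p2) * y)) := by linarith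
  have e2 : d = -(v * ((w + (1 - w) * p1) * x) - u * ((w + (1 - w) * p2) * y)) := by linarith
  have f1 : (((1 - w) + w * p1) + (u ^ 2 + v ^ 2) * (w + (1 - w) * p1)) * x = 0 := by
    rw [e1, e2] at r1
    linear_combination r1
  have f2 : (((1 - w) + w * p2) + (u ^ 2 + v ^ 2) * (w + (1 - w) * p2)) * y = 0 := by
    rw [e1, e2] at i1
    linear_combination i1
  have pos : ∀ p : ℝ, 0 ≤ p → 0 < ((1 - w) + w * p) + (u ^ 2 + v ^ 2) * (w + (1 - w) * p) := by
    intro p hp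
    have hwp : 0 ≤ w * p := mul_nonneg hw0 hp
    have hwp' : 0 ≤ (1 - w) * p := mul_nonneg (by linarith) hp
    have huv : 0 ≤ u ^ 2 + v ^ 2 := by positivity
    rcases lt_or_eq_of_le hw1 with h | h
    · have : 0 ≤ (u ^ 2 + v ^ 2) * (w + (1 - w) * p) := mul_nonneg huv (by linarith)
      linarith
    · have ha : a ≠ 0 := hwa (by rw [h]; exact one_ne_zero)
      have hn : 0 < u ^ 2 + v ^ 2 := by
        have := Complex.normSq_pos.2 ha
        rw [Complex.normSq_apply] at this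
        show 0 < a.re ^ 2 + a.im ^ 2
        nlinarith [this]
      have : 0 < (u ^ 2 + v ^ 2) * (w + (1 - w) * p) := mul_pos hn (by linarith)
      linarith
  have hx : x = 0 := (mul_eq_zero.1 f1).resolve_left (pos p1 hp1).ne'
  have hy : y = 0 := (mul_eq_zero.1 f2).resolve_left (pos p2 hp2).ne'
  have hc : c = 0 := by rw [e1, hx, hy]; ring
  have hd : d = 0 := by rw [e2, hx, hy]; ring
  exact ⟨hx, hy, Complex.ext hc hb1, Complex.ext hd hb2⟩

end Pool.Agent.Kum
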