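import Pool.Agent.Lib.MP_1d980c_gt.Kum.AKerA
import Pool.Agent.Lib.MP_1d980c_gt.Kum.AKerB

/-! The ambient chart is an immersion. -/

set_option autoImplicit false
open Topology Complex ComplexConjugate Pool.Agent.S4T2 Pool.Agent.BlowC
open scoped Manifold ContDiff

namespace Pool.Agent.Kum

variable {R' : Type} [NormedAddCommGroup R'] [NormedSpace ℂ R']

private theorem AKer_mk (x y : ℝ) : (⟨x, y⟩ : ℂ) = (x : ℂ) + (y : ℂ) * I := by
  apply Complex.ext <;> simp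

private theorem AKer_line (c m : ℝ) : HasDerivAt (fun t : ℝ => c + t * m) m 0 := by
  simpa using ((hasDerivAt_id (0 : ℝ)).mul_const m).const_add c

private theorem AKer_cline (c m : ℂ) : HasDerivAt (fun t : ℝ => c + t • m) m 0 := by
  have h := ((hasDerivAt_id (0 : ℝ)).smul_const m).const_add c
  rw [one_smul] at h
  exact h

private theorem AKer_rline (c m : R') : HasDerivAt (fun t : ℝ => c + t • m) m 0 := by
  have h := ((hasDerivAt_id (0 : ℝ)).smul_const m).const_add c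
  rw [one_smul] at h
  exact h

private theorem AKer_fK (c m : ℝ) : HasDerivAt (fun t : ℝ => fK (c + t * m)) (deriv fK c * m) 0 := by
  have h1 : HasDerivAt fK (deriv fK c) (c + 0 * m) := by
    rw [zero_mul, add_zero]
    exact (fK_smooth.differentiable (by norm_num) c).hasDerivAt
  exact HasDerivAt.comp (0 : ℝ) h1 (AKer_line c m)

private theorem AKer_cx {f g : ℝ → ℝ} {f' g' : ℝ} (hf : HasDerivAt f f' 0) (hg : HasDerivAt g g' 0) :
    HasDerivAt (fun t : ℝ => (⟨f t, g t⟩ : ℂ)) (⟨f', g'⟩ : ℂ) 0 := by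
  simp only [AKer_mk]
  exact hf.ofReal_comp.add (hg.ofReal_comp.mul_const I)

private theorem AKer_phi1 (a : ℂ) (x y : ℝ) :
    phi1 a ⟨x, y⟩ = ⟨(1 - om a) * x + om a * fK x, (1 - om a) * y + om a * fK y⟩ := by
  unfold phi1 ph
  apply Complex.ext <;> simp

private theorem AKer_phi2 (a : ℂ) (x y : ℝ) :
    phi2 a ⟨x, y⟩ = ⟨om a * x + (1 - om a) * fK x, om a * y + (1 - om a) * fK y⟩ := by
  unfold phi2 ph
  apply Complex.ext <;> simp

private theorem AKer_comb (c d x m : ℝ) :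
    HasDerivAt (fun t : ℝ => c * (x + t * m) + d * fK (x + t * m)) ((c + d * deriv fK x) * m) 0 := by
  have h := ((AKer_line x m).const_mul c).add ((AKer_fK x m).const_mul d)
  have e : (c + d * deriv fK x) * m = c * m + d * (deriv fK x * m) := by ring
  rw [e]
  exact h

/-- the derivative in a direction `v` with `v.1 = 0`: it is the derivative of
`t ↦ PhiG gh (x + t v)` at `t = 0`, where `gh` is constant (`= a`). -/
theorem phiG_dir {gh : ℂ → ℂ} {x : ℂ × ℝ × ℝ × ℂ × ℂ × R'} (h : ContDiffAt ℂ ∞ gh x.1)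
    (v : ℂ × ℝ × ℝ × ℂ × ℂ × R') (hv : v.1 = 0) :
    fderiv ℝ (PhiG gh) x v =
      (0,
        (⟨((1 - om (gh x.1)) + om (gh x.1) * deriv fK x.2.1) * v.2.1,
          ((1 - om (gh x.1)) + om (gh x.1) * deriv fK x.2.2.1) * v.2.2.1⟩ : ℂ) -
            gh x.1 * (v.2.2.2.1 - I * v.2.2.2.2.1),
        v.2.2.2.1 + I * v.2.2.2.2.1 + gh x.1 * conj
          (⟨(om (gh x.1) + (1 - om (gh x.1)) * deriv fK x.2.1) * v.2.1,
            (om (gh x.1) + (1 - om (gh x.1)) * deriv fK x.2.2.1) * v.2.2.1⟩ : ℂ),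
        v.2.2.2.2.2) := by
  have hd : DifferentiableAt ℝ (PhiG gh) x := (phiG_smooth h).differentiableAt (by norm_num)
  have h1 : HasDerivAt (fun t : ℝ => PhiG gh (x + t • v)) (fderiv ℝ (PhiG gh) x v) 0 :=
    hd.hasFDerivAt.hasLineDerivAt v
  obtain ⟨x0, x1, x2, x3, x4, x5⟩ := x
  obtain ⟨v0, v1, v2, v3, v4, v5⟩ := v
  simp only at hv h ⊢
  subst hv
  have h2 : (fun t : ℝ => PhiG gh ((x0, x1, x2, x3, x4, x5) + t • (0, v1, v2, v3, v4, v5))) =
      fun t : ℝ => (x0,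
        (⟨(1 - om (gh x0)) * (x1 + t * v1) + om (gh x0) * fK (x1 + t * v1),
          (1 - om (gh x0)) * (x2 + t * v2) + om (gh x0) * fK (x2 + t * v2)⟩ : ℂ) -
          gh x0 * ((x3 + t • v3) - I * (x4 + t • v4)),
        (x3 + t • v3) + I * (x4 + t • v4) + gh x0 * conj
          (⟨om (gh x0) * (x1 + t * v1) + (1 - om (gh x0)) * fK (x1 + t * v1),
          om (gh x0) * (x2 + t * v2) + (1 - om (gh x0)) * fK (x2 + t * v2)⟩ : ℂ),
        x5 + t • v5) := by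
    funext t
    simp only [PhiG, Prod.smul_mk, Prod.mk_add_mk, smul_zero, add_zero, AKer_phi1, AKer_phi2,
      smul_eq_mul]
  rw [h2] at h1
  refine h1.unique ?_
  refine (hasDerivAt_const (0 : ℝ) x0).prodMk (HasDerivAt.prodMk ?_ (HasDerivAt.prodMk ?_ ?_))
  · exact (AKer_cx (AKer_comb _ _ x1 v1) (AKer_comb _ _ x2 v2)).sub
      (((AKer_cline x3 v3).sub ((AKer_cline x4 v4).const_mul I)).const_mul (gh x0))
  · have h3 := (AKer_cx (AKer_comb (om (gh x0)) (1 - om (gh x0)) x1 v1)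
      (AKer_comb (om (gh x0)) (1 - om (gh x0)) x2 v2)).star_conj
    exact ((AKer_cline x3 v3).add ((AKer_cline x4 v4).const_mul I)).add (h3.const_mul (gh x0))
  · exact AKer_rline x5 v5

/-- the first component of `fderiv ℝ (PhiG gh) x v` is `v.1`. -/
theorem phiG_fst {gh : ℂ → ℂ} {x : ℂ × ℝ × ℝ × ℂ × ℂ × R'} (h : ContDiffAt ℂ ∞ gh x.1)
    (v : ℂ × ℝ × ℝ × ℂ × ℂ × R') : (fderiv ℝ (PhiG gh) x v).1 = v.1 := by
  have hd : DifferentiableAt ℝ (PhiG gh) x := (phiG_smooth h).differentiableAt (by norm_num)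
  have h1 := hd.hasFDerivAt.fst
  have h2 : HasFDerivAt (fun y => (PhiG gh y).1) (ContinuousLinearMap.fst ℝ ℂ (ℝ × ℝ × ℂ × ℂ × R')) x :=
    hasFDerivAt_fst
  have h3 := h1.unique h2
  exact congrArg (fun L : (ℂ × ℝ × ℝ × ℂ × ℂ × R') →L[ℝ] ℂ => L v) h3

theorem phiG_inj {gh : ℂ → ℂ} {x : ℂ × ℝ × ℝ × ℂ × ℂ × R'} (h : ContDiffAt ℂ ∞ gh x.1)
    (v : ℂ × ℝ × ℝ × ℂ × ℂ × R')
    (hr : v.2.2.2.2.2 = 0 → v.2.2.2.1.im = 0 ∧ v.2.2.2.2.1.im = 0)
    (h0 : fderiv ℝ (PhiG gh) x v = 0) : v = 0 := by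
  have h1 : v.1 = 0 := by rw [← phiG_fst h v, h0]; rfl
  rw [phiG_dir h v h1] at h0
  simp only [Prod.mk_eq_zero] at h0
  obtain ⟨-, k1, k2, k3⟩ := h0
  obtain ⟨i1, i2⟩ := hr k3
  obtain ⟨x1, y1, b1, b2⟩ := ker_alg (om_nonneg _) (om_le_one _) om_ne (fK_deriv _) (fK_deriv _)
    i1 i2 k1 k2
  exact Prod.ext h1 (Prod.ext x1 (Prod.ext y1 (Prod.ext b1 (Prod.ext b2 k3))))

end Pool.Agent.Kum
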