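import Pool.Agent.Lib.MP_1d980c_gt.Kum.AFun
import Pool.Agent.Lib.MP_1d980c_gt.Kum.AOm

/-! The ambient chart is smooth. -/

set_option autoImplicit false
open Topology Complex ComplexConjugate Pool.Agent.S4T2 Pool.Agent.BlowC
open scoped Manifold ContDiff

namespace Pool.Agent.Kum

variable {R' : Type} [NormedAddCommGroup R'] [NormedSpace ℂ R']

private theorem mk_smooth : ContDiff ℝ ∞ (fun p : ℝ × ℝ => (⟨p.1, p.2⟩ : ℂ)) := by
  have h : (fun p : ℝ × ℝ => (⟨p.1, p.2⟩ : ℂ)) = fun p : ℝ × ℝ => (p.1 : ℂ) + (p.2 : ℂ) * I := by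
    funext p
    exact Complex.mk_eq_add_mul_I p.1 p.2
  rw [h]
  exact (Complex.ofRealCLM.contDiff.comp contDiff_fst).add
    ((Complex.ofRealCLM.contDiff.comp contDiff_snd).mul contDiff_const)

private theorem ph_smooth : ContDiff ℝ ∞ ph := by
  have h1 : ContDiff ℝ ∞ (fun v : ℂ => (fK v.re, fK v.im)) :=
    (fK_smooth.comp Complex.reCLM.contDiff).prodMk (fK_smooth.comp Complex.imCLM.contDiff)
  exact mk_smooth.comp h1

private theorem phi1_smooth : ContDiff ℝ ∞ (fun x : ℂ × ℂ => phi1 x.1 x.2) := by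
  unfold phi1
  have ho : ContDiff ℝ ∞ (fun x : ℂ × ℂ => om x.1) := om_smooth.comp contDiff_fst
  have h1 : ContDiff ℝ ∞ (fun x : ℂ × ℂ => ((1 - om x.1 : ℝ) : ℂ)) :=
    Complex.ofRealCLM.contDiff.comp (contDiff_const.sub ho)
  have h2 : ContDiff ℝ ∞ (fun x : ℂ × ℂ => (om x.1 : ℂ)) := Complex.ofRealCLM.contDiff.comp ho
  exact (h1.mul contDiff_snd).add (h2.mul (ph_smooth.comp contDiff_snd))

private theorem phi2_smooth : ContDiff ℝ ∞ (fun x : ℂ × ℂ => phi2 x.1 x.2) := by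
  unfold phi2
  have ho : ContDiff ℝ ∞ (fun x : ℂ × ℂ => om x.1) := om_smooth.comp contDiff_fst
  have h1 : ContDiff ℝ ∞ (fun x : ℂ × ℂ => ((1 - om x.1 : ℝ) : ℂ)) :=
    Complex.ofRealCLM.contDiff.comp (contDiff_const.sub ho)
  have h2 : ContDiff ℝ ∞ (fun x : ℂ × ℂ => (om x.1 : ℂ)) := Complex.ofRealCLM.contDiff.comp ho
  exact (h2.mul contDiff_snd).add (h1.mul (ph_smooth.comp contDiff_snd))

private theorem phi1_comp {E : Type} [NormedAddCommGroup E] [NormedSpace ℝ E] {u v : E → ℂ}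
    {x : E} (hu : ContDiffAt ℝ ∞ u x) (hv : ContDiffAt ℝ ∞ v x) :
    ContDiffAt ℝ ∞ (fun y => phi1 (u y) (v y)) x :=
  ContDiffAt.comp (g := fun x : ℂ × ℂ => phi1 x.1 x.2) (f := fun y => (u y, v y)) x
    phi1_smooth.contDiffAt (hu.prodMk hv)

private theorem phi2_comp {E : Type} [NormedAddCommGroup E] [NormedSpace ℝ E] {u v : E → ℂ}
    {x : E} (hu : ContDiffAt ℝ ∞ u x) (hv : ContDiffAt ℝ ∞ v x) :
    ContDiffAt ℝ ∞ (fun y => conj (phi2 (u y) (v y))) x := by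
  have h : ContDiffAt ℝ ∞ (fun y => phi2 (u y) (v y)) x :=
    ContDiffAt.comp (g := fun x : ℂ × ℂ => phi2 x.1 x.2) (f := fun y => (u y, v y)) x
      phi2_smooth.contDiffAt (hu.prodMk hv)
  exact Complex.conjCLE.contDiff.contDiffAt.comp x h

theorem phiG_smooth {gh : ℂ → ℂ} {x : ℂ × ℝ × ℝ × ℂ × ℂ × R'} (h : ContDiffAt ℂ ∞ gh x.1) :
    ContDiffAt ℝ ∞ (PhiG gh) x := by
  have hg : ContDiffAt ℝ ∞ (fun y : ℂ × ℝ × ℝ × ℂ × ℂ × R' => gh y.1) x :=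
    (h.restrict_scalars ℝ).comp x contDiff_fst.contDiffAt
  have p1 : ContDiff ℝ ∞ (fun y : ℂ × ℝ × ℝ × ℂ × ℂ × R' => y.2.1) :=
    contDiff_fst.comp contDiff_snd
  have p2 : ContDiff ℝ ∞ (fun y : ℂ × ℝ × ℝ × ℂ × ℂ × R' => y.2.2.1) :=
    contDiff_fst.comp (contDiff_snd.comp contDiff_snd)
  have p3 : ContDiff ℝ ∞ (fun y : ℂ × ℝ × ℝ × ℂ × ℂ × R' => y.2.2.2.1) :=
    contDiff_fst.comp (contDiff_snd.comp (contDiff_snd.comp contDiff_snd))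
  have p4 : ContDiff ℝ ∞ (fun y : ℂ × ℝ × ℝ × ℂ × ℂ × R' => y.2.2.2.2.1) :=
    contDiff_fst.comp (contDiff_snd.comp (contDiff_snd.comp (contDiff_snd.comp contDiff_snd)))
  have p5 : ContDiff ℝ ∞ (fun y : ℂ × ℝ × ℝ × ℂ × ℂ × R' => y.2.2.2.2.2) :=
    contDiff_snd.comp (contDiff_snd.comp (contDiff_snd.comp (contDiff_snd.comp contDiff_snd)))
  have hv : ContDiff ℝ ∞ (fun y : ℂ × ℝ × ℝ × ℂ × ℂ × R' => (⟨y.2.1, y.2.2.1⟩ : ℂ)) :=
    mk_smooth.comp (p1.prodMk p2)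
  have q1 := phi1_comp hg hv.contDiffAt
  have q3 := phi2_comp hg hv.contDiffAt
  have r1 : ContDiffAt ℝ ∞ (fun y : ℂ × ℝ × ℝ × ℂ × ℂ × R' =>
      phi1 (gh y.1) ⟨y.2.1, y.2.2.1⟩ - gh y.1 * (y.2.2.2.1 - I * y.2.2.2.2.1)) x :=
    q1.sub (hg.mul (p3.contDiffAt.sub (contDiffAt_const.mul p4.contDiffAt)))
  have r2 : ContDiffAt ℝ ∞ (fun y : ℂ × ℝ × ℝ × ℂ × ℂ × R' =>
      y.2.2.2.1 + I * y.2.2.2.2.1 + gh y.1 * conj (phi2 (gh y.1) ⟨y.2.1, y.2.2.1⟩)) x :=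
    (p3.contDiffAt.add (contDiffAt_const.mul p4.contDiffAt)).add (hg.mul q3)
  exact contDiffAt_fst.prodMk (r1.prodMk (r2.prodMk p5.contDiffAt))

end Pool.Agent.Kum
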