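import Pool.Agent.Lib.MP_1d980c_gt.Kum.ADefs

/-! Lifts on the circle: existence and uniqueness. -/

set_option autoImplicit false
open Topology Complex ComplexConjugate Pool.Agent.S4T2 Pool.Agent.BlowC
open scoped Manifold ContDiff

namespace Pool.Agent.Kum

theorem Lft.ev {X : Circle → ℝ} {z : Circle} (h : Lft X z) : ∀ᶠ y in 𝓝 z, Lft X y :=
  eventually_eventually_nhds.2 h

attribute [local instance] finrank_real_complex_fact' in
private theorem contMDiff_coe_circle : ContMDiff (𝓡 1) 𝓘(ℝ, ℂ) ∞ (fun y : Circle => (y : ℂ)) :=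
  contMDiff_coe_sphere (E := ℂ) (n := 1)

private theorem contDiffAt_arg {w : ℂ} (hw : w ∈ slitPlane) : ContDiffAt ℝ ∞ arg w := by
  have h1 : ContDiffAt ℝ ∞ Complex.log w := (contDiffAt_log hw (n := ∞)).restrict_scalars ℝ
  have h2 : ContDiffAt ℝ ∞ (fun x => (Complex.log x).im) w :=
    imCLM.contDiff.contDiffAt.comp w h1
  have h3 : (fun x => (Complex.log x).im) = arg := by
    funext x
    exact Complex.log_im x
  rwa [h3] at h2

/-- for instance `X y = arg (y / z) / (2 π) + X₀` with `Circle.exp (2 π X₀) = z`; the smoothness of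
`arg` on the circle comes from that of `log` on the slit plane and of `Circle → ℂ`. -/
theorem exists_lft (z : Circle) : ∃ X, Lft X z := by
  refine ⟨fun y => arg (((z⁻¹ * y : Circle) : ℂ)) / (2 * Real.pi) + arg (z : ℂ) / (2 * Real.pi), ?_⟩
  have h0 : ∀ᶠ y in 𝓝 z, ((z⁻¹ * y : Circle) : ℂ) ∈ slitPlane := by
    have hc : Continuous fun y : Circle => ((z⁻¹ * y : Circle) : ℂ) := by fun_prop
    refine hc.continuousAt.eventually (isOpen_slitPlane.mem_nhds ?_)
    simp
  filter_upwards [h0] with y hy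
  refine ⟨?_, ?_⟩
  · have h1 : ContDiffAt ℝ ∞ (fun w : ℂ => arg ((z : ℂ)⁻¹ * w) / (2 * Real.pi)
        + arg (z : ℂ) / (2 * Real.pi)) (y : ℂ) := by
      have h2 : ContDiffAt ℝ ∞ (fun w : ℂ => (z : ℂ)⁻¹ * w) (y : ℂ) :=
        contDiffAt_const.mul contDiffAt_id
      have h3 : ContDiffAt ℝ ∞ arg ((z : ℂ)⁻¹ * (y : ℂ)) := by
        apply contDiffAt_arg
        rw [← Circle.coe_inv, ← Circle.coe_mul]
        exact hy
      have h4 : ContDiffAt ℝ ∞ (fun w : ℂ => arg ((z : ℂ)⁻¹ * w)) (y : ℂ) :=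
        ContDiffAt.comp (y : ℂ) h3 h2
      exact (h4.div_const _).add contDiffAt_const
    have h5 := h1.contMDiffAt.comp y (contMDiff_coe_circle y)
    refine h5.congr_of_eventuallyEq (Filter.Eventually.of_forall fun x => ?_)
    simp only [Function.comp_apply, Circle.coe_mul, Circle.coe_inv]
  · have h1 : 2 * Real.pi * (arg (((z⁻¹ * y : Circle) : ℂ)) / (2 * Real.pi)
        + arg (z : ℂ) / (2 * Real.pi)) = arg (((z⁻¹ * y : Circle) : ℂ)) + arg (z : ℂ) := by
      have := Real.pi_ne_zero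
      field_simp
    rw [h1, Circle.exp_add, Circle.exp_arg, Circle.exp_arg, mul_comm, mul_inv_cancel_left]

/-- two lifts differ by an integer (continuity). -/
theorem Lft.diff {X X' : Circle → ℝ} {z : Circle} (h : Lft X z) (h' : Lft X' z) :
    ∃ n : ℤ, ∀ᶠ y in 𝓝 z, X' y = X y + n := by
  have hint : ∀ᶠ y in 𝓝 z, ∃ m : ℤ, X' y - X y = m := by
    filter_upwards [h, h'] with y hy hy'
    obtain ⟨m, hm⟩ := Circle.exp_eq_exp.1 (hy'.2.trans hy.2.symm)
    refine ⟨m, ?_⟩
    have h1 : 2 * Real.pi * (X' y - X y - m) = 0 := by linear_combination hm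
    rcases mul_eq_zero.1 h1 with h2 | h2
    · exact absurd h2 (by positivity)
    · linarith
  obtain ⟨n, hn⟩ := hint.self_of_nhds
  have hc : ContinuousAt (fun y => X' y - X y) z :=
    h'.self_of_nhds.1.continuousAt.sub h.self_of_nhds.1.continuousAt
  have h1 : ∀ᶠ y in 𝓝 z, X' y - X y ∈ Metric.ball (X' z - X z) 1 :=
    hc.eventually (Metric.ball_mem_nhds _ one_pos)
  refine ⟨n, ?_⟩
  filter_upwards [hint, h1] with y ⟨m, hm⟩ h2
  rw [hm, hn, Metric.mem_ball, Real.dist_eq] at h2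
  have h3 : |m - n| < 1 := by exact_mod_cast h2
  have h4 : m = n := by
    rw [Int.abs_lt_one_iff] at h3
    linarith
  rw [h4] at hm
  linarith

end Pool.Agent.Kum
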