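import Pool.Agent.Lib.MP_1d980c_gt.Kum.ALiftA

/-! Lifts on the circle: inversion, derivative. -/

set_option autoImplicit false
open Topology Complex ComplexConjugate Pool.Agent.S4T2 Pool.Agent.BlowC
open scoped Manifold ContDiff

namespace Pool.Agent.Kum

/-- `y ↦ y⁻¹` is smooth on the circle (a Lie group in Mathlib). -/
theorem Lft.inv {X : Circle → ℝ} {z : Circle} (h : Lft X z⁻¹) : Lft (fun y => -X y⁻¹) z := by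
  have h1 : Filter.Tendsto (fun y : Circle => y⁻¹) (𝓝 z) (𝓝 z⁻¹) := continuous_inv.tendsto z
  have h0 : ∀ᶠ y in 𝓝 z⁻¹, ContMDiffAt (𝓡 1) 𝓘(ℝ, ℝ) ∞ X y ∧
      Circle.exp (2 * Real.pi * X y) = y := h
  have h2 : ∀ᶠ y in 𝓝 z, ContMDiffAt (𝓡 1) 𝓘(ℝ, ℝ) ∞ (fun y => -X y⁻¹) y ∧
      Circle.exp (2 * Real.pi * (-X y⁻¹)) = y := by
    filter_upwards [h1.eventually h0] with y hy
    refine ⟨?_, ?_⟩
    · have hi : ContMDiffAt (𝓡 1) (𝓡 1) ∞ (fun y : Circle => y⁻¹) y :=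
        (contMDiff_inv (𝓡 1) ∞).contMDiffAt
      have h2 : ContMDiffAt (𝓡 1) 𝓘(ℝ, ℝ) ∞ (X ∘ fun y : Circle => y⁻¹) y := hy.1.comp y hi
      exact h2.neg
    · have h3 : 2 * Real.pi * (-X y⁻¹) = -(2 * Real.pi * X y⁻¹) := by ring
      rw [h3, Circle.exp_neg, hy.2, inv_inv]
  exact h2

/-- `Circle.exp (2 π X y) = y`, so `X` is an immersion. -/
theorem Lft.dinj {X : Circle → ℝ} {z : Circle} (h : Lft X z) (ξ : EuclideanSpace ℝ (Fin 1))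
    (hξ : dm (𝓡 1) X z ξ = 0) : ξ = 0 := by
  have h' : ∀ᶠ y in 𝓝 z, ContMDiffAt (𝓡 1) 𝓘(ℝ, ℝ) ∞ X y ∧
      Circle.exp (2 * Real.pi * X y) = y := h
  have h0 := h'.self_of_nhds
  have hX : MDifferentiableAt (𝓡 1) 𝓘(ℝ, ℝ) X z := h0.1.mdifferentiableAt (by simp)
  have hE1 : ContMDiff 𝓘(ℝ, ℝ) (𝓡 1) ∞ (fun t : ℝ => Circle.exp (2 * Real.pi * t)) := by
    have h1 : ContMDiff 𝓘(ℝ, ℝ) 𝓘(ℝ, ℝ) ∞ (fun t : ℝ => 2 * Real.pi * t) :=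
      (contDiff_const.mul contDiff_id).contMDiff
    exact (contMDiff_circleExp (m := ∞)).comp h1
  have hE : MDifferentiableAt 𝓘(ℝ, ℝ) (𝓡 1) (fun t : ℝ => Circle.exp (2 * Real.pi * t)) (X z) :=
    hE1.contMDiffAt.mdifferentiableAt (by simp)
  have hc : (fun t : ℝ => Circle.exp (2 * Real.pi * t)) ∘ X =ᶠ[𝓝 z] id :=
    h'.mono fun y hy => hy.2
  have h1 := mfderiv_comp z hE hX
  rw [hc.mfderiv_eq, mfderiv_id] at h1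
  have h2 := DFunLike.congr_fun h1 ξ
  have h3 : mfderiv (𝓡 1) 𝓘(ℝ, ℝ) X z ξ = 0 := hξ
  have h4 : ξ = (mfderiv 𝓘(ℝ, ℝ) (𝓡 1) (fun t : ℝ => Circle.exp (2 * Real.pi * t)) (X z))
      (mfderiv (𝓡 1) 𝓘(ℝ, ℝ) X z ξ) := h2
  rw [h4, h3]
  exact map_zero _

end Pool.Agent.Kum
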