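import Pool.Agent.Lib.MP_1d980c_gt.Kum.AInvl
import Pool.Agent.Lib.MP_1d980c_gt.Kum.ALift

/-! The coordinates at the fixed points are odd. -/

set_option autoImplicit false
open Topology Complex ComplexConjugate Pool.Agent.S4T2 Pool.Agent.BlowC
open scoped Manifold ContDiff

namespace Pool.Agent.Kum

variable {C : Type} [TopologicalSpace C] [ChartedSpace ℂ C] [IsManifold 𝓘(ℂ) ∞ C]
  {σ : C → C} {g : C → ℂ}

theorem tau_tau (hg : OddFun σ g) (x : C × Circle × Circle) : tau σ (tau σ x) = x := by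
  simp [tau, hg.inv]

theorem tau_cont (hg : OddFun σ g) : Continuous (tau σ) := by
  have := hg.cont
  unfold tau
  fun_prop

private theorem AOddA_sq {z : Circle} (h : z⁻¹ = z) : ((z : ℂ)) ^ 2 = 1 := by
  have h1 : z * z = 1 := by
    nth_rewrite 1 [← h]
    exact inv_mul_cancel z
  have h2 := congrArg (fun w : Circle => (w : ℂ)) h1
  simp only [Circle.coe_mul, Circle.coe_one] at h2
  rw [sq]
  exact h2

private theorem AOddA_arg {z : Circle} (h : ((z : ℂ)) ^ 2 ∈ slitPlane) :
    arg (((z⁻¹ : Circle) : ℂ) ^ 2) = -arg ((z : ℂ) ^ 2) := by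
  rw [Circle.coe_inv, inv_pow, arg_inv, if_neg]
  exact (mem_slitPlane_iff_arg.1 h).1

/-- `arg (z⁻¹ ^ 2) = - arg (z ^ 2)` when `z ^ 2` is near `1`, and `aF_odd`. -/
theorem st_odd (hg : OddFun σ g) {e : C × Circle × Circle} (he : tau σ e = e) :
    ∀ᶠ x in 𝓝 e, sK g e (tau σ x) = -sK g e x ∧ tK g e (tau σ x) = -tK g e x := by
  have h1 : e.2.1⁻¹ = e.2.1 := congrArg (fun y : C × Circle × Circle => y.2.1) he
  have h2 : e.2.2⁻¹ = e.2.2 := congrArg (fun y : C × Circle × Circle => y.2.2) he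
  have c1 : Continuous fun x : C × Circle × Circle => ((x.2.1 : ℂ)) ^ 2 := by fun_prop
  have c2 : Continuous fun x : C × Circle × Circle => ((x.2.2 : ℂ)) ^ 2 := by fun_prop
  have o1 : ∀ᶠ x in 𝓝 e, ((x.2.1 : ℂ)) ^ 2 ∈ slitPlane := by
    have h3 : ((e.2.1 : ℂ)) ^ 2 ∈ slitPlane := by
      rw [AOddA_sq h1]
      exact one_mem_slitPlane
    exact c1.continuousAt.eventually (isOpen_slitPlane.mem_nhds h3)
  have o2 : ∀ᶠ x in 𝓝 e, ((x.2.2 : ℂ)) ^ 2 ∈ slitPlane := by
    have h3 : ((e.2.2 : ℂ)) ^ 2 ∈ slitPlane := by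
      rw [AOddA_sq h2]
      exact one_mem_slitPlane
    exact c2.continuousAt.eventually (isOpen_slitPlane.mem_nhds h3)
  filter_upwards [o1, o2] with x hx1 hx2
  refine ⟨hg.aF_odd _ _, ?_⟩
  unfold tK tau
  simp only [AOddA_arg hx1, AOddA_arg hx2]
  apply Complex.ext
  · simp
  · simp

theorem st_zero (hg : OddFun σ g) {e : C × Circle × Circle} (he : tau σ e = e) :
    sK g e e = 0 ∧ tK g e e = 0 := by
  have h0 : σ e.1 = e.1 := congrArg (fun y : C × Circle × Circle => y.1) he
  have h1 : e.2.1⁻¹ = e.2.1 := congrArg (fun y : C × Circle × Circle => y.2.1) he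
  have h2 : e.2.2⁻¹ = e.2.2 := congrArg (fun y : C × Circle × Circle => y.2.2) he
  refine ⟨hg.aF_fix h0 _, ?_⟩
  unfold tK
  rw [AOddA_sq h1, AOddA_sq h2, arg_one, mul_zero]
  rfl

/-- a discrete closed subset of a compact space; `z⁻¹ = z` has two solutions on the circle. -/
theorem fix_finite [CompactSpace C] [T2Space C] (hg : OddFun σ g) :
    {e : C × Circle × Circle | tau σ e = e}.Finite := by
  have hC : {c : C | σ c = c}.Finite := by
    by_contra hinf
    obtain ⟨x, hx⟩ := Set.Infinite.exists_accPt_principal (s := {c : C | σ c = c}) hinf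
    rw [accPt_iff_frequently_nhdsNE] at hx
    exact hx ((hg.isolated x).mono fun y hy => hy)
  have hS : {z : Circle | z⁻¹ = z}.Finite := by
    have hf : ({1, -1} : Set ℂ).Finite := Set.toFinite _
    refine (hf.preimage (f := fun z : Circle => (z : ℂ)) Circle.coe_injective.injOn).subset ?_
    intro z hz
    have := AOddA_sq hz
    rcases sq_eq_one_iff.1 this with h | h
    · simp [h]
    · simp [h]
  refine (hC.prod (hS.prod hS)).subset ?_
  intro e he
  exact ⟨congrArg (fun y : C × Circle × Circle => y.1) he,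
    congrArg (fun y : C × Circle × Circle => y.2.1) he,
    congrArg (fun y : C × Circle × Circle => y.2.2) he⟩

end Pool.Agent.Kum
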