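import Pool.Agent.Lib.MP_1d980c_gt.Kum.AOddA
import Pool.Agent.Lib.MP_1d980c_gt.Kum.ACurR

/-! Smoothness of the involution and of the coordinates. -/

set_option autoImplicit false
open Topology Complex ComplexConjugate Pool.Agent.S4T2 Pool.Agent.BlowC
open scoped Manifold ContDiff

namespace Pool.Agent.Kum

variable {C : Type} [TopologicalSpace C] [ChartedSpace ℂ C] [IsManifold 𝓘(ℂ) ∞ C]
  {σ : C → C} {g : C → ℂ}

private theorem arg_smooth {z : Circle} (hz : z⁻¹ = z) :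
    ∀ᶠ y in 𝓝 z, ContMDiffAt (𝓡 1) 𝓘(ℝ, ℝ) ∞ (fun y : Circle => Complex.arg ((y : ℂ) ^ 2)) y := by
  obtain ⟨X, hX⟩ := exists_lft z
  obtain ⟨n, -, hn⟩ := hX.arg hz
  filter_upwards [hX.ev, eventually_eventually_nhds.2 hn] with y hy hny
  have h1 : ContMDiffAt (𝓡 1) 𝓘(ℝ, ℝ) ∞ X y := hy.self_of_nhds.1
  have h2 : ContDiff ℝ ∞ (fun t : ℝ => 4 * Real.pi * (t - n / 2)) := by fun_prop
  have h3 : ContMDiffAt (𝓡 1) 𝓘(ℝ, ℝ) ∞ (fun y => 4 * Real.pi * (X y - n / 2)) y :=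
    (h2.contMDiff.contMDiffAt).comp y h1
  exact h3.congr_of_eventuallyEq hny

private theorem arg_dinj {z : Circle} (hz : z⁻¹ = z) :
    ∃ D : TangentSpace (𝓡 1) z →L[ℝ] ℝ,
      HasMFDerivAt (𝓡 1) 𝓘(ℝ, ℝ) (fun y : Circle => Complex.arg ((y : ℂ) ^ 2)) z D ∧
        ∀ ξ, D ξ = 0 → ξ = 0 := by
  obtain ⟨X, hX⟩ := exists_lft z
  obtain ⟨n, -, hn⟩ := hX.arg hz
  have h1 : ContMDiffAt (𝓡 1) 𝓘(ℝ, ℝ) ∞ X z := hX.self_of_nhds.1
  have h1' := (h1.mdifferentiableAt (by simp)).hasMFDerivAt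
  have h2 : HasFDerivAt (fun t : ℝ => 4 * Real.pi * (t - n / 2))
      ((4 * Real.pi) • ContinuousLinearMap.id ℝ ℝ) (X z) := by
    have := ((hasFDerivAt_id (𝕜 := ℝ) (X z)).sub_const (n / 2 : ℝ)).const_mul (4 * Real.pi)
    exact this
  have h3 := HasMFDerivAt.comp z h2.hasMFDerivAt h1'
  have h4 := h3.congr_of_eventuallyEq (f₁ := fun y : Circle => Complex.arg ((y : ℂ) ^ 2)) hn
  refine ⟨_, h4, fun ξ hξ => ?_⟩
  have h5 : (4 * Real.pi) * dm (𝓡 1) X z ξ = 0 := hξ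
  have h6 : dm (𝓡 1) X z ξ = 0 := by
    rcases mul_eq_zero.1 h5 with h | h
    · have := Real.pi_pos
      exfalso
      linarith
    · exact h
  exact hX.dinj ξ h6

private theorem sg_ne (η : Bool) : sg η ≠ 0 := by
  cases η <;> simp [sg]

/-- `(sK, tK)` are smooth coordinates near the fixed point `e`: `sK` is a holomorphic coordinate of
`C` (`ty_cd`, `HolAt.real`, `Cd.real`), `tK = 4 π (v - v₀)` with two lifts (`Lft.arg`,
`Lft.dinj`). -/
theorem st_coord (hg : OddFun σ g) {e : C × Circle × Circle} (he : tau σ e = e) :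
    (∀ᶠ x in 𝓝 e, ContMDiffAt IC 𝓘(ℝ, ℂ × ℂ) ∞ (fun y => (sK g e y, tK g e y)) x) ∧
      Function.Bijective (mfderiv IC 𝓘(ℝ, ℂ × ℂ) (fun y => (sK g e y, tK g e y)) e) := by
  have he1 : σ e.1 = e.1 := congrArg Prod.fst he
  have he2 : e.2.1⁻¹ = e.2.1 := congrArg (fun x => x.2.1) he
  have he3 : e.2.2⁻¹ = e.2.2 := congrArg (fun x => x.2.2) he
  have hcd := hg.ty_cd he1
  have c1 : Filter.Tendsto (fun y : C × Circle × Circle => y.1) (𝓝 e) (𝓝 e.1) :=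
    (continuous_fst.continuousAt : ContinuousAt _ e)
  have c2 : Filter.Tendsto (fun y : C × Circle × Circle => y.2.1) (𝓝 e) (𝓝 e.2.1) :=
    ((continuous_fst.comp continuous_snd).continuousAt : ContinuousAt _ e)
  have c3 : Filter.Tendsto (fun y : C × Circle × Circle => y.2.2) (𝓝 e) (𝓝 e.2.2) :=
    ((continuous_snd.comp continuous_snd).continuousAt : ContinuousAt _ e)
  have hsm : ∀ᶠ x in 𝓝 e,
      ContMDiffAt IC 𝓘(ℝ, ℂ × ℂ) ∞ (fun y => (sK g e y, tK g e y)) x := by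
    filter_upwards [c1.eventually hcd.1.ev, c2.eventually (arg_smooth he2),
      c3.eventually (arg_smooth he3)] with x h1 h2 h3
    have p1 : ContMDiffAt IC 𝓘(ℝ, ℂ) ∞ (fun y : C × Circle × Circle => y.1) x := contMDiffAt_fst
    have p2 : ContMDiffAt IC (𝓡 1) ∞ (fun y : C × Circle × Circle => y.2.1) x :=
      contMDiffAt_fst.comp x contMDiffAt_snd
    have p3 : ContMDiffAt IC (𝓡 1) ∞ (fun y : C × Circle × Circle => y.2.2) x :=
      contMDiffAt_snd.comp x contMDiffAt_snd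
    have q1 : ContMDiffAt IC 𝓘(ℝ, ℂ) ∞ (fun y => sK g e y) x := h1.real.comp x p1
    have q2 : ContMDiffAt IC 𝓘(ℝ, ℝ) ∞ (fun y : C × Circle × Circle =>
        Complex.arg ((y.2.1 : ℂ) ^ 2)) x := h2.comp x p2
    have q3 : ContMDiffAt IC 𝓘(ℝ, ℝ) ∞ (fun y : C × Circle × Circle =>
        Complex.arg ((y.2.2 : ℂ) ^ 2)) x := h3.comp x p3
    refine q1.prodMk_space ?_
    have hL : ContDiff ℝ ∞ (fun t : ℝ × ℝ =>
        Complex.equivRealProdCLM.symm (t.1, sg (ty g e.1) * t.2)) := by fun_prop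
    exact (hL.contMDiff.contMDiffAt).comp x (q2.prodMk_space q3)
  refine ⟨hsm, ?_⟩
  have hF := (hsm.self_of_nhds.mdifferentiableAt (by simp)).hasMFDerivAt
  obtain ⟨D2, hD2, hD2'⟩ := arg_dinj he2
  obtain ⟨D3, hD3, hD3'⟩ := arg_dinj he3
  have hχ := (hcd.1.real.mdifferentiableAt (by simp)).hasMFDerivAt
  -- the three projections of the derivative
  have a1 := HasMFDerivAt.comp e (ContinuousLinearMap.fst ℝ ℂ ℂ).hasMFDerivAt hF
  have b1 := HasMFDerivAt.comp e hχ (hasMFDerivAt_fst (I := 𝓘(ℝ, ℂ)) (I' := (𝓡 1).prod (𝓡 1)) e)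
  have a2 := HasMFDerivAt.comp e
    (Complex.reCLM.comp (ContinuousLinearMap.snd ℝ ℂ ℂ)).hasMFDerivAt hF
  have b2 := HasMFDerivAt.comp e hD2 (HasMFDerivAt.comp e
    (hasMFDerivAt_fst (I := 𝓡 1) (I' := 𝓡 1) e.2)
    (hasMFDerivAt_snd (I := 𝓘(ℝ, ℂ)) (I' := (𝓡 1).prod (𝓡 1)) e))
  have a3 := HasMFDerivAt.comp e
    (Complex.imCLM.comp (ContinuousLinearMap.snd ℝ ℂ ℂ)).hasMFDerivAt hF
  have hs : HasFDerivAt (fun t : ℝ => sg (ty g e.1) * t)
      (sg (ty g e.1) • ContinuousLinearMap.id ℝ ℝ) (Complex.arg ((e.2.2 : ℂ) ^ 2)) :=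
    (hasFDerivAt_id (𝕜 := ℝ) _).const_mul _
  have b3 := HasMFDerivAt.comp e hs.hasMFDerivAt (HasMFDerivAt.comp e hD3 (HasMFDerivAt.comp e
    (hasMFDerivAt_snd (I := 𝓡 1) (I' := 𝓡 1) e.2)
    (hasMFDerivAt_snd (I := 𝓘(ℝ, ℂ)) (I' := (𝓡 1).prod (𝓡 1)) e)))
  have e1 := hasMFDerivAt_unique a1 b1
  have e2 := hasMFDerivAt_unique a2 b2
  have e3 := hasMFDerivAt_unique a3 b3
  have hinj : Function.Injective (mfderiv IC 𝓘(ℝ, ℂ × ℂ) (fun y => (sK g e y, tK g e y)) e) := by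
    rw [injective_iff_map_eq_zero]
    intro ξ hξ
    have f1 := congrArg (fun L => L ξ) e1
    have f2 := congrArg (fun L => L ξ) e2
    have f3 := congrArg (fun L => L ξ) e3
    have g1 : dm 𝓘(ℝ, ℂ) (aF g (ty g e.1)) e.1 ξ.1 = 0 := by
      refine Eq.trans f1.symm ?_
      show (mfderiv IC 𝓘(ℝ, ℂ × ℂ) (fun y => (sK g e y, tK g e y)) e ξ).1 = 0
      rw [hξ]
      rfl
    have g2 : D2 ξ.2.1 = 0 := by
      refine Eq.trans f2.symm ?_
      show (mfderiv IC 𝓘(ℝ, ℂ × ℂ) (fun y => (sK g e y, tK g e y)) e ξ).2.re = 0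
      rw [hξ]
      rfl
    have g3 : sg (ty g e.1) * D3 ξ.2.2 = 0 := by
      refine Eq.trans f3.symm ?_
      show (mfderiv IC 𝓘(ℝ, ℂ × ℂ) (fun y => (sK g e y, tK g e y)) e ξ).2.im = 0
      rw [hξ]
      rfl
    have k1 : ξ.1 = 0 := hcd.real ξ.1 g1
    have k2 : ξ.2.1 = 0 := hD2' _ g2
    have k3 : ξ.2.2 = 0 := by
      rcases mul_eq_zero.1 g3 with h | h
      · exact absurd h (sg_ne _)
      · exact hD3' _ h
    exact Prod.ext k1 (Prod.ext k2 k3)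
  have hdim : Module.finrank ℝ (TangentSpace IC e) = Module.finrank ℝ (ℂ × ℂ) := by
    show Module.finrank ℝ (ℂ × EuclideanSpace ℝ (Fin 1) × EuclideanSpace ℝ (Fin 1)) =
      Module.finrank ℝ (ℂ × ℂ)
    simp [Module.finrank_prod, Complex.finrank_real_complex]
  have : FiniteDimensional ℝ (TangentSpace IC e) :=
    inferInstanceAs (FiniteDimensional ℝ
      (ℂ × EuclideanSpace ℝ (Fin 1) × EuclideanSpace ℝ (Fin 1)))
  refine ⟨hinj, ?_⟩
  exact (LinearMap.injective_iff_surjective_of_finrank_eq_finrank (K := ℝ)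
    (f := (mfderiv IC 𝓘(ℝ, ℂ × ℂ) (fun y => (sK g e y, tK g e y)) e).toLinearMap) hdim).1 hinj

/-- `τ` is a smooth map. -/
theorem tau_smooth (hg : OddFun σ g) : ContMDiff IC IC ∞ (tau σ) := by
  have hσ : ContMDiff 𝓘(ℝ, ℂ) 𝓘(ℝ, ℂ) ∞ σ := by
    intro c
    rw [contMDiffAt_iff_target]
    refine ⟨hg.cont.continuousAt, ?_⟩
    have h1 : HolAt (extChartAt 𝓘(ℂ) (σ c)) (σ c) := by
      unfold HolAt
      have h2 := contMDiffOn_extChartAt (I := 𝓘(ℂ)) (n := (∞ : WithTop ℕ∞)) (x := σ c)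
      filter_upwards [(chartAt ℂ (σ c)).open_source.mem_nhds (mem_chart_source ℂ (σ c))] with y hy
      exact ((h2 y hy).contMDiffAt ((chartAt ℂ (σ c)).open_source.mem_nhds hy)).mdifferentiableAt
        (by simp)
    exact (hg.holAt h1).real
  have hinv : ContMDiff (𝓡 1) (𝓡 1) ∞ (fun z : Circle => z⁻¹) := contMDiff_inv (𝓡 1) ∞
  exact (hσ.comp contMDiff_fst).prodMk ((hinv.comp (contMDiff_fst.comp contMDiff_snd)).prodMk
    (hinv.comp (contMDiff_snd.comp contMDiff_snd)))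

end Pool.Agent.Kum
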