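import Pool.Agent.Lib.MP_1d980c_gt.Kum.AFun
import Pool.Agent.Lib.MP_1d980c_gt.Kum.AOm

/-! Identities for `phi1` and `phi2`. -/

set_option autoImplicit false
open Topology Complex ComplexConjugate Pool.Agent.S4T2 Pool.Agent.BlowC
open scoped Manifold ContDiff

namespace Pool.Agent.Kum

theorem ph_add (v : ℂ) (m n : ℤ) : ph (v + ⟨m, n⟩) = ph v + ⟨m, n⟩ := by
  unfold ph
  apply Complex.ext
  · simp only [Complex.add_re]
    exact fK_add _ _
  · simp only [Complex.add_im]
    exact fK_add _ _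

theorem ph_neg (v : ℂ) : ph (-v) = -ph v := by
  unfold ph
  apply Complex.ext
  · simp only [Complex.neg_re]
    exact fK_neg _
  · simp only [Complex.neg_im]
    exact fK_neg _

theorem ph_conj (v : ℂ) : ph (conj v) = conj (ph v) := by
  unfold ph
  apply Complex.ext
  · simp only [Complex.conj_re]
  · simp only [Complex.conj_im]
    exact fK_neg _

theorem phi1_add (a v : ℂ) (m n : ℤ) : phi1 a (v + ⟨m, n⟩) = phi1 a v + ⟨m, n⟩ := by
  unfold phi1
  rw [ph_add]
  push_cast
  ring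

theorem phi2_add (a v : ℂ) (m n : ℤ) : phi2 a (v + ⟨m, n⟩) = phi2 a v + ⟨m, n⟩ := by
  unfold phi2
  rw [ph_add]
  push_cast
  ring

theorem phi1_neg (a v : ℂ) : phi1 (-a) (-v) = -phi1 a v := by
  unfold phi1
  rw [ph_neg, om_neg]
  ring

theorem phi2_neg (a v : ℂ) : phi2 (-a) (-v) = -phi2 a v := by
  unfold phi2
  rw [ph_neg, om_neg]
  ring

end Pool.Agent.Kum
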