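import Pool.Agent.Lib.MP_1d980c_gt.Kum.APhiA

/-! Identities for `phi1` and `phi2`. -/

set_option autoImplicit false
open Topology Complex ComplexConjugate Pool.Agent.S4T2 Pool.Agent.BlowC
open scoped Manifold ContDiff

namespace Pool.Agent.Kum

theorem phi1_inv {a : ℂ} (h : a ≠ 0) (v : ℂ) : phi1 a⁻¹ (conj v) = conj (phi2 a v) := by
  unfold phi1 phi2
  rw [ph_conj, om_inv h, map_add, map_mul, map_mul, Complex.conj_ofReal, Complex.conj_ofReal]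
  push_cast
  ring

theorem phi2_inv {a : ℂ} (h : a ≠ 0) (v : ℂ) : phi2 a⁻¹ (conj v) = conj (phi1 a v) := by
  unfold phi1 phi2
  rw [ph_conj, om_inv h, map_add, map_mul, map_mul, Complex.conj_ofReal, Complex.conj_ofReal]
  push_cast
  ring

/-- near `a = 0` and a point `v₀` with half integral coordinates, `phi1 a v = v` and
`phi2 a v = v₀`. -/
theorem phi_near (m n : ℤ) : ∀ᶠ x in 𝓝 ((0 : ℂ), (⟨m / 2, n / 2⟩ : ℂ)),
    phi1 x.1 x.2 = x.2 ∧ phi2 x.1 x.2 = ⟨m / 2, n / 2⟩ := by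
  have h1 : ∀ᶠ x in 𝓝 ((0 : ℂ), (⟨m / 2, n / 2⟩ : ℂ)), om x.1 = 0 :=
    (continuous_fst.tendsto ((0 : ℂ), (⟨m / 2, n / 2⟩ : ℂ))).eventually om_zero
  have h2 : ∀ᶠ x in 𝓝 ((0 : ℂ), (⟨m / 2, n / 2⟩ : ℂ)), fK x.2.re = m / 2 :=
    ((Complex.continuous_re.comp continuous_snd).tendsto
      ((0 : ℂ), (⟨m / 2, n / 2⟩ : ℂ))).eventually (fK_half m)
  have h3 : ∀ᶠ x in 𝓝 ((0 : ℂ), (⟨m / 2, n / 2⟩ : ℂ)), fK x.2.im = n / 2 :=
    ((Complex.continuous_im.comp continuous_snd).tendsto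
      ((0 : ℂ), (⟨m / 2, n / 2⟩ : ℂ))).eventually (fK_half n)
  filter_upwards [h1, h2, h3] with x h1 h2 h3
  unfold phi1 phi2 ph
  rw [h1, h2, h3]
  constructor
  · push_cast
    ring
  · push_cast
    ring

end Pool.Agent.Kum
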