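import Pool.Agent.Lib.MP_1d980c_gt.Kum.AFrame
import Pool.Agent.Lib.MP_1d980c_gt.Kum.AKer

/-! The charts are smooth immersions. -/

set_option autoImplicit false
open Topology Complex ComplexConjugate Pool.Agent.S4T2 Pool.Agent.BlowC
open scoped Manifold ContDiff

namespace Pool.Agent.Kum

variable {C EW HW W R' : Type} [TopologicalSpace C] [ChartedSpace ℂ C] [IsManifold 𝓘(ℂ) ∞ C]
  [NormedAddCommGroup EW] [NormedSpace ℝ EW] [TopologicalSpace HW] {JW : ModelWithCorners ℝ EW HW}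
  [TopologicalSpace W] [ChartedSpace HW W] [NormedAddCommGroup R'] [NormedSpace ℂ R']
  {σ : C → C} {g : C → ℂ} {GW : W → Set ((W → ℂ) × (W → ℂ) × (W → R'))}

omit [IsManifold 𝓘(ℂ) ∞ C] [TopologicalSpace W] in
theorem gch_eq_phiG (η : Bool) (χ : C → ℂ) (X Y : Circle → ℝ)
    (d : (W → ℂ) × (W → ℂ) × (W → R')) {gh : ℂ → ℂ} {y : (C × Circle × Circle) × W}
    (h : aF g η y.1.1 = gh (χ y.1.1)) : gch g η χ X Y d y = PhiG gh (frame η χ X Y d y) := by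
  simp only [gch, PhiG, frame, h]

omit [ChartedSpace HW W] in
private theorem asm_fac {y : (C × Circle × Circle) × W} {η : Bool} {χ : C → ℂ} (X Y : Circle → ℝ)
    (d : (W → ℂ) × (W → ℂ) × (W → R')) (h0 : HolAt (aF g η) y.1.1) (h1 : Cd χ y.1.1) :
    ∃ gh : ℂ → ℂ, ContDiffAt ℂ ∞ gh (frame η χ X Y d y).1 ∧
      gch g η χ X Y d =ᶠ[𝓝 y] PhiG gh ∘ frame η χ X Y d := by
  obtain ⟨gh, hgh, hev⟩ := h1.fac h0
  refine ⟨gh, hgh, ?_⟩
  have hc : Filter.Tendsto (fun z : (C × Circle × Circle) × W => z.1.1) (𝓝 y) (𝓝 y.1.1) :=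
    (continuous_fst.comp continuous_fst).tendsto y
  filter_upwards [hc.eventually hev] with z hz
  exact gch_eq_phiG η χ X Y d hz

/-- near `y` the chart is `PhiG gh ∘ frame` with `aF g η = gh ∘ χ` (`Cd.fac`). -/
theorem gmA_smooth (hg : OddFun σ g) (hW : WGerms JW GW) {y : (C × Circle × Circle) × W}
    {f : (C × Circle × Circle) × W → ℂ × ℂ × (ℂ × R')} (hf : f ∈ GmA g GW y) :
    ContMDiffAt (IC.prod JW) 𝓘(ℝ, ℂ × ℂ × (ℂ × R')) ∞ f y := by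
  obtain ⟨η, χ, X, Y, d, h0, h1, h2, h3, h4, rfl⟩ := hf
  obtain ⟨gh, hgh, hev⟩ := asm_fac X Y d h0 h1
  have hs := frame_smooth (η := η) hW h1 h2 h3 h4
  have hp : ContMDiffAt 𝓘(ℝ, ℂ × ℝ × ℝ × ℂ × ℂ × R') 𝓘(ℝ, ℂ × ℂ × (ℂ × R')) ∞ (PhiG gh)
      (frame η χ X Y d y) := (phiG_smooth hgh).contMDiffAt
  exact (ContMDiffAt.comp y hp hs).congr_of_eventuallyEq hev

/-- chain rule, `phiG_inj` (its hypothesis comes from `frame_dm` and `hW.real`), `Cd.real`,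
`Lft.dinj`, `hW.inj`. -/
theorem gmA_inj (hg : OddFun σ g) (hW : WGerms JW GW) {y : (C × Circle × Circle) × W}
    {f : (C × Circle × Circle) × W → ℂ × ℂ × (ℂ × R')} (hf : f ∈ GmA g GW y) :
    Function.Injective (mfderiv (IC.prod JW) 𝓘(ℝ, ℂ × ℂ × (ℂ × R')) f y) := by
  obtain ⟨η, χ, X, Y, d, h0, h1, h2, h3, h4, rfl⟩ := hf
  obtain ⟨gh, hgh, hev⟩ := asm_fac X Y d h0 h1
  have hs := frame_smooth (η := η) hW h1 h2 h3 h4
  have hp : ContMDiffAt 𝓘(ℝ, ℂ × ℝ × ℝ × ℂ × ℂ × R') 𝓘(ℝ, ℂ × ℂ × (ℂ × R')) ∞ (PhiG gh)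
      (frame η χ X Y d y) := (phiG_smooth hgh).contMDiffAt
  have hchain : mfderiv (IC.prod JW) 𝓘(ℝ, ℂ × ℂ × (ℂ × R')) (gch g η χ X Y d) y =
      (mfderiv 𝓘(ℝ, ℂ × ℝ × ℝ × ℂ × ℂ × R') 𝓘(ℝ, ℂ × ℂ × (ℂ × R')) (PhiG gh)
        (frame η χ X Y d y)).comp
        (mfderiv (IC.prod JW) 𝓘(ℝ, ℂ × ℝ × ℝ × ℂ × ℂ × R') (frame η χ X Y d) y) := by
    rw [hev.mfderiv_eq]
    exact mfderiv_comp y (hp.mdifferentiableAt (by simp)) (hs.mdifferentiableAt (by simp))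
  rw [injective_iff_map_eq_zero]
  intro ξ hξ
  rw [hchain] at hξ
  have hξ' : fderiv ℝ (PhiG gh) (frame η χ X Y d y) (dm (IC.prod JW) (frame η χ X Y d) y ξ) = 0 := by
    rw [← mfderiv_eq_fderiv]
    exact hξ
  have hdm := frame_dm (η := η) hW h1 h2 h3 h4 ξ
  have hsg : sg η ≠ 0 := by unfold sg; split_ifs <;> norm_num
  have hsg' : (sg η : ℂ) ≠ 0 := by exact_mod_cast hsg
  rw [hdm] at hξ'
  have hz := phiG_inj hgh _ (fun hr => by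
    have := hW.real y.2 d h4 ξ.2 hr
    refine ⟨?_, this.2⟩
    change ((sg η : ℂ) * dm JW d.1 y.2 ξ.2).im = 0
    rw [Complex.im_ofReal_mul, this.1, mul_zero]) hξ'
  simp only [Prod.mk_eq_zero] at hz
  obtain ⟨z1, z2, z3, z4, z5, z6⟩ := hz
  have e1 : ξ.1.1 = 0 := h1.real _ z1
  have e2 : ξ.1.2.1 = 0 := h2.dinj _ z2
  have e3 : ξ.1.2.2 = 0 := h3.dinj _ ((mul_eq_zero.1 z3).resolve_left hsg)
  have e4 : ξ.2 = 0 := hW.inj y.2 d h4 _ z6 ((mul_eq_zero.1 z4).resolve_left hsg') z5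
  exact Prod.ext (Prod.ext e1 (Prod.ext e2 e3)) e4

end Pool.Agent.Kum
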