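import Pool.Agent.Lib.MP_1d980c_gt.Kum.KDefs

/-! The squaring map. -/

set_option autoImplicit false
open Topology Complex ComplexConjugate Pool.Agent.S4T2 Pool.Agent.BlowC
open scoped Manifold ContDiff

namespace Pool.Agent.Kum

private theorem sq_isOpenMap : IsOpenMap (fun w : ℂ => w ^ 2) := by
  have h1 : AnalyticOnNhd ℂ (fun w : ℂ => w ^ 2) Set.univ := fun z _ => by fun_prop
  rcases h1.is_constant_or_isOpen isPreconnected_univ with ⟨w, hw⟩ | h
  · exfalso
    have h2 := hw 0 (Set.mem_univ _)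
    have h3 := hw 1 (Set.mem_univ _)
    rw [← h3] at h2
    norm_num at h2
  · intro U hU
    exact h U (Set.subset_univ _) hU

/-- `(u, w) ↦ (u ^ 2, w)` is an open quotient map. -/
theorem sq_open : IsOpenQuotientMap (fun w : ℂ × ℂ => (w.1 ^ 2, w.2)) := by
  refine ⟨?_, by fun_prop, ?_⟩
  · rintro ⟨a, c⟩
    obtain ⟨s, hs⟩ := IsAlgClosed.exists_pow_nat_eq a (n := 2) (by norm_num)
    exact ⟨(s, c), by simp [hs]⟩
  · exact sq_isOpenMap.prodMap IsOpenMap.id

/-- the descent of continuity along the squaring map. -/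
theorem sq_descent {A : Type} [TopologicalSpace A] {T : Set (ℂ × ℂ)} (hT : IsOpen T)
    {f : ℂ × ℂ → A} (h : ContinuousOn (fun w : ℂ × ℂ => f (w.1 ^ 2, w.2))
      {w | (w.1 ^ 2, w.2) ∈ T}) : ContinuousOn f T := by
  intro z hz
  apply ContinuousAt.continuousWithinAt
  obtain ⟨w, rfl⟩ := sq_open.surjective z
  rw [← sq_open.continuousAt_comp_iff]
  have hT' : IsOpen {w : ℂ × ℂ | (w.1 ^ 2, w.2) ∈ T} := hT.preimage sq_open.continuous
  exact h.continuousAt (hT'.mem_nhds hz)

end Pool.Agent.Kum
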