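import Pool.Agent.Lib.MP_1d980c_gt.Kum.ESlope
import Pool.Agent.Lib.MP_1d980c_gt.Kum.ESq

/-! The chart of finite slopes. -/

set_option autoImplicit false
open Topology Complex ComplexConjugate Pool.Agent.S4T2 Pool.Agent.BlowC
open scoped Manifold ContDiff

namespace Pool.Agent.Kum

namespace KD

variable {Z : Type} [TopologicalSpace Z] (K : KD Z)

private theorem q2_cs (s a : ℂ) : q2 (s, s * a) = ‖s ^ 2‖ * (1 + ‖a‖ ^ 2) := by
  unfold q2
  simp only [norm_mul, norm_pow]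
  ring

private theorem fix_e (e : {e : Z // K.τ e = e}) {x : Z} (hx : x ∈ (K.b e).e.source)
    (h : K.τ x = x) : x = e.1 ∧ (K.b e).e x = 0 := by
  have h1 := (K.sym e x hx).2
  rw [h] at h1
  have h0 : (K.b e).e x = 0 := self_eq_neg.1 h1
  refine ⟨?_, h0⟩
  rw [← K.hp e]
  apply (K.b e).e.injOn hx (K.b e).hp
  rw [h0, (K.b e).ep]

private theorem symm_neg (e : {e : Z // K.τ e = e}) {w : ℂ × ℂ} (h : w ∈ (K.b e).e.target)
    (h' : -w ∈ (K.b e).e.target) : K.qm ((K.b e).e.symm (-w)) = K.qm ((K.b e).e.symm w) := by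
  have h1 : (K.b e).e.symm w ∈ (K.b e).e.source := (K.b e).e.map_target h
  have h2 := K.sym e _ h1
  have h3 : (K.b e).e.symm (-w) = K.τ ((K.b e).e.symm w) := by
    apply (K.b e).e.injOn ((K.b e).e.map_target h') h2.1
    rw [(K.b e).e.right_inv h', h2.2, (K.b e).e.right_inv h]
  rw [h3, K.qm_tau]

private theorem key1 [T2Space Z] {e : {e : Z // K.τ e = e}} {y : K.KSet} (hy : y ∈ K.S1 e) :
    ∃ x ∈ (K.b e).D, K.bd y = K.qm x ∧
      ∃ s : ℂ, (K.b e).e x = (s, s * K.sl y) ∧ s ^ 2 = K.u2 e (K.bd y) := by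
  obtain ⟨x, hx, hxy⟩ := hy.1
  refine ⟨x, hx, hxy.symm, ?_⟩
  have hu : K.u2 e (K.bd y) = ((K.b e).e x).1 ^ 2 := by
    rw [← hxy, K.u2_mk]
    unfold u2Z
    rw [if_pos hx.1]
  rw [hu]
  by_cases hf : K.τ x = x
  · obtain ⟨-, h0⟩ := K.fix_e e hx.1 hf
    refine ⟨0, ?_, ?_⟩
    · rw [h0, zero_mul]
      rfl
    · rw [h0]
      simp
  · have hp : K.p x = y := K.eq_p hf hxy.symm
    have h1 := K.p_S1 hf hx
    rw [hp] at h1
    have h2 := h1.1.1 hy
    have h3 := h1.2 h2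
    refine ⟨((K.b e).e x).1, ?_, rfl⟩
    rw [h3, mul_div_cancel₀ _ h2]

private theorem u2_cont [T2Space Z] (e : {e : Z // K.τ e = e}) :
    ContinuousOn (K.u2 e) (K.DQ e) := by
  rintro q ⟨x, hx, rfl⟩
  apply ContinuousAt.continuousWithinAt
  rw [← K.qm_open.continuousAt_comp_iff]
  have hs : (K.b e).e.source ∈ 𝓝 x := (K.b e).e.open_source.mem_nhds hx.1
  have h1 : ContinuousAt (fun x => ((K.b e).e x).1 ^ 2) x :=
    ((continuous_fst.continuousAt.comp ((K.b e).e.continuousAt hx.1))).pow 2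
  apply h1.congr
  filter_upwards [hs] with y hy
  change _ = K.u2Z e y
  unfold u2Z
  rw [if_pos hy]

/-- Compare `BData.exists_chart1` in `Blow/BSpaceC1.lean`. The target is
`T = {w | ‖w.1‖ * (1 + ‖w.2‖ ^ 2) < r}`; the inverse is
`w ↦ (mk (e.symm (√w₁, √w₁ w₂)), A w, A w * w₂)`, `√w = w ^ (1 / 2 : ℂ)` (any square root),
`A w = (1 - ‖w₁‖ (1 + ‖w₂‖²) / r) / (1 + ‖w₂‖²)`. The map `w ↦ mk (e.symm (√w₁, √w₁ w₂))` is
continuous by `sq_descent`, because `mk (e.symm (-w)) = mk (e.symm w)` (`sym`). -/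
theorem exists_chart1 [T2Space Z] (e : {e : Z // K.τ e = e}) :
    ∃ f : OpenPartialHomeomorph K.KSet (ℂ × ℂ),
      f.source = K.S1 e ∧ ∀ y ∈ K.S1 e, f y = (K.u2 e (K.bd y), K.sl y) := by
  classical
  set b := K.b e with hb
  have hmem0 : ((K.qm e.1, 0, 0) : K.Q × ℝ × ℂ) ∈ K.KSet := by
    right
    exact ⟨⟨e.1, e.2, rfl⟩, by simp⟩
  let rt : ℂ → ℂ := fun z => z ^ (((2 : ℕ) : ℂ)⁻¹)
  have hrt : ∀ z, rt z ^ 2 = z := fun z => Complex.cpow_nat_inv_pow z two_ne_zero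
  let T : Set (ℂ × ℂ) := {w | ‖w.1‖ * (1 + ‖w.2‖ ^ 2) < b.r}
  let x0 : ℂ × ℂ → Z := fun w => b.e.symm (rt w.1, rt w.1 * w.2)
  let X : ℂ × ℂ → K.Q := fun w => K.qm (x0 w)
  let A : ℂ × ℂ → ℝ := fun w => (1 - ‖w.1‖ * (1 + ‖w.2‖ ^ 2) / b.r) / (1 + ‖w.2‖ ^ 2)
  have hT : IsOpen T := isOpen_lt (by fun_prop) continuous_const
  have hq : ∀ w : ℂ × ℂ, ∀ s : ℂ, s ^ 2 = w.1 → q2 (s, s * w.2) = ‖w.1‖ * (1 + ‖w.2‖ ^ 2) := by
    intro w s hs
    rw [q2_cs, hs]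
  have htgt : ∀ w ∈ T, ∀ s : ℂ, s ^ 2 = w.1 → (s, s * w.2) ∈ b.e.target := by
    intro w hw s hs
    apply b.ball
    rw [hq w s hs]
    exact le_of_lt hw
  have hsrc : ∀ w ∈ T, x0 w ∈ b.e.source := fun w hw => b.e.map_target (htgt w hw _ (hrt _))
  have heX : ∀ w ∈ T, b.e (x0 w) = (rt w.1, rt w.1 * w.2) := fun w hw =>
    b.e.right_inv (htgt w hw _ (hrt _))
  have hD : ∀ w ∈ T, x0 w ∈ b.D := by
    intro w hw
    refine ⟨hsrc w hw, ?_⟩
    rw [heX w hw, hq w _ (hrt _)]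
    exact hw
  have hchi : ∀ w ∈ T, b.chi (x0 w) = 1 - ‖w.1‖ * (1 + ‖w.2‖ ^ 2) / b.r := by
    intro w hw
    rw [b.chi_mem (hD w hw), heX w hw, hq w _ (hrt _)]
  have hXs : ∀ w ∈ T, ∀ s : ℂ, s ^ 2 = w.1 → X w = K.qm (b.e.symm (s, s * w.2)) := by
    intro w hw s hs
    have h1 : rt w.1 ^ 2 = s ^ 2 := by rw [hrt, hs]
    rcases sq_eq_sq_iff_eq_or_eq_neg.1 h1 with h | h
    · change K.qm (b.e.symm (rt w.1, rt w.1 * w.2)) = _
      rw [h]
    · change K.qm (b.e.symm (rt w.1, rt w.1 * w.2)) = _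
      have h2 : (rt w.1, rt w.1 * w.2) = -(s, s * w.2) := by
        rw [h, Prod.neg_mk, neg_mul]
      rw [h2]
      apply K.symm_neg e (htgt w hw s hs)
      rw [← h2]
      exact htgt w hw _ (hrt _)
  have hpos : ∀ w : ℂ × ℂ, 0 < 1 + ‖w.2‖ ^ 2 := fun w => by positivity
  have hXp : ∀ w ∈ T, w.1 = 0 → X w = K.qm e.1 := by
    intro w hw h0
    rw [hXs w hw 0 (by rw [h0]; simp)]
    have h1 : ((0 : ℂ), 0 * w.2) = b.e b.p := by
      rw [b.ep, zero_mul]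
      rfl
    rw [h1, b.e.left_inv b.hp, K.hp e]
  have hXne : ∀ w ∈ T, w.1 ≠ 0 → K.τ (x0 w) ≠ x0 w := by
    intro w hw h0 h1
    have h2 := (K.fix_e e (hsrc w hw) h1).2
    rw [← hb, heX w hw] at h2
    have h3 : rt w.1 = 0 := congrArg Prod.fst h2
    apply h0
    rw [← hrt w.1, h3]
    simp
  have hmem : ∀ w ∈ T, ((X w, A w, (A w : ℂ) * w.2) : K.Q × ℝ × ℂ) ∈ K.KSet := by
    intro w hw
    have hp := hpos w
    by_cases h0 : w.1 = 0
    · right
      refine ⟨⟨e.1, e.2, hXp w hw h0⟩, ?_⟩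
      have hA : A w = 1 / (1 + ‖w.2‖ ^ 2) := by
        change (1 - ‖w.1‖ * (1 + ‖w.2‖ ^ 2) / b.r) / (1 + ‖w.2‖ ^ 2) = _
        rw [h0]
        simp
      change ‖(A w : ℂ) * w.2‖ ^ 2 = A w * (1 - A w)
      rw [norm_mul, Complex.norm_real, mul_pow, Real.norm_eq_abs, sq_abs, hA]
      field_simp
      ring
    · left
      have hne := hXne w hw h0
      have hr0 : rt w.1 ≠ 0 := by
        intro h
        apply h0
        rw [← hrt w.1, h]
        simp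
      refine ⟨fun h => hne (K.qm_mem_fixQ.1 h), ?_, ?_⟩
      · change A w = K.alZ (x0 w)
        rw [K.alZ_eq (hsrc w hw), ← hb]
        unfold BData.al
        rw [hchi w hw, heX w hw]
        change (1 - ‖w.1‖ * (1 + ‖w.2‖ ^ 2) / b.r) / (1 + ‖w.2‖ ^ 2) =
          (1 - ‖w.1‖ * (1 + ‖w.2‖ ^ 2) / b.r) * ‖rt w.1‖ ^ 2 /
            (‖rt w.1‖ ^ 2 + ‖rt w.1 * w.2‖ ^ 2)
        rw [norm_mul]
        have hn : ‖rt w.1‖ ≠ 0 := norm_ne_zero_iff.2 hr0
        generalize 1 - ‖w.1‖ * (1 + ‖w.2‖ ^ 2) / b.r = χ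
        have hden : ‖rt w.1‖ ^ 2 + (‖rt w.1‖ * ‖w.2‖) ^ 2 = ‖rt w.1‖ ^ 2 * (1 + ‖w.2‖ ^ 2) := by
          ring
        rw [hden]
        field_simp
      · change (A w : ℂ) * w.2 = K.kaZ (x0 w)
        rw [K.kaZ_eq (hsrc w hw), ← hb]
        unfold BData.ka
        rw [hchi w hw, heX w hw]
        change (((1 - ‖w.1‖ * (1 + ‖w.2‖ ^ 2) / b.r) / (1 + ‖w.2‖ ^ 2) : ℝ) : ℂ) * w.2 =
          ((1 - ‖w.1‖ * (1 + ‖w.2‖ ^ 2) / b.r : ℝ) : ℂ) *
            (conj (rt w.1) * (rt w.1 * w.2)) /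
            ((‖rt w.1‖ ^ 2 + ‖rt w.1 * w.2‖ ^ 2 : ℝ) : ℂ)
        rw [norm_mul]
        generalize 1 - ‖w.1‖ * (1 + ‖w.2‖ ^ 2) / b.r = χ
        have hden : ‖rt w.1‖ ^ 2 + (‖rt w.1‖ * ‖w.2‖) ^ 2 = ‖rt w.1‖ ^ 2 * (1 + ‖w.2‖ ^ 2) := by
          ring
        rw [hden]
        have hn : ((‖rt w.1‖ : ℂ)) ^ 2 = rt w.1 * conj (rt w.1) := (Complex.mul_conj' _).symm
        have hcu : conj (rt w.1) ≠ 0 := by simpa using hr0
        have hpc : (1 + (‖w.2‖ : ℂ) ^ 2) ≠ 0 := by exact_mod_cast hp.ne'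
        push_cast
        rw [hn]
        generalize rt w.1 = s at *
        field_simp
  let g : ℂ × ℂ → K.KSet := fun w => if hw : w ∈ T then ⟨_, hmem w hw⟩ else ⟨_, hmem0⟩
  have hg : ∀ w ∈ T, (g w).1 = (X w, A w, (A w : ℂ) * w.2) := by
    intro w hw
    simp only [g, dif_pos hw]
  have hA0 : ∀ w ∈ T, A w ≠ 0 := by
    intro w hw
    have h1 : 0 < b.chi (x0 w) := (b.chi_pos_iff _).2 (hD w hw)
    rw [hchi w hw] at h1
    have := hpos w
    change (1 - ‖w.1‖ * (1 + ‖w.2‖ ^ 2) / b.r) / (1 + ‖w.2‖ ^ 2) ≠ 0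
    positivity
  -- the map goes into `T`
  have hmap : ∀ y ∈ K.S1 e, (K.u2 e (K.bd y), K.sl y) ∈ T := by
    intro y hy
    obtain ⟨x, hx, hxy, s, hs1, hs2⟩ := K.key1 hy
    change ‖K.u2 e (K.bd y)‖ * (1 + ‖K.sl y‖ ^ 2) < b.r
    rw [← hs2, ← q2_cs, ← hs1]
    exact hx.2
  have hopen : IsOpen (K.S1 e) := K.S1_open e
  refine ⟨{
    toFun := fun y => (K.u2 e (K.bd y), K.sl y)
    invFun := g
    source := K.S1 e
    target := T
    map_source' := hmap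
    map_target' := ?_
    left_inv' := ?_
    right_inv' := ?_
    open_source := hopen
    open_target := hT
    continuousOn_toFun := ?_
    continuousOn_invFun := ?_ }, rfl, fun y _ => rfl⟩
  · intro w hw
    refine ⟨?_, ?_⟩
    · change (g w).1.1 ∈ K.DQ e
      rw [hg w hw]
      exact ⟨x0 w, hD w hw, rfl⟩
    · rw [hg w hw]
      exact hA0 w hw
  · intro y hy
    have hyT := hmap y hy
    apply Subtype.ext
    rw [hg _ hyT]
    obtain ⟨x, hx, hxy, s, hs1, hs2⟩ := K.key1 hy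
    have hα : (y.1.2.1 : ℂ) ≠ 0 := by exact_mod_cast hy.2
    have hX : X (K.u2 e (K.bd y), K.sl y) = y.1.1 := by
      rw [hXs _ hyT s hs2]
      change K.qm (b.e.symm (s, s * K.sl y)) = K.bd y
      rw [← hs1, b.e.left_inv hx.1, hxy]
    have hchiy : K.chi (K.bd y) = b.chi x := by
      rw [hxy, K.chi_mk, K.chiZ_eq hx.1]
    have hA : A (K.u2 e (K.bd y), K.sl y) = y.1.2.1 := by
      change (1 - ‖K.u2 e (K.bd y)‖ * (1 + ‖K.sl y‖ ^ 2) / b.r) / (1 + ‖K.sl y‖ ^ 2) = _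
      rw [← hs2, ← q2_cs, ← hs1, ← b.chi_mem hx]
      have hk := K.kap y.2
      change ‖y.1.2.2‖ ^ 2 = y.1.2.1 * (K.chi (K.bd y) - y.1.2.1) at hk
      rw [hchiy] at hk
      unfold sl
      rw [norm_div, Complex.norm_real, div_pow, hk, Real.norm_eq_abs, sq_abs]
      have hα' := hy.2
      have hc0 : b.chi x ≠ 0 := ((b.chi_pos_iff _).2 hx).ne'
      have : 1 + y.1.2.1 * (b.chi x - y.1.2.1) / y.1.2.1 ^ 2 = b.chi x / y.1.2.1 := by
        field_simp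
        ring
      rw [this]
      field_simp
    rw [hX, hA]
    have : (y.1.2.1 : ℂ) * K.sl y = y.1.2.2 := by
      unfold sl
      field_simp
    change (y.1.1, y.1.2.1, (y.1.2.1 : ℂ) * K.sl y) = y.1
    rw [this]
  · intro w hw
    have hA : ((A w : ℝ) : ℂ) ≠ 0 := by exact_mod_cast hA0 w hw
    change (K.u2 e (g w).1.1, (g w).1.2.2 / ((g w).1.2.1 : ℂ)) = w
    rw [hg w hw]
    change (K.u2Z e (x0 w), (A w : ℂ) * w.2 / (A w : ℂ)) = w
    rw [mul_div_cancel_left₀ _ hA]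
    have hu : K.u2Z e (x0 w) = w.1 := by
      unfold u2Z
      rw [if_pos (hsrc w hw), ← hb, heX w hw]
      exact hrt w.1
    rw [hu]
  · apply ContinuousOn.prodMk
    · apply (K.u2_cont e).comp K.bd_continuous.continuousOn
      intro y hy
      exact hy.1
    · change ContinuousOn (fun y : K.KSet => y.1.2.2 / (y.1.2.1 : ℂ)) (K.S1 e)
      apply ContinuousOn.div
      · exact (continuous_snd.comp (continuous_snd.comp continuous_subtype_val)).continuousOn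
      · exact (Complex.continuous_ofReal.comp
          (continuous_fst.comp (continuous_snd.comp continuous_subtype_val))).continuousOn
      · intro y hy
        exact_mod_cast hy.2
  · rw [Topology.IsInducing.subtypeVal.continuousOn_iff]
    have hX : ContinuousOn X T := by
      apply sq_descent hT
      have h1 : ContinuousOn (fun w : ℂ × ℂ => K.qm (b.e.symm (w.1, w.1 * w.2)))
          {w | (w.1 ^ 2, w.2) ∈ T} := by
        apply K.qm_open.continuous.comp_continuousOn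
        apply b.e.continuousOn_symm.comp
        · fun_prop
        · intro w hw
          exact htgt (w.1 ^ 2, w.2) hw w.1 rfl
      apply h1.congr
      intro w hw
      exact hXs (w.1 ^ 2, w.2) hw w.1 rfl
    have hA : Continuous A := by
      change Continuous (fun w : ℂ × ℂ => (1 - ‖w.1‖ * (1 + ‖w.2‖ ^ 2) / b.r) / (1 + ‖w.2‖ ^ 2))
      apply Continuous.div
      · fun_prop
      · fun_prop
      · intro w
        exact (hpos w).ne'
    have h : ContinuousOn (fun w : ℂ × ℂ => ((X w, A w, (A w : ℂ) * w.2) : K.Q × ℝ × ℂ)) T := by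
      apply hX.prodMk
      apply hA.continuousOn.prodMk
      exact ((Complex.continuous_ofReal.comp hA).mul continuous_snd).continuousOn
    exact h.congr (fun w hw => hg w hw)

end KD

end Pool.Agent.Kum
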