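import Pool.Agent.Lib.MP_1d980c_gt.Kum.ESlope
import Pool.Agent.Lib.MP_1d980c_gt.Kum.ESq

/-! The chart of nonzero slopes. -/

set_option autoImplicit false
open Topology Complex ComplexConjugate Pool.Agent.S4T2 Pool.Agent.BlowC
open scoped Manifold ContDiff

namespace Pool.Agent.Kum

namespace KD

variable {Z : Type} [TopologicalSpace Z] (K : KD Z)

private theorem e_fix (e : {e : Z // K.τ e = e}) {x : Z} (hx : x ∈ (K.b e).e.source)
    (h : K.τ x = x) : (K.b e).e x = 0 := by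
  have h1 := (K.sym e x hx).2
  rw [h] at h1
  exact self_eq_neg.1 h1

private theorem fix_of_e (e : {e : Z // K.τ e = e}) {x : Z} (hx : x ∈ (K.b e).e.source)
    (h : (K.b e).e x = 0) : K.τ x = x := by
  obtain ⟨h1, h2⟩ := K.sym e x hx
  apply (K.b e).e.injOn h1 hx
  rw [h2, h, neg_zero]

/-- on `S2` the inverse slope is `conj κ / (χ - α)`. -/
private theorem inv_sl2 {e : {e : Z // K.τ e = e}} {y : K.KSet} (h : y ∈ K.S2 e) :
    (K.sl y)⁻¹ = conj y.1.2.2 / ((K.chi (K.bd y) - y.1.2.1 : ℝ) : ℂ) := by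
  have hk := K.kap y.2
  change ‖y.1.2.2‖ ^ 2 = y.1.2.1 * (K.chi (K.bd y) - y.1.2.1) at hk
  have h0 : K.chi (K.bd y) - y.1.2.1 ≠ 0 := h.2
  unfold sl
  by_cases hκ : y.1.2.2 = 0
  · rw [hκ]
    simp
  · have h0c : ((K.chi (K.bd y) - y.1.2.1 : ℝ) : ℂ) ≠ 0 := by exact_mod_cast h0
    have hn : ((‖y.1.2.2‖ : ℂ)) ^ 2 = y.1.2.2 * conj y.1.2.2 := (Complex.mul_conj' _).symm
    have hkc : ((‖y.1.2.2‖ : ℂ)) ^ 2 = (y.1.2.1 : ℂ) * ((K.chi (K.bd y) - y.1.2.1 : ℝ) : ℂ) := by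
      exact_mod_cast hk
    rw [hn] at hkc
    rw [inv_div, div_eq_div_iff hκ h0c, ← hkc]
    ring

/-- on `S2`: `u = m⁻¹ v` at a representative. -/
private theorem sl_inv_mul2 {e : {e : Z // K.τ e = e}} {y : K.KSet} (h : y ∈ K.S2 e) {x : Z}
    (hx : x ∈ (K.b e).D) (hxy : K.qm x = K.bd y) :
    ((K.b e).e x).1 = (K.sl y)⁻¹ * ((K.b e).e x).2 := by
  by_cases hfix : K.τ x = x
  · rw [K.e_fix e hx.1 hfix]
    simp
  · have hy : K.p x = y := K.eq_p hfix hxy.symm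
    rw [← hy] at h ⊢
    obtain ⟨h1, h2⟩ := K.p_S2 hfix hx
    have hv := h1.1 h
    rw [h2 hv, div_mul_cancel₀ _ hv]

private theorem qm_symm_neg {e : {e : Z // K.τ e = e}} {w : ℂ × ℂ} (hw : w ∈ (K.b e).e.target) :
    K.qm ((K.b e).e.symm (-w)) = K.qm ((K.b e).e.symm w) := by
  have h1 := (K.b e).e.map_target hw
  obtain ⟨h2, h3⟩ := K.sym e _ h1
  rw [(K.b e).e.right_inv hw] at h3
  rw [← h3, (K.b e).e.left_inv h2, K.qm_tau]

private theorem v2_contOn [T2Space Z] (e : {e : Z // K.τ e = e}) :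
    ContinuousOn (K.v2 e) (K.DQ e) := by
  rintro q ⟨x, hx, rfl⟩
  apply ContinuousAt.continuousWithinAt
  rw [← K.qm_open.continuousAt_comp_iff]
  have h1 : ContinuousAt (fun x' => ((K.b e).e x').2 ^ 2) x := by
    have := (K.b e).e.continuousAt hx.1
    exact (continuous_snd.continuousAt.comp this).pow 2
  apply h1.congr
  filter_upwards [(K.b e).e.open_source.mem_nhds hx.1] with x' hx'
  change _ = K.v2Z e x'
  unfold v2Z
  rw [if_pos hx']

/-- Compare `BData.exists_chart2` in `Blow/BSpaceC2.lean` and the hint of `exists_chart1` in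
`Kum/EChart1.lean` (exchange the two coordinates): the target is
`T = {w | ‖w.1‖ * (1 + ‖w.2‖ ^ 2) < r}`; the inverse is
`w ↦ (mk (e.symm (√w₁ w₂, √w₁)), χ - A, A * conj w₂)`, where
`χ = 1 - ‖w₁‖ (1 + ‖w₂‖²) / r`, `A = χ / (1 + ‖w₂‖²)`. On `S2`:
`(sl y)⁻¹ = conj κ / (χ - α)`. -/
theorem exists_chart2 [T2Space Z] (e : {e : Z // K.τ e = e}) :
    ∃ f : OpenPartialHomeomorph K.KSet (ℂ × ℂ),
      f.source = K.S2 e ∧ ∀ y ∈ K.S2 e, f y = (K.v2 e (K.bd y), (K.sl y)⁻¹) := by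
  classical
  set b := K.b e with hb
  have hmem0 : ((K.qm e.1, 0, 0) : K.Q × ℝ × ℂ) ∈ K.KSet := by
    right
    exact ⟨K.qm_mem_fixQ.2 e.2, by simp⟩
  let rt : ℂ → ℂ := fun z => z ^ (((2 : ℕ) : ℂ)⁻¹)
  have hrt : ∀ z, rt z ^ 2 = z := fun z => Complex.cpow_nat_inv_pow z two_ne_zero
  let Y : ℂ × ℂ → ℂ × ℂ := fun w => (rt w.1 * w.2, rt w.1)
  let h : ℂ × ℂ → ℝ := fun w => ‖w.1‖ * (1 + ‖w.2‖ ^ 2)
  have hh : Continuous h := by
    change Continuous (fun w : ℂ × ℂ => ‖w.1‖ * (1 + ‖w.2‖ ^ 2))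
    fun_prop
  let T : Set (ℂ × ℂ) := {w | h w < b.r}
  let X : ℂ × ℂ → K.Q := fun w => K.qm (b.e.symm (Y w))
  let B : ℂ × ℂ → ℝ := fun w => (1 - h w / b.r) / (1 + ‖w.2‖ ^ 2)
  have hT : IsOpen T := isOpen_lt hh continuous_const
  have hq : ∀ w, q2 (Y w) = h w := by
    intro w
    change ‖rt w.1 * w.2‖ ^ 2 + ‖rt w.1‖ ^ 2 = ‖w.1‖ * (1 + ‖w.2‖ ^ 2)
    have h1 : ‖w.1‖ = ‖rt w.1‖ ^ 2 := by rw [← norm_pow, hrt]
    rw [norm_mul, h1]
    ring
  have htgt : ∀ w ∈ T, Y w ∈ b.e.target := fun w hw => b.ball _ (by rw [hq]; exact le_of_lt hw)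
  have hsrc : ∀ w ∈ T, b.e.symm (Y w) ∈ b.e.source := fun w hw => b.e.map_target (htgt w hw)
  have heX : ∀ w ∈ T, b.e (b.e.symm (Y w)) = Y w := fun w hw => b.e.right_inv (htgt w hw)
  have hD : ∀ w ∈ T, b.e.symm (Y w) ∈ b.D := by
    intro w hw
    refine ⟨hsrc w hw, ?_⟩
    rw [heX w hw, hq]
    exact hw
  have hDQ : ∀ w ∈ T, X w ∈ K.DQ e := fun w hw => ⟨_, hD w hw, rfl⟩
  have hchi : ∀ w ∈ T, K.chi (X w) = 1 - h w / b.r := by
    intro w hw
    change K.chiZ (b.e.symm (Y w)) = _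
    rw [K.chiZ_eq (hsrc w hw), ← hb, b.chi_mem (hD w hw), heX w hw, hq]
  have hpos : ∀ w : ℂ × ℂ, 0 < 1 + ‖w.2‖ ^ 2 := fun w => by positivity
  have hY0 : ∀ w : ℂ × ℂ, Y w = 0 ↔ w.1 = 0 := by
    intro w
    constructor
    · intro h0
      have h1 : rt w.1 = 0 := congrArg Prod.snd h0
      rw [← hrt w.1, h1]
      simp
    · intro h0
      have h1 : rt w.1 ^ 2 = 0 := by rw [hrt, h0]
      have h2 : rt w.1 = 0 := by simpa using h1
      change (rt w.1 * w.2, rt w.1) = 0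
      rw [h2, zero_mul]
      rfl
  have hfix : ∀ w ∈ T, (K.τ (b.e.symm (Y w)) = b.e.symm (Y w) ↔ w.1 = 0) := by
    intro w hw
    rw [← hY0]
    constructor
    · intro h1
      have h2 := K.e_fix e (hsrc w hw) h1
      rw [← hb, heX w hw] at h2
      exact h2
    · intro h1
      apply K.fix_of_e e (hsrc w hw)
      rw [← hb, heX w hw, h1]
  have hmem : ∀ w ∈ T, ((X w, B w * ‖w.2‖ ^ 2, (B w : ℂ) * conj w.2) : K.Q × ℝ × ℂ) ∈ K.KSet := by
    intro w hw
    have hp := hpos w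
    by_cases h0 : w.1 = 0
    · right
      refine ⟨K.qm_mem_fixQ.2 ((hfix w hw).2 h0), ?_⟩
      have hB : B w = 1 / (1 + ‖w.2‖ ^ 2) := by
        change (1 - ‖w.1‖ * (1 + ‖w.2‖ ^ 2) / b.r) / (1 + ‖w.2‖ ^ 2) = _
        rw [h0]
        simp
      change ‖(B w : ℂ) * conj w.2‖ ^ 2 = B w * ‖w.2‖ ^ 2 * (1 - B w * ‖w.2‖ ^ 2)
      rw [norm_mul, RCLike.norm_conj, Complex.norm_real, mul_pow, Real.norm_eq_abs, sq_abs, hB]
      field_simp
      ring
    · left
      have hs : rt w.1 ≠ 0 := by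
        intro h1
        apply h0
        rw [← hrt w.1, h1]
        simp
      have hne : ¬ K.τ (b.e.symm (Y w)) = b.e.symm (Y w) := fun h1 => h0 ((hfix w hw).1 h1)
      have hc : b.chi (b.e.symm (Y w)) = 1 - h w / b.r := by
        rw [b.chi_mem (hD w hw), heX w hw, hq]
      refine ⟨fun h1 => hne (K.qm_mem_fixQ.1 h1), ?_, ?_⟩
      · change B w * ‖w.2‖ ^ 2 = K.alZ (b.e.symm (Y w))
        rw [K.alZ_eq (hsrc w hw), ← hb]
        unfold BData.al
        rw [hc, heX w hw]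
        change (1 - h w / b.r) / (1 + ‖w.2‖ ^ 2) * ‖w.2‖ ^ 2 =
          (1 - h w / b.r) * ‖rt w.1 * w.2‖ ^ 2 / (‖rt w.1 * w.2‖ ^ 2 + ‖rt w.1‖ ^ 2)
        rw [norm_mul]
        have hn : ‖rt w.1‖ ≠ 0 := norm_ne_zero_iff.2 hs
        generalize 1 - h w / b.r = χ
        have hden : (‖rt w.1‖ * ‖w.2‖) ^ 2 + ‖rt w.1‖ ^ 2 = ‖rt w.1‖ ^ 2 * (1 + ‖w.2‖ ^ 2) := by
          ring
        rw [hden]
        field_simp
      · change (B w : ℂ) * conj w.2 = K.kaZ (b.e.symm (Y w))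
        rw [K.kaZ_eq (hsrc w hw), ← hb]
        unfold BData.ka
        rw [hc, heX w hw]
        change (((1 - h w / b.r) / (1 + ‖w.2‖ ^ 2) : ℝ) : ℂ) * conj w.2 =
          ((1 - h w / b.r : ℝ) : ℂ) * (conj (rt w.1 * w.2) * rt w.1) /
            ((‖rt w.1 * w.2‖ ^ 2 + ‖rt w.1‖ ^ 2 : ℝ) : ℂ)
        rw [norm_mul, map_mul]
        generalize 1 - h w / b.r = χ
        generalize hsw : rt w.1 = s at hs
        have hden : (‖s‖ * ‖w.2‖) ^ 2 + ‖s‖ ^ 2 = ‖s‖ ^ 2 * (1 + ‖w.2‖ ^ 2) := by ring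
        rw [hden]
        have hn : ((‖s‖ : ℂ)) ^ 2 = s * conj s := (Complex.mul_conj' _).symm
        have hcu : conj s ≠ 0 := by simpa using hs
        have hpc : (1 + (‖w.2‖ : ℂ) ^ 2) ≠ 0 := by exact_mod_cast hp.ne'
        push_cast
        rw [hn]
        field_simp
  let g : ℂ × ℂ → K.KSet := fun w => if hw : w ∈ T then ⟨_, hmem w hw⟩ else ⟨_, hmem0⟩
  have hg : ∀ w ∈ T, (g w).1 = (X w, B w * ‖w.2‖ ^ 2, (B w : ℂ) * conj w.2) := by
    intro w hw
    simp only [g, dif_pos hw]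
  have hBchi : ∀ w ∈ T, K.chi (X w) = B w * (1 + ‖w.2‖ ^ 2) := by
    intro w hw
    have hp := hpos w
    rw [hchi w hw]
    change _ = (1 - h w / b.r) / (1 + ‖w.2‖ ^ 2) * (1 + ‖w.2‖ ^ 2)
    rw [div_mul_cancel₀ _ hp.ne']
  have hB0 : ∀ w ∈ T, B w ≠ 0 := by
    intro w hw h1
    have h2 : 0 < 1 - h w / b.r := by
      have : h w / b.r < 1 := (div_lt_one b.hr).2 hw
      linarith
    have h3 := hBchi w hw
    rw [h1, zero_mul, hchi w hw] at h3
    exact h2.ne' h3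
  have hgS : ∀ w ∈ T, g w ∈ K.S2 e := by
    intro w hw
    refine ⟨?_, ?_⟩
    · change (g w).1.1 ∈ K.DQ e
      rw [hg w hw]
      exact hDQ w hw
    · change K.chi (g w).1.1 - (g w).1.2.1 ≠ 0
      rw [hg w hw]
      change K.chi (X w) - B w * ‖w.2‖ ^ 2 ≠ 0
      rw [hBchi w hw]
      have := hB0 w hw
      have h2 : B w * (1 + ‖w.2‖ ^ 2) - B w * ‖w.2‖ ^ 2 = B w := by ring
      rw [h2]
      exact this
  let F : K.KSet → ℂ × ℂ := fun y =>
    (K.v2 e (K.bd y), conj y.1.2.2 / ((K.chi (K.bd y) - y.1.2.1 : ℝ) : ℂ))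
  have hF : ∀ y ∈ K.S2 e, F y = (K.v2 e (K.bd y), (K.sl y)⁻¹) := by
    intro y hy
    change (_, _) = _
    rw [K.inv_sl2 hy]
  have hv2 : ∀ x ∈ b.D, K.v2 e (K.qm x) = (b.e x).2 ^ 2 := by
    intro x hx
    change K.v2Z e x = _
    unfold v2Z
    rw [if_pos hx.1]
  -- a representative of a point of `S2`
  have hrep : ∀ y ∈ K.S2 e, ∃ x ∈ b.D, K.qm x = K.bd y ∧
      b.e x = ((K.sl y)⁻¹ * (b.e x).2, (b.e x).2) ∧ h (F y) = q2 (b.e x) ∧
      (Y (F y) = b.e x ∨ Y (F y) = -b.e x) := by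
    intro y hy
    obtain ⟨x, hx, hxy⟩ := hy.1
    have h1 := K.sl_inv_mul2 hy hx hxy
    have h2 : F y = ((b.e x).2 ^ 2, (K.sl y)⁻¹) := by
      rw [hF y hy, ← hxy, hv2 x hx]
    refine ⟨x, hx, hxy, Prod.ext h1 rfl, ?_, ?_⟩
    · rw [h2]
      change ‖(b.e x).2 ^ 2‖ * (1 + ‖(K.sl y)⁻¹‖ ^ 2) = ‖(b.e x).1‖ ^ 2 + ‖(b.e x).2‖ ^ 2
      rw [h1, norm_pow, norm_mul]
      ring
    · rw [h2]
      change (rt ((b.e x).2 ^ 2) * (K.sl y)⁻¹, rt ((b.e x).2 ^ 2)) = _ ∨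
        (rt ((b.e x).2 ^ 2) * (K.sl y)⁻¹, rt ((b.e x).2 ^ 2)) = _
      rcases sq_eq_sq_iff_eq_or_eq_neg.1 (hrt ((b.e x).2 ^ 2)) with h3 | h3
      · left
        rw [h3]
        apply Prod.ext
        · change (b.e x).2 * (K.sl y)⁻¹ = (b.e x).1
          rw [h1, mul_comm]
        · rfl
      · right
        rw [h3]
        apply Prod.ext
        · change -(b.e x).2 * (K.sl y)⁻¹ = -(b.e x).1
          rw [h1]
          ring
        · rfl
  have hmap : ∀ y ∈ K.S2 e, F y ∈ T := by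
    intro y hy
    obtain ⟨x, hx, _, _, h4, _⟩ := hrep y hy
    change h (F y) < b.r
    rw [h4]
    exact hx.2
  have hXF : ∀ y ∈ K.S2 e, X (F y) = y.1.1 := by
    intro y hy
    obtain ⟨x, hx, hxy, _, _, h5⟩ := hrep y hy
    change K.qm (b.e.symm (Y (F y))) = K.bd y
    rw [← hxy]
    rcases h5 with h5 | h5
    · rw [h5, b.e.left_inv hx.1]
    · rw [h5, hb, K.qm_symm_neg ((K.b e).e.map_source hx.1), (K.b e).e.left_inv hx.1]
  refine ⟨{
    toFun := F
    invFun := g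
    source := K.S2 e
    target := T
    map_source' := hmap
    map_target' := hgS
    left_inv' := ?_
    right_inv' := ?_
    open_source := K.S2_open e
    open_target := hT
    continuousOn_toFun := ?_
    continuousOn_invFun := ?_ }, rfl, hF⟩
  · intro y hy
    have hyT := hmap y hy
    apply Subtype.ext
    rw [hg _ hyT]
    have hk := K.kap y.2
    change ‖y.1.2.2‖ ^ 2 = y.1.2.1 * (K.chi (K.bd y) - y.1.2.1) at hk
    have h0 : K.chi (K.bd y) - y.1.2.1 ≠ 0 := hy.2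
    have h0c : ((K.chi (K.bd y) - y.1.2.1 : ℝ) : ℂ) ≠ 0 := by exact_mod_cast h0
    have hX := hXF y hy
    have hn1 : ‖(F y).2‖ ^ 2 = y.1.2.1 / (K.chi (K.bd y) - y.1.2.1) := by
      change ‖conj y.1.2.2 / ((K.chi (K.bd y) - y.1.2.1 : ℝ) : ℂ)‖ ^ 2 = _
      rw [norm_div, RCLike.norm_conj, Complex.norm_real, div_pow, hk, Real.norm_eq_abs, sq_abs]
      field_simp
    have hc0 : K.chi (K.bd y) ≠ 0 := by
      intro hc
      have h1 := hBchi (F y) hyT
      rw [hX] at h1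
      change K.chi (K.bd y) = _ at h1
      rw [hc] at h1
      have h2 := hpos (F y)
      rcases mul_eq_zero.1 h1.symm with h3 | h3
      · exact hB0 _ hyT h3
      · exact h2.ne' h3
    have hB : B (F y) = K.chi (K.bd y) - y.1.2.1 := by
      have h1 := hBchi (F y) hyT
      rw [hX, hn1] at h1
      change K.chi (K.bd y) = B (F y) * (1 + y.1.2.1 / (K.chi (K.bd y) - y.1.2.1)) at h1
      have h2 : 1 + y.1.2.1 / (K.chi (K.bd y) - y.1.2.1) =
          K.chi (K.bd y) / (K.chi (K.bd y) - y.1.2.1) := by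
        field_simp
        ring
      rw [h2] at h1
      field_simp at h1
      linarith
    rw [hX, hB, hn1]
    change (y.1.1, (K.chi (K.bd y) - y.1.2.1) * (y.1.2.1 / (K.chi (K.bd y) - y.1.2.1)),
      ((K.chi (K.bd y) - y.1.2.1 : ℝ) : ℂ) *
        conj (conj y.1.2.2 / ((K.chi (K.bd y) - y.1.2.1 : ℝ) : ℂ))) = y.1
    rw [mul_div_cancel₀ _ h0, map_div₀, Complex.conj_conj, Complex.conj_ofReal,
      mul_div_cancel₀ _ h0c]
  · intro w hw
    have hB := hB0 w hw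
    have hBc : ((B w : ℝ) : ℂ) ≠ 0 := by exact_mod_cast hB
    change (K.v2 e (g w).1.1, conj (g w).1.2.2 / ((K.chi (g w).1.1 - (g w).1.2.1 : ℝ) : ℂ)) = w
    rw [hg w hw]
    change (K.v2 e (K.qm (b.e.symm (Y w))),
      conj ((B w : ℂ) * conj w.2) / ((K.chi (X w) - B w * ‖w.2‖ ^ 2 : ℝ) : ℂ)) = w
    have h2 : K.chi (X w) - B w * ‖w.2‖ ^ 2 = B w := by
      rw [hBchi w hw]
      ring
    rw [h2, map_mul, Complex.conj_conj, Complex.conj_ofReal, mul_div_cancel_left₀ _ hBc,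
      hv2 _ (hD w hw), heX w hw]
    change (rt w.1 ^ 2, w.2) = w
    rw [hrt]
  · apply ContinuousOn.prodMk
    · exact (K.v2_contOn e).comp K.bd_continuous.continuousOn (fun y hy => hy.1)
    · apply ContinuousOn.div
      · exact (Complex.continuous_conj.comp
          (continuous_snd.comp (continuous_snd.comp continuous_subtype_val))).continuousOn
      · exact (Complex.continuous_ofReal.comp ((K.chi_cont.comp K.bd_continuous).sub
          (continuous_fst.comp (continuous_snd.comp continuous_subtype_val)))).continuousOn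
      · intro y hy
        have : K.chi (K.bd y) - y.1.2.1 ≠ 0 := hy.2
        exact_mod_cast this
  · rw [Topology.IsInducing.subtypeVal.continuousOn_iff]
    have hX : ContinuousOn X T := by
      apply sq_descent hT
      have h1 : ContinuousOn (fun w : ℂ × ℂ => K.qm (b.e.symm (w.1 * w.2, w.1)))
          {w | (w.1 ^ 2, w.2) ∈ T} := by
        apply K.qm_open.continuous.comp_continuousOn
        apply b.e.continuousOn_symm.comp
        · fun_prop
        · intro w hw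
          apply b.ball
          have h2 : ‖w.1 ^ 2‖ * (1 + ‖w.2‖ ^ 2) < b.r := hw
          rw [norm_pow] at h2
          change ‖w.1 * w.2‖ ^ 2 + ‖w.1‖ ^ 2 ≤ b.r
          rw [norm_mul]
          nlinarith
      apply h1.congr
      intro w hw
      change K.qm (b.e.symm (rt (w.1 ^ 2) * w.2, rt (w.1 ^ 2))) = _
      have h3 : (w.1 * w.2, w.1) ∈ (K.b e).e.target := by
        apply b.ball
        have h2 : ‖w.1 ^ 2‖ * (1 + ‖w.2‖ ^ 2) < b.r := hw
        rw [norm_pow] at h2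
        change ‖w.1 * w.2‖ ^ 2 + ‖w.1‖ ^ 2 ≤ b.r
        rw [norm_mul]
        nlinarith
      rcases sq_eq_sq_iff_eq_or_eq_neg.1 (hrt (w.1 ^ 2)) with h4 | h4
      · rw [h4]
      · rw [h4]
        have h5 : ((-w.1 * w.2, -w.1) : ℂ × ℂ) = -(w.1 * w.2, w.1) := by
          rw [Prod.neg_mk, neg_mul]
        rw [h5]
        exact K.qm_symm_neg h3
    have hB : Continuous B := by
      change Continuous (fun w : ℂ × ℂ => (1 - h w / b.r) / (1 + ‖w.2‖ ^ 2))
      apply Continuous.div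
      · apply continuous_const.sub
        apply Continuous.div_const
        exact hh
      · fun_prop
      · intro w
        exact (hpos w).ne'
    have h : ContinuousOn (fun w : ℂ × ℂ =>
        ((X w, B w * ‖w.2‖ ^ 2, (B w : ℂ) * conj w.2) : K.Q × ℝ × ℂ)) T := by
      apply hX.prodMk
      apply ContinuousOn.prodMk
      · exact (hB.mul (by fun_prop)).continuousOn
      · exact ((Complex.continuous_ofReal.comp hB).mul
          (Complex.continuous_conj.comp continuous_snd)).continuousOn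
    exact h.congr (fun w hw => hg w hw)

end KD

end Pool.Agent.Kum
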