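import Pool.Agent.Lib.MP_1d980c_gt.Kum.EFun

/-! Continuity of the functions on the quotient. -/

set_option autoImplicit false
open Topology Complex ComplexConjugate Pool.Agent.S4T2 Pool.Agent.BlowC
open scoped Manifold ContDiff

namespace Pool.Agent.Kum

namespace KD

variable {Z : Type} [TopologicalSpace Z] (K : KD Z)

private theorem ec_ne {x : Z} (h : K.τ x ≠ x) (e : {e : Z // K.τ e = e}) : x ≠ (K.b e).p := by
  intro h'
  rw [K.hp e] at h'
  rw [h'] at h
  exact h e.2

private theorem ec_sum {A : Type} [TopologicalSpace A] [AddCommMonoid A] [ContinuousAdd A]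
    {f : {e : Z // K.τ e = e} → Z → A} {x : Z} (h : ∀ e, ContinuousAt (f e) x) :
    ContinuousAt (fun y => ∑ᶠ e, f e y) x := by
  haveI := K.fin
  haveI := Fintype.ofFinite {e : Z // K.τ e = e}
  have h1 : (fun y => ∑ᶠ e, f e y) = fun y => ∑ e, f e y := by
    funext y
    exact finsum_eq_sum_of_fintype _
  rw [h1]
  exact tendsto_finsetSum _ (fun e _ => h e)

theorem alZ_cont [T2Space Z] {x : Z} (h : K.τ x ≠ x) : ContinuousAt K.alZ x :=
  K.ec_sum fun e => (K.b e).al_continuousOn.continuousAt
    (isOpen_ne.mem_nhds (K.ec_ne h e))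

theorem kaZ_cont [T2Space Z] {x : Z} (h : K.τ x ≠ x) : ContinuousAt K.kaZ x :=
  K.ec_sum fun e => (K.b e).ka_continuousOn.continuousAt
    (isOpen_ne.mem_nhds (K.ec_ne h e))

/-- a finite sum of continuous functions, and `K.qm` is a quotient map. -/
theorem chi_cont [T2Space Z] : Continuous K.chi := by
  have h1 : Continuous K.chiZ := by
    rw [continuous_iff_continuousAt]
    intro x
    exact K.ec_sum fun e => (K.b e).chi_continuous.continuousAt
  exact h1.quotient_lift _

/-- `al` of each chart is continuous at the points different from its centre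
(`BData.al_continuousOn`), and `IsOpenQuotientMap.continuousAt_comp_iff`. -/
theorem al_cont [T2Space Z] {q : K.Q} (h : q ∉ K.FixQ) : ContinuousAt K.al q := by
  obtain ⟨x, rfl⟩ := K.qm_open.surjective q
  have h1 : K.τ x ≠ x := fun h' => h (K.qm_mem_fixQ.2 h')
  rw [← K.qm_open.continuousAt_comp_iff]
  exact K.alZ_cont h1

theorem ka_cont [T2Space Z] {q : K.Q} (h : q ∉ K.FixQ) : ContinuousAt K.ka q := by
  obtain ⟨x, rfl⟩ := K.qm_open.surjective q
  have h1 : K.τ x ≠ x := fun h' => h (K.qm_mem_fixQ.2 h')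
  rw [← K.qm_open.continuousAt_comp_iff]
  exact K.kaZ_cont h1

end KD

end Pool.Agent.Kum
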