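import Pool.Agent.Lib.MP_1d980c_gt.Kum.KDefs
import Pool.Agent.Lib.MP_1d980c_gt.Blow.BSpace
import Pool.Agent.Lib.MP_1d980c_gt.Blow.Loc

/-! The space of the resolution, as a subspace of `(Z / τ) × ℝ × ℂ`: definitions. -/

set_option autoImplicit false
open Topology Complex ComplexConjugate Pool.Agent.S4T2 Pool.Agent.BlowC
open scoped Manifold ContDiff

namespace Pool.Agent.Kum

theorem q2_neg (w : ℂ × ℂ) : q2 (-w) = q2 w := by simp [q2]

/-- An involution with finitely many fixed points and odd charts (with values in `ℂ²`) at the fixed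
points, with disjoint domains. -/
structure KD (Z : Type) [TopologicalSpace Z] where
  τ : Z → Z
  cont : Continuous τ
  invo : ∀ x, τ (τ x) = x
  fin : Finite {e : Z // τ e = e}
  b : {e : Z // τ e = e} → BData Z
  hp : ∀ e, (b e).p = e.1
  sym : ∀ e, ∀ x ∈ (b e).e.source, τ x ∈ (b e).e.source ∧ (b e).e (τ x) = -(b e).e x
  dis : ∀ e e' x, x ∈ (b e).e.source → x ∈ (b e').e.source → e = e'

namespace KD

variable {Z : Type} [TopologicalSpace Z] (K : KD Z)

/-- the equivalence relation. -/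
def S : Setoid Z where
  r x y := y = x ∨ y = K.τ x
  iseqv := by
    refine ⟨fun x => Or.inl rfl, ?_, ?_⟩
    · rintro x y (rfl | rfl)
      · exact Or.inl rfl
      · exact Or.inr (K.invo x).symm
    · rintro x y z (rfl | rfl) (rfl | rfl)
      · exact Or.inl rfl
      · exact Or.inr rfl
      · exact Or.inr rfl
      · exact Or.inl (K.invo x)

/-- the quotient `Z / τ`. -/
abbrev Q : Type := Quotient K.S

/-- the quotient map. -/
def qm (x : Z) : K.Q := Quotient.mk K.S x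

theorem qm_eq {x y : Z} : K.qm x = K.qm y ↔ y = x ∨ y = K.τ x := Quotient.eq (r := K.S)

theorem qm_tau (x : Z) : K.qm (K.τ x) = K.qm x := (K.qm_eq.2 (Or.inr rfl)).symm

theorem source_tau (e : {e : Z // K.τ e = e}) (x : Z) :
    K.τ x ∈ (K.b e).e.source ↔ x ∈ (K.b e).e.source := by
  constructor
  · intro h
    have := (K.sym e _ h).1
    rwa [K.invo] at this
  · intro h
    exact (K.sym e _ h).1

theorem D_tau (e : {e : Z // K.τ e = e}) (x : Z) : K.τ x ∈ (K.b e).D ↔ x ∈ (K.b e).D := by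
  constructor
  · rintro ⟨h1, h2⟩
    have h3 := (K.source_tau e x).1 h1
    rw [(K.sym e x h3).2, q2_neg] at h2
    exact ⟨h3, h2⟩
  · rintro ⟨h1, h2⟩
    refine ⟨(K.source_tau e x).2 h1, ?_⟩
    rw [(K.sym e x h1).2, q2_neg]
    exact h2

theorem chi_tau (e : {e : Z // K.τ e = e}) (x : Z) : (K.b e).chi (K.τ x) = (K.b e).chi x := by
  by_cases h : x ∈ (K.b e).D
  · rw [(K.b e).chi_mem h, (K.b e).chi_mem ((K.D_tau e x).2 h), (K.sym e x h.1).2, q2_neg]
  · rw [(K.b e).chi_not_mem h, (K.b e).chi_not_mem (fun h' => h ((K.D_tau e x).1 h'))]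

theorem al_tau (e : {e : Z // K.τ e = e}) (x : Z) : (K.b e).al (K.τ x) = (K.b e).al x := by
  unfold BData.al
  rw [K.chi_tau]
  by_cases h : x ∈ (K.b e).D
  · rw [(K.sym e x h.1).2, q2_neg, Prod.fst_neg, norm_neg]
  · rw [(K.b e).chi_not_mem h]
    simp

theorem ka_tau (e : {e : Z // K.τ e = e}) (x : Z) : (K.b e).ka (K.τ x) = (K.b e).ka x := by
  unfold BData.ka
  rw [K.chi_tau]
  by_cases h : x ∈ (K.b e).D
  · rw [(K.sym e x h.1).2, q2_neg, Prod.fst_neg, Prod.snd_neg, map_neg, neg_mul_neg]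
  · rw [(K.b e).chi_not_mem h]
    simp

noncomputable def chiZ (x : Z) : ℝ := ∑ᶠ e, (K.b e).chi x
noncomputable def alZ (x : Z) : ℝ := ∑ᶠ e, (K.b e).al x
noncomputable def kaZ (x : Z) : ℂ := ∑ᶠ e, (K.b e).ka x

theorem chiZ_tau (x : Z) : K.chiZ (K.τ x) = K.chiZ x := by simp only [chiZ, K.chi_tau]
theorem alZ_tau (x : Z) : K.alZ (K.τ x) = K.alZ x := by simp only [alZ, K.al_tau]
theorem kaZ_tau (x : Z) : K.kaZ (K.τ x) = K.kaZ x := by simp only [kaZ, K.ka_tau]

private theorem lft {A : Type} {f : Z → A} (h : ∀ x, f (K.τ x) = f x) (x y : Z)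
    (hxy : K.S.r x y) : f x = f y := by
  rcases hxy with rfl | rfl
  · rfl
  · exact (h x).symm

noncomputable def chi : K.Q → ℝ := Quotient.lift K.chiZ (K.lft K.chiZ_tau)
noncomputable def al : K.Q → ℝ := Quotient.lift K.alZ (K.lft K.alZ_tau)
noncomputable def ka : K.Q → ℂ := Quotient.lift K.kaZ (K.lft K.kaZ_tau)

theorem chi_mk (x : Z) : K.chi (K.qm x) = K.chiZ x := rfl
theorem al_mk (x : Z) : K.al (K.qm x) = K.alZ x := rfl
theorem ka_mk (x : Z) : K.ka (K.qm x) = K.kaZ x := rfl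

open Classical in
noncomputable def u2Z (e : {e : Z // K.τ e = e}) (x : Z) : ℂ :=
  if x ∈ (K.b e).e.source then ((K.b e).e x).1 ^ 2 else 0

open Classical in
noncomputable def v2Z (e : {e : Z // K.τ e = e}) (x : Z) : ℂ :=
  if x ∈ (K.b e).e.source then ((K.b e).e x).2 ^ 2 else 0

theorem u2Z_tau (e : {e : Z // K.τ e = e}) (x : Z) : K.u2Z e (K.τ x) = K.u2Z e x := by
  unfold u2Z
  by_cases h : x ∈ (K.b e).e.source
  · rw [if_pos h, if_pos ((K.source_tau e x).2 h), (K.sym e x h).2, Prod.fst_neg, neg_sq]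
  · rw [if_neg h, if_neg (fun h' => h ((K.source_tau e x).1 h'))]

theorem v2Z_tau (e : {e : Z // K.τ e = e}) (x : Z) : K.v2Z e (K.τ x) = K.v2Z e x := by
  unfold v2Z
  by_cases h : x ∈ (K.b e).e.source
  · rw [if_pos h, if_pos ((K.source_tau e x).2 h), (K.sym e x h).2, Prod.snd_neg, neg_sq]
  · rw [if_neg h, if_neg (fun h' => h ((K.source_tau e x).1 h'))]

/-- the function `u ^ 2` near the fixed point `e`. -/
noncomputable def u2 (e : {e : Z // K.τ e = e}) : K.Q → ℂ :=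
  Quotient.lift (K.u2Z e) (K.lft (K.u2Z_tau e))

/-- the function `v ^ 2` near the fixed point `e`. -/
noncomputable def v2 (e : {e : Z // K.τ e = e}) : K.Q → ℂ :=
  Quotient.lift (K.v2Z e) (K.lft (K.v2Z_tau e))

theorem u2_mk (e : {e : Z // K.τ e = e}) (x : Z) : K.u2 e (K.qm x) = K.u2Z e x := rfl
theorem v2_mk (e : {e : Z // K.τ e = e}) (x : Z) : K.v2 e (K.qm x) = K.v2Z e x := rfl

/-- the images of the fixed points. -/
def FixQ : Set K.Q := {q | ∃ e, K.τ e = e ∧ q = K.qm e}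

/-- the resolution. -/
def KSet : Set (K.Q × ℝ × ℂ) :=
  {y | (y.1 ∉ K.FixQ ∧ y.2.1 = K.al y.1 ∧ y.2.2 = K.ka y.1) ∨
    (y.1 ∈ K.FixQ ∧ ‖y.2.2‖ ^ 2 = y.2.1 * (1 - y.2.1))}

/-- the projection to `Z / τ`. -/
def bd (y : K.KSet) : K.Q := y.1.1

/-- the slope `v / u`. -/
noncomputable def sl (y : K.KSet) : ℂ := y.1.2.2 / (y.1.2.1 : ℂ)

/-- the domain near the fixed point `e`. -/
def DQ (e : {e : Z // K.τ e = e}) : Set K.Q := K.qm '' (K.b e).D

/-- the domain of the chart of finite slopes. -/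
def S1 (e : {e : Z // K.τ e = e}) : Set K.KSet := {y | K.bd y ∈ K.DQ e ∧ y.1.2.1 ≠ 0}

/-- the domain of the chart of nonzero slopes. -/
def S2 (e : {e : Z // K.τ e = e}) : Set K.KSet :=
  {y | K.bd y ∈ K.DQ e ∧ K.chi (K.bd y) - y.1.2.1 ≠ 0}

theorem qm_mem_fixQ {x : Z} : K.qm x ∈ K.FixQ ↔ K.τ x = x := by
  constructor
  · rintro ⟨e, he, h⟩
    rcases K.qm_eq.1 h with rfl | rfl
    · exact he
    · rw [K.invo] at he
      exact he.symm
  · intro h
    exact ⟨x, h, rfl⟩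

open Classical in
/-- the point of the resolution over the regular point `x`. -/
noncomputable def p (x : Z) : K.KSet :=
  if h : K.τ x = x then ⟨(K.qm x, 0, 0), Or.inr ⟨K.qm_mem_fixQ.2 h, by simp⟩⟩ else
    ⟨(K.qm x, K.alZ x, K.kaZ x), Or.inl ⟨fun h' => h (K.qm_mem_fixQ.1 h'), rfl, rfl⟩⟩

theorem p_val {x : Z} (h : K.τ x ≠ x) : (K.p x).1 = (K.qm x, K.alZ x, K.kaZ x) := by
  unfold p
  rw [dif_neg h]

/-- the values of `(α, κ)` at the points of the exceptional curve. -/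
noncomputable def kv : OnePoint ℂ → ℝ × ℂ
  | none => (0, 0)
  | some a => ((1 + ‖a‖ ^ 2)⁻¹, a * ((1 + ‖a‖ ^ 2 : ℝ) : ℂ)⁻¹)

theorem kv_mem (a : OnePoint ℂ) : ‖(kv a).2‖ ^ 2 = (kv a).1 * (1 - (kv a).1) := by
  rcases a with _ | a
  · simp [kv]
  · have h : (0 : ℝ) < 1 + ‖a‖ ^ 2 := by positivity
    simp only [kv]
    rw [norm_mul, norm_inv, Complex.norm_real, Real.norm_eq_abs, abs_of_pos h]
    field_simp
    ring

open Classical in
/-- the exceptional curve over the fixed point `e`. -/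
noncomputable def k (e : Z) (a : OnePoint ℂ) : K.KSet :=
  if h : K.τ e = e then ⟨(K.qm e, kv a), Or.inr ⟨K.qm_mem_fixQ.2 h, kv_mem a⟩⟩ else K.p e

theorem k_val {e : Z} (h : K.τ e = e) (a : OnePoint ℂ) : (K.k e a).1 = (K.qm e, kv a) := by
  unfold k
  rw [dif_pos h]

theorem bd_continuous : Continuous K.bd := continuous_fst.comp continuous_subtype_val

end KD

end Pool.Agent.Kum
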