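import Pool.Agent.Lib.MP_1d980c_gt.Kum.KDefs
import Pool.Agent.Lib.MP_1d980c_gt.Blow.Loc

/-! Global coordinate functions along one exceptional curve. -/

set_option autoImplicit false
open Topology Complex ComplexConjugate Pool.Agent.S4T2 Pool.Agent.BlowC
open scoped Manifold ContDiff

namespace Pool.Agent.Kum

variable {EZ HZ Z M : Type} [NormedAddCommGroup EZ] [NormedSpace ℝ EZ] [FiniteDimensional ℝ EZ]
  [TopologicalSpace HZ]
  {IZ : ModelWithCorners ℝ EZ HZ} [IZ.Boundaryless] [TopologicalSpace Z] [ChartedSpace HZ Z]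
  [IsManifold IZ ∞ Z]
  [TopologicalSpace M] [ChartedSpace E4 M] [IsManifold (𝓡 4) ∞ M]

private theorem kf_coord_congr {M : Type} [TopologicalSpace M] [ChartedSpace E4 M]
    {α0 β0 α β : M → ℂ} {x : M} (h : CoordAt α0 β0 x)
    (he : ∀ᶠ y in 𝓝 x, α y = α0 y ∧ β y = β0 y) : CoordAt α β x := by
  have h1 : (fun y => (α y, β y)) =ᶠ[𝓝 x] fun y => (α0 y, β0 y) := by
    filter_upwards [he] with y hy
    rw [hy.1, hy.2]
  have h2 : ∀ᶠ z in 𝓝 x, (fun y => (α y, β y)) =ᶠ[𝓝 z] fun y => (α0 y, β0 y) :=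
    h1.eventuallyEq_nhds
  refine ⟨?_, ?_⟩
  · filter_upwards [h.1, h2] with z hz hz2
    exact hz.congr_of_eventuallyEq hz2
  · rw [h1.mfderiv_eq]
    exact h.2

private theorem kf_inv_inj {b b' : ℂ} (h : inv b = inv b') : b = b' := by
  unfold inv at h
  split_ifs at h with h1 h2 h2
  · rw [h1, h2]
  · exact absurd h.symm (OnePoint.coe_ne_infty _)
  · exact absurd h (OnePoint.coe_ne_infty _)
  · exact inv_injective (OnePoint.coe_injective h)

/-- one half of the construction -/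
private theorem kf_half {Z M : Type} [TopologicalSpace Z] [TopologicalSpace M] [ChartedSpace E4 M]
    {τ : Z → Z} {s t : Z → ℂ} {p : Z → M} {κ : ℂ → M} {e : Z} {V : Set Z}
    (hinj : Function.Injective κ) (hdisj : ∀ a x, τ x ≠ x → p x ≠ κ a)
    (fib : ∀ x y, τ x ≠ x → τ y ≠ y → (p x = p y ↔ y = x ∨ y = τ x)) (hV : V ∈ 𝓝 e)
    (hodd : ∀ x ∈ V, s (τ x) = -s x ∧ t (τ x) = -t x)
    (hnear : ∀ a, Near τ p e s t κ a) :
    ∃ α β : M → ℂ, (∀ a, α (κ a) = 0 ∧ β (κ a) = a ∧ CoordAt α β (κ a)) ∧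
      (∀ x ∈ V, τ x ≠ x → α (p x) = s x ^ 2 ∧ β (p x) = t x / s x) ∧
      (∀ W ∈ 𝓝 e, ∀ a : ℂ, ∀ᶠ y in 𝓝 (κ a),
        (∃ a' : ℂ, y = κ a') ∨ ∃ x ∈ W, τ x ≠ x ∧ p x = y ∧ s x ≠ 0) := by
  classical
  let P : M → Prop := fun y => ∃ x, x ∈ V ∧ τ x ≠ x ∧ p x = y
  let Q : M → Prop := fun y => ∃ a : ℂ, y = κ a
  let α : M → ℂ := fun y => if h : P y then s h.choose ^ 2 else 0
  let β : M → ℂ := fun y => if h : P y then t h.choose / s h.choose else
    if h2 : Q y then h2.choose else 0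
  have hval : ∀ x ∈ V, τ x ≠ x → α (p x) = s x ^ 2 ∧ β (p x) = t x / s x := by
    intro x hx hτ
    have hP : P (p x) := ⟨x, hx, hτ, rfl⟩
    have e1 : α (p x) = s hP.choose ^ 2 := dif_pos hP
    have e2 : β (p x) = t hP.choose / s hP.choose := dif_pos hP
    rw [e1, e2]
    obtain ⟨h1, h2, h3⟩ := hP.choose_spec
    have h4 := (fib _ _ hτ h2).1 h3.symm
    rcases h4 with h4 | h4
    · rw [h4]
      exact ⟨rfl, rfl⟩
    · rw [h4, (hodd x hx).1, (hodd x hx).2]
      exact ⟨by ring, neg_div_neg_eq _ _⟩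
  have hcurve : ∀ a, α (κ a) = 0 ∧ β (κ a) = a := by
    intro a
    have hP : ¬ P (κ a) := by
      rintro ⟨x, -, hτ, hx⟩
      exact hdisj a x hτ hx
    have hQ : Q (κ a) := ⟨a, rfl⟩
    have e1 : α (κ a) = 0 := dif_neg hP
    have e2 : β (κ a) = hQ.choose := by
      show (if h : P (κ a) then _ else _) = _
      rw [dif_neg hP, dif_pos hQ]
    refine ⟨e1, ?_⟩
    rw [e2]
    exact (hinj hQ.choose_spec).symm
  refine ⟨α, β, fun a => ⟨(hcurve a).1, (hcurve a).2, ?_⟩, hval, fun W hW a => ?_⟩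
  · obtain ⟨α0, β0, hc, hn⟩ := hnear a
    refine kf_coord_congr hc ?_
    filter_upwards [hn V hV] with y hy
    rcases hy with ⟨h1, h2⟩ | ⟨x, hx, hτ, rfl, h3, h4, h5⟩
    · have h6 := hcurve (β0 y)
      rw [← h2] at h6
      exact ⟨h6.1.trans h1.symm, h6.2⟩
    · obtain ⟨h6, h7⟩ := hval x hx hτ
      refine ⟨h6.trans h3.symm, ?_⟩
      rw [h7, h4]
      field_simp
  · obtain ⟨α0, β0, hc, hn⟩ := hnear a
    filter_upwards [hn W hW] with y hy
    rcases hy with ⟨h1, h2⟩ | ⟨x, hx, hτ, h3, h4, h5, h6⟩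
    · exact Or.inl ⟨_, h2⟩
    · exact Or.inr ⟨x, hx, hτ, h3, h6⟩

/-- Existence of the coordinate functions. On `p x` with `x` near `e` (and `τ x ≠ x`) the functions
`s ^ 2`, `t / s`, `t ^ 2`, `s / t` of `x` are invariant under `τ`, by oddness, so choose
representatives: on the set `{p x | x ∈ V, τ x ≠ x}`, with `V` open, `τ`-invariant in the sense
that `hodd` holds on `V`, define the four functions by the value at any `x ∈ V` (if `x, x' ∈ V` and
`p x = p x'`, then `x' = x` or `x' = τ x` by `fib`); on the curve put `α (k a) = 0`,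
`β (k a) = a`, `β (k ∞) = 0`, `α' (k a) = 0`, `β' (k (inv b)) = b`, `β' (k 0) = 0`, and `0`
elsewhere. Then `Near` says that near `k a` the two functions agree with the local coordinates
`α, β` given there (for `Near` at `k a` use `V` as the neighbourhood of `e`), which gives
`CoordAt` (congruence of germs) and the two `near` statements. The primed ones come from `near'`,
with `s` and `t` exchanged. Use `kinj` and `disj` for the well-definedness. -/
theorem exists_kf {τ : Z → Z} {s t : Z → Z → ℂ} {p : Z → M} {k : Z → OnePoint ℂ → M}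
    (h : IsKum IZ τ s t p k) {e : Z} (he : τ e = e)
    (hodd : ∀ᶠ x in 𝓝 e, s e (τ x) = -s e x ∧ t e (τ x) = -t e x) :
    ∃ (α β α' β' : M → ℂ) (V : Set Z), KF τ e (s e) (t e) p (k e) α β α' β' V := by
  set V : Set Z := {x | s e (τ x) = -s e x ∧ t e (τ x) = -t e x} with hVdef
  have hV : V ∈ 𝓝 e := hodd
  have hi1 : Function.Injective (fun a : ℂ => k e (a : OnePoint ℂ)) := fun a a' haa =>
    OnePoint.coe_injective (h.kinj e e _ _ he he haa).2
  have hi2 : Function.Injective (fun b : ℂ => k e (inv b)) := fun b b' hbb =>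
    kf_inv_inj (h.kinj e e _ _ he he hbb).2
  obtain ⟨α, β, h1, h2, h3⟩ := kf_half (κ := fun a : ℂ => k e (a : OnePoint ℂ)) hi1
    (fun a x hx => h.disj e _ x he hx) h.fib hV (fun x hx => hx) (h.near e he)
  obtain ⟨α', β', h1', h2', h3'⟩ := kf_half (κ := fun b : ℂ => k e (inv b)) hi2
    (fun a x hx => h.disj e _ x he hx) h.fib hV (fun x hx => ⟨hx.2, hx.1⟩) (h.near' e he)
  refine ⟨α, β, α', β', V, hV, h1, h1', fun x hx hτ => ?_, h3, h3'⟩
  exact ⟨(h2 x hx hτ).1, (h2 x hx hτ).2, (h2' x hx hτ).1, (h2' x hx hτ).2⟩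

end Pool.Agent.Kum
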