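import Pool.Agent.Lib.MP_1d980c_gt.Kum.WProd
import Pool.Agent.Lib.MP_1d980c_gt.Blow.BaseBridgeB

/-! Odd dimensional spheres: germs. -/

set_option autoImplicit false
open Topology Complex ComplexConjugate Pool.Agent.S4T2 Pool.Agent.BlowC
open scoped Manifold ContDiff

namespace Pool.Agent.Kum

/-- the germs on an odd dimensional sphere. -/
def SG (p : ℕ) (u : Sn (2 * p + 1)) : Set ((Sn (2 * p + 1) → ℂ) × (Sn (2 * p + 1) → (Fin p → ℂ))) :=
  {δ | ∃ d ∈ GO p (eO p u.1), δ = (fun u' => d.1 (eO p u'.1), fun u' => d.2 (eO p u'.1))}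

/-- From `oddGerms p` (`S4/Odd.lean`), `sph_smooth` and `sph_deriv` (`S4/Bridge.lean`), compare
`bridge_holGerms` in `Blow/BaseBridgeB.lean`; `exists_eO p` (see `eO`) says that `eO p` maps the
unit sphere to `SO p` and tangent vectors to tangent vectors. `opn`: the condition
`c * u j ∈ slitPlane` in `GO` is open. -/
theorem sgerms (p : ℕ) : SGerms (𝓡 (2 * p + 1)) (SG p) := by
  have hmem : ∀ u : Sn (2 * p + 1), eO p u.1 ∈ SO p := fun u =>
    ((exists_eO p).choose_spec.1 _).2 (mem_sphere_zero_iff_norm.1 u.2)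
  have hsm : ContMDiff (𝓡 (2 * p + 1)) 𝓘(ℝ, Fin (p + 1) → ℂ) ∞
      (fun u : Sn (2 * p + 1) => eO p u.1) := sph_smooth (2 * p + 1) (eO p)
  have hct : ∀ u : Sn (2 * p + 1), Filter.Tendsto (fun u' : Sn (2 * p + 1) => eO p u'.1) (𝓝 u)
      (𝓝 (eO p u.1)) := fun u => hsm.continuous.tendsto u
  have hG := oddGerms p
  have hopn : ∀ v : Fin (p + 1) → ℂ, ∀ d ∈ GO p v, ∀ᶠ v' in 𝓝 v, d ∈ GO p v' := by
    rintro v d ⟨j, c, hc, hj, rfl⟩
    have hcont : Continuous (fun v' : Fin (p + 1) → ℂ => c * v' j) :=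
      continuous_const.mul (continuous_apply j)
    have := hcont.continuousAt.eventually_mem (isOpen_slitPlane.mem_nhds hj)
    filter_upwards [this] with v' hv'
    exact ⟨j, c, hc, hv', rfl⟩
  -- derivative formula
  have hdm : ∀ (F : Type) [NormedAddCommGroup F] [NormedSpace ℝ F] (f : (Fin (p + 1) → ℂ) → F)
      (u : Sn (2 * p + 1)), DifferentiableAt ℝ f (eO p u.1) →
      ∀ (D : EuclideanSpace ℝ (Fin (2 * p + 1)) →L[ℝ] (Fin (p + 1) → ℂ)),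
      HasMFDerivAt (𝓡 (2 * p + 1)) 𝓘(ℝ, Fin (p + 1) → ℂ)
        (fun y : Sn (2 * p + 1) => eO p (y : EuclideanSpace ℝ (Fin (2 * p + 1 + 1)))) u D →
      ∀ ξ, dm (𝓡 (2 * p + 1)) (fun u' : Sn (2 * p + 1) => f (eO p u'.1)) u ξ =
        fderiv ℝ f (eO p u.1) (D ξ) := by
    intro F _ _ f u hf D hD ξ
    have hm := hf.hasFDerivAt.hasMFDerivAt.comp u hD
    have hm' : mfderiv (𝓡 (2 * p + 1)) 𝓘(ℝ, F) (fun u' : Sn (2 * p + 1) => f (eO p u'.1)) u =
      (fderiv ℝ f (eO p u.1)).comp D := hm.mfderiv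
    unfold dm
    rw [hm']
    rfl
  refine ⟨?_, ?_, ?_, ?_, ?_, ?_⟩
  · intro u
    obtain ⟨d, hd, -⟩ := hG.ex _ (hmem u)
    exact ⟨_, d, hd, rfl⟩
  · rintro u δ ⟨d, hd, rfl⟩
    filter_upwards [(hct u).eventually (hopn _ d hd)] with u' hu'
    exact ⟨d, hu', rfl⟩
  · rintro u δ ⟨d, hd, rfl⟩
    have c1 : ContMDiffAt (𝓡 (2 * p + 1)) 𝓘(ℝ, ℂ) ∞
        (fun u' : Sn (2 * p + 1) => d.1 (eO p u'.1)) u :=
      (hG.smooth_b _ (hmem u) d hd).contMDiffAt.comp u (hsm u)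
    have c2 : ContMDiffAt (𝓡 (2 * p + 1)) 𝓘(ℝ, Fin p → ℂ) ∞
        (fun u' : Sn (2 * p + 1) => d.2 (eO p u'.1)) u :=
      (hG.smooth_r _ (hmem u) d hd).contMDiffAt.comp u (hsm u)
    exact ⟨c1, c2⟩
  · rintro u δ ⟨d, hd, rfl⟩ ξ hξ
    obtain ⟨D, hD, hDi, hDo⟩ := sph_deriv (2 * p + 1) (eO p) u
    have s1 := (hG.smooth_b _ (hmem u) d hd).differentiableAt (by simp)
    have s2 := (hG.smooth_r _ (hmem u) d hd).differentiableAt (by simp)
    have e1 := hdm _ d.1 u s1 D hD ξ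
    have e2 := hdm _ d.2 u s2 D hD ξ
    have ht : TanO p (eO p u.1) (D ξ) := by
      obtain ⟨v, hv, hv2⟩ := hDo ξ
      rw [hv]
      exact ((exists_eO p).choose_spec.2 _ _).2 hv2
    have := hG.real _ (hmem u) d hd (D ξ) ht (e2.symm.trans hξ)
    exact (congrArg Complex.im e1).trans this
  · rintro u δ ⟨d, hd, rfl⟩ ξ hξ hb
    obtain ⟨D, hD, hDi, hDo⟩ := sph_deriv (2 * p + 1) (eO p) u
    have s1 := (hG.smooth_b _ (hmem u) d hd).differentiableAt (by simp)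
    have s2 := (hG.smooth_r _ (hmem u) d hd).differentiableAt (by simp)
    have e1 := hdm _ d.1 u s1 D hD ξ
    have e2 := hdm _ d.2 u s2 D hD ξ
    have ht : TanO p (eO p u.1) (D ξ) := by
      obtain ⟨v, hv, hv2⟩ := hDo ξ
      rw [hv]
      exact ((exists_eO p).choose_spec.2 _ _).2 hv2
    exact hDi _ (hG.inj _ (hmem u) d hd (D ξ) ht (e2.symm.trans hξ) (e1.symm.trans hb))
  · rintro u δ ⟨d, hd, rfl⟩ δ' ⟨d', hd', rfl⟩
    obtain ⟨g, H, hg, hH, ev⟩ := hG.trans _ (hmem u) d hd d' hd'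
    exact ⟨g, H, hg, hH, (hct u).eventually ev⟩

end Pool.Agent.Kum
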