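import Pool.Agent.Lib.MP_1d980c_gt.Kum.KStep
import Pool.Agent.Lib.MP_1d980c_gt.Kum.KFun
import Pool.Agent.Lib.MP_1d980c_gt.Kum.AGerms
import Pool.Agent.Lib.MP_1d980c_gt.Kum.WSph
import Pool.Agent.Lib.MP_1d980c_gt.Kum.AOdd

/-! The theorem for a given resolution. -/

set_option autoImplicit false
open Topology Complex ComplexConjugate Pool.Agent.S4T2 Pool.Agent.BlowC
open scoped Manifold ContDiff

namespace Pool.Agent.Kum

variable {C : Type} [TopologicalSpace C] [ChartedSpace ℂ C] [IsManifold 𝓘(ℂ) ∞ C] [T2Space C]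
  {σ : C → C} {g : C → ℂ}

theorem IsKum.kfam (hg : OddFun σ g) {X : Type} [TopologicalSpace X] [ChartedSpace E4 X]
    [IsManifold (𝓡 4) ∞ X] {p : C × Circle × Circle → X}
    {k : C × Circle × Circle → OnePoint ℂ → X} (h : IsKum IC (tau σ) (sK g) (tK g) p k) :
    ∃ (α β α' β' : C × Circle × Circle → X → ℂ) (V : C × Circle × Circle → Set (C × Circle × Circle)),
      KFam (tau σ) (sK g) (tK g) p k α β α' β' V := by
  classical
  have := isManifold_real C
  have key : ∀ e, ∃ (α β α' β' : X → ℂ) (V : Set (C × Circle × Circle)), tau σ e = e →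
      KF (tau σ) e (sK g e) (tK g e) p (k e) α β α' β' V := by
    intro e
    by_cases he : tau σ e = e
    · obtain ⟨α, β, α', β', V, hV⟩ := exists_kf h he (st_odd hg he)
      exact ⟨α, β, α', β', V, fun _ => hV⟩
    · exact ⟨0, 0, 0, 0, ∅, fun h => absurd h he⟩
  choose α β α' β' V hV using key
  exact ⟨α, β, α', β', V, ⟨hV⟩⟩

/-- the resolution times two odd spheres is a complex manifold. -/
theorem IsKum.isComplex (hg : OddFun σ g) {X : Type} [TopologicalSpace X] [ChartedSpace E4 X]
    [IsManifold (𝓡 4) ∞ X] [T2Space X] {π : C × Circle × Circle → X}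
    {k : C × Circle × Circle → OnePoint ℂ → X} (h : IsKum IC (tau σ) (sK g) (tK g) π k) (p q : ℕ) :
    IsComplex (p + q + 3) ((𝓡 4).prod (JZ p q)) (X × Sn (2 * p + 1) × Sn (2 * q + 1)) := by
  have := isManifold_real C
  obtain ⟨α, β, α', β', V, hF⟩ := h.kfam hg
  have hG := kgerms hg (wgerms_prod (sgerms p) (sgerms q))
  have hH := kstep (tau_cont hg) (tau_tau hg) h hF hG
  obtain ⟨T⟩ := exists_tgt p q
  have hdim : Module.finrank ℝ (E4 × EuclideanSpace ℝ (Fin (2 * p + 1)) ×
      EuclideanSpace ℝ (Fin (2 * q + 1))) = 2 * (p + q + 3) := by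
    rw [Module.finrank_prod, Module.finrank_prod, finrank_euclideanSpace_fin,
      finrank_euclideanSpace_fin, finrank_euclideanSpace_fin]
    ring
  exact complex_of_holGerms T hdim hH

end Pool.Agent.Kum
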