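import Pool.Agent.Lib.MP_1d980c_gt.Kum.EMain
import Pool.Agent.Lib.MP_1d980c_gt.Kum.KMain

/-! Existence of the resolution of `(C × T²) / ± 1`. -/

set_option autoImplicit false
open Topology Complex ComplexConjugate Pool.Agent.S4T2 Pool.Agent.BlowC
open scoped Manifold ContDiff

namespace Pool.Agent.Kum

variable {C : Type} [TopologicalSpace C] [ChartedSpace ℂ C] [IsManifold 𝓘(ℂ) ∞ C] [T2Space C]
  [CompactSpace C] {σ : C → C} {g : C → ℂ}

theorem exists_kummer (hg : OddFun σ g) :
    ∃ (M : Type) (_ : TopologicalSpace M) (_ : ChartedSpace E4 M) (p : C × Circle × Circle → M)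
      (k : C × Circle × Circle → OnePoint ℂ → M), IsManifold (𝓡 4) ∞ M ∧ T2Space M ∧
      CompactSpace M ∧ IsKum IC (tau σ) (sK g) (tK g) p k := by
  have := isManifold_real C
  have hdim : Module.finrank ℝ (ℂ × EuclideanSpace ℝ (Fin 1) × EuclideanSpace ℝ (Fin 1)) = 4 := by
    rw [Module.finrank_prod, Module.finrank_prod, finrank_euclideanSpace_fin,
      Complex.finrank_real_complex]
  exact exists_kum hdim (tau_smooth hg) (tau_tau hg) (fix_finite hg) (fun e he => st_odd hg he)
    (fun e he => st_zero hg he) (fun e he => st_coord hg he)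

end Pool.Agent.Kum
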