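import Pool.Agent.Lib.MP_1d980c_gt.Kum.EQuot

/-! The functions `chi`, `al`, `ka` on the quotient. -/

set_option autoImplicit false
open Topology Complex ComplexConjugate Pool.Agent.S4T2 Pool.Agent.BlowC
open scoped Manifold ContDiff

namespace Pool.Agent.Kum

namespace KD

variable {Z : Type} [TopologicalSpace Z] (K : KD Z)

private theorem efun_al {N : Type} [TopologicalSpace N] (b : BData N) {x : N} (h : x ∉ b.D) :
    b.al x = 0 := by
  unfold BData.al
  rw [b.chi_not_mem h, zero_mul, zero_div]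

private theorem efun_ka {N : Type} [TopologicalSpace N] (b : BData N) {x : N} (h : x ∉ b.D) :
    b.ka x = 0 := by
  unfold BData.ka
  rw [b.chi_not_mem h, Complex.ofReal_zero, zero_mul, zero_div]

private theorem efun_other {e e' : {e : Z // K.τ e = e}} {x : Z} (h : x ∈ (K.b e).e.source)
    (hne : e' ≠ e) : x ∉ (K.b e').D := fun h' => hne (K.dis e' e x h'.1 h)

/-- the other terms of the finite sum vanish (`chi = 0` outside `D`, `dis`). -/
theorem chiZ_eq {e : {e : Z // K.τ e = e}} {x : Z} (h : x ∈ (K.b e).e.source) :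
    K.chiZ x = (K.b e).chi x :=
  finsum_eq_single _ e fun _ hne => (K.b _).chi_not_mem (K.efun_other h hne)

theorem alZ_eq {e : {e : Z // K.τ e = e}} {x : Z} (h : x ∈ (K.b e).e.source) :
    K.alZ x = (K.b e).al x :=
  finsum_eq_single _ e fun _ hne => efun_al _ (K.efun_other h hne)

theorem kaZ_eq {e : {e : Z // K.τ e = e}} {x : Z} (h : x ∈ (K.b e).e.source) :
    K.kaZ x = (K.b e).ka x :=
  finsum_eq_single _ e fun _ hne => efun_ka _ (K.efun_other h hne)

theorem chiZ_zero {x : Z} (h : ∀ e, x ∉ (K.b e).D) : K.chiZ x = 0 ∧ K.alZ x = 0 ∧ K.kaZ x = 0 :=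
  ⟨finsum_eq_zero_of_forall_eq_zero fun e => (K.b e).chi_not_mem (h e),
    finsum_eq_zero_of_forall_eq_zero fun e => efun_al _ (h e),
    finsum_eq_zero_of_forall_eq_zero fun e => efun_ka _ (h e)⟩

theorem chiZ_fix {x : Z} (h : K.τ x = x) : K.chiZ x = 1 := by
  have h1 := K.hp ⟨x, h⟩
  have h2 := (K.b ⟨x, h⟩).hp
  rw [h1] at h2
  rw [K.chiZ_eq h2]
  have h3 := (K.b ⟨x, h⟩).chi_p
  rwa [h1] at h3

theorem chiZ_mem (x : Z) : 0 ≤ K.chiZ x ∧ K.chiZ x ≤ 1 := by
  by_cases h : ∃ e, x ∈ (K.b e).D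
  · obtain ⟨e, he⟩ := h
    rw [K.chiZ_eq he.1]
    refine ⟨(K.b e).chi_nonneg x, ?_⟩
    rw [(K.b e).chi_mem he]
    have h1 : 0 ≤ q2 ((K.b e).e x) / (K.b e).r :=
      div_nonneg (add_nonneg (sq_nonneg _) (sq_nonneg _)) (K.b e).hr.le
    linarith
  · push Not at h
    rw [(K.chiZ_zero h).1]
    exact ⟨le_rfl, zero_le_one⟩

/-- for a regular point; on `D` this is an identity in `chi, al, ka` of the chart
(compare `BData.kap`). -/
theorem kapZ {x : Z} (h : K.τ x ≠ x) : ‖K.kaZ x‖ ^ 2 = K.alZ x * (K.chiZ x - K.alZ x) := by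
  by_cases hD : ∃ e, x ∈ (K.b e).D
  · obtain ⟨e, he⟩ := hD
    rw [K.chiZ_eq he.1, K.alZ_eq he.1, K.kaZ_eq he.1]
    have hne : x ≠ (K.b e).p := by
      rintro rfl
      rw [K.hp e] at h
      exact h e.2
    exact (K.b e).kap (z := (x, (K.b e).al x, (K.b e).ka x)) (Or.inl ⟨hne, rfl, rfl⟩)
  · push Not at hD
    obtain ⟨h1, h2, h3⟩ := K.chiZ_zero hD
    rw [h1, h2, h3]
    simp

end KD

end Pool.Agent.Kum
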