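import Pool.Agent.Lib.MP_1d980c_gt.Kum.EChart1
import Pool.Agent.Lib.MP_1d980c_gt.Kum.EChart2
import Pool.Agent.Lib.MP_1d980c_gt.Blow.BGDefs

/-! The germs of charts of the resolution. -/

set_option autoImplicit false
open Topology Complex ComplexConjugate Pool.Agent.S4T2 Pool.Agent.BlowC
open scoped Manifold ContDiff

namespace Pool.Agent.Kum

namespace KD

variable {EZ HZ Z : Type} [NormedAddCommGroup EZ] [NormedSpace ℝ EZ]
  [TopologicalSpace HZ] (IZ : ModelWithCorners ℝ EZ HZ) [TopologicalSpace Z] [ChartedSpace HZ Z]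
  (K : KD Z)

/-- the chart of finite slopes. -/
noncomputable def c1 (e : {e : Z // K.τ e = e}) (y : K.KSet) : E4 :=
  T4 (K.u2 e (K.bd y), K.sl y)

/-- the chart of nonzero slopes. -/
noncomputable def c2 (e : {e : Z // K.τ e = e}) (y : K.KSet) : E4 :=
  T4 (K.v2 e (K.bd y), (K.sl y)⁻¹)

/-- the family of germs. -/
def GmE (y : K.KSet) : Set (K.KSet → E4) :=
  {g | (∃ x, K.τ x ≠ x ∧ K.p x = y ∧ ∃ f : Z → E4, ContMDiffAt IZ 𝓘(ℝ, E4) ∞ f x ∧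
      Function.Bijective (mfderiv IZ 𝓘(ℝ, E4) f x) ∧ ∀ᶠ x' in 𝓝 x, g (K.p x') = f x') ∨
    (∃ e, y ∈ K.S1 e ∧ g = K.c1 e) ∨ (∃ e, y ∈ K.S2 e ∧ g = K.c2 e)}

/-- compatibility of the data with the smooth structure. -/
structure KSm : Prop where
  τ : ContMDiff IZ IZ ∞ K.τ
  sm : ∀ e, ∀ x ∈ (K.b e).e.source, ContMDiffAt IZ 𝓘(ℝ, ℂ × ℂ) ∞ (K.b e).e x ∧
    Function.Bijective (mfderiv IZ 𝓘(ℝ, ℂ × ℂ) (K.b e).e x)
  dim : Module.finrank ℝ EZ = 4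

end KD

end Pool.Agent.Kum
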