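import Pool.Agent.Lib.MP_1d980c_gt.Kum.EGDefs

/-! Relations between germs at the regular points. -/

set_option autoImplicit false
open Topology Complex ComplexConjugate Pool.Agent.S4T2 Pool.Agent.BlowC
open scoped Manifold ContDiff

namespace Pool.Agent.Kum

namespace KD

variable {EZ HZ Z : Type} [NormedAddCommGroup EZ] [NormedSpace ℝ EZ] [FiniteDimensional ℝ EZ]
  [TopologicalSpace HZ] {IZ : ModelWithCorners ℝ EZ HZ} [IZ.Boundaryless] [TopologicalSpace Z]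
  [ChartedSpace HZ Z] [IsManifold IZ ∞ Z] [T2Space Z] {K : KD Z}

/-- if `f` is a local diffeomorphism at `x` and `f'` is smooth at `x`, `g ∘ p = f`,
`g' ∘ p = f'` near `x`, then `g'` is a smooth function of `g` near `p x`. -/
theorem relS_p {x : Z} (hx : K.τ x ≠ x) {g g' : K.KSet → E4} {f f' : Z → E4}
    (h1 : ContMDiffAt IZ 𝓘(ℝ, E4) ∞ f x) (h2 : Function.Bijective (mfderiv IZ 𝓘(ℝ, E4) f x))
    (h3 : ContMDiffAt IZ 𝓘(ℝ, E4) ∞ f' x) (hg : ∀ᶠ x' in 𝓝 x, g (K.p x') = f x')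
    (hg' : ∀ᶠ x' in 𝓝 x, g' (K.p x') = f' x') : RelS (K.p x) g g' := by
  obtain ⟨e, he1, he2, he3⟩ := exists_local_inv_at h1 h2
  obtain ⟨φ, hφ1, hφ2⟩ := K.p_loc hx
  have hgx : g (K.p x) = f x := hg.self_of_nhds
  have hsym : e.symm (f x) = x := by
    rw [← he2 _ he1]
    exact e.left_inv he1
  refine ⟨fun w => f' (e.symm w), ?_, ?_⟩
  · rw [hgx, ← contMDiffAt_iff_contDiffAt]
    refine ContMDiffAt.comp (I' := IZ) (f x) (g := f') (f := e.symm) ?_ he3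
    rw [hsym]
    exact h3
  · have hpx : φ x = K.p x := (hφ2 x hφ1).1
    have hc : Filter.Tendsto φ.symm (𝓝 (K.p x)) (𝓝 x) := by
      have h4 := φ.continuousAt_symm (φ.map_source hφ1)
      rw [ContinuousAt, φ.left_inv hφ1, hpx] at h4
      exact h4
    have ht : φ.target ∈ 𝓝 (K.p x) := by
      rw [← hpx]
      exact φ.open_target.mem_nhds (φ.map_source hφ1)
    filter_upwards [hc.eventually hg, hc.eventually hg', hc.eventually
      (e.open_source.mem_nhds he1), ht] with y' k1 k2 k3 k4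
    have h5 : K.p (φ.symm y') = y' := by
      rw [← (hφ2 _ (φ.map_target k4)).1]
      exact φ.right_inv k4
    rw [h5] at k1 k2
    rw [k2, k1, ← he2 _ k3, e.left_inv k3]

/-- two regular germs: the points are equal or exchanged by `τ` (`p_fib`); in the second case
replace `f'` by `f' ∘ τ`. -/
theorem relS_reg (h : K.KSm IZ) {y : K.KSet} {g g' : K.KSet → E4}
    (hg : ∃ x, K.τ x ≠ x ∧ K.p x = y ∧ ∃ f : Z → E4, ContMDiffAt IZ 𝓘(ℝ, E4) ∞ f x ∧
      Function.Bijective (mfderiv IZ 𝓘(ℝ, E4) f x) ∧ ∀ᶠ x' in 𝓝 x, g (K.p x') = f x')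
    (hg' : ∃ x, K.τ x ≠ x ∧ K.p x = y ∧ ∃ f : Z → E4, ContMDiffAt IZ 𝓘(ℝ, E4) ∞ f x ∧
      Function.Bijective (mfderiv IZ 𝓘(ℝ, E4) f x) ∧ ∀ᶠ x' in 𝓝 x, g' (K.p x') = f x') :
    RelS y g g' := by
  obtain ⟨x, hx, rfl, f, hf1, hf2, hf3⟩ := hg
  obtain ⟨x', hx', hxx, f', hf1', hf2', hf3'⟩ := hg'
  rcases (K.p_fib hx hx').1 hxx.symm with rfl | rfl
  · exact relS_p hx hf1 hf2 hf1' hf3 hf3'
  · have hτ : ContMDiffAt IZ IZ ∞ K.τ x := h.τ x
    have h1 : ContMDiffAt IZ 𝓘(ℝ, E4) ∞ (fun z => f' (K.τ z)) x :=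
      ContMDiffAt.comp (I' := IZ) x (g := f') (f := K.τ) hf1' hτ
    refine relS_p hx hf1 hf2 h1 hf3 ?_
    have hne : ∀ᶠ z in 𝓝 x, K.τ z ≠ z := by
      have hcl : IsClosed {z | K.τ z = z} := isClosed_eq K.cont continuous_id
      exact hcl.isOpen_compl.mem_nhds hx
    filter_upwards [hne, K.cont.continuousAt.eventually hf3'] with z k1 k2
    rw [← k2]
    congr 1
    refine (K.p_fib k1 ?_).2 (Or.inr rfl)
    rw [K.invo]
    exact fun h => k1 h.symm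

end KD

end Pool.Agent.Kum
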