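import Pool.Agent.Lib.MP_1d980c_gt.Kum.EGDefs

/-! The charts along the curve are local diffeomorphisms at the regular points. -/

set_option autoImplicit false
open Topology Complex ComplexConjugate Pool.Agent.S4T2 Pool.Agent.BlowC
open scoped Manifold ContDiff

namespace Pool.Agent.Kum

private theorem egc_cd {a b : ℂ × ℂ → ℂ} {w : ℂ × ℂ} (ha : ContDiffAt ℝ ∞ a w)
    (hb : ContDiffAt ℝ ∞ b w) (h0 : a w ≠ 0) :
    ContDiffAt ℝ ∞ (fun w => T4 (a w ^ 2, b w / a w)) w := by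
  have h1 : ContDiffAt ℝ ∞ (fun w => (a w ^ 2, b w / a w)) w := by
    refine (ha.pow 2).prodMk ?_
    simp only [div_eq_mul_inv]
    exact hb.mul (ha.inv h0)
  exact T4.contDiff.contDiffAt.comp w h1

private theorem egc_bij {a b : (ℂ × ℂ) →L[ℝ] ℂ} {w : ℂ × ℂ} (h0 : a w ≠ 0)
    (hab : ∀ h, a h = 0 → b h = 0 → h = 0) :
    Function.Bijective (fderiv ℝ (fun w => T4 (a w ^ 2, b w / a w)) w) := by
  have hcd := egc_cd (a := a) (b := b) (w := w) a.contDiff.contDiffAt b.contDiff.contDiffAt h0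
  set F : ℂ × ℂ → E4 := fun w => T4 (a w ^ 2, b w / a w) with hF
  have hF' : HasFDerivAt F (fderiv ℝ F w) w := (hcd.differentiableAt (by simp)).hasFDerivAt
  -- the composite with the inverse of `T4`
  have hP : HasFDerivAt (fun w => (a w ^ 2, b w / a w))
      ((T4.symm : E4 →L[ℝ] ℂ × ℂ).comp (fderiv ℝ F w)) w := by
    have h1 := (T4.symm : E4 →L[ℝ] ℂ × ℂ).hasFDerivAt.comp w hF'
    have h2 : (fun w => (a w ^ 2, b w / a w)) = (T4.symm : E4 →L[ℝ] ℂ × ℂ) ∘ F := by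
      funext w
      simp [hF]
    rw [h2]
    exact h1
  set D : (ℂ × ℂ) →L[ℝ] (ℂ × ℂ) := (T4.symm : E4 →L[ℝ] ℂ × ℂ).comp (fderiv ℝ F w) with hD
  have h1 : HasFDerivAt (fun w => a w ^ 2) ((ContinuousLinearMap.fst ℝ ℂ ℂ).comp D) w :=
    (ContinuousLinearMap.fst ℝ ℂ ℂ).hasFDerivAt.comp w hP
  have h2 : HasFDerivAt (fun w => b w / a w) ((ContinuousLinearMap.snd ℝ ℂ ℂ).comp D) w :=
    (ContinuousLinearMap.snd ℝ ℂ ℂ).hasFDerivAt.comp w hP
  have ha : HasFDerivAt (fun w => a w) a w := a.hasFDerivAt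
  have hb : HasFDerivAt (fun w => b w) b w := b.hasFDerivAt
  have h3 : HasFDerivAt (fun w => a w * a w) (a w • a + a w • a) w := ha.mul ha
  have h4 : (ContinuousLinearMap.fst ℝ ℂ ℂ).comp D = a w • a + a w • a := by
    refine h1.unique ?_
    simpa [sq] using h3
  have h5 : HasFDerivAt (fun w => b w / a w * a w)
      ((b w / a w) • a + a w • ((ContinuousLinearMap.snd ℝ ℂ ℂ).comp D)) w := h2.mul ha
  have h6 : (b w / a w) • a + a w • ((ContinuousLinearMap.snd ℝ ℂ ℂ).comp D) = b := by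
    refine h5.unique (hb.congr_of_eventuallyEq ?_)
    have h7 : ∀ᶠ w' in 𝓝 w, a w' ≠ 0 :=
      a.continuous.continuousAt.eventually (isOpen_ne.mem_nhds h0)
    filter_upwards [h7] with w' hw'
    exact div_mul_cancel₀ _ hw'
  have hinj : Function.Injective D := by
    refine (injective_iff_map_eq_zero D).2 fun h hh => ?_
    have k1 := DFunLike.congr_fun h4 h
    have k2 := DFunLike.congr_fun h6 h
    simp only [ContinuousLinearMap.comp_apply, ContinuousLinearMap.add_apply,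
      ContinuousLinearMap.smul_apply, hh, ContinuousLinearMap.coe_fst', ContinuousLinearMap.coe_snd',
      Prod.fst_zero, Prod.snd_zero, smul_eq_mul] at k1 k2
    have k3 : a h = 0 := by
      have : 2 * a w * a h = 0 := by rw [k1]; ring
      simpa [h0] using this
    refine hab h k3 ?_
    rw [← k2, k3]
    simp
  have hbij : Function.Bijective D :=
    ⟨hinj, (LinearMap.injective_iff_surjective (f := (D : (ℂ × ℂ) →ₗ[ℝ] (ℂ × ℂ)))).1 hinj⟩
  have hE : ∀ h, fderiv ℝ F w h = T4 (D h) := fun h => by simp [hD]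
  have : (fderiv ℝ F w : ℂ × ℂ → E4) = T4 ∘ D := funext hE
  rw [this]
  exact T4.bijective.comp hbij

namespace KD

variable {EZ HZ Z : Type} [NormedAddCommGroup EZ] [NormedSpace ℝ EZ] [FiniteDimensional ℝ EZ]
  [TopologicalSpace HZ] {IZ : ModelWithCorners ℝ EZ HZ} [IZ.Boundaryless] [TopologicalSpace Z]
  [ChartedSpace HZ Z] [IsManifold IZ ∞ Z] [T2Space Z] {K : KD Z}

omit [FiniteDimensional ℝ EZ] [IZ.Boundaryless] [IsManifold IZ ∞ Z] [T2Space Z] in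
private theorem egc_comp {g : Z → ℂ × ℂ} {F : ℂ × ℂ → E4} {x : Z}
    (hg : ContMDiffAt IZ 𝓘(ℝ, ℂ × ℂ) ∞ g x)
    (hg' : Function.Bijective (mfderiv IZ 𝓘(ℝ, ℂ × ℂ) g x))
    (hF : ContDiffAt ℝ ∞ F (g x)) (hF' : Function.Bijective (fderiv ℝ F (g x))) :
    ContMDiffAt IZ 𝓘(ℝ, E4) ∞ (F ∘ g) x ∧
      Function.Bijective (mfderiv IZ 𝓘(ℝ, E4) (F ∘ g) x) := by
  refine ⟨hF.contMDiffAt.comp x hg, ?_⟩
  rw [mfderiv_comp x (hF.contMDiffAt.mdifferentiableAt (by simp)) (hg.mdifferentiableAt (by simp)),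
    mfderiv_eq_fderiv]
  exact hF'.comp hg'

omit [IsManifold IZ ∞ Z] [IZ.Boundaryless] [FiniteDimensional ℝ EZ] in
private theorem egc_near {e : {e : Z // K.τ e = e}} {x : Z} (hx : K.τ x ≠ x)
    (hD : x ∈ (K.b e).D) : ∀ᶠ x' in 𝓝 x, K.τ x' ≠ x' ∧ x' ∈ (K.b e).D := by
  have h1 : IsOpen {x' | K.τ x' ≠ x'} := isOpen_ne_fun K.cont continuous_id
  filter_upwards [h1.mem_nhds hx, (K.b e).D_open.mem_nhds hD] with x' h2 h3
  exact ⟨h2, h3⟩

/-- At a regular point `p x ∈ S1 e` the germ `c1 e` is also a regular germ: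
`c1 e (p x') = T4 (u ^ 2, v / u)` near `x`, `(u, v) = (K.b e).e x'`, `u ≠ 0`: the map
`(u, v) ↦ (u ^ 2, v / u)` is a local diffeomorphism where `u ≠ 0`. (`x` or `τ x` is in `D`; by
symmetry of `D`, `x ∈ D`; use `p_S1`.) -/
theorem c1_reg (h : K.KSm IZ) {e : {e : Z // K.τ e = e}} {x : Z} (hx : K.τ x ≠ x)
    (hy : K.p x ∈ K.S1 e) : ∃ f : Z → E4, ContMDiffAt IZ 𝓘(ℝ, E4) ∞ f x ∧
      Function.Bijective (mfderiv IZ 𝓘(ℝ, E4) f x) ∧ ∀ᶠ x' in 𝓝 x, K.c1 e (K.p x') = f x' := by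
  have hD : x ∈ (K.b e).D := by
    have h1 := hy.1
    rwa [K.bd_p, K.qm_mem_DQ] at h1
  have hu : ((K.b e).e x).1 ≠ 0 := (K.p_S1 hx hD).1.1 hy
  obtain ⟨hs, hb⟩ := h.sm e x hD.1
  have h2 := egc_cd (a := ContinuousLinearMap.fst ℝ ℂ ℂ) (b := ContinuousLinearMap.snd ℝ ℂ ℂ)
    (w := (K.b e).e x) (ContinuousLinearMap.contDiff _).contDiffAt
    (ContinuousLinearMap.contDiff _).contDiffAt hu
  have h3 := egc_bij (a := ContinuousLinearMap.fst ℝ ℂ ℂ) (b := ContinuousLinearMap.snd ℝ ℂ ℂ)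
    (w := (K.b e).e x) hu (fun h k1 k2 => Prod.ext k1 k2)
  obtain ⟨h4, h5⟩ := egc_comp hs hb h2 h3
  refine ⟨_, h4, h5, ?_⟩
  have h6 : ∀ᶠ x' in 𝓝 x, ((K.b e).e x').1 ≠ 0 := by
    have : ContinuousAt (fun x' => ((K.b e).e x').1) x :=
      continuous_fst.continuousAt.comp hs.continuousAt
    exact this.eventually (isOpen_ne.mem_nhds hu)
  filter_upwards [egc_near hx hD, h6] with x' h7 h8
  have h9 := (K.p_S1 h7.1 h7.2).2 h8
  have h10 : K.u2 e (K.bd (K.p x')) = ((K.b e).e x').1 ^ 2 := by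
    rw [K.bd_p, K.u2_mk]
    unfold u2Z
    rw [if_pos h7.2.1]
  unfold c1
  rw [h9, h10]
  rfl

theorem c2_reg (h : K.KSm IZ) {e : {e : Z // K.τ e = e}} {x : Z} (hx : K.τ x ≠ x)
    (hy : K.p x ∈ K.S2 e) : ∃ f : Z → E4, ContMDiffAt IZ 𝓘(ℝ, E4) ∞ f x ∧
      Function.Bijective (mfderiv IZ 𝓘(ℝ, E4) f x) ∧ ∀ᶠ x' in 𝓝 x, K.c2 e (K.p x') = f x' := by
  have hD : x ∈ (K.b e).D := by
    have h1 := hy.1
    rwa [K.bd_p, K.qm_mem_DQ] at h1
  have hu : ((K.b e).e x).2 ≠ 0 := (K.p_S2 hx hD).1.1 hy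
  obtain ⟨hs, hb⟩ := h.sm e x hD.1
  have h2 := egc_cd (a := ContinuousLinearMap.snd ℝ ℂ ℂ) (b := ContinuousLinearMap.fst ℝ ℂ ℂ)
    (w := (K.b e).e x) (ContinuousLinearMap.contDiff _).contDiffAt
    (ContinuousLinearMap.contDiff _).contDiffAt hu
  have h3 := egc_bij (a := ContinuousLinearMap.snd ℝ ℂ ℂ) (b := ContinuousLinearMap.fst ℝ ℂ ℂ)
    (w := (K.b e).e x) hu (fun h k1 k2 => Prod.ext k2 k1)
  obtain ⟨h4, h5⟩ := egc_comp hs hb h2 h3
  refine ⟨_, h4, h5, ?_⟩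
  have h6 : ∀ᶠ x' in 𝓝 x, ((K.b e).e x').2 ≠ 0 := by
    have : ContinuousAt (fun x' => ((K.b e).e x').2) x :=
      continuous_snd.continuousAt.comp hs.continuousAt
    exact this.eventually (isOpen_ne.mem_nhds hu)
  filter_upwards [egc_near hx hD, h6] with x' h7 h8
  have h9 := (K.p_S2 h7.1 h7.2).2 h8
  have h10 : K.v2 e (K.bd (K.p x')) = ((K.b e).e x').2 ^ 2 := by
    rw [K.bd_p, K.v2_mk]
    unfold v2Z
    rw [if_pos h7.2.1]
  unfold c2
  rw [h9, h10]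
  rfl

end KD

end Pool.Agent.Kum
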