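import Pool.Agent.Lib.MP_1d980c_gt.Kum.EGDefs

/-! Relations between the charts along the curve. -/

set_option autoImplicit false
open Topology Complex ComplexConjugate Pool.Agent.S4T2 Pool.Agent.BlowC
open scoped Manifold ContDiff

namespace Pool.Agent.Kum

namespace KD

variable {EZ HZ Z : Type} [NormedAddCommGroup EZ] [NormedSpace ℝ EZ] [FiniteDimensional ℝ EZ]
  [TopologicalSpace HZ] {IZ : ModelWithCorners ℝ EZ HZ} [IZ.Boundaryless] [TopologicalSpace Z]
  [ChartedSpace HZ Z] [IsManifold IZ ∞ Z] [T2Space Z] {K : KD Z}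

private theorem sm_fst (w : E4) : ContDiffAt ℝ ∞ (fun w => (T4.symm w).1) w :=
  contDiff_fst.contDiffAt.comp w T4.symm.contDiff.contDiffAt

private theorem sm_snd (w : E4) : ContDiffAt ℝ ∞ (fun w => (T4.symm w).2) w :=
  contDiff_snd.contDiffAt.comp w T4.symm.contDiff.contDiffAt

private theorem relF_smooth {w : E4} (h : (T4.symm w).2 ≠ 0) :
    ContDiffAt ℝ ∞ (fun w => T4 ((T4.symm w).1 * (T4.symm w).2 ^ 2, (T4.symm w).2⁻¹)) w := by
  refine T4.contDiff.contDiffAt.comp w (ContDiffAt.prodMk ?_ ?_)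
  · exact (sm_fst w).mul ((sm_snd w).pow 2)
  · exact (sm_snd w).inv h

/-- `(v², 1 / sl) = (u² sl², 1 / sl)` (`v2_eq`). -/
theorem relS_12 {e : {e : Z // K.τ e = e}} {y : K.KSet} (h1 : y ∈ K.S1 e) (h2 : y ∈ K.S2 e) :
    RelS y (K.c1 e) (K.c2 e) := by
  refine ⟨fun w => T4 ((T4.symm w).1 * (T4.symm w).2 ^ 2, (T4.symm w).2⁻¹), ?_, ?_⟩
  · apply relF_smooth
    unfold c1
    rw [ContinuousLinearEquiv.symm_apply_apply]
    exact (K.v2_eq h1 h2).1
  · filter_upwards [(K.S1_open e).mem_nhds h1, (K.S2_open e).mem_nhds h2] with y' k1 k2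
    unfold c1 c2
    rw [ContinuousLinearEquiv.symm_apply_apply, (K.v2_eq k1 k2).2]

theorem relS_21 {e : {e : Z // K.τ e = e}} {y : K.KSet} (h1 : y ∈ K.S1 e) (h2 : y ∈ K.S2 e) :
    RelS y (K.c2 e) (K.c1 e) := by
  refine ⟨fun w => T4 ((T4.symm w).1 * (T4.symm w).2 ^ 2, (T4.symm w).2⁻¹), ?_, ?_⟩
  · apply relF_smooth
    unfold c2
    rw [ContinuousLinearEquiv.symm_apply_apply]
    exact inv_ne_zero (K.v2_eq h1 h2).1
  · filter_upwards [(K.S1_open e).mem_nhds h1, (K.S2_open e).mem_nhds h2] with y' k1 k2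
    obtain ⟨k3, k4⟩ := K.v2_eq k1 k2
    unfold c1 c2
    rw [ContinuousLinearEquiv.symm_apply_apply]
    simp only
    rw [k4, inv_inv, inv_pow, mul_assoc, mul_inv_cancel₀ (pow_ne_zero 2 k3), mul_one]

end KD

end Pool.Agent.Kum
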