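import Pool.Agent.Lib.MP_1d980c_gt.Kum.EGermA
import Pool.Agent.Lib.MP_1d980c_gt.Kum.EGermB
import Pool.Agent.Lib.MP_1d980c_gt.Kum.EGermC
import Pool.Agent.Lib.MP_1d980c_gt.Kum.EGermD
import Pool.Agent.Lib.MP_1d980c_gt.Blow.RealGerms

/-! The resolution is a smooth manifold. -/

set_option autoImplicit false
open Topology Complex ComplexConjugate Pool.Agent.S4T2 Pool.Agent.BlowC
open scoped Manifold ContDiff

namespace Pool.Agent.Kum

namespace KD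

variable {EZ HZ Z : Type} [NormedAddCommGroup EZ] [NormedSpace ℝ EZ] [FiniteDimensional ℝ EZ]
  [TopologicalSpace HZ] {IZ : ModelWithCorners ℝ EZ HZ} [IZ.Boundaryless] [TopologicalSpace Z]
  [ChartedSpace HZ Z] [IsManifold IZ ∞ Z] [T2Space Z] {K : KD Z}

theorem gmE_rel (h : K.KSm IZ) (y : K.KSet) (g g' : K.KSet → E4) (hg : g ∈ K.GmE IZ y)
    (hg' : g' ∈ K.GmE IZ y) : RelS y g g' := by
  rcases K.cover y with ⟨x, hx, rfl⟩ | ⟨e, a, he, rfl⟩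
  · -- all germs are regular
    have key : ∀ g, g ∈ K.GmE IZ (K.p x) → ∃ x', K.τ x' ≠ x' ∧ K.p x' = K.p x ∧
        ∃ f : Z → E4, ContMDiffAt IZ 𝓘(ℝ, E4) ∞ f x' ∧
        Function.Bijective (mfderiv IZ 𝓘(ℝ, E4) f x') ∧ ∀ᶠ x'' in 𝓝 x', g (K.p x'') = f x'' := by
      rintro g (hg | ⟨e, hy, rfl⟩ | ⟨e, hy, rfl⟩)
      · exact hg
      · exact ⟨x, hx, rfl, c1_reg h hx hy⟩
      · exact ⟨x, hx, rfl, c2_reg h hx hy⟩
    exact relS_reg h (key g hg) (key g' hg')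
  · -- no germ is regular
    have key : ∀ g, g ∈ K.GmE IZ (K.k e a) →
        (K.k e a ∈ K.S1 ⟨e, he⟩ ∧ g = K.c1 ⟨e, he⟩) ∨
        (K.k e a ∈ K.S2 ⟨e, he⟩ ∧ g = K.c2 ⟨e, he⟩) := by
      have hD : K.bd (K.k e a) ∈ K.DQ ⟨e, he⟩ := by
        rw [K.bd_k he, K.qm_mem_DQ]
        have h1 := (K.b ⟨e, he⟩).p_mem_D
        rw [K.hp] at h1
        exact h1
      rintro g (⟨x, hx, hxy, -⟩ | ⟨e', hy, rfl⟩ | ⟨e', hy, rfl⟩)
      · exfalso
        have h1 := congrArg K.bd hxy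
        rw [K.bd_p, K.bd_k he] at h1
        have h2 : K.qm x ∈ K.FixQ := by
          rw [h1]
          exact K.qm_mem_fixQ.2 he
        exact hx (K.qm_mem_fixQ.1 h2)
      · have := K.DQ_dis hD hy.1
        subst this
        exact Or.inl ⟨hy, rfl⟩
      · have := K.DQ_dis hD hy.1
        subst this
        exact Or.inr ⟨hy, rfl⟩
    rcases key g hg with ⟨h1, rfl⟩ | ⟨h1, rfl⟩ <;> rcases key g' hg' with ⟨h2, rfl⟩ | ⟨h2, rfl⟩
    · exact RelS.refl _ _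
    · exact relS_12 h1 h2
    · exact relS_21 h2 h1
    · exact RelS.refl _ _

end KD

end Pool.Agent.Kum
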