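import Pool.Agent.Lib.MP_1d980c_gt.Kum.EGDefs

/-! Existence of germs; germs are local homeomorphisms. -/

set_option autoImplicit false
open Topology Complex ComplexConjugate Pool.Agent.S4T2 Pool.Agent.BlowC
open scoped Manifold ContDiff

namespace Pool.Agent.Kum

namespace KD

variable {EZ HZ Z : Type} [NormedAddCommGroup EZ] [NormedSpace ℝ EZ] [FiniteDimensional ℝ EZ]
  [TopologicalSpace HZ] {IZ : ModelWithCorners ℝ EZ HZ} [IZ.Boundaryless] [TopologicalSpace Z]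
  [ChartedSpace HZ Z] [IsManifold IZ ∞ Z] [T2Space Z] {K : KD Z}

private theorem ext_good (h : K.KSm IZ) (x : Z) : ∃ f : Z → E4, ∀ x' ∈ (chartAt HZ x).source,
    ContMDiffAt IZ 𝓘(ℝ, E4) ∞ f x' ∧ Function.Bijective (mfderiv IZ 𝓘(ℝ, E4) f x') := by
  have hL : Nonempty (EZ ≃L[ℝ] E4) := by
    apply FiniteDimensional.nonempty_continuousLinearEquiv_of_finrank_eq
    rw [h.dim, finrank_euclideanSpace_fin]
  obtain ⟨L⟩ := hL
  refine ⟨fun z => L (extChartAt IZ x z), fun x' hx' => ?_⟩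
  have h1 : ContMDiffAt IZ 𝓘(ℝ, EZ) ∞ (extChartAt IZ x) x' := contMDiffAt_extChartAt' hx'
  have h2 : ContMDiffAt 𝓘(ℝ, EZ) 𝓘(ℝ, E4) ∞ L (extChartAt IZ x x') :=
    L.contDiff.contMDiff.contMDiffAt
  refine ⟨h2.comp x' h1, ?_⟩
  have h3 : mfderiv IZ 𝓘(ℝ, E4) (fun z => L (extChartAt IZ x z)) x' =
      (mfderiv 𝓘(ℝ, EZ) 𝓘(ℝ, E4) L (extChartAt IZ x x')).comp
        (mfderiv IZ 𝓘(ℝ, EZ) (extChartAt IZ x) x') :=
    mfderiv_comp x' (h2.mdifferentiableAt (by simp)) (h1.mdifferentiableAt (by simp))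
  rw [h3]
  have h4 : (mfderiv IZ 𝓘(ℝ, EZ) (extChartAt IZ x) x').IsInvertible :=
    isInvertible_mfderiv_extChartAt (by rwa [extChartAt_source])
  have h5 : mfderiv 𝓘(ℝ, EZ) 𝓘(ℝ, E4) L (extChartAt IZ x x') = (L : EZ →L[ℝ] E4) := by
    rw [mfderiv_eq_fderiv]
    exact L.fderiv
  obtain ⟨M, hM⟩ := h4
  rw [h5, ← hM]
  exact L.bijective.comp M.bijective

private theorem fix_mem_DQ (e : {e : Z // K.τ e = e}) : K.qm e.1 ∈ K.DQ e := by
  refine ⟨e.1, ?_, rfl⟩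
  rw [← K.hp e]
  exact (K.b e).p_mem_D

/-- Over a regular point `x`: `f` = the extended chart of `Z` at `x` followed by a linear
isomorphism `EZ ≃ E4` (`h.dim`), `g = f ∘ (p_loc)⁻¹`. Over a fixed point: `c1` or `c2`
(`S12_cover`, `S1_open`, `S2_open`, `K.cover`). -/
theorem gmE_ex (h : K.KSm IZ) (y : K.KSet) :
    ∃ f ∈ K.GmE IZ y, ∀ᶠ y' in 𝓝 y, f ∈ K.GmE IZ y' := by
  rcases K.cover y with ⟨x, hx, rfl⟩ | ⟨e, a, he, rfl⟩
  · obtain ⟨φ, hxφ, hφ⟩ := K.p_loc hx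
    obtain ⟨f, hf⟩ := ext_good h x
    set V : Set Z := φ.source ∩ (chartAt HZ x).source with hV
    have hVo : IsOpen V := φ.open_source.inter (chartAt HZ x).open_source
    have hxV : x ∈ V := ⟨hxφ, mem_chart_source HZ x⟩
    have key : ∀ x' ∈ V, (fun z => f (φ.symm z)) ∈ K.GmE IZ (K.p x') := by
      intro x' hx'
      left
      refine ⟨x', (hφ x' hx'.1).2, rfl, f, (hf x' hx'.2).1, (hf x' hx'.2).2, ?_⟩
      filter_upwards [hVo.mem_nhds hx'] with x'' hx''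
      change f (φ.symm (K.p x'')) = f x''
      rw [← (hφ x'' hx''.1).1, φ.left_inv hx''.1]
    refine ⟨fun z => f (φ.symm z), key x hxV, ?_⟩
    have h1 : φ '' V ∈ 𝓝 (K.p x) := by
      have h2 : IsOpen (φ '' V) := φ.isOpen_image_of_subset_source hVo Set.inter_subset_left
      apply h2.mem_nhds
      exact ⟨x, hxV, (hφ x hxφ).1⟩
    filter_upwards [h1] with y' hy'
    obtain ⟨x', hx', rfl⟩ := hy'
    rw [(hφ x' hx'.1).1]
    exact key x' hx'
  · have hD : K.bd (K.k e a) ∈ K.DQ ⟨e, he⟩ := by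
      rw [K.bd_k he]
      exact fix_mem_DQ ⟨e, he⟩
    rcases K.S12_cover hD with h1 | h1
    · refine ⟨K.c1 ⟨e, he⟩, Or.inr (Or.inl ⟨_, h1, rfl⟩), ?_⟩
      filter_upwards [(K.S1_open ⟨e, he⟩).mem_nhds h1] with y' hy'
      exact Or.inr (Or.inl ⟨_, hy', rfl⟩)
    · refine ⟨K.c2 ⟨e, he⟩, Or.inr (Or.inr ⟨_, h1, rfl⟩), ?_⟩
      filter_upwards [(K.S2_open ⟨e, he⟩).mem_nhds h1] with y' hy'
      exact Or.inr (Or.inr ⟨_, hy', rfl⟩)

/-- `p_loc` and `exists_local_inv_at` (`Blow/LocA.lean`), or `exists_chart1`, `exists_chart2`. -/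
theorem gmE_homeo (h : K.KSm IZ) (y : K.KSet) (g : K.KSet → E4) (hg : g ∈ K.GmE IZ y) :
    ∃ e : OpenPartialHomeomorph K.KSet E4, y ∈ e.source ∧ ∀ y' ∈ e.source, e y' = g y' := by
  rcases hg with ⟨x, hx, rfl, f, hf, hb, hev⟩ | ⟨e, hy, rfl⟩ | ⟨e, hy, rfl⟩
  · obtain ⟨φ, hxφ, hφ⟩ := K.p_loc hx
    obtain ⟨e0, hx0, he0, -⟩ := exists_local_inv_at hf hb
    obtain ⟨V, hVsub, hVo, hxV⟩ := mem_nhds_iff.1 hev
    refine ⟨φ.symm.trans (e0.restrOpen V hVo), ?_, ?_⟩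
    · rw [OpenPartialHomeomorph.trans_source]
      refine ⟨?_, ?_⟩
      · change K.p x ∈ φ.target
        rw [← (hφ x hxφ).1]
        exact φ.map_source hxφ
      · change φ.symm (K.p x) ∈ (e0.restrOpen V hVo).source
        rw [← (hφ x hxφ).1, φ.left_inv hxφ]
        exact ⟨hx0, hxV⟩
    · intro y' hy'
      rw [OpenPartialHomeomorph.trans_source] at hy'
      obtain ⟨h1, h2, h3⟩ := hy'
      change y' ∈ φ.target at h1
      change φ.symm y' ∈ e0.source at h2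
      change φ.symm y' ∈ V at h3
      change e0 (φ.symm y') = g y'
      have h4 := φ.map_target h1
      rw [he0 _ h2, ← hVsub h3, ← (hφ _ h4).1, φ.right_inv h1]
  · obtain ⟨F, hF, hF'⟩ := K.exists_chart1 e
    refine ⟨F.transHomeomorph T4.toHomeomorph, ?_, ?_⟩
    · change y ∈ F.source
      rw [hF]
      exact hy
    · intro y' hy'
      change y' ∈ F.source at hy'
      rw [hF] at hy'
      change T4 (F y') = T4 (K.u2 e (K.bd y'), K.sl y')
      rw [hF' y' hy']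
  · obtain ⟨F, hF, hF'⟩ := K.exists_chart2 e
    refine ⟨F.transHomeomorph T4.toHomeomorph, ?_, ?_⟩
    · change y ∈ F.source
      rw [hF]
      exact hy
    · intro y' hy'
      change y' ∈ F.source at hy'
      rw [hF] at hy'
      change T4 (F y') = T4 (K.v2 e (K.bd y'), (K.sl y')⁻¹)
      rw [hF' y' hy']

end KD

end Pool.Agent.Kum
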