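import Pool.Agent.Lib.MP_1d980c_gt.Kum.EGerm

/-! The projection is a local diffeomorphism at the regular points. -/

set_option autoImplicit false
open Topology Complex ComplexConjugate Pool.Agent.S4T2 Pool.Agent.BlowC
open scoped Manifold ContDiff

namespace Pool.Agent.Kum

namespace KD

variable {EZ HZ Z : Type} [NormedAddCommGroup EZ] [NormedSpace ℝ EZ]
  [TopologicalSpace HZ] (IZ : ModelWithCorners ℝ EZ HZ) [TopologicalSpace Z] [ChartedSpace HZ Z]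
  (K : KD Z) [ChartedSpace E4 K.KSet]

/-- the charted space structure makes the germs smooth. -/
def CptE : Prop :=
  ∀ y, ∀ f ∈ K.GmE IZ y, ContMDiffAt (𝓡 4) 𝓘(ℝ, E4) ∞ f y ∧
    Function.Bijective (mfderiv (𝓡 4) 𝓘(ℝ, E4) f y)

end KD

section
open KD
variable {EZ HZ Z : Type} [NormedAddCommGroup EZ] [NormedSpace ℝ EZ] [FiniteDimensional ℝ EZ]
  [TopologicalSpace HZ] {IZ : ModelWithCorners ℝ EZ HZ} [IZ.Boundaryless] [TopologicalSpace Z]
  [ChartedSpace HZ Z] [IsManifold IZ ∞ Z] [T2Space Z] {K : KD Z} [ChartedSpace E4 K.KSet]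
  [IsManifold (𝓡 4) ∞ K.KSet]

omit [ChartedSpace E4 K.KSet] [IsManifold (𝓡 4) ∞ K.KSet] in
private theorem tau_bij (h : K.KSm IZ) (x : Z) :
    Function.Bijective (mfderiv IZ IZ K.τ x) := by
  have h1 : MDifferentiableAt IZ IZ K.τ x := (h.τ x).mdifferentiableAt (by simp)
  have h2 : MDifferentiableAt IZ IZ K.τ (K.τ x) := (h.τ (K.τ x)).mdifferentiableAt (by simp)
  have hcomp := HasMFDerivAt.comp x h2.hasMFDerivAt h1.hasMFDerivAt
  have hid : (K.τ ∘ K.τ) = id := funext K.invo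
  rw [hid] at hcomp
  have h3 := hasMFDerivAt_unique hcomp (hasMFDerivAt_id x)
  have hinj : Function.Injective (mfderiv IZ IZ K.τ x) := by
    intro a b hab
    have h4 : ∀ c : TangentSpace IZ x, (mfderiv IZ IZ K.τ (K.τ x)) ((mfderiv IZ IZ K.τ x) c) = c :=
      fun c => congrArg (fun T : EZ →L[ℝ] EZ => T c) h3
    rw [← h4 a, ← h4 b, hab]
  refine ⟨hinj, ?_⟩
  let T : EZ →L[ℝ] EZ := mfderiv IZ IZ K.τ x
  have hT : Function.Injective T.toLinearMap := hinj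
  have hS : Function.Surjective T.toLinearMap := LinearMap.surjective_of_injective hT
  exact hS

omit [ChartedSpace E4 K.KSet] [IsManifold (𝓡 4) ∞ K.KSet] in
private theorem pd_tau (h : K.KSm IZ) {x : Z} (hx : K.τ x ≠ x) {g : K.KSet → E4} {f : Z → E4}
    (hf1 : ContMDiffAt IZ 𝓘(ℝ, E4) ∞ f (K.τ x))
    (hf2 : Function.Bijective (mfderiv IZ 𝓘(ℝ, E4) f (K.τ x)))
    (hf3 : ∀ᶠ x' in 𝓝 (K.τ x), g (K.p x') = f x') :
    ∃ f : Z → E4, ContMDiffAt IZ 𝓘(ℝ, E4) ∞ f x ∧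
      Function.Bijective (mfderiv IZ 𝓘(ℝ, E4) f x) ∧ ∀ᶠ x' in 𝓝 x, g (K.p x') = f x' := by
  refine ⟨fun z => f (K.τ z), ContMDiffAt.comp (I' := IZ) x (g := f) (f := K.τ) hf1 (h.τ x),
    ?_, ?_⟩
  · have hcomp : HasMFDerivAt IZ 𝓘(ℝ, E4) (fun z => f (K.τ z)) x
        ((mfderiv IZ 𝓘(ℝ, E4) f (K.τ x)).comp (mfderiv IZ IZ K.τ x)) :=
      HasMFDerivAt.comp x (hf1.mdifferentiableAt (by simp)).hasMFDerivAt
        ((h.τ x).mdifferentiableAt (by simp)).hasMFDerivAt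
    rw [hcomp.mfderiv]
    exact hf2.comp (tau_bij h x)
  · have hne : ∀ᶠ z in 𝓝 x, K.τ z ≠ z := by
      have hcl : IsClosed {z | K.τ z = z} := isClosed_eq K.cont continuous_id
      exact hcl.isOpen_compl.mem_nhds hx
    filter_upwards [hne, K.cont.continuousAt.eventually hf3] with z k1 k2
    rw [← k2]
    congr 1
    refine (K.p_fib k1 ?_).2 (Or.inr rfl)
    rw [K.invo]
    exact fun h => k1 h.symm

/-- Take `g ∈ GmE (p x)` regular at `x` (`gmE_ex`; if it is `c1` or `c2`, use `c1_reg`, `c2_reg`;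
if it is regular at `τ x`, compose with `τ`): `g ∘ p = f` near `x` with `f` a local
diffeomorphism, `g` a local diffeomorphism (`exists_local_inv_at`), `p` continuous at `x`
(`p_loc`), so `p = g⁻¹ ∘ f`. -/
theorem p_diffeo (h : K.KSm IZ) (hC : K.CptE IZ) {x : Z} (hx : K.τ x ≠ x) :
    ContMDiffAt IZ (𝓡 4) ∞ K.p x ∧ Function.Bijective (mfderiv IZ (𝓡 4) K.p x) := by
  obtain ⟨g, hg, -⟩ := gmE_ex h (K.p x)
  obtain ⟨hgs, hgb⟩ := hC _ g hg
  have key : ∃ f : Z → E4, ContMDiffAt IZ 𝓘(ℝ, E4) ∞ f x ∧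
      Function.Bijective (mfderiv IZ 𝓘(ℝ, E4) f x) ∧ ∀ᶠ x' in 𝓝 x, g (K.p x') = f x' := by
    rcases hg with ⟨x', hx', hxx, f, hf1, hf2, hf3⟩ | ⟨e, hy, rfl⟩ | ⟨e, hy, rfl⟩
    · rcases (K.p_fib hx hx').1 hxx.symm with rfl | rfl
      · exact ⟨f, hf1, hf2, hf3⟩
      · exact pd_tau h hx hf1 hf2 hf3
    · exact c1_reg h hx hy
    · exact c2_reg h hx hy
  obtain ⟨f, hf1, hf2, hf3⟩ := key
  obtain ⟨e, he1, he2, he3⟩ := exists_local_inv_at hgs hgb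
  obtain ⟨φ, hφ1, hφ2⟩ := K.p_loc hx
  have hpc : ContinuousAt K.p x := by
    refine (φ.continuousAt hφ1).congr ?_
    filter_upwards [φ.open_source.mem_nhds hφ1] with z hz using (hφ2 z hz).1
  have hev : K.p =ᶠ[𝓝 x] fun z => e.symm (f z) := by
    filter_upwards [hf3, hpc.eventually (e.open_source.mem_nhds he1)] with z k1 k2
    rw [← k1, ← he2 _ k2, e.left_inv k2]
  have hfx : g (K.p x) = f x := hf3.self_of_nhds
  have hps : ContMDiffAt IZ (𝓡 4) ∞ K.p x := by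
    refine ContMDiffAt.congr_of_eventuallyEq ?_ hev
    refine ContMDiffAt.comp (I' := 𝓘(ℝ, E4)) x (g := e.symm) (f := f) ?_ hf1
    rw [← hfx]
    exact he3
  refine ⟨hps, ?_⟩
  have hfe : f =ᶠ[𝓝 x] fun z => g (K.p z) := by
    filter_upwards [hf3] with z k1 using k1.symm
  have hcomp : HasMFDerivAt IZ 𝓘(ℝ, E4) (fun z => g (K.p z)) x
      ((mfderiv (𝓡 4) 𝓘(ℝ, E4) g (K.p x)).comp (mfderiv IZ (𝓡 4) K.p x)) :=
    HasMFDerivAt.comp x (hgs.mdifferentiableAt (by simp)).hasMFDerivAt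
      (hps.mdifferentiableAt (by simp)).hasMFDerivAt
  rw [Filter.EventuallyEq.mfderiv_eq hfe, hcomp.mfderiv] at hf2
  constructor
  · intro a b hab
    apply hf2.1
    show (mfderiv (𝓡 4) 𝓘(ℝ, E4) g (K.p x)) ((mfderiv IZ (𝓡 4) K.p x) a) =
      (mfderiv (𝓡 4) 𝓘(ℝ, E4) g (K.p x)) ((mfderiv IZ (𝓡 4) K.p x) b)
    rw [hab]
  · intro b
    obtain ⟨a, ha⟩ := hf2.2 ((mfderiv (𝓡 4) 𝓘(ℝ, E4) g (K.p x)) b)
    exact ⟨a, hgb.1 ha⟩

end

end Pool.Agent.Kum
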