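import Pool.Agent.Lib.MP_1d980c_gt.Kum.EKumA

/-! The coordinates along the curve. -/

set_option autoImplicit false
open Topology Complex ComplexConjugate Pool.Agent.S4T2 Pool.Agent.BlowC
open scoped Manifold ContDiff

namespace Pool.Agent.Kum

private theorem linComp {M A B : Type} [TopologicalSpace M] [ChartedSpace E4 M]
    [NormedAddCommGroup A] [NormedSpace ℝ A] [NormedAddCommGroup B] [NormedSpace ℝ B]
    (L : A ≃L[ℝ] B) {g : M → A} {y : M} (h1 : ContMDiffAt (𝓡 4) 𝓘(ℝ, A) ∞ g y) :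
    ContMDiffAt (𝓡 4) 𝓘(ℝ, B) ∞ (fun y => L (g y)) y := by
  have h3 : ContMDiffAt 𝓘(ℝ, A) 𝓘(ℝ, B) ∞ (fun a => L a) (g y) := L.contDiff.contMDiff _
  exact h3.comp y h1

private theorem linComp' {M A B : Type} [TopologicalSpace M] [ChartedSpace E4 M]
    [NormedAddCommGroup A] [NormedSpace ℝ A] [NormedAddCommGroup B] [NormedSpace ℝ B]
    (L : A ≃L[ℝ] B) {g : M → A} {g' : M → B} {y : M} (hg' : ∀ y, g' y = L (g y))
    (h1 : ContMDiffAt (𝓡 4) 𝓘(ℝ, A) ∞ g y)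
    (h2 : Function.Bijective (mfderiv (𝓡 4) 𝓘(ℝ, A) g y)) :
    Function.Bijective (mfderiv (𝓡 4) 𝓘(ℝ, B) g' y) := by
  obtain rfl : g' = fun y => L (g y) := funext hg'
  have hL : MDifferentiableAt 𝓘(ℝ, A) 𝓘(ℝ, B) (fun a => L a) (g y) :=
    L.differentiableAt.mdifferentiableAt
  have h4 : mfderiv (𝓡 4) 𝓘(ℝ, B) (fun y => L (g y)) y =
      (mfderiv 𝓘(ℝ, A) 𝓘(ℝ, B) (fun a => L a) (g y)).comp (mfderiv (𝓡 4) 𝓘(ℝ, A) g y) :=
    mfderiv_comp y hL (h1.mdifferentiableAt (by simp))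
  have h5 : mfderiv 𝓘(ℝ, A) 𝓘(ℝ, B) (fun a => L a) (g y) = (L : A →L[ℝ] B) := by
    rw [mfderiv_eq_fderiv]
    exact L.fderiv
  rw [h4, h5]
  exact L.bijective.comp h2

section
open KD
variable {EZ HZ Z : Type} [NormedAddCommGroup EZ] [NormedSpace ℝ EZ] [FiniteDimensional ℝ EZ]
  [TopologicalSpace HZ] {IZ : ModelWithCorners ℝ EZ HZ} [IZ.Boundaryless] [TopologicalSpace Z]
  [ChartedSpace HZ Z] [IsManifold IZ ∞ Z] [T2Space Z] {K : KD Z} [ChartedSpace E4 K.KSet]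
  [IsManifold (𝓡 4) ∞ K.KSet]

/-- `c1 e` is a germ at every point of the open set `S1 e`, so it is smooth there with bijective
derivative; remove `T4`. -/
theorem coordE1 (hC : K.CptE IZ) (e : {e : Z // K.τ e = e}) {y : K.KSet} (hy : y ∈ K.S1 e) :
    CoordAt (fun y => K.u2 e (K.bd y)) K.sl y := by
  have key : ∀ y' ∈ K.S1 e, ContMDiffAt (𝓡 4) 𝓘(ℝ, ℂ × ℂ) ∞
      (fun y => (K.u2 e (K.bd y), K.sl y)) y' ∧
      Function.Bijective (mfderiv (𝓡 4) 𝓘(ℝ, ℂ × ℂ) (fun y => (K.u2 e (K.bd y), K.sl y)) y') := by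
    intro y' hy'
    obtain ⟨h1, h2⟩ := hC y' (K.c1 e) (Or.inr (Or.inl ⟨e, hy', rfl⟩))
    have h3 := linComp T4.symm h1
    simp only [KD.c1, ContinuousLinearEquiv.symm_apply_apply] at h3
    exact ⟨h3, linComp' T4.symm (fun y => (T4.symm_apply_apply _).symm) h1 h2⟩
  refine ⟨?_, (key y hy).2⟩
  filter_upwards [(K.S1_open e).mem_nhds hy] with y' hy'
  exact (key y' hy').1

theorem coordE2 (hC : K.CptE IZ) (e : {e : Z // K.τ e = e}) {y : K.KSet} (hy : y ∈ K.S2 e) :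
    CoordAt (fun y => K.v2 e (K.bd y)) (fun y => (K.sl y)⁻¹) y := by
  have key : ∀ y' ∈ K.S2 e, ContMDiffAt (𝓡 4) 𝓘(ℝ, ℂ × ℂ) ∞
      (fun y => (K.v2 e (K.bd y), (K.sl y)⁻¹)) y' ∧
      Function.Bijective (mfderiv (𝓡 4) 𝓘(ℝ, ℂ × ℂ)
        (fun y => (K.v2 e (K.bd y), (K.sl y)⁻¹)) y') := by
    intro y' hy'
    obtain ⟨h1, h2⟩ := hC y' (K.c2 e) (Or.inr (Or.inr ⟨e, hy', rfl⟩))
    have h3 := linComp T4.symm h1
    simp only [KD.c2, ContinuousLinearEquiv.symm_apply_apply] at h3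
    exact ⟨h3, linComp' T4.symm (fun y => (T4.symm_apply_apply _).symm) h1 h2⟩
  refine ⟨?_, (key y hy).2⟩
  filter_upwards [(K.S2_open e).mem_nhds hy] with y' hy'
  exact (key y' hy').1

end

end Pool.Agent.Kum
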