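import Pool.Agent.Lib.MP_1d980c_gt.Kum.EKumB

/-! The exceptional curves. -/

set_option autoImplicit false
open Topology Complex ComplexConjugate Pool.Agent.S4T2 Pool.Agent.BlowC
open scoped Manifold ContDiff

namespace Pool.Agent.Kum

/-- a neighbourhood of a point of the exceptional curve lies over a given neighbourhood of the
fixed point. -/
private theorem ekumC_over {Z : Type} [TopologicalSpace Z] {K : KD Z} {e : Z} (he : K.τ e = e)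
    (a : OnePoint ℂ) {V : Set Z} (hV : V ∈ 𝓝 e) : ∀ᶠ y in 𝓝 (K.k e a),
      ∃ x ∈ V, x ∈ (K.b ⟨e, he⟩).D ∧ K.bd y = K.qm x := by
  have hD : e ∈ (K.b ⟨e, he⟩).D := by
    have h1 := (K.b ⟨e, he⟩).p_mem_D
    rwa [K.hp] at h1
  obtain ⟨V', hV'V, hV'o, heV'⟩ := mem_nhds_iff.1 hV
  have ho : IsOpen (V' ∩ (K.b ⟨e, he⟩).D) := hV'o.inter (K.b ⟨e, he⟩).D_open
  have ho2 : IsOpen (K.qm '' (V' ∩ (K.b ⟨e, he⟩).D)) := K.qm_open.isOpenMap _ ho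
  have hm : K.bd (K.k e a) ∈ K.qm '' (V' ∩ (K.b ⟨e, he⟩).D) := by
    rw [K.bd_k he]
    exact ⟨e, ⟨heV', hD⟩, rfl⟩
  filter_upwards [K.bd_continuous.continuousAt.eventually (ho2.mem_nhds hm)] with y hy
  obtain ⟨x, ⟨h1, h2⟩, h3⟩ := hy
  exact ⟨x, hV'V h1, h2, h3.symm⟩

private theorem ekumC_fix {Z : Type} [TopologicalSpace Z] {K : KD Z} {e : Z} (he : K.τ e = e)
    {x : Z} (hx : K.τ x = x) (hD : x ∈ (K.b ⟨e, he⟩).D) : x = e := by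
  have h1 : x ∈ (K.b ⟨x, hx⟩).e.source := by
    have := (K.b ⟨x, hx⟩).hp
    rwa [K.hp] at this
  have h2 := K.dis ⟨e, he⟩ ⟨x, hx⟩ x hD.1 h1
  exact (congrArg Subtype.val h2).symm

private theorem ekumC_zero {Z : Type} [TopologicalSpace Z] {K : KD Z} {e : Z} (he : K.τ e = e) :
    e ∈ (K.b ⟨e, he⟩).e.source ∧ (K.b ⟨e, he⟩).e e = 0 := by
  have h1 := (K.b ⟨e, he⟩).hp
  have h2 := (K.b ⟨e, he⟩).ep
  rw [K.hp] at h1 h2
  exact ⟨h1, h2⟩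

section
open KD
variable {EZ HZ Z : Type} [NormedAddCommGroup EZ] [NormedSpace ℝ EZ] [FiniteDimensional ℝ EZ]
  [TopologicalSpace HZ] {IZ : ModelWithCorners ℝ EZ HZ} [IZ.Boundaryless] [TopologicalSpace Z]
  [ChartedSpace HZ Z] [IsManifold IZ ∞ Z] [T2Space Z] {K : KD Z} [ChartedSpace E4 K.KSet]
  [IsManifold (𝓡 4) ∞ K.KSet]

/-- `α = u²`, `β = sl`. Near `k e a` a point `y` is in `S1 e`, and `bd y` is near `mk e`, so
`bd y = mk x` with `x ∈ V ∩ D` (`mk_open`). If `x` is fixed, then `x = e` (`K.dis`, `K.hp`) and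
`y = k e (sl y)` (`eq_k`); otherwise `y = p x` (`eq_p`) and `p_S1` applies. -/
theorem near1 (hC : K.CptE IZ) {s t : Z → ℂ} {e : Z} (he : K.τ e = e)
    (hst : ∀ x ∈ (K.b ⟨e, he⟩).e.source, (K.b ⟨e, he⟩).e x = (s x, t x)) (a : ℂ) :
    Near K.τ K.p e s t (fun b : ℂ => K.k e (b : OnePoint ℂ)) a := by
  have hk : K.k e (a : OnePoint ℂ) ∈ K.S1 ⟨e, he⟩ := K.k_mem_S1 ⟨e, he⟩ a
  refine ⟨fun y => K.u2 ⟨e, he⟩ (K.bd y), K.sl, coordE1 hC ⟨e, he⟩ hk, fun V hV => ?_⟩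
  filter_upwards [ekumC_over he (a : OnePoint ℂ) hV, (K.S1_open ⟨e, he⟩).mem_nhds hk]
    with y hy hyS
  obtain ⟨x, hxV, hxD, hxy⟩ := hy
  by_cases hx : K.τ x = x
  · left
    obtain rfl := ekumC_fix he hx hxD
    refine ⟨?_, K.eq_k he hxy hyS.2⟩
    obtain ⟨h1, h2⟩ := ekumC_zero he
    rw [hxy, K.u2_mk]
    unfold KD.u2Z
    rw [if_pos h1, h2]
    simp
  · right
    have hpx := K.eq_p hx hxy
    have h1 := K.p_S1 hx hxD
    have h2 : ((K.b ⟨e, he⟩).e x).1 ≠ 0 := h1.1.1 (by rw [hpx]; exact hyS)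
    have h3 := h1.2 h2
    rw [hpx] at h3
    rw [hst x hxD.1] at h2 h3
    refine ⟨x, hxV, hx, hpx, ?_, ?_, h2⟩
    · rw [hxy, K.u2_mk]
      unfold KD.u2Z
      rw [if_pos hxD.1, hst x hxD.1]
    · rw [h3]
      exact (div_mul_cancel₀ _ h2).symm

/-- the same with `v²`, `1 / sl`, `eq_k'`, `p_S2`; at a point `y` of `S2 e` over `mk e` the value
`α` is not `1`, because `χ (mk e) = 1`. -/
theorem near2 (hC : K.CptE IZ) {s t : Z → ℂ} {e : Z} (he : K.τ e = e)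
    (hst : ∀ x ∈ (K.b ⟨e, he⟩).e.source, (K.b ⟨e, he⟩).e x = (s x, t x)) (b : ℂ) :
    Near K.τ K.p e t s (fun b : ℂ => K.k e (inv b)) b := by
  have hk : K.k e (inv b) ∈ K.S2 ⟨e, he⟩ := K.k_mem_S2 ⟨e, he⟩ b
  refine ⟨fun y => K.v2 ⟨e, he⟩ (K.bd y), fun y => (K.sl y)⁻¹, coordE2 hC ⟨e, he⟩ hk,
    fun V hV => ?_⟩
  filter_upwards [ekumC_over he (inv b) hV, (K.S2_open ⟨e, he⟩).mem_nhds hk]
    with y hy hyS
  obtain ⟨x, hxV, hxD, hxy⟩ := hy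
  by_cases hx : K.τ x = x
  · left
    obtain rfl := ekumC_fix he hx hxD
    refine ⟨?_, K.eq_k' he hxy ?_⟩
    · obtain ⟨h1, h2⟩ := ekumC_zero he
      rw [hxy, K.v2_mk]
      unfold KD.v2Z
      rw [if_pos h1, h2]
      simp
    · intro h1
      apply hyS.2
      rw [hxy, K.chi_mk, K.chiZ_fix he, h1, sub_self]
  · right
    have hpx := K.eq_p hx hxy
    have h1 := K.p_S2 hx hxD
    have h2 : ((K.b ⟨e, he⟩).e x).2 ≠ 0 := h1.1.1 (by rw [hpx]; exact hyS)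
    have h3 := h1.2 h2
    rw [hpx] at h3
    rw [hst x hxD.1] at h2 h3
    refine ⟨x, hxV, hx, hpx, ?_, ?_, h2⟩
    · rw [hxy, K.v2_mk]
      unfold KD.v2Z
      rw [if_pos hxD.1, hst x hxD.1]
    · rw [h3]
      exact (div_mul_cancel₀ _ h2).symm

end

end Pool.Agent.Kum
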