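import Pool.Agent.Lib.MP_1d980c_gt.Kum.ECont

/-! The projection is a local homeomorphism at the regular points. -/

set_option autoImplicit false
open Topology Complex ComplexConjugate Pool.Agent.S4T2 Pool.Agent.BlowC
open scoped Manifold ContDiff

namespace Pool.Agent.Kum

namespace KD

variable {Z : Type} [TopologicalSpace Z] (K : KD Z)

theorem bd_p (x : Z) : K.bd (K.p x) = K.qm x := by
  unfold bd p
  split <;> rfl

theorem bd_k {e : Z} (he : K.τ e = e) (a : OnePoint ℂ) : K.bd (K.k e a) = K.qm e := by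
  unfold bd
  rw [K.k_val he]

/-- a point over `mk x` with `x` regular is `p x`. -/
theorem eq_p {y : K.KSet} {x : Z} (hx : K.τ x ≠ x) (h : K.bd y = K.qm x) : K.p x = y := by
  apply Subtype.ext
  rw [K.p_val hx]
  have h' : y.1.1 = K.qm x := h
  rcases y.2 with ⟨h1, h2, h3⟩ | ⟨h1, -⟩
  · rw [h', K.al_mk] at h2
    rw [h', K.ka_mk] at h3
    rw [← h', ← h2, ← h3]
  · exact absurd (K.qm_mem_fixQ.1 (h' ▸ h1)) hx

/-- `mk_loc` and the continuity of `alZ`, `kaZ`; compare `BData.exists_off`. The inverse map is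
`y ↦ f.symm (bd y)`. -/
theorem p_loc [T2Space Z] {x : Z} (hx : K.τ x ≠ x) :
    ∃ f : OpenPartialHomeomorph Z K.KSet, x ∈ f.source ∧
      (∀ y ∈ f.source, f y = K.p y ∧ K.τ y ≠ y) := by
  obtain ⟨f0, hxf, hf⟩ := K.qm_loc hx
  refine ⟨{
    toFun := K.p
    invFun := fun y => f0.symm (K.bd y)
    source := f0.source
    target := K.bd ⁻¹' f0.target
    map_source' := ?_
    map_target' := ?_
    left_inv' := ?_
    right_inv' := ?_
    open_source := f0.open_source
    open_target := f0.open_target.preimage K.bd_continuous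
    continuousOn_toFun := ?_
    continuousOn_invFun := ?_ }, hxf, fun y hy => ⟨rfl, (hf y hy).2⟩⟩
  · intro y hy
    change K.bd (K.p y) ∈ f0.target
    rw [K.bd_p, ← (hf y hy).1]
    exact f0.map_source hy
  · intro y hy
    exact f0.map_target hy
  · intro y hy
    change f0.symm (K.bd (K.p y)) = y
    rw [K.bd_p, ← (hf y hy).1]
    exact f0.left_inv hy
  · intro y hy
    have h1 := f0.map_target hy
    apply K.eq_p (hf _ h1).2
    rw [← (hf _ h1).1]
    exact (f0.right_inv hy).symm
  · rw [Topology.IsInducing.subtypeVal.continuousOn_iff]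
    have hq : Continuous K.qm := K.qm_open.continuous
    have h : ContinuousOn (fun y : Z => ((K.qm y, K.alZ y, K.kaZ y) : K.Q × ℝ × ℂ)) f0.source := by
      intro y hy
      exact (hq.continuousAt.prodMk ((K.alZ_cont (hf y hy).2).prodMk
        (K.kaZ_cont (hf y hy).2))).continuousWithinAt
    exact h.congr (fun y hy => K.p_val (hf y hy).2)
  · exact f0.continuousOn_symm.comp K.bd_continuous.continuousOn (fun y hy => hy)

theorem p_fib {x y : Z} (hx : K.τ x ≠ x) (hy : K.τ y ≠ y) :
    K.p x = K.p y ↔ y = x ∨ y = K.τ x := by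
  rw [← K.qm_eq]
  constructor
  · intro h
    rw [← K.bd_p x, ← K.bd_p y, h]
  · intro h
    exact K.eq_p hx (by rw [K.bd_p]; exact h.symm)

end KD

end Pool.Agent.Kum
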