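import Pool.Agent.Lib.MP_1d980c_gt.Kum.ELocA

/-! The points of the exceptional curves. -/

set_option autoImplicit false
open Topology Complex ComplexConjugate Pool.Agent.S4T2 Pool.Agent.BlowC
open scoped Manifold ContDiff

namespace Pool.Agent.Kum

namespace KD

variable {Z : Type} [TopologicalSpace Z] (K : KD Z)

private theorem kv_some (a : ℂ) : kv (a : OnePoint ℂ) =
    ((1 + ‖a‖ ^ 2)⁻¹, a * ((1 + ‖a‖ ^ 2 : ℝ) : ℂ)⁻¹) := rfl

private theorem kv_infty : kv (OnePoint.infty : OnePoint ℂ) = (0, 0) := rfl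

private theorem kv_fst_ne (a : ℂ) : (kv (a : OnePoint ℂ)).1 ≠ 0 := by
  rw [kv_some]
  positivity

private theorem kv_sl (a : ℂ) : (kv (a : OnePoint ℂ)).2 / ((kv (a : OnePoint ℂ)).1 : ℂ) = a := by
  rw [kv_some]
  have h : ((1 + ‖a‖ ^ 2 : ℝ) : ℂ) ≠ 0 := by
    rw [Ne, Complex.ofReal_eq_zero]
    positivity
  simp only
  rw [Complex.ofReal_inv, div_inv_eq_mul, mul_assoc, inv_mul_cancel₀ h, mul_one]

private theorem kv_of {α : ℝ} {κ : ℂ} (h : ‖κ‖ ^ 2 = α * (1 - α)) (h0 : α ≠ 0) :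
    kv ((κ / (α : ℂ) : ℂ) : OnePoint ℂ) = (α, κ) := by
  have hα : (α : ℂ) ≠ 0 := by
    rw [Ne, Complex.ofReal_eq_zero]
    exact h0
  have h1 : 1 + ‖κ / (α : ℂ)‖ ^ 2 = α⁻¹ := by
    rw [norm_div, div_pow, h, Complex.norm_real, Real.norm_eq_abs, sq_abs]
    field_simp
    ring
  rw [kv_some, h1, inv_inv, Complex.ofReal_inv, inv_inv, div_mul_cancel₀ _ hα]

private theorem kv_inj {a a' : OnePoint ℂ} (h : kv a = kv a') : a = a' := by
  induction a using OnePoint.rec with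
  | infty =>
    induction a' using OnePoint.rec with
    | infty => rfl
    | coe a' =>
      exfalso
      apply kv_fst_ne a'
      rw [← h, kv_infty]
  | coe a =>
    induction a' using OnePoint.rec with
    | infty =>
      exfalso
      apply kv_fst_ne a
      rw [h, kv_infty]
    | coe a' =>
      have h1 := kv_sl a
      rw [h, kv_sl a'] at h1
      rw [h1]

private theorem fix_val {y : K.KSet} {e : Z} (he : K.τ e = e) (h : K.bd y = K.qm e) :
    ‖y.1.2.2‖ ^ 2 = y.1.2.1 * (1 - y.1.2.1) := by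
  rcases y.2 with h1 | h1
  · exfalso
    apply h1.1
    have h2 : y.1.1 = K.qm e := h
    rw [h2]
    exact K.qm_mem_fixQ.2 he
  · exact h1.2

private theorem ext_k {y : K.KSet} {e : Z} (he : K.τ e = e) (h : K.bd y = K.qm e)
    {a : OnePoint ℂ} (ha : kv a = (y.1.2.1, y.1.2.2)) : y = K.k e a := by
  apply Subtype.ext
  rw [K.k_val he, ha]
  have h2 : y.1.1 = K.qm e := h
  rw [← h2]

private theorem sl_val {e : Z} (he : K.τ e = e) (a : OnePoint ℂ) :
    K.sl (K.k e a) = (kv a).2 / ((kv a).1 : ℂ) := by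
  unfold sl
  rw [K.k_val he]

theorem k_inj {e e' : Z} {a a' : OnePoint ℂ} (he : K.τ e = e) (he' : K.τ e' = e')
    (h : K.k e a = K.k e' a') : e = e' ∧ a = a' := by
  have h1 : (K.k e a).1 = (K.k e' a').1 := by rw [h]
  rw [K.k_val he, K.k_val he', Prod.mk.injEq] at h1
  refine ⟨?_, kv_inj h1.2⟩
  rcases K.qm_eq.1 h1.1 with h2 | h2
  · exact h2.symm
  · rw [he] at h2
    exact h2.symm

/-- every point is over a regular point or on an exceptional curve (in the second case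
`‖κ‖ ^ 2 = α (1 - α)`: `a = κ / α`, or `α = κ = 0` and `a = ∞`, or `α = 1`, `κ = 0`, `a = 0`). -/
theorem cover (y : K.KSet) :
    (∃ x, K.τ x ≠ x ∧ K.p x = y) ∨ ∃ e a, K.τ e = e ∧ K.k e a = y := by
  rcases y.2 with h | h
  · left
    obtain ⟨x, hx⟩ : ∃ x, K.qm x = y.1.1 := Quotient.exists_rep y.1.1
    have hτ : K.τ x ≠ x := fun h' => h.1 (by rw [← hx]; exact K.qm_mem_fixQ.2 h')
    refine ⟨x, hτ, ?_⟩
    apply Subtype.ext
    rw [K.p_val hτ]
    refine Prod.ext hx (Prod.ext ?_ ?_)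
    · show K.alZ x = y.1.2.1
      rw [h.2.1, ← hx, K.al_mk]
    · show K.kaZ x = y.1.2.2
      rw [h.2.2, ← hx, K.ka_mk]
  · right
    obtain ⟨⟨e, he, hy⟩, h2⟩ := h
    by_cases h0 : y.1.2.1 = 0
    · refine ⟨e, OnePoint.infty, he, ?_⟩
      have hκ : y.1.2.2 = 0 := by
        rw [h0, zero_mul] at h2
        exact norm_eq_zero.1 (pow_eq_zero_iff (two_ne_zero) |>.1 h2)
      exact (K.ext_k he hy (by rw [kv_infty, h0, hκ])).symm
    · exact ⟨e, _, he, (K.ext_k he hy (kv_of h2 h0)).symm⟩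

/-- a point over `mk e` with `e` fixed and `α ≠ 0` is `k e (sl y)`; in general it is
`k e (inv (sl y)⁻¹)`. -/
theorem eq_k {y : K.KSet} {e : Z} (he : K.τ e = e) (h : K.bd y = K.qm e) (h0 : y.1.2.1 ≠ 0) :
    y = K.k e ((K.sl y : ℂ) : OnePoint ℂ) :=
  K.ext_k he h (kv_of (K.fix_val he h) h0)

theorem eq_k' {y : K.KSet} {e : Z} (he : K.τ e = e) (h : K.bd y = K.qm e) (h0 : y.1.2.1 ≠ 1) :
    y = K.k e (inv (K.sl y)⁻¹) := by
  have hv := K.fix_val he h
  by_cases h1 : y.1.2.1 = 0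
  · have hκ : y.1.2.2 = 0 := by
      rw [h1, zero_mul] at hv
      exact norm_eq_zero.1 (pow_eq_zero_iff (two_ne_zero) |>.1 hv)
    have hs : K.sl y = 0 := by
      unfold sl
      rw [hκ, zero_div]
    have hi : inv (K.sl y)⁻¹ = OnePoint.infty := by
      unfold inv
      rw [hs, inv_zero, if_pos rfl]
    rw [hi]
    exact K.ext_k he h (by rw [kv_infty, h1, hκ])
  · have hκ : y.1.2.2 ≠ 0 := by
      intro h2
      rw [h2, norm_zero] at hv
      have h3 : y.1.2.1 * (1 - y.1.2.1) = 0 := by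
        rw [← hv]
        norm_num
      rcases mul_eq_zero.1 h3 with h4 | h4
      · exact h1 h4
      · exact h0 (by linarith)
    have hs : K.sl y ≠ 0 := by
      unfold sl
      refine div_ne_zero hκ ?_
      rw [Ne, Complex.ofReal_eq_zero]
      exact h1
    have hi : inv (K.sl y)⁻¹ = ((K.sl y : ℂ) : OnePoint ℂ) := by
      unfold inv
      rw [if_neg (inv_ne_zero hs), inv_inv]
    rw [hi]
    exact K.eq_k he h h1

theorem sl_k {e : Z} (he : K.τ e = e) (a : ℂ) : K.sl (K.k e (a : OnePoint ℂ)) = a := by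
  rw [K.sl_val he, kv_sl]

theorem sl_k' {e : Z} (he : K.τ e = e) (b : ℂ) : (K.sl (K.k e (inv b)))⁻¹ = b := by
  by_cases hb : b = 0
  · have hi : inv b = OnePoint.infty := by
      unfold inv
      rw [if_pos hb]
    rw [hi, K.sl_val he, kv_infty, hb]
    simp
  · have hi : inv b = ((b⁻¹ : ℂ) : OnePoint ℂ) := by
      unfold inv
      rw [if_neg hb]
    rw [hi, K.sl_k he, inv_inv]

end KD

end Pool.Agent.Kum
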