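import Pool.Agent.Lib.MP_1d980c_gt.Kum.ESetup
import Pool.Agent.Lib.MP_1d980c_gt.Kum.EKumC

/-! Existence of the resolution. -/

set_option autoImplicit false
open Topology Complex ComplexConjugate Pool.Agent.S4T2 Pool.Agent.BlowC
open scoped Manifold ContDiff

namespace Pool.Agent.Kum

variable {EZ HZ Z : Type} [NormedAddCommGroup EZ] [NormedSpace ℝ EZ] [FiniteDimensional ℝ EZ]
  [TopologicalSpace HZ] {IZ : ModelWithCorners ℝ EZ HZ} [IZ.Boundaryless] [TopologicalSpace Z]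
  [ChartedSpace HZ Z] [IsManifold IZ ∞ Z] [T2Space Z] [CompactSpace Z] {τ : Z → Z}

theorem exists_kum (hdim : Module.finrank ℝ EZ = 4) (hτ : ContMDiff IZ IZ ∞ τ)
    (hττ : ∀ x, τ (τ x) = x) (hfin : {e | τ e = e}.Finite) {s t : Z → Z → ℂ}
    (hodd : ∀ e, τ e = e → ∀ᶠ x in 𝓝 e, s e (τ x) = -s e x ∧ t e (τ x) = -t e x)
    (hz : ∀ e, τ e = e → s e e = 0 ∧ t e e = 0)
    (hc : ∀ e, τ e = e →
      (∀ᶠ x in 𝓝 e, ContMDiffAt IZ 𝓘(ℝ, ℂ × ℂ) ∞ (fun y => (s e y, t e y)) x) ∧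
      Function.Bijective (mfderiv IZ 𝓘(ℝ, ℂ × ℂ) (fun y => (s e y, t e y)) e)) :
    ∃ (M : Type) (_ : TopologicalSpace M) (_ : ChartedSpace E4 M) (p : Z → M)
      (k : Z → OnePoint ℂ → M), IsManifold (𝓡 4) ∞ M ∧ T2Space M ∧ CompactSpace M ∧
      IsKum IZ τ s t p k := by
  obtain ⟨K, rfl, hK, hst⟩ := exists_kd hdim hτ hττ hfin hodd hz hc
  obtain ⟨cs, h1, h2⟩ := real_of_germs (E := E4) (M := K.KSet) (K.GmE IZ) (KD.gmE_ex hK)
    (KD.gmE_homeo hK) (fun y f hf g hg => KD.gmE_rel hK y f g hf hg)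
  refine ⟨K.KSet, inferInstance, cs, K.p, K.k, h1, K.KSet_t2, K.KSet_compact, ?_⟩
  exact {
    reg := fun x hx => p_diffeo hK h2 hx
    fib := fun x y hx hy => K.p_fib hx hy
    kinj := fun e e' a a' he he' h => K.k_inj he he' h
    disj := fun e a x he hx h => by
      have h3 := congrArg K.bd h
      rw [K.bd_p, K.bd_k he] at h3
      have h4 : K.qm x ∈ K.FixQ := by
        rw [h3]
        exact K.qm_mem_fixQ.2 he
      exact hx (K.qm_mem_fixQ.1 h4)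
    cover := K.cover
    near := fun e he a => near1 h2 he (fun x hx => hst ⟨e, he⟩ x hx) a
    near' := fun e he a => near2 h2 he (fun x hx => hst ⟨e, he⟩ x hx) a }

end Pool.Agent.Kum
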