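import Pool.Agent.Lib.MP_1d980c_gt.Kum.EQuotA

/-! The quotient by the involution: neighbourhoods of the fixed points. -/

set_option autoImplicit false
open Topology Complex ComplexConjugate Pool.Agent.S4T2 Pool.Agent.BlowC
open scoped Manifold ContDiff

namespace Pool.Agent.Kum

namespace KD

variable {Z : Type} [TopologicalSpace Z] (K : KD Z)

theorem DQ_open (e : {e : Z // K.τ e = e}) : IsOpen (K.DQ e) :=
  K.qm_open.isOpenMap _ (K.b e).D_open

theorem qm_mem_DQ {e : {e : Z // K.τ e = e}} {x : Z} : K.qm x ∈ K.DQ e ↔ x ∈ (K.b e).D := by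
  constructor
  · rintro ⟨y, hy, h⟩
    rcases K.qm_eq.1 h with rfl | rfl
    · exact hy
    · exact (K.D_tau e y).2 hy
  · intro h
    exact ⟨x, h, rfl⟩

theorem DQ_dis {e e' : {e : Z // K.τ e = e}} {q : K.Q} (h : q ∈ K.DQ e) (h' : q ∈ K.DQ e') :
    e = e' := by
  obtain ⟨x, hx, rfl⟩ := h
  exact K.dis e e' x hx.1 (K.qm_mem_DQ.1 h').1

end KD

end Pool.Agent.Kum
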