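import Pool.Agent.Lib.MP_1d980c_gt.Kum.EDefs

/-! The quotient by the involution. -/

set_option autoImplicit false
open Topology Complex ComplexConjugate Pool.Agent.S4T2 Pool.Agent.BlowC
open scoped Manifold ContDiff

namespace Pool.Agent.Kum

namespace KD

variable {Z : Type} [TopologicalSpace Z] (K : KD Z)

/-- the preimage of `mk '' U` is `U ∪ τ ⁻¹' U`. -/
theorem qm_open : IsOpenQuotientMap K.qm := by
  refine ⟨fun q => Quotient.exists_rep q, continuous_quotient_mk', fun U hU => ?_⟩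
  have hq : IsQuotientMap K.qm := isQuotientMap_quotient_mk'
  rw [← hq.isOpen_preimage]
  have h1 : K.qm ⁻¹' (K.qm '' U) = U ∪ K.τ ⁻¹' U := by
    ext x
    constructor
    · rintro ⟨y, hy, hyx⟩
      rcases K.qm_eq.1 hyx with rfl | rfl
      · exact Or.inl hy
      · right
        show K.τ (K.τ y) ∈ U
        rw [K.invo]
        exact hy
    · rintro (h | h)
      · exact ⟨x, h, rfl⟩
      · exact ⟨K.τ x, h, K.qm_tau x⟩
  rw [h1]
  exact hU.union (hU.preimage K.cont)

/-- the relation `{(x, y) | y = x ∨ y = τ x}` is closed: `t2Space_iff_of_isOpenQuotientMap`. -/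
theorem t2 [T2Space Z] : T2Space K.Q := by
  rw [t2Space_iff_of_isOpenQuotientMap K.qm_open]
  have h1 : {q : Z × Z | K.qm q.1 = K.qm q.2} = {q | q.2 = q.1} ∪ {q | q.2 = K.τ q.1} := by
    ext q
    exact K.qm_eq
  rw [h1]
  exact (isClosed_eq continuous_snd continuous_fst).union
    (isClosed_eq continuous_snd (K.cont.comp continuous_fst))

/-- a finite set. -/
theorem fixQ_closed [T2Space Z] : IsClosed K.FixQ := by
  have := K.t2
  have := K.fin
  have h1 : K.FixQ = Set.range fun e : {e : Z // K.τ e = e} => K.qm e.1 := by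
    ext q
    constructor
    · rintro ⟨e, he, rfl⟩
      exact ⟨⟨e, he⟩, rfl⟩
    · rintro ⟨e, rfl⟩
      exact ⟨e.1, e.2, rfl⟩
  rw [h1]
  exact (Set.finite_range _).isClosed

/-- near a regular point the quotient map is a homeomorphism. -/
theorem qm_loc [T2Space Z] {x : Z} (hx : K.τ x ≠ x) :
    ∃ f : OpenPartialHomeomorph Z K.Q, x ∈ f.source ∧
      (∀ y ∈ f.source, f y = K.qm y ∧ K.τ y ≠ y) := by
  have : Nonempty Z := ⟨x⟩
  obtain ⟨V, U, hV, hU, hxV, hxU, hd⟩ := t2_separation hx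
  have hW : IsOpen (U ∩ K.τ ⁻¹' V) := hU.inter (hV.preimage K.cont)
  have hinj : Set.InjOn K.qm (U ∩ K.τ ⁻¹' V) := by
    rintro y ⟨hy, hyV⟩ y' ⟨hy', hyV'⟩ h
    rcases K.qm_eq.1 h with h1 | h1
    · exact h1.symm
    · exfalso
      rw [h1] at hy'
      exact Set.disjoint_left.1 hd hyV hy'
  let f := OpenPartialHomeomorph.ofContinuousOpen (hinj.toPartialEquiv)
    (K.qm_open.continuous.continuousOn) K.qm_open.isOpenMap hW
  refine ⟨f, ⟨hxU, hxV⟩, fun y hy => ⟨rfl, fun h => ?_⟩⟩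
  have hy' : y ∈ U ∩ K.τ ⁻¹' V := hy
  have h1 : K.τ y ∈ V := hy'.2
  rw [h] at h1
  exact Set.disjoint_left.1 hd h1 hy'.1

end KD

end Pool.Agent.Kum
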