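import Pool.Agent.Lib.MP_1d980c_gt.Kum.ESetupA

/-! Choice of the charts at all fixed points. -/

set_option autoImplicit false
open Topology Complex ComplexConjugate Pool.Agent.S4T2 Pool.Agent.BlowC
open scoped Manifold ContDiff

namespace Pool.Agent.Kum

variable {EZ HZ Z : Type} [NormedAddCommGroup EZ] [NormedSpace ℝ EZ] [FiniteDimensional ℝ EZ]
  [TopologicalSpace HZ] {IZ : ModelWithCorners ℝ EZ HZ} [IZ.Boundaryless] [TopologicalSpace Z]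
  [ChartedSpace HZ Z] [IsManifold IZ ∞ Z] [T2Space Z] {τ : Z → Z}

/-- All fixed points: separate them by disjoint open sets (`Set.Finite.t2_separation`). -/
theorem exists_kd (hdim : Module.finrank ℝ EZ = 4) (hτ : ContMDiff IZ IZ ∞ τ)
    (hττ : ∀ x, τ (τ x) = x) (hfin : {e | τ e = e}.Finite) {s t : Z → Z → ℂ}
    (hodd : ∀ e, τ e = e → ∀ᶠ x in 𝓝 e, s e (τ x) = -s e x ∧ t e (τ x) = -t e x)
    (hz : ∀ e, τ e = e → s e e = 0 ∧ t e e = 0)
    (hc : ∀ e, τ e = e →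
      (∀ᶠ x in 𝓝 e, ContMDiffAt IZ 𝓘(ℝ, ℂ × ℂ) ∞ (fun y => (s e y, t e y)) x) ∧
      Function.Bijective (mfderiv IZ 𝓘(ℝ, ℂ × ℂ) (fun y => (s e y, t e y)) e)) :
    ∃ K : KD Z, K.τ = τ ∧ K.KSm IZ ∧
      ∀ e : {e : Z // K.τ e = e}, ∀ x ∈ (K.b e).e.source, (K.b e).e x = (s e x, t e x) := by
  obtain ⟨U, hU, hdis⟩ := hfin.t2_separation
  have hb : ∀ e : {e : Z // τ e = e}, ∃ b : BData Z, b.p = e.1 ∧ b.e.source ⊆ U e.1 ∧
      (∀ x ∈ b.e.source, τ x ∈ b.e.source ∧ b.e (τ x) = -b.e x) ∧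
      (∀ x ∈ b.e.source, b.e x = (s e.1 x, t e.1 x)) ∧
      (∀ x ∈ b.e.source, ContMDiffAt IZ 𝓘(ℝ, ℂ × ℂ) ∞ b.e x ∧
        Function.Bijective (mfderiv IZ 𝓘(ℝ, ℂ × ℂ) b.e x)) := fun e =>
    exists_bdata hτ.continuous hττ e.2 (hodd e.1 e.2) (hz e.1 e.2) (hc e.1 e.2).1 (hc e.1 e.2).2
      (hU e.1).2 (hU e.1).1
  choose b hbp hbU hbs hbe hbc using hb
  let K : KD Z :=
    { τ := τ
      cont := hτ.continuous
      invo := hττ
      fin := hfin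
      b := b
      hp := hbp
      sym := hbs
      dis := by
        intro e e' x hx hx'
        by_contra hne
        have h1 : e.1 ≠ e'.1 := fun h => hne (Subtype.ext h)
        exact Set.disjoint_left.1 (hdis e.2 e'.2 h1) (hbU e hx) (hbU e' hx') }
  exact ⟨K, rfl, ⟨hτ, hbc, hdim⟩, hbe⟩

end Pool.Agent.Kum
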