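import Pool.Agent.Lib.MP_1d980c_gt.Kum.EGDefs

/-! Choice of the charts at the fixed points. -/

set_option autoImplicit false
open Topology Complex ComplexConjugate Pool.Agent.S4T2 Pool.Agent.BlowC
open scoped Manifold ContDiff

namespace Pool.Agent.Kum

variable {EZ HZ Z : Type} [NormedAddCommGroup EZ] [NormedSpace ℝ EZ] [FiniteDimensional ℝ EZ]
  [TopologicalSpace HZ] {IZ : ModelWithCorners ℝ EZ HZ} [IZ.Boundaryless] [TopologicalSpace Z]
  [ChartedSpace HZ Z] [IsManifold IZ ∞ Z] [T2Space Z] {τ : Z → Z}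

/-- One fixed point, inside a given open set `U₀` containing `e`. By `exists_local_inv` there is a
chart `φ = (s, t)` near `e`. Let `U` be the set of the `x` in an open set `U₁ ⊆ U₀ ∩ φ.source`
(where oddness holds) with `τ x ∈ U₁`: it is open, symmetric, contains `e`, and the restriction of
`φ` to `U` has an open target containing a ball `{q2 ≤ r}`. -/
theorem exists_bdata (hτ : Continuous τ) (hττ : ∀ x, τ (τ x) = x) {e : Z} (he : τ e = e)
    {s t : Z → ℂ} (hodd : ∀ᶠ x in 𝓝 e, s (τ x) = -s x ∧ t (τ x) = -t x)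
    (hz : s e = 0 ∧ t e = 0)
    (hc : ∀ᶠ x in 𝓝 e, ContMDiffAt IZ 𝓘(ℝ, ℂ × ℂ) ∞ (fun y => (s y, t y)) x)
    (hb : Function.Bijective (mfderiv IZ 𝓘(ℝ, ℂ × ℂ) (fun y => (s y, t y)) e))
    {U₀ : Set Z} (hU : IsOpen U₀) (heU : e ∈ U₀) :
    ∃ b : BData Z, b.p = e ∧ b.e.source ⊆ U₀ ∧
      (∀ x ∈ b.e.source, τ x ∈ b.e.source ∧ b.e (τ x) = -b.e x) ∧
      (∀ x ∈ b.e.source, b.e x = (s x, t x)) ∧
      (∀ x ∈ b.e.source, ContMDiffAt IZ 𝓘(ℝ, ℂ × ℂ) ∞ b.e x ∧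
        Function.Bijective (mfderiv IZ 𝓘(ℝ, ℂ × ℂ) b.e x)) := by
  obtain ⟨φ, heφ, hval, hsm, -⟩ := exists_local_inv hc hb
  obtain ⟨V, hV1, hV2, hV3⟩ := eventually_nhds_iff.1 hodd
  set U₁ : Set Z := U₀ ∩ V ∩ φ.source with hU₁
  have hU₁o : IsOpen U₁ := (hU.inter hV2).inter φ.open_source
  have heU₁ : e ∈ U₁ := ⟨⟨heU, hV3⟩, heφ⟩
  set U : Set Z := U₁ ∩ τ ⁻¹' U₁ with hUdef
  have hUo : IsOpen U := hU₁o.inter (hU₁o.preimage hτ)
  have heU' : e ∈ U := ⟨heU₁, by rw [Set.mem_preimage, he]; exact heU₁⟩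
  have hsym : ∀ x ∈ U, τ x ∈ U := fun x hx =>
    ⟨hx.2, by rw [Set.mem_preimage, hττ]; exact hx.1⟩
  have hsrc : ∀ y, y ∈ (φ.restrOpen U hUo).source ↔ y ∈ U := by
    intro y
    rw [OpenPartialHomeomorph.restrOpen_source]
    exact ⟨fun h => h.2, fun h => ⟨h.1.2, h⟩⟩
  have hv : ∀ y ∈ U, φ.restrOpen U hUo y = (s y, t y) := fun y hy => hval y hy.1.2
  have h0 : (0 : ℂ × ℂ) ∈ (φ.restrOpen U hUo).target := by
    have h1 := (φ.restrOpen U hUo).map_source ((hsrc e).2 heU')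
    rw [hv e heU', hz.1, hz.2] at h1
    exact h1
  obtain ⟨δ, hδ, hball⟩ := Metric.isOpen_iff.1 (φ.restrOpen U hUo).open_target 0 h0
  have hb' : ∀ w : ℂ × ℂ, q2 w ≤ (δ / 2) ^ 2 → w ∈ (φ.restrOpen U hUo).target := by
    intro w hw
    apply hball
    unfold q2 at hw
    have h1 : ‖w.1‖ ≤ δ / 2 :=
      abs_le_of_sq_le_sq' (by nlinarith [sq_nonneg ‖w.2‖]) (by positivity) |>.2
    have h2 : ‖w.2‖ ≤ δ / 2 :=
      abs_le_of_sq_le_sq' (by nlinarith [sq_nonneg ‖w.1‖]) (by positivity) |>.2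
    rw [Metric.mem_ball, dist_zero_right, Prod.norm_def]
    exact max_lt (by linarith) (by linarith)
  refine ⟨{ e := φ.restrOpen U hUo
            p := e
            r := (δ / 2) ^ 2
            hp := (hsrc e).2 heU'
            ep := by rw [hv e heU', hz.1, hz.2]; rfl
            hr := by positivity
            ball := hb' }, rfl, ?_, ?_, ?_, ?_⟩
  · intro x hx
    exact ((hsrc x).1 hx).1.1.1
  · intro x hx
    have hxU := (hsrc x).1 hx
    refine ⟨(hsrc _).2 (hsym x hxU), ?_⟩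
    change φ.restrOpen U hUo (τ x) = -(φ.restrOpen U hUo x)
    rw [hv _ (hsym x hxU), hv x hxU]
    obtain ⟨h1, h2⟩ := hV1 x hxU.1.1.2
    rw [h1, h2]
    rfl
  · intro x hx
    exact hv x ((hsrc x).1 hx)
  · intro x hx
    have hxU := (hsrc x).1 hx
    have hev : (φ.restrOpen U hUo) =ᶠ[𝓝 x] fun y => (s y, t y) := by
      filter_upwards [hUo.mem_nhds hxU] with y hy using hv y hy
    obtain ⟨h1, h2⟩ := hsm x hxU.1.2
    refine ⟨h1.congr_of_eventuallyEq hev, ?_⟩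
    change Function.Bijective (mfderiv IZ 𝓘(ℝ, ℂ × ℂ) (φ.restrOpen U hUo) x)
    rw [Filter.EventuallyEq.mfderiv_eq hev]
    exact h2

end Pool.Agent.Kum
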