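import Pool.Agent.Lib.MP_1d980c_gt.Kum.ECont

/-! The resolution is compact. -/

set_option autoImplicit false
open Topology Complex ComplexConjugate Pool.Agent.S4T2 Pool.Agent.BlowC
open scoped Manifold ContDiff

namespace Pool.Agent.Kum

namespace KD

variable {Z : Type} [TopologicalSpace Z] (K : KD Z)

theorem kap {y : K.Q × ℝ × ℂ} (h : y ∈ K.KSet) : ‖y.2.2‖ ^ 2 = y.2.1 * (K.chi y.1 - y.2.1) := by
  rcases h with ⟨h1, h2, h3⟩ | ⟨⟨e, he, hq⟩, h2⟩
  · obtain ⟨x, hx⟩ := Quotient.exists_rep y.1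
    have hx' : K.qm x = y.1 := hx
    rw [← hx'] at h1 h2 h3 ⊢
    have h4 : K.τ x ≠ x := fun h => h1 (K.qm_mem_fixQ.2 h)
    rw [h2, h3, K.al_mk, K.ka_mk, K.chi_mk]
    exact K.kapZ h4
  · rw [h2, hq, K.chi_mk, K.chiZ_fix he]

private theorem chi_bd (q : K.Q) : 0 ≤ K.chi q ∧ K.chi q ≤ 1 := by
  obtain ⟨x, hx⟩ := Quotient.exists_rep q
  have hx' : K.qm x = q := hx
  rw [← hx', K.chi_mk]
  exact K.chiZ_mem x

/-- compare `BData.BSet_isClosed`. -/
theorem KSet_isClosed [T2Space Z] : IsClosed K.KSet := by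
  have hs : IsOpen {z : K.Q × ℝ × ℂ | z.1 ∉ K.FixQ} :=
    K.fixQ_closed.isOpen_compl.preimage continuous_fst
  have hC1 : IsClosed {z : K.Q × ℝ × ℂ | ‖z.2.2‖ ^ 2 = z.2.1 * (K.chi z.1 - z.2.1)} := by
    apply isClosed_eq
    · fun_prop
    · have := K.chi_cont
      fun_prop
  have hal : ContinuousOn K.al {q | q ∉ K.FixQ} := fun q hq => (K.al_cont hq).continuousWithinAt
  have hka : ContinuousOn K.ka {q | q ∉ K.FixQ} := fun q hq => (K.ka_cont hq).continuousWithinAt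
  have hf : ContinuousOn (fun z : K.Q × ℝ × ℂ => ((z.2.1 - K.al z.1, z.2.2 - K.ka z.1) : ℝ × ℂ))
      {z : K.Q × ℝ × ℂ | z.1 ∉ K.FixQ} := by
    apply ContinuousOn.prodMk
    · apply ContinuousOn.sub
      · fun_prop
      · exact hal.comp continuous_fst.continuousOn (fun z hz => hz)
    · apply ContinuousOn.sub
      · fun_prop
      · exact hka.comp continuous_fst.continuousOn (fun z hz => hz)
  have ho := hf.isOpen_inter_preimage hs (isOpen_compl_singleton (x := (0 : ℝ × ℂ)))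
  have heq : K.KSet = {z : K.Q × ℝ × ℂ | ‖z.2.2‖ ^ 2 = z.2.1 * (K.chi z.1 - z.2.1)} ∩
      ({z : K.Q × ℝ × ℂ | z.1 ∉ K.FixQ} ∩
        (fun z : K.Q × ℝ × ℂ => ((z.2.1 - K.al z.1, z.2.2 - K.ka z.1) : ℝ × ℂ)) ⁻¹' {0}ᶜ)ᶜ := by
    ext z
    constructor
    · intro hz
      refine ⟨K.kap hz, ?_⟩
      rintro ⟨h1, h2⟩
      apply h2
      rcases hz with ⟨h3, h4, h5⟩ | ⟨h3, h4⟩
      · change (z.2.1 - K.al z.1, z.2.2 - K.ka z.1) = 0
        rw [h4, h5, sub_self, sub_self]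
        rfl
      · exact absurd h3 h1
    · rintro ⟨h1, h2⟩
      by_cases hp : z.1 ∈ K.FixQ
      · right
        refine ⟨hp, ?_⟩
        change ‖z.2.2‖ ^ 2 = z.2.1 * (K.chi z.1 - z.2.1) at h1
        obtain ⟨e, he, hq⟩ := hp
        rw [h1, hq, K.chi_mk, K.chiZ_fix he]
      · left
        have h3 : (z.2.1 - K.al z.1, z.2.2 - K.ka z.1) = (0 : ℝ × ℂ) := by
          by_contra h3
          exact h2 ⟨hp, h3⟩
        have h4 := congrArg Prod.fst h3
        have h5 := congrArg Prod.snd h3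
        exact ⟨hp, sub_eq_zero.1 h4, sub_eq_zero.1 h5⟩
  rw [heq]
  exact hC1.inter ho.isClosed_compl

/-- compare `BData.BSet_compact`. -/
theorem KSet_compact [T2Space Z] [CompactSpace Z] : CompactSpace K.KSet := by
  rw [← isCompact_iff_compactSpace]
  have hK : IsCompact ((Set.univ : Set K.Q) ×ˢ
      (Set.Icc (0 : ℝ) 1 ×ˢ Metric.closedBall (0 : ℂ) 1)) :=
    isCompact_univ.prod (isCompact_Icc.prod (isCompact_closedBall _ _))
  apply hK.of_isClosed_subset K.KSet_isClosed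
  intro z hz
  have hk := K.kap hz
  obtain ⟨h0, h1⟩ := K.chi_bd z.1
  have hn : 0 ≤ ‖z.2.2‖ := norm_nonneg _
  have ha : 0 ≤ z.2.1 := by
    by_contra hlt
    push Not at hlt
    nlinarith [sq_nonneg ‖z.2.2‖]
  have hb : z.2.1 ≤ K.chi z.1 := by
    by_contra hlt
    push Not at hlt
    nlinarith [sq_nonneg ‖z.2.2‖]
  refine ⟨Set.mem_univ _, ⟨ha, hb.trans h1⟩, ?_⟩
  rw [mem_closedBall_zero_iff]
  nlinarith

theorem KSet_t2 [T2Space Z] : T2Space K.KSet := by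
  have := K.t2
  infer_instance

end KD

end Pool.Agent.Kum
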