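import Pool.Agent.Lib.MP_1d980c_gt.Kum.ELoc
import Pool.Agent.Lib.MP_1d980c_gt.Kum.ESpace

/-! The domains of the charts along an exceptional curve. -/

set_option autoImplicit false
open Topology Complex ComplexConjugate Pool.Agent.S4T2 Pool.Agent.BlowC
open scoped Manifold ContDiff

namespace Pool.Agent.Kum

namespace KD

variable {Z : Type} [TopologicalSpace Z] (K : KD Z)

theorem S12_cover {e : {e : Z // K.τ e = e}} {y : K.KSet} (h : K.bd y ∈ K.DQ e) :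
    y ∈ K.S1 e ∨ y ∈ K.S2 e := by
  by_cases h0 : y.1.2.1 = 0
  · right
    refine ⟨h, ?_⟩
    rw [h0, sub_zero]
    obtain ⟨x, hx, hxy⟩ := h
    rw [← hxy, K.chi_mk, K.chiZ_eq hx.1]
    exact (((K.b e).chi_pos_iff _).2 hx).ne'
  · left
    exact ⟨h, h0⟩

private theorem ESlopeA_cont : Continuous fun y : K.KSet => y.1.2.1 :=
  continuous_fst.comp (continuous_snd.comp continuous_subtype_val)

theorem S1_open [T2Space Z] (e : {e : Z // K.τ e = e}) : IsOpen (K.S1 e) := by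
  have h1 : IsOpen {y : K.KSet | K.bd y ∈ K.DQ e} := (K.DQ_open e).preimage K.bd_continuous
  have h2 : IsOpen {y : K.KSet | y.1.2.1 ≠ 0} := isOpen_ne_fun K.ESlopeA_cont continuous_const
  exact h1.inter h2

theorem S2_open [T2Space Z] (e : {e : Z // K.τ e = e}) : IsOpen (K.S2 e) := by
  have h1 : IsOpen {y : K.KSet | K.bd y ∈ K.DQ e} := (K.DQ_open e).preimage K.bd_continuous
  have h2 : IsOpen {y : K.KSet | K.chi (K.bd y) - y.1.2.1 ≠ 0} :=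
    isOpen_ne_fun ((K.chi_cont.comp K.bd_continuous).sub K.ESlopeA_cont) continuous_const
  exact h1.inter h2

private theorem ESlopeA_mem (e : {e : Z // K.τ e = e}) (a : OnePoint ℂ) :
    K.bd (K.k e a) ∈ K.DQ e := by
  rw [K.bd_k e.2, K.qm_mem_DQ, ← K.hp e]
  exact (K.b e).p_mem_D

theorem k_mem_S1 (e : {e : Z // K.τ e = e}) (a : ℂ) : K.k e (a : OnePoint ℂ) ∈ K.S1 e := by
  refine ⟨K.ESlopeA_mem e _, ?_⟩
  rw [K.k_val e.2]
  show (1 + ‖a‖ ^ 2)⁻¹ ≠ 0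
  positivity

theorem k_mem_S2 (e : {e : Z // K.τ e = e}) (b : ℂ) : K.k e (inv b) ∈ K.S2 e := by
  refine ⟨K.ESlopeA_mem e _, ?_⟩
  rw [K.bd_k e.2, K.chi_mk, K.chiZ_fix e.2, K.k_val e.2]
  unfold inv
  split_ifs with hb
  · show (1 : ℝ) - 0 ≠ 0
    norm_num
  · show (1 : ℝ) - (1 + ‖b⁻¹‖ ^ 2)⁻¹ ≠ 0
    have h1 : 0 < ‖b⁻¹‖ := norm_pos_iff.2 (inv_ne_zero hb)
    have h2 : (0 : ℝ) < ‖b⁻¹‖ ^ 2 := by positivity
    have h3 : (1 + ‖b⁻¹‖ ^ 2)⁻¹ < 1 := inv_lt_one_of_one_lt₀ (by linarith)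
    linarith

end KD

end Pool.Agent.Kum
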