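import Pool.Agent.Lib.MP_1d980c_gt.Kum.ESlopeA

/-! The slope near an exceptional curve. -/

set_option autoImplicit false
open Topology Complex ComplexConjugate Pool.Agent.S4T2 Pool.Agent.BlowC
open scoped Manifold ContDiff

namespace Pool.Agent.Kum

namespace KD

variable {Z : Type} [TopologicalSpace Z] (K : KD Z)

private theorem chi_pos_b {e : {e : Z // K.τ e = e}} {x : Z} (hD : x ∈ (K.b e).D) :
    0 < (K.b e).chi x := by
  rw [(K.b e).chi_mem hD]
  have h1 := hD.2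
  have h2 := (K.b e).hr
  have : q2 ((K.b e).e x) / (K.b e).r < 1 := (div_lt_one h2).2 h1
  linarith

private theorem q2_pos_b {e : {e : Z // K.τ e = e}} {x : Z} (hx : K.τ x ≠ x)
    (hD : x ∈ (K.b e).D) : 0 < q2 ((K.b e).e x) := by
  have h0 : 0 ≤ q2 ((K.b e).e x) := by unfold q2; positivity
  refine lt_of_le_of_ne h0 ?_
  intro h
  apply hx
  have hu : ((K.b e).e x).1 = 0 := by
    have : ‖((K.b e).e x).1‖ ^ 2 = 0 := by
      have h1 : 0 ≤ ‖((K.b e).e x).1‖ ^ 2 := by positivity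
      have h2 : 0 ≤ ‖((K.b e).e x).2‖ ^ 2 := by positivity
      unfold q2 at h
      linarith
    simpa using this
  have hv : ((K.b e).e x).2 = 0 := by
    have : ‖((K.b e).e x).2‖ ^ 2 = 0 := by
      have h1 : 0 ≤ ‖((K.b e).e x).1‖ ^ 2 := by positivity
      have h2 : 0 ≤ ‖((K.b e).e x).2‖ ^ 2 := by positivity
      unfold q2 at h
      linarith
    simpa using this
  have hex : (K.b e).e x = (K.b e).e (K.b e).p := by
    rw [(K.b e).ep]
    exact Prod.ext hu hv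
  have hxp : x = (K.b e).p := (K.b e).e.injOn hD.1 (K.b e).hp hex
  rw [hxp, K.hp e]
  exact e.2

private theorem al_b {e : {e : Z // K.τ e = e}} {x : Z} (hx : K.τ x ≠ x)
    (hD : x ∈ (K.b e).D) : (K.p x).1.2.1 =
      (K.b e).chi x * ‖((K.b e).e x).1‖ ^ 2 / q2 ((K.b e).e x) := by
  rw [K.p_val hx]
  change K.alZ x = _
  rw [K.alZ_eq hD.1]
  rfl

private theorem ka_b {e : {e : Z // K.τ e = e}} {x : Z} (hx : K.τ x ≠ x)
    (hD : x ∈ (K.b e).D) : (K.p x).1.2.2 =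
      ((K.b e).chi x : ℂ) * (conj ((K.b e).e x).1 * ((K.b e).e x).2) /
        (q2 ((K.b e).e x) : ℂ) := by
  rw [K.p_val hx]
  change K.kaZ x = _
  rw [K.kaZ_eq hD.1]
  rfl

private theorem bd_DQ {e : {e : Z // K.τ e = e}} {x : Z} (hD : x ∈ (K.b e).D) :
    K.bd (K.p x) ∈ K.DQ e := by
  rw [K.bd_p]
  exact ⟨x, hD, rfl⟩

/-- at `p x`, `x ∈ D`, `(u, v) = e x`: `α = χ |u|² / (|u|² + |v|²)`, `κ = χ ū v / (|u|² + |v|²)`,
`χ > 0`. -/
theorem p_S1 {e : {e : Z // K.τ e = e}} {x : Z} (hx : K.τ x ≠ x) (hD : x ∈ (K.b e).D) :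
    (K.p x ∈ K.S1 e ↔ ((K.b e).e x).1 ≠ 0) ∧
      (((K.b e).e x).1 ≠ 0 → K.sl (K.p x) = ((K.b e).e x).2 / ((K.b e).e x).1) := by
  have hc := K.chi_pos_b hD
  have hq := K.q2_pos_b hx hD
  refine ⟨⟨?_, ?_⟩, ?_⟩
  · rintro ⟨_, h⟩ h0
    apply h
    rw [K.al_b hx hD, h0]
    simp
  · intro h0
    refine ⟨K.bd_DQ hD, ?_⟩
    rw [K.al_b hx hD]
    have : 0 < ‖((K.b e).e x).1‖ := norm_pos_iff.2 h0
    positivity
  · intro h0
    have hcc : ((K.b e).chi x : ℂ) ≠ 0 := by exact_mod_cast hc.ne'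
    have hqq : (q2 ((K.b e).e x) : ℂ) ≠ 0 := by exact_mod_cast hq.ne'
    have hcj : conj ((K.b e).e x).1 ≠ 0 := by
      intro h
      exact h0 ((map_eq_zero _).1 h)
    unfold sl
    rw [K.ka_b hx hD, K.al_b hx hD]
    push_cast
    rw [← Complex.conj_mul' ((K.b e).e x).1]
    field_simp

theorem p_S2 {e : {e : Z // K.τ e = e}} {x : Z} (hx : K.τ x ≠ x) (hD : x ∈ (K.b e).D) :
    (K.p x ∈ K.S2 e ↔ ((K.b e).e x).2 ≠ 0) ∧
      (((K.b e).e x).2 ≠ 0 → (K.sl (K.p x))⁻¹ = ((K.b e).e x).1 / ((K.b e).e x).2) := by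
  have hc := K.chi_pos_b hD
  have hq := K.q2_pos_b hx hD
  have hchi : K.chi (K.bd (K.p x)) = (K.b e).chi x := by
    rw [K.bd_p, K.chi_mk, K.chiZ_eq hD.1]
  have hsub : K.chi (K.bd (K.p x)) - (K.p x).1.2.1 =
      (K.b e).chi x * ‖((K.b e).e x).2‖ ^ 2 / q2 ((K.b e).e x) := by
    rw [hchi, K.al_b hx hD]
    field_simp
    unfold q2
    ring
  refine ⟨⟨?_, ?_⟩, ?_⟩
  · rintro ⟨_, h⟩ h0
    apply h
    rw [hsub, h0]
    simp
  · intro h0
    refine ⟨K.bd_DQ hD, ?_⟩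
    rw [hsub]
    have : 0 < ‖((K.b e).e x).2‖ := norm_pos_iff.2 h0
    positivity
  · intro h0
    have hcc : ((K.b e).chi x : ℂ) ≠ 0 := by exact_mod_cast hc.ne'
    have hqq : (q2 ((K.b e).e x) : ℂ) ≠ 0 := by exact_mod_cast hq.ne'
    unfold sl
    rw [K.ka_b hx hD, K.al_b hx hD]
    push_cast
    rw [← Complex.conj_mul' ((K.b e).e x).1]
    by_cases hu : ((K.b e).e x).1 = 0
    · rw [hu]
      simp
    · have hcj : conj ((K.b e).e x).1 ≠ 0 := by
        intro h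
        exact hu ((map_eq_zero _).1 h)
      field_simp

/-- on the intersection the slope does not vanish and `v² = u² sl²`. -/
theorem v2_eq {e : {e : Z // K.τ e = e}} {y : K.KSet} (h1 : y ∈ K.S1 e) (h2 : y ∈ K.S2 e) :
    K.sl y ≠ 0 ∧ K.v2 e (K.bd y) = K.u2 e (K.bd y) * K.sl y ^ 2 := by
  obtain ⟨x, hxD, hxy⟩ := h1.1
  by_cases hx : K.τ x = x
  · -- the exceptional curve
    have hxe : (⟨x, hx⟩ : {e : Z // K.τ e = e}) = e := by
      refine K.dis _ _ x ?_ hxD.1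
      have := (K.b ⟨x, hx⟩).hp
      rwa [K.hp ⟨x, hx⟩] at this
    have hex : e.1 = x := by rw [← hxe]
    have hfix : y.1.1 ∈ K.FixQ := ⟨x, hx, hxy.symm⟩
    have hy : ‖y.1.2.2‖ ^ 2 = y.1.2.1 * (1 - y.1.2.1) := by
      rcases y.2 with h | h
      · exact absurd hfix h.1
      · exact h.2
    have hchi : K.chi (K.bd y) = 1 := by
      rw [← hxy, K.chi_mk, K.chiZ_fix hx]
    have ha : y.1.2.1 ≠ 0 := h1.2
    have hb : 1 - y.1.2.1 ≠ 0 := by
      have := h2.2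
      rwa [hchi] at this
    have hk : y.1.2.2 ≠ 0 := by
      intro h
      rw [h] at hy
      simp only [norm_zero, ne_eq, OfNat.ofNat_ne_zero, not_false_eq_true, zero_pow] at hy
      exact (mul_ne_zero ha hb) hy.symm
    refine ⟨?_, ?_⟩
    · unfold sl
      exact div_ne_zero hk (by exact_mod_cast ha)
    · have hz : (K.b e).e x = 0 := by
        have := (K.b e).ep
        rwa [K.hp e, hex] at this
      rw [← hxy, K.v2_mk, K.u2_mk]
      unfold v2Z u2Z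
      rw [if_pos hxD.1, if_pos hxD.1, hz]
      simp
  · have hp : K.p x = y := K.eq_p hx hxy.symm
    have hS1 := K.p_S1 hx hxD
    have hS2 := K.p_S2 hx hxD
    rw [hp] at hS1 hS2
    have hu := hS1.1.1 h1
    have hv := hS2.1.1 h2
    have hsl := hS1.2 hu
    refine ⟨?_, ?_⟩
    · rw [hsl]
      exact div_ne_zero hv hu
    · rw [← hxy, K.v2_mk, K.u2_mk, hsl]
      unfold v2Z u2Z
      rw [if_pos hxD.1, if_pos hxD.1]
      field_simp

end KD

end Pool.Agent.Kum
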