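import Pool.Agent.Lib.MP_1d980c_gt.Kum.KAlg

/-! Equivalent germs are smooth and injective at the same time. -/

set_option autoImplicit false
open Topology Complex ComplexConjugate Pool.Agent.S4T2 Pool.Agent.BlowC
open scoped Manifold ContDiff

namespace Pool.Agent.Kum

variable {F E' H Q : Type} [NormedAddCommGroup F] [NormedSpace ℂ F]
    [NormedAddCommGroup E'] [NormedSpace ℝ E']
    [TopologicalSpace H] {J : ModelWithCorners ℝ E' H} [TopologicalSpace Q] [ChartedSpace H Q]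
    {q : Q} {f g : Q → F}

/-- compose `f` with the holomorphic (hence real smooth) function of the relation. -/
theorem Eqv.smooth (h1 : Eqv q f g) (hf : ContMDiffAt J 𝓘(ℝ, F) ∞ f q) :
    ContMDiffAt J 𝓘(ℝ, F) ∞ g q := by
  obtain ⟨G, hG, hfg⟩ := h1.1
  have h2 : ContMDiffAt 𝓘(ℝ, F) 𝓘(ℝ, F) ∞ G (f q) := (hG.restrict_scalars ℝ).contMDiffAt
  exact (h2.comp q hf).congr_of_eventuallyEq hfg

/-- `f = G ∘ g` near `q`, so the derivative of `f` factors through that of `g`. -/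
theorem Eqv.inj (h1 : Eqv q f g) (hf : ContMDiffAt J 𝓘(ℝ, F) ∞ f q)
    (hi : Function.Injective (mfderiv J 𝓘(ℝ, F) f q)) :
    Function.Injective (mfderiv J 𝓘(ℝ, F) g q) := by
  have hg := Eqv.smooth h1 hf
  obtain ⟨G, hG, hfg⟩ := h1.2
  have h2 : ContMDiffAt 𝓘(ℝ, F) 𝓘(ℝ, F) ∞ G (g q) := (hG.restrict_scalars ℝ).contMDiffAt
  have hfg' : f =ᶠ[𝓝 q] G ∘ g := hfg
  have h3 : mfderiv J 𝓘(ℝ, F) f q =
      (mfderiv 𝓘(ℝ, F) 𝓘(ℝ, F) G (g q)).comp (mfderiv J 𝓘(ℝ, F) g q) := by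
    rw [hfg'.mfderiv_eq]
    exact mfderiv_comp q (h2.mdifferentiableAt (by simp)) (hg.mdifferentiableAt (by simp))
  intro x y hxy
  apply hi
  rw [h3]
  exact congrArg (mfderiv 𝓘(ℝ, F) 𝓘(ℝ, F) G (g q)) hxy

end Pool.Agent.Kum
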