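import Pool.Agent.Lib.MP_1d980c_gt.Kum.KAlg

/-! The two coordinate changes of the quotient singularity. -/

set_option autoImplicit false
open Topology Complex ComplexConjugate Pool.Agent.S4T2 Pool.Agent.BlowC
open scoped Manifold ContDiff

namespace Pool.Agent.Kum

variable {X R : Type} [TopologicalSpace X] [NormedAddCommGroup R] [NormedSpace ℂ R] {x : X}
  {a b A B : X → ℂ} {c : X → R}

/-- the branch of the square root near `c ^ 2` with the value `c`. -/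
private theorem exists_root {Y : Type} [TopologicalSpace Y] {y : Y} {f : Y → ℂ}
    (hf : ContinuousAt f y) (h0 : f y ≠ 0) :
    ∃ σ : ℂ → ℂ, ContDiffAt ℂ ∞ σ (f y ^ 2) ∧ ∀ᶠ z in 𝓝 y, σ (f z ^ 2) = f z := by
  set c := f y with hc
  refine ⟨fun w => c * (w / c ^ 2) ^ (2⁻¹ : ℂ), ?_, ?_⟩
  · have h1 : AnalyticAt ℂ (fun w : ℂ => w / c ^ 2) (c ^ 2) := by fun_prop
    have h2 : c ^ 2 / c ^ 2 ∈ Complex.slitPlane := by
      rw [div_self (pow_ne_zero 2 h0)]
      exact Complex.one_mem_slitPlane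
    have h3 : AnalyticAt ℂ (fun w : ℂ => c * (w / c ^ 2) ^ (2⁻¹ : ℂ)) (c ^ 2) :=
      analyticAt_const.mul (h1.cpow analyticAt_const h2)
    exact h3.contDiffAt
  · have h1 : ContinuousAt (fun z => (f z / c).re) y :=
      Complex.continuous_re.continuousAt.comp (hf.div_const c)
    have h2 : 0 < (f y / c).re := by
      rw [← hc, div_self h0]
      exact one_pos
    filter_upwards [h1.eventually (lt_mem_nhds h2)] with z hz
    have h3 : f z ^ 2 / c ^ 2 = (f z / c) ^ 2 := by rw [div_pow]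
    simp only [h3]
    rw [Complex.sq_cpow_two_inv hz, mul_div_cancel₀ _ h0]

/-- from `(s, z, ρ)` to `(s ^ 2, z / s, ρ)`: the inverse is `(w₁, w₂) ↦ (√w₁, w₂ √w₁)` with the
holomorphic branch of the square root near `a x ^ 2` whose value there is `a x`. -/
theorem eqv_k1 (ha : ContinuousAt a x) (h0 : a x ≠ 0) (h1 : ∀ᶠ y in 𝓝 x, A y = a y ^ 2)
    (h2 : ∀ᶠ y in 𝓝 x, B y = b y / a y) :
    Eqv x (fun y => (a y, b y, c y)) (fun y => (A y, B y, c y)) := by
  have hne : ∀ᶠ y in 𝓝 x, a y ≠ 0 := ha.eventually_ne h0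
  constructor
  · refine ⟨fun w : ℂ × ℂ × R => (w.1 ^ 2, w.2.1 / w.1, w.2.2), ?_, ?_⟩
    · have i1 : ContDiffAt ℂ ∞ (fun w : ℂ × ℂ × R => w.1) (a x, b x, c x) := contDiffAt_fst
      have i2 : ContDiffAt ℂ ∞ (fun w : ℂ × ℂ × R => w.2.1) (a x, b x, c x) :=
        contDiffAt_fst.comp _ contDiffAt_snd
      have i3 : ContDiffAt ℂ ∞ (fun w : ℂ × ℂ × R => w.2.2) (a x, b x, c x) :=
        contDiffAt_snd.comp _ contDiffAt_snd
      exact (i1.pow 2).prodMk ((i2.div i1 h0).prodMk i3)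
    · filter_upwards [h1, h2] with y h3 h4
      rw [h3, h4]
  · obtain ⟨σ, hσ, hσ2⟩ := exists_root ha h0
    have hA : A x = a x ^ 2 := h1.self_of_nhds
    refine ⟨fun w : ℂ × ℂ × R => (σ w.1, w.2.1 * σ w.1, w.2.2), ?_, ?_⟩
    · have i1 : ContDiffAt ℂ ∞ (fun w : ℂ × ℂ × R => σ w.1) (A x, B x, c x) := by
        have : ContDiffAt ℂ ∞ σ ((fun w : ℂ × ℂ × R => w.1) (A x, B x, c x)) := by
          simp only
          rw [hA]
          exact hσ
        exact this.comp _ contDiffAt_fst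
      have i2 : ContDiffAt ℂ ∞ (fun w : ℂ × ℂ × R => w.2.1) (A x, B x, c x) :=
        contDiffAt_fst.comp _ contDiffAt_snd
      have i3 : ContDiffAt ℂ ∞ (fun w : ℂ × ℂ × R => w.2.2) (A x, B x, c x) :=
        contDiffAt_snd.comp _ contDiffAt_snd
      exact i1.prodMk ((i2.mul i1).prodMk i3)
    · filter_upwards [h1, h2, hσ2, hne] with y h3 h4 h5 h6
      rw [h3, h4, h5, div_mul_cancel₀ _ h6]

/-- from `(s, z, ρ)` to `(s / z, z ^ 2, ρ)`. -/
theorem eqv_k2 (hb : ContinuousAt b x) (h0 : b x ≠ 0) (h1 : ∀ᶠ y in 𝓝 x, A y = a y / b y)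
    (h2 : ∀ᶠ y in 𝓝 x, B y = b y ^ 2) :
    Eqv x (fun y => (a y, b y, c y)) (fun y => (A y, B y, c y)) := by
  have hne : ∀ᶠ y in 𝓝 x, b y ≠ 0 := hb.eventually_ne h0
  constructor
  · refine ⟨fun w : ℂ × ℂ × R => (w.1 / w.2.1, w.2.1 ^ 2, w.2.2), ?_, ?_⟩
    · have i1 : ContDiffAt ℂ ∞ (fun w : ℂ × ℂ × R => w.1) (a x, b x, c x) := contDiffAt_fst
      have i2 : ContDiffAt ℂ ∞ (fun w : ℂ × ℂ × R => w.2.1) (a x, b x, c x) :=
        contDiffAt_fst.comp _ contDiffAt_snd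
      have i3 : ContDiffAt ℂ ∞ (fun w : ℂ × ℂ × R => w.2.2) (a x, b x, c x) :=
        contDiffAt_snd.comp _ contDiffAt_snd
      exact (i1.div i2 h0).prodMk ((i2.pow 2).prodMk i3)
    · filter_upwards [h1, h2] with y h3 h4
      rw [h3, h4]
  · obtain ⟨σ, hσ, hσ2⟩ := exists_root hb h0
    have hB : B x = b x ^ 2 := h2.self_of_nhds
    refine ⟨fun w : ℂ × ℂ × R => (w.1 * σ w.2.1, σ w.2.1, w.2.2), ?_, ?_⟩
    · have i1 : ContDiffAt ℂ ∞ (fun w : ℂ × ℂ × R => w.1) (A x, B x, c x) := contDiffAt_fst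
      have i2 : ContDiffAt ℂ ∞ (fun w : ℂ × ℂ × R => w.2.1) (A x, B x, c x) :=
        contDiffAt_fst.comp _ contDiffAt_snd
      have i3 : ContDiffAt ℂ ∞ (fun w : ℂ × ℂ × R => w.2.2) (A x, B x, c x) :=
        contDiffAt_snd.comp _ contDiffAt_snd
      have i4 : ContDiffAt ℂ ∞ (fun w : ℂ × ℂ × R => σ w.2.1) (A x, B x, c x) := by
        have : ContDiffAt ℂ ∞ σ ((fun w : ℂ × ℂ × R => w.2.1) (A x, B x, c x)) := by
          simp only
          rw [hB]
          exact hσ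
        exact ContDiffAt.comp (A x, B x, c x) (g := σ) (f := fun w : ℂ × ℂ × R => w.2.1) this i2
      exact (i1.mul i4).prodMk (i4.prodMk i3)
    · filter_upwards [h1, h2, hσ2, hne] with y h3 h4 h5 h6
      rw [h3, h4, h5, div_mul_cancel₀ _ h6]

end Pool.Agent.Kum
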