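import Pool.Agent.Lib.MP_1d980c_gt.Blow.GDefs

/-! Kummer resolutions: definitions. -/

set_option autoImplicit false
open Topology Complex ComplexConjugate Pool.Agent.S4T2 Pool.Agent.BlowC
open scoped Manifold ContDiff

namespace Pool.Agent.Kum

/-- the point `1 / b` of the Riemann sphere. -/
noncomputable def inv (b : ℂ) : OnePoint ℂ :=
  open Classical in if b = 0 then OnePoint.infty else ((b⁻¹ : ℂ) : OnePoint ℂ)

/-! ## Real part -/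

section real

variable {EZ HZ Z M : Type} [NormedAddCommGroup EZ] [NormedSpace ℝ EZ] [TopologicalSpace HZ]
  (IZ : ModelWithCorners ℝ EZ HZ) [TopologicalSpace Z] [ChartedSpace HZ Z]
  [TopologicalSpace M] [ChartedSpace E4 M]

/-- `(s ^ 2, t / s)` are coordinates of `M` near the point `k a` of the exceptional curve over
the fixed point `e` of `τ`, and `k` parametrizes this curve by the values of `t / s`. -/
def Near (τ : Z → Z) (p : Z → M) (e : Z) (s t : Z → ℂ) (k : ℂ → M) (a : ℂ) : Prop :=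
  ∃ α β : M → ℂ, CoordAt α β (k a) ∧ ∀ V ∈ 𝓝 e, ∀ᶠ y in 𝓝 (k a),
    (α y = 0 ∧ y = k (β y)) ∨
      ∃ x ∈ V, τ x ≠ x ∧ p x = y ∧ α y = s x ^ 2 ∧ t x = β y * s x ∧ s x ≠ 0

/-- `M` is the resolution of the quotient of `Z` by the involution `τ`, where the fixed point `e`
is resolved in the coordinates `(s e, t e)`. -/
structure IsKum (τ : Z → Z) (s t : Z → Z → ℂ) (p : Z → M) (k : Z → OnePoint ℂ → M) : Prop where
  reg : ∀ x, τ x ≠ x → ContMDiffAt IZ (𝓡 4) ∞ p x ∧ Function.Bijective (mfderiv IZ (𝓡 4) p x)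
  fib : ∀ x y, τ x ≠ x → τ y ≠ y → (p x = p y ↔ y = x ∨ y = τ x)
  kinj : ∀ e e' a a', τ e = e → τ e' = e' → k e a = k e' a' → e = e' ∧ a = a'
  disj : ∀ e a x, τ e = e → τ x ≠ x → p x ≠ k e a
  cover : ∀ y, (∃ x, τ x ≠ x ∧ p x = y) ∨ ∃ e a, τ e = e ∧ k e a = y
  near : ∀ e, τ e = e → ∀ a, Near τ p e (s e) (t e) (fun b : ℂ => k e (b : OnePoint ℂ)) a
  near' : ∀ e, τ e = e → ∀ a, Near τ p e (t e) (s e) (fun b : ℂ => k e (inv b)) a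

/-- Coordinate functions along the exceptional curve over one fixed point `e`:
`α = s ^ 2`, `β = t / s`, `α' = t ^ 2`, `β' = s / t`. -/
structure KF (τ : Z → Z) (e : Z) (s t : Z → ℂ) (p : Z → M) (k : OnePoint ℂ → M)
    (α β α' β' : M → ℂ) (V : Set Z) : Prop where
  nhds : V ∈ 𝓝 e
  fin : ∀ a : ℂ, α (k a) = 0 ∧ β (k a) = a ∧ CoordAt α β (k a)
  inf : ∀ b : ℂ, α' (k (inv b)) = 0 ∧ β' (k (inv b)) = b ∧ CoordAt α' β' (k (inv b))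
  val : ∀ x ∈ V, τ x ≠ x → α (p x) = s x ^ 2 ∧ β (p x) = t x / s x ∧
    α' (p x) = t x ^ 2 ∧ β' (p x) = s x / t x
  near : ∀ W ∈ 𝓝 e, ∀ a : ℂ, ∀ᶠ y in 𝓝 (k a),
    (∃ a' : ℂ, y = k a') ∨ ∃ x ∈ W, τ x ≠ x ∧ p x = y ∧ s x ≠ 0
  near' : ∀ W ∈ 𝓝 e, ∀ b : ℂ, ∀ᶠ y in 𝓝 (k (inv b)),
    (∃ b' : ℂ, y = k (inv b')) ∨ ∃ x ∈ W, τ x ≠ x ∧ p x = y ∧ t x ≠ 0

/-- Coordinate functions along all exceptional curves. -/
structure KFam (τ : Z → Z) (s t : Z → Z → ℂ) (p : Z → M) (k : Z → OnePoint ℂ → M)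
    (α β α' β' : Z → M → ℂ) (V : Z → Set Z) : Prop where
  kf : ∀ e, τ e = e → KF τ e (s e) (t e) p (k e) (α e) (β e) (α' e) (β' e) (V e)

end real

/-! ## Complex part -/

section complex

variable {EZ HZ Z M EW HW W R : Type} [NormedAddCommGroup EZ] [NormedSpace ℝ EZ]
  [TopologicalSpace HZ] (IZ : ModelWithCorners ℝ EZ HZ) [TopologicalSpace Z] [ChartedSpace HZ Z]
  [TopologicalSpace M] [ChartedSpace E4 M]
  [NormedAddCommGroup EW] [NormedSpace ℝ EW] [TopologicalSpace HW] (JW : ModelWithCorners ℝ EW HW)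
  [TopologicalSpace W] [ChartedSpace HW W] [NormedAddCommGroup R] [NormedSpace ℂ R]

/-- each of the two germs is a holomorphic function of the other one. -/
def Eqv {X F : Type} [TopologicalSpace X] [NormedAddCommGroup F] [NormedSpace ℂ F]
    (x : X) (f g : X → F) : Prop := HolRel x f g ∧ HolRel x g f

/-- the chart `(s, t - s κ, ρ)` of `Z × W` near a fixed point. -/
def spec (s t : Z → ℂ) (d : (W → ℂ) × (W → R)) (y : Z × W) : ℂ × ℂ × R :=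
  (s y.1, t y.1 - s y.1 * d.1 y.2, d.2 y.2)

/-- a holomorphic germ atlas on `Z × W` outside the fixed points of `τ`, invariant under `τ`, of
special form near the fixed points. -/
structure KGerms (τ : Z → Z) (s t : Z → Z → ℂ) (Gm : Z × W → Set (Z × W → ℂ × ℂ × R))
    (Sp : Z × W → Set ((W → ℂ) × (W → R))) : Prop where
  ex : ∀ x, τ x.1 ≠ x.1 → ∃ f ∈ Gm x, ∀ᶠ y in 𝓝 x, f ∈ Gm y
  smooth : ∀ x, τ x.1 ≠ x.1 → ∀ f ∈ Gm x, ContMDiffAt (IZ.prod JW) 𝓘(ℝ, ℂ × ℂ × R) ∞ f x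
  inj : ∀ x, τ x.1 ≠ x.1 → ∀ f ∈ Gm x,
    Function.Injective (mfderiv (IZ.prod JW) 𝓘(ℝ, ℂ × ℂ × R) f x)
  rel : ∀ x, τ x.1 ≠ x.1 → ∀ f ∈ Gm x, ∀ g ∈ Gm x, HolRel x f g
  invr : ∀ x, τ x.1 ≠ x.1 → ∀ f ∈ Gm x, ∀ g ∈ Gm (τ x.1, x.2),
    Eqv x f (fun y => g (τ y.1, y.2))
  sp_ex : ∀ e w, τ e = e → ∃ d ∈ Sp (e, w), ∀ᶠ w' in 𝓝 w, d ∈ Sp (e, w')
  sp_smooth : ∀ e w, τ e = e → ∀ d ∈ Sp (e, w), ContMDiffAt JW 𝓘(ℝ, ℂ) ∞ d.1 w ∧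
    ContMDiffAt JW 𝓘(ℝ, R) ∞ d.2 w ∧ Function.Injective (mfderiv JW 𝓘(ℝ, R) d.2 w)
  sp_rel : ∀ e w, τ e = e → ∀ d ∈ Sp (e, w), ∀ d' ∈ Sp (e, w), ∃ (h : R → ℂ) (H : R → R),
    ContDiffAt ℂ ∞ h (d.2 w) ∧ ContDiffAt ℂ ∞ H (d.2 w) ∧
    ∀ᶠ w' in 𝓝 w, d'.1 w' = d.1 w' + h (d.2 w') ∧ d'.2 w' = H (d.2 w')
  sp_gm : ∀ e w, τ e = e → ∀ d ∈ Sp (e, w), ∀ᶠ y in 𝓝 (e, w), τ y.1 ≠ y.1 →
    ∀ f ∈ Gm y, Eqv y (spec (s e) (t e) d) f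

/-- the chart near a point of finite slope. -/
def ch1 (α β : M → ℂ) (d : (W → ℂ) × (W → R)) (y : M × W) : ℂ × ℂ × R :=
  (α y.1, β y.1 - d.1 y.2, d.2 y.2)

/-- the chart near a point of nonzero slope. -/
noncomputable def ch2 (α' β' : M → ℂ) (d : (W → ℂ) × (W → R)) (y : M × W) : ℂ × ℂ × R :=
  (β' y.1 / (1 - β' y.1 * d.1 y.2), α' y.1 * (1 - β' y.1 * d.1 y.2) ^ 2, d.2 y.2)

/-- the germ atlas on the resolution times `W`. -/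
def GmX (τ : Z → Z) (p : Z → M) (k : Z → OnePoint ℂ → M) (α β α' β' : Z → M → ℂ)
    (Gm : Z × W → Set (Z × W → ℂ × ℂ × R)) (Sp : Z × W → Set ((W → ℂ) × (W → R))) (y : M × W) :
    Set (M × W → ℂ × ℂ × R) :=
  {g | (∃ z, τ z ≠ z ∧ p z = y.1 ∧ ∃ f ∈ Gm (z, y.2), Eqv (z, y.2) f (fun x => g (p x.1, x.2))) ∨
    ∃ e, τ e = e ∧ ∃ d ∈ Sp (e, y.2),
      (∃ a : ℂ, y.1 = k e a ∧ g = ch1 (α e) (β e) d) ∨
      (∃ b : ℂ, y.1 = k e (inv b) ∧ 1 - b * d.1 y.2 ≠ 0 ∧ g = ch2 (α' e) (β' e) d)}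

end complex

end Pool.Agent.Kum
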