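import Pool.Agent.Lib.MP_1d980c_gt.Kum.KExOn

/-! Charts near the points of finite slope. -/

set_option autoImplicit false
open Topology Complex ComplexConjugate Pool.Agent.S4T2 Pool.Agent.BlowC
open scoped Manifold ContDiff

namespace Pool.Agent.Kum

variable {EZ HZ Z M EW HW W R : Type} [NormedAddCommGroup EZ] [NormedSpace ℝ EZ]
  [FiniteDimensional ℝ EZ]
  [TopologicalSpace HZ] {IZ : ModelWithCorners ℝ EZ HZ} [IZ.Boundaryless]
  [TopologicalSpace Z] [ChartedSpace HZ Z] [IsManifold IZ ∞ Z] [T2Space Z]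
  [TopologicalSpace M] [ChartedSpace E4 M] [IsManifold (𝓡 4) ∞ M] [T2Space M]
  [NormedAddCommGroup EW] [NormedSpace ℝ EW] [TopologicalSpace HW] {JW : ModelWithCorners ℝ EW HW}
  [TopologicalSpace W] [ChartedSpace HW W] [NormedAddCommGroup R] [NormedSpace ℂ R]
  {τ : Z → Z} {s t : Z → Z → ℂ} {p : Z → M} {k : Z → OnePoint ℂ → M}
  {α β α' β' : Z → M → ℂ} {V : Z → Set Z}
  {Gm : Z × W → Set (Z × W → ℂ × ℂ × R)} {Sp : Z × W → Set ((W → ℂ) × (W → R))}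

/-- `g = ch1 d` with `d ∈ Sp (e, w)` from `hG.sp_ex`. A point near `(k e a, w)` is `(y', w')` with
`y' = k e a'` (then `g ∈ GmX` by definition) or `y' = p z`, `z` near `e` (`hF.kf.near` with the
neighbourhood `interior (V e) ∩ W₀`, where `W₀ ×ˢ W₁` is in the neighbourhood given by
`hG.sp_gm`), and `ch1_pull` applies. -/
theorem gmX_ex_fin (hτ : Continuous τ) (hK : IsKum IZ τ s t p k) (hF : KFam τ s t p k α β α' β' V)
    (hG : KGerms IZ JW τ s t Gm Sp) {e : Z} (he : τ e = e) (a : ℂ) (w : W) :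
    ∃ f ∈ GmX τ p k α β α' β' Gm Sp (k e a, w),
      ∀ᶠ y in 𝓝 (k e a, w), f ∈ GmX τ p k α β α' β' Gm Sp y := by
  obtain ⟨d, hd, hdev⟩ := hG.sp_ex e w he
  have hkf := hF.kf e he
  refine ⟨ch1 (α e) (β e) d, Or.inr ⟨e, he, d, hd, Or.inl ⟨a, rfl, rfl⟩⟩, ?_⟩
  have hgm := hG.sp_gm e w he d hd
  rw [nhds_prod_eq] at hgm
  obtain ⟨W₀, hW₀, W₁, hW₁, hWW⟩ := Filter.mem_prod_iff.mp hgm
  have h1 := hkf.near (interior (V e) ∩ W₀)
    (Filter.inter_mem (interior_mem_nhds.mpr hkf.nhds) hW₀) a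
  have h2 : ∀ᶠ w' in 𝓝 w, d ∈ Sp (e, w') ∧ w' ∈ W₁ := hdev.and hW₁
  filter_upwards [h1.prod_nhds h2] with y hy
  obtain ⟨hy1, hy2, hy3⟩ := hy
  rcases hy1 with ⟨a', ha'⟩ | ⟨x, hx, hτx, hpx, hsx⟩
  · exact Or.inr ⟨e, he, d, hy2, Or.inl ⟨a', ha', rfl⟩⟩
  · refine Or.inl ⟨x, hτx, hpx, ?_⟩
    exact ch1_pull hkf hτ hG hτx hx.1 hsx (hWW (Set.mk_mem_prod hx.2 hy3) hτx)

end Pool.Agent.Kum
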