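import Pool.Agent.Lib.MP_1d980c_gt.Kum.KExOn

/-! Charts near the points of infinite slope. -/

set_option autoImplicit false
open Topology Complex ComplexConjugate Pool.Agent.S4T2 Pool.Agent.BlowC
open scoped Manifold ContDiff

namespace Pool.Agent.Kum

variable {EZ HZ Z M EW HW W R : Type} [NormedAddCommGroup EZ] [NormedSpace ℝ EZ]
  [FiniteDimensional ℝ EZ]
  [TopologicalSpace HZ] {IZ : ModelWithCorners ℝ EZ HZ} [IZ.Boundaryless]
  [TopologicalSpace Z] [ChartedSpace HZ Z] [IsManifold IZ ∞ Z] [T2Space Z]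
  [TopologicalSpace M] [ChartedSpace E4 M] [IsManifold (𝓡 4) ∞ M] [T2Space M]
  [NormedAddCommGroup EW] [NormedSpace ℝ EW] [TopologicalSpace HW] {JW : ModelWithCorners ℝ EW HW}
  [TopologicalSpace W] [ChartedSpace HW W] [NormedAddCommGroup R] [NormedSpace ℂ R]
  {τ : Z → Z} {s t : Z → Z → ℂ} {p : Z → M} {k : Z → OnePoint ℂ → M}
  {α β α' β' : Z → M → ℂ} {V : Z → Set Z}
  {Gm : Z × W → Set (Z × W → ℂ × ℂ × R)} {Sp : Z × W → Set ((W → ℂ) × (W → R))}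

/-- `g = ch2 d`; note `inv 0 = ∞`. The condition `1 - β' κ ≠ 0` holds near `(k e ∞, w)` by
continuity (`KF.cont'` at `b = 0` and continuity of `d.1` at `w` from `hG.sp_smooth`). A nearby
point is `k e (inv b)` (and `β' = b` there) or `p z`, and `ch2_pull` applies. -/
theorem gmX_ex_inf (hτ : Continuous τ) (hK : IsKum IZ τ s t p k) (hF : KFam τ s t p k α β α' β' V)
    (hG : KGerms IZ JW τ s t Gm Sp) {e : Z} (he : τ e = e) (w : W) :
    ∃ f ∈ GmX τ p k α β α' β' Gm Sp (k e OnePoint.infty, w),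
      ∀ᶠ y in 𝓝 (k e OnePoint.infty, w), f ∈ GmX τ p k α β α' β' Gm Sp y := by
  obtain ⟨d, hd, hdev⟩ := hG.sp_ex e w he
  have hkf := hF.kf e he
  have h0 : inv 0 = OnePoint.infty := if_pos rfl
  rw [← h0]
  have hβ0 : β' e (k e (inv 0)) = 0 := (hkf.inf 0).2.1
  refine ⟨ch2 (α' e) (β' e) d, Or.inr ⟨e, he, d, hd, Or.inr ⟨0, rfl, by simp, rfl⟩⟩, ?_⟩
  have hgm := hG.sp_gm e w he d hd
  rw [nhds_prod_eq] at hgm
  obtain ⟨W₀, hW₀, W₁, hW₁, hWW⟩ := Filter.mem_prod_iff.mp hgm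
  have h1 := hkf.near' (interior (V e) ∩ W₀)
    (Filter.inter_mem (interior_mem_nhds.mpr hkf.nhds) hW₀) 0
  have h2 : ∀ᶠ w' in 𝓝 w, d ∈ Sp (e, w') ∧ w' ∈ W₁ := hdev.and hW₁
  have h3 : ∀ᶠ y in 𝓝 (k e (inv 0), w), 1 - β' e y.1 * d.1 y.2 ≠ 0 := by
    have hc1 : ContinuousAt (fun y : M × W => β' e y.1) (k e (inv 0), w) :=
      ContinuousAt.comp (f := Prod.fst) (x := (k e (inv 0), w)) (hkf.cont' 0).2 continuousAt_fst
    have hc2 : ContinuousAt (fun y : M × W => d.1 y.2) (k e (inv 0), w) :=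
      ContinuousAt.comp (f := Prod.snd) (x := (k e (inv 0), w))
        (hG.sp_smooth e w he d hd).1.continuousAt continuousAt_snd
    have hc : ContinuousAt (fun y : M × W => 1 - β' e y.1 * d.1 y.2) (k e (inv 0), w) :=
      continuousAt_const.sub (hc1.mul hc2)
    refine hc.eventually_ne ?_
    show 1 - β' e (k e (inv 0)) * d.1 w ≠ 0
    rw [hβ0, zero_mul, sub_zero]
    exact one_ne_zero
  filter_upwards [h1.prod_nhds h2, h3] with y hy hne
  obtain ⟨hy1, hy2, hy3⟩ := hy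
  rcases hy1 with ⟨b', hb'⟩ | ⟨x, hx, hτx, hpx, htx⟩
  · refine Or.inr ⟨e, he, d, hy2, Or.inr ⟨b', hb', ?_, rfl⟩⟩
    rw [hb', (hkf.inf b').2.1] at hne
    exact hne
  · refine Or.inl ⟨x, hτx, hpx, ?_⟩
    refine ch2_pull hkf hτ hG hτx hx.1 htx (hWW (Set.mk_mem_prod hx.2 hy3) hτx) ?_
    rw [hpx]
    exact hne

end Pool.Agent.Kum
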