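import Pool.Agent.Lib.MP_1d980c_gt.Kum.KDefs
import Pool.Agent.Lib.MP_1d980c_gt.Blow.Loc

/-! The quotient map is a local diffeomorphism at the regular points. -/

set_option autoImplicit false
open Topology Complex ComplexConjugate Pool.Agent.S4T2 Pool.Agent.BlowC
open scoped Manifold ContDiff

namespace Pool.Agent.Kum

variable {EZ HZ Z M : Type} [NormedAddCommGroup EZ] [NormedSpace ℝ EZ] [FiniteDimensional ℝ EZ]
  [TopologicalSpace HZ]
  {IZ : ModelWithCorners ℝ EZ HZ} [IZ.Boundaryless] [TopologicalSpace Z] [ChartedSpace HZ Z]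
  [IsManifold IZ ∞ Z]
  [TopologicalSpace M] [ChartedSpace E4 M] [IsManifold (𝓡 4) ∞ M]

/-- local inverse of a local diffeomorphism. Hint: compose with a chart of `M` at `p x` (target
`E4`) and use `BlowC.exists_local_inv` from `Blow/LocA.lean`; shrink so that everything stays in
the source of the chart. -/
theorem exists_loc {p : Z → M} {x : Z}
    (h : ∀ᶠ y in 𝓝 x, ContMDiffAt IZ (𝓡 4) ∞ p y ∧
      Function.Bijective (mfderiv IZ (𝓡 4) p y)) :
    ∃ e : OpenPartialHomeomorph Z M, x ∈ e.source ∧ (∀ y ∈ e.source, e y = p y) ∧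
      ∀ z ∈ e.target, ContMDiffAt (𝓡 4) IZ ∞ e.symm z := by
  set c := chartAt E4 (p x) with hc
  have hp : ContinuousAt p x := h.self_of_nhds.1.continuousAt
  have h1 : ∀ᶠ y in 𝓝 x, p y ∈ c.source :=
    hp.eventually (c.open_source.mem_nhds (mem_chart_source E4 (p x)))
  have hcs : ∀ z ∈ c.source, ContMDiffAt (𝓡 4) (𝓡 4) ∞ c z := fun z hz =>
    contMDiffAt_of_mem_maximalAtlas (IsManifold.chart_mem_maximalAtlas (p x)) hz
  have h2 : ∀ᶠ y in 𝓝 x, ContMDiffAt IZ 𝓘(ℝ, E4) ∞ (fun y => c (p y)) y := by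
    filter_upwards [h, h1] with y hy hy1
    exact (hcs (p y) hy1).comp y hy.1
  have h3 : Function.Bijective (mfderiv IZ 𝓘(ℝ, E4) (fun y => c (p y)) x) := by
    have hx := h.self_of_nhds
    have hx1 := h1.self_of_nhds
    have a1 : MDifferentiableAt (𝓡 4) 𝓘(ℝ, E4) c (p x) := (hcs (p x) hx1).mdifferentiableAt (by simp)
    have a2 : MDifferentiableAt IZ (𝓡 4) p x := hx.1.mdifferentiableAt (by simp)
    have a3 : mfderiv IZ 𝓘(ℝ, E4) (fun y => c (p y)) x =
        (mfderiv (𝓡 4) 𝓘(ℝ, E4) c (p x)).comp (mfderiv IZ (𝓡 4) p x) :=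
      mfderiv_comp x a1 a2
    rw [a3]
    have a4 : (p x) ∈ (extChartAt (𝓡 4) (p x)).source := mem_extChartAt_source (p x)
    obtain ⟨e2, he2⟩ := isInvertible_mfderiv_extChartAt a4
    have a5 : mfderiv (𝓡 4) 𝓘(ℝ, E4) (c : M → E4) (p x) =
        mfderiv (𝓡 4) 𝓘(ℝ, E4) (extChartAt (𝓡 4) (p x)) (p x) := rfl
    rw [a5, ← he2]
    exact e2.bijective.comp hx.2
  obtain ⟨e, he1, he2, -, he3⟩ := exists_local_inv h2 h3
  obtain ⟨s, hs1, hs2, hs3⟩ := eventually_nhds_iff.1 h1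
  have hsrc : ∀ y, y ∈ (e.restrOpen s hs2).source ↔ y ∈ e.source ∧ y ∈ s := by
    intro y
    rw [OpenPartialHomeomorph.restrOpen_source]
    rfl
  have hE : ∀ y ∈ (e.restrOpen s hs2).source, (e.restrOpen s hs2) y = c (p y) :=
    fun y hy => he2 y ((hsrc y).1 hy).1
  refine ⟨(e.restrOpen s hs2).trans c.symm, ?_, ?_, ?_⟩
  · rw [OpenPartialHomeomorph.trans_source]
    refine ⟨(hsrc x).2 ⟨he1, hs3⟩, ?_⟩
    change (e.restrOpen s hs2) x ∈ c.target
    rw [hE x ((hsrc x).2 ⟨he1, hs3⟩)]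
    exact c.map_source (hs1 x hs3)
  · intro y hy
    rw [OpenPartialHomeomorph.trans_source] at hy
    change c.symm ((e.restrOpen s hs2) y) = p y
    rw [hE y hy.1]
    exact c.left_inv (hs1 y ((hsrc y).1 hy.1).2)
  · intro z hz
    rw [OpenPartialHomeomorph.trans_target] at hz
    obtain ⟨hz1, hz2⟩ := hz
    have hz3 : z ∈ c.source := hz1
    have hz4 : c z ∈ (e.restrOpen s hs2).target := hz2
    have hz5 : c z ∈ e.target := by
      have hq := (e.restrOpen s hs2).map_target hz4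
      have hq1 := (hsrc _).1 hq
      have hq2 : (e.restrOpen s hs2) ((e.restrOpen s hs2).symm (c z)) = c z :=
        (e.restrOpen s hs2).right_inv hz4
      rw [← hq2]
      exact e.map_source hq1.1
    have b1 : ContMDiffAt 𝓘(ℝ, E4) IZ ∞ e.symm (c z) := he3 _ hz5
    have b2 : ContMDiffAt (𝓡 4) IZ ∞ (e.symm ∘ c) z := ContMDiffAt.comp z b1 (hcs z hz3)
    exact b2

omit [FiniteDimensional ℝ EZ] [IZ.Boundaryless] [IsManifold IZ ∞ Z] [IsManifold (𝓡 4) ∞ M] in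
theorem IsKum.reg_near {τ : Z → Z} {s t : Z → Z → ℂ} {p : Z → M} {k : Z → OnePoint ℂ → M}
    [T2Space Z] (hτ : Continuous τ) (h : IsKum IZ τ s t p k) {x : Z} (hx : τ x ≠ x) :
    ∀ᶠ y in 𝓝 x, τ y ≠ y ∧ ContMDiffAt IZ (𝓡 4) ∞ p y ∧
      Function.Bijective (mfderiv IZ (𝓡 4) p y) := by
  filter_upwards [(isOpen_ne_fun hτ continuous_id).mem_nhds hx] with y hy
  exact ⟨hy, h.reg y hy⟩

end Pool.Agent.Kum
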