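import Pool.Agent.Lib.MP_1d980c_gt.Kum.KAlg
import Pool.Agent.Lib.MP_1d980c_gt.Kum.KLoc

/-! Charts near the regular points. -/

set_option autoImplicit false
open Topology Complex ComplexConjugate Pool.Agent.S4T2 Pool.Agent.BlowC
open scoped Manifold ContDiff

namespace Pool.Agent.Kum

variable {EZ HZ Z M EW HW W R : Type} [NormedAddCommGroup EZ] [NormedSpace ℝ EZ]
  [FiniteDimensional ℝ EZ]
  [TopologicalSpace HZ] {IZ : ModelWithCorners ℝ EZ HZ} [IZ.Boundaryless]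
  [TopologicalSpace Z] [ChartedSpace HZ Z] [IsManifold IZ ∞ Z] [T2Space Z]
  [TopologicalSpace M] [ChartedSpace E4 M] [IsManifold (𝓡 4) ∞ M] [T2Space M]
  [NormedAddCommGroup EW] [NormedSpace ℝ EW] [TopologicalSpace HW] {JW : ModelWithCorners ℝ EW HW}
  [TopologicalSpace W] [ChartedSpace HW W] [NormedAddCommGroup R] [NormedSpace ℂ R]
  {τ : Z → Z} {s t : Z → Z → ℂ} {p : Z → M} {k : Z → OnePoint ℂ → M}
  {α β α' β' : Z → M → ℂ} {V : Z → Set Z}
  {Gm : Z × W → Set (Z × W → ℂ × ℂ × R)} {Sp : Z × W → Set ((W → ℂ) × (W → R))}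

omit [FiniteDimensional ℝ EZ] [IZ.Boundaryless] [IsManifold IZ ∞ Z] [T2Space Z] [T2Space M] [IsManifold (𝓡 4) ∞ M] in
/-- membership in `GmX` at a regular point. -/
theorem gmX_off_mem {z : Z} {w : W} (hz : τ z ≠ z) {f : Z × W → ℂ × ℂ × R} (hf : f ∈ Gm (z, w))
    {g : M × W → ℂ × ℂ × R} (h : Eqv (z, w) f (fun x => g (p x.1, x.2))) :
    g ∈ GmX τ p k α β α' β' Gm Sp (p z, w) :=
  Or.inl ⟨z, hz, rfl, f, hf, h⟩

/-- Take `f ∈ Gm (z, w)` from `hG.ex` and `g = f ∘ (p⁻¹ × id)` with the local inverse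
`exists_loc`. Near `(p z, w)` every point is `(p z', w')` with `z'` near `z`, and
`f ∘ (p⁻¹ × id) ∘ (p × id) = f` near `(z', w')`. -/
theorem gmX_ex_off (hτ : Continuous τ) (hK : IsKum IZ τ s t p k) (hG : KGerms IZ JW τ s t Gm Sp)
    {z : Z} (hz : τ z ≠ z) (w : W) :
    ∃ f ∈ GmX τ p k α β α' β' Gm Sp (p z, w),
      ∀ᶠ y in 𝓝 (p z, w), f ∈ GmX τ p k α β α' β' Gm Sp y := by
  obtain ⟨e, hze, hep, -⟩ := exists_loc (IZ := IZ) (p := p) (x := z)
    ((hK.reg_near hτ hz).mono fun y hy => hy.2)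
  obtain ⟨f, -, hf⟩ := hG.ex (z, w) hz
  have hsymm : e.symm (p z) = z := by
    rw [← hep z hze]
    exact e.left_inv hze
  have hpt : p z ∈ e.target := by
    rw [← hep z hze]
    exact e.map_source hze
  set g : M × W → ℂ × ℂ × R := fun y => f (e.symm y.1, y.2) with hg
  have hcont : Filter.Tendsto (fun y : M × W => (e.symm y.1, y.2)) (𝓝 (p z, w)) (𝓝 (z, w)) := by
    have h1 : ContinuousAt (fun y : M × W => (e.symm y.1, y.2)) (p z, w) := by
      refine ContinuousAt.prodMk ?_ continuousAt_snd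
      exact ContinuousAt.comp (f := fun y : M × W => y.1) (g := fun y => e.symm y)
        (e.continuousAt_symm hpt) continuousAt_fst
    have h2 := h1.tendsto
    simp only [hsymm] at h2
    exact h2
  have hev : ∀ᶠ y in 𝓝 (p z, w), g ∈ GmX τ p k α β α' β' Gm Sp y := by
    have h1 : ∀ᶠ y : M × W in 𝓝 (p z, w), y.1 ∈ e.target :=
      continuousAt_fst.eventually (e.open_target.mem_nhds hpt)
    have h2 : ∀ᶠ y : M × W in 𝓝 (p z, w), f ∈ Gm (e.symm y.1, y.2) := hcont.eventually hf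
    have h3 : ∀ᶠ y : M × W in 𝓝 (p z, w), τ (e.symm y.1) ≠ e.symm y.1 := by
      have h5 : ∀ᶠ x : Z in 𝓝 z, τ x ≠ x := (isOpen_ne_fun hτ continuous_id).mem_nhds hz
      have h4 : ∀ᶠ x : Z × W in 𝓝 (z, w), τ x.1 ≠ x.1 :=
        (continuousAt_fst (p := ((z, w) : Z × W))).eventually h5
      exact hcont.eventually h4
    filter_upwards [h1, h2, h3] with y hy1 hy2 hy3
    have hsrc : e.symm y.1 ∈ e.source := e.map_target hy1
    have hpy : p (e.symm y.1) = y.1 := by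
      rw [← hep _ hsrc]
      exact e.right_inv hy1
    have hmem := gmX_off_mem (p := p) (k := k) (α := α) (β := β) (α' := α') (β' := β')
      (Sp := Sp) hy3 hy2 (g := g) (Eqv.of_eventuallyEq ?_)
    · rw [hpy] at hmem
      exact hmem
    · have h5 : ∀ᶠ x : Z × W in 𝓝 (e.symm y.1, y.2), x.1 ∈ e.source :=
        continuousAt_fst.eventually (e.open_source.mem_nhds hsrc)
      filter_upwards [h5] with x hx
      simp only [hg]
      rw [← hep x.1 hx, e.left_inv hx]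
  exact ⟨g, hev.self_of_nhds, hev⟩

end Pool.Agent.Kum
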