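import Pool.Agent.Lib.MP_1d980c_gt.Kum.KDefs
import Pool.Agent.Lib.MP_1d980c_gt.Blow.Loc

/-! Transition functions along one exceptional curve. -/

set_option autoImplicit false
open Topology Complex ComplexConjugate Pool.Agent.S4T2 Pool.Agent.BlowC
open scoped Manifold ContDiff

namespace Pool.Agent.Kum

variable {Z M : Type} [TopologicalSpace Z] [TopologicalSpace M] [ChartedSpace E4 M]
  {τ : Z → Z} {e : Z} {s t : Z → ℂ} {p : Z → M} {k : OnePoint ℂ → M} {α β α' β' : M → ℂ}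
  {V : Set Z}

/-- `inv` is an involution onto `ℂ`. -/
theorem inv_of_ne {a : ℂ} (ha : a ≠ 0) : inv a = ((a⁻¹ : ℂ) : OnePoint ℂ) := if_neg ha

private theorem contAt_of {u v : M → ℂ} {x : M} (h : CoordAt u v x) :
    ContinuousAt u x ∧ ContinuousAt v x := by
  have h1 := h.1.self_of_nhds.continuousAt
  exact ⟨h1.fst, h1.snd⟩

/-- At a point of the curve of slope `a ≠ 0`: by `near` with `W = V`, a nearby point is `k a'`
with `a' ≠ 0` (continuity of `β`), and `k a' = k (inv a'⁻¹)`, or it is `p x` with `x ∈ V`, and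
`val` applies (`t x = β (p x) * s x ≠ 0`). -/
theorem KF.trans_fun (h : KF τ e s t p k α β α' β' V) {a : ℂ} (ha : a ≠ 0) :
    ∀ᶠ y in 𝓝 (k a), α' y = α y * β y ^ 2 ∧ β' y = (β y)⁻¹ ∧ β y ≠ 0 := by
  have hb := (contAt_of (h.fin a).2.2).2
  have hb' : β (k a) ≠ 0 := by rw [(h.fin a).2.1]; exact ha
  filter_upwards [h.near V h.nhds a, hb.eventually_ne hb'] with y hy hby
  rcases hy with ⟨a', rfl⟩ | ⟨x, hxV, hx, rfl, hs⟩
  · have h1 := h.fin a'
    rw [h1.2.1] at hby
    have h2 := h.inf a'⁻¹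
    rw [inv_of_ne (inv_ne_zero hby), inv_inv] at h2
    refine ⟨?_, ?_, ?_⟩
    · rw [h2.1, h1.1, zero_mul]
    · rw [h2.2.1, h1.2.1]
    · rw [h1.2.1]; exact hby
  · obtain ⟨h1, h2, h3, h4⟩ := h.val x hxV hx
    rw [h1, h2, h3, h4]
    rw [h2] at hby
    refine ⟨?_, ?_, hby⟩
    · rw [div_pow, mul_div_cancel₀ _ (pow_ne_zero 2 hs)]
    · rw [inv_div]

/-- continuity of the functions at the points of the curve. -/
theorem KF.cont (h : KF τ e s t p k α β α' β' V) (a : ℂ) :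
    ContinuousAt α (k a) ∧ ContinuousAt β (k a) :=
  contAt_of (h.fin a).2.2

theorem KF.cont' (h : KF τ e s t p k α β α' β' V) (b : ℂ) :
    ContinuousAt α' (k (inv b)) ∧ ContinuousAt β' (k (inv b)) :=
  contAt_of (h.inf b).2.2

end Pool.Agent.Kum
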