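import Pool.Agent.Lib.MP_1d980c_gt.Kum.KAlgA
import Pool.Agent.Lib.MP_1d980c_gt.Kum.KAlgB
import Pool.Agent.Lib.MP_1d980c_gt.Kum.KFun2
import Pool.Agent.Lib.MP_1d980c_gt.Kum.KLoc

/-! Charts near the exceptional curves. -/

set_option autoImplicit false
open Topology Complex ComplexConjugate Pool.Agent.S4T2 Pool.Agent.BlowC
open scoped Manifold ContDiff

namespace Pool.Agent.Kum

variable {EZ HZ Z M EW HW W R : Type} [NormedAddCommGroup EZ] [NormedSpace ℝ EZ]
  [FiniteDimensional ℝ EZ]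
  [TopologicalSpace HZ] {IZ : ModelWithCorners ℝ EZ HZ} [IZ.Boundaryless]
  [TopologicalSpace Z] [ChartedSpace HZ Z] [IsManifold IZ ∞ Z] [T2Space Z]
  [TopologicalSpace M] [ChartedSpace E4 M] [IsManifold (𝓡 4) ∞ M] [T2Space M]
  [NormedAddCommGroup EW] [NormedSpace ℝ EW] [TopologicalSpace HW] {JW : ModelWithCorners ℝ EW HW}
  [TopologicalSpace W] [ChartedSpace HW W] [NormedAddCommGroup R] [NormedSpace ℂ R]
  {τ : Z → Z} {s t : Z → Z → ℂ} {p : Z → M} {k : Z → OnePoint ℂ → M}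
  {α β α' β' : Z → M → ℂ} {V : Z → Set Z}
  {Gm : Z × W → Set (Z × W → ℂ × ℂ × R)} {Sp : Z × W → Set ((W → ℂ) × (W → R))}

private theorem keo_ev {V' : Set Z} (hτ : Continuous τ) {z : Z} {w : W} (hz : τ z ≠ z)
    (hV : z ∈ interior V') : ∀ᶠ y : Z × W in 𝓝 (z, w), y.1 ∈ V' ∧ τ y.1 ≠ y.1 := by
  have h1 : ∀ᶠ z' in 𝓝 z, z' ∈ V' ∧ τ z' ≠ z' := by
    filter_upwards [mem_interior_iff_mem_nhds.1 hV,
      (isOpen_ne_fun hτ continuous_id).mem_nhds hz] with z' h2 h3
    exact ⟨h2, h3⟩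
  exact (continuousAt_fst (p := (z, w))).eventually h1

/-- Near the curve, `ch1` at a regular point `(p z, w)`: pulled back by `p` it is
`(s ^ 2, t / s - κ, ρ)`, equivalent to `spec = (s, t - s κ, ρ)` by `eqv_k1`, hence to `f ∈ Gm`
(`hG.sp_gm`). Here `s` is continuous at `z` because `spec` is smooth at `(z, w)`
(`Eqv.smooth` from `f ∈ Gm (z, w)`, which exists by `hG.ex` and is smooth by `hG.smooth`). -/
theorem ch1_pull {e z : Z} {w : W} (hF : KF τ e (s e) (t e) p (k e) (α e) (β e) (α' e) (β' e) (V e))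
    (hτ : Continuous τ) (hG : KGerms IZ JW τ s t Gm Sp)
    (hz : τ z ≠ z) (hV : z ∈ interior (V e)) (hs : s e z ≠ 0) {d : (W → ℂ) × (W → R)}
    (hd : ∀ f ∈ Gm (z, w), Eqv (z, w) (spec (s e) (t e) d) f) :
    ∃ f ∈ Gm (z, w), Eqv (z, w) f (fun x => ch1 (α e) (β e) d (p x.1, x.2)) := by
  obtain ⟨f, hf, -⟩ := hG.ex (z, w) hz
  have hsp : ContinuousAt (spec (s e) (t e) d) (z, w) :=
    (Eqv.smooth (hd f hf).symm (hG.smooth (z, w) hz f hf)).continuousAt
  have hs1 : ContinuousAt (fun y : Z × W => s e y.1) (z, w) := continuousAt_fst.comp hsp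
  refine ⟨f, hf, (hd f hf).symm.trans ?_⟩
  refine eqv_k1 (a := fun y : Z × W => s e y.1)
    (b := fun y : Z × W => t e y.1 - s e y.1 * d.1 y.2) (c := fun y : Z × W => d.2 y.2)
    (A := fun y : Z × W => α e (p y.1)) (B := fun y : Z × W => β e (p y.1) - d.1 y.2) hs1 hs ?_ ?_
  · filter_upwards [keo_ev hτ hz hV (w := w)] with y hy
    exact (hF.val y.1 hy.1 hy.2).1
  · filter_upwards [keo_ev hτ hz hV (w := w), hs1.eventually_ne hs] with y hy hy2
    rw [(hF.val y.1 hy.1 hy.2).2.1]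
    field_simp

/-- The same for `ch2`: pulled back it is `(s / (t - s κ), (t - s κ) ^ 2, ρ)`, use `eqv_k2`. -/
theorem ch2_pull {e z : Z} {w : W} (hF : KF τ e (s e) (t e) p (k e) (α e) (β e) (α' e) (β' e) (V e))
    (hτ : Continuous τ) (hG : KGerms IZ JW τ s t Gm Sp)
    (hz : τ z ≠ z) (hV : z ∈ interior (V e)) (ht : t e z ≠ 0) {d : (W → ℂ) × (W → R)}
    (hd : ∀ f ∈ Gm (z, w), Eqv (z, w) (spec (s e) (t e) d) f)
    (hne : 1 - β' e (p z) * d.1 w ≠ 0) :
    ∃ f ∈ Gm (z, w), Eqv (z, w) f (fun x => ch2 (α' e) (β' e) d (p x.1, x.2)) := by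
  obtain ⟨f, hf, -⟩ := hG.ex (z, w) hz
  have hsp : ContinuousAt (spec (s e) (t e) d) (z, w) :=
    (Eqv.smooth (hd f hf).symm (hG.smooth (z, w) hz f hf)).continuousAt
  have hs1 : ContinuousAt (fun y : Z × W => s e y.1) (z, w) := continuousAt_fst.comp hsp
  have hb1 : ContinuousAt (fun y : Z × W => t e y.1 - s e y.1 * d.1 y.2) (z, w) :=
    (continuousAt_fst.comp continuousAt_snd).comp hsp
  have hj : ContinuousAt (fun z' : Z => (z', w)) z := by fun_prop
  have hs2 : ContinuousAt (s e) z := ContinuousAt.comp (f := fun z' : Z => (z', w)) hs1 hj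
  have ht2 : ContinuousAt (t e) z := by
    have h1 : ContinuousAt (fun z' : Z => t e z' - s e z' * d.1 w) z :=
      ContinuousAt.comp (f := fun z' : Z => (z', w)) hb1 hj
    have h2 := h1.add (hs2.mul (continuousAt_const (y := d.1 w)))
    refine h2.congr (Filter.Eventually.of_forall fun z' => ?_)
    simp
  have ht1 : ContinuousAt (fun y : Z × W => t e y.1) (z, w) :=
    ContinuousAt.comp (f := fun y : Z × W => y.1) ht2 continuousAt_fst
  have hzV := hF.val z (interior_subset hV) hz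
  have hb0 : t e z - s e z * d.1 w ≠ 0 := by
    have h1 : t e z - s e z * d.1 w = t e z * (1 - β' e (p z) * d.1 w) := by
      rw [hzV.2.2.2]
      field_simp
    rw [h1]
    exact mul_ne_zero ht hne
  refine ⟨f, hf, (hd f hf).symm.trans ?_⟩
  refine eqv_k2 (a := fun y : Z × W => s e y.1)
    (b := fun y : Z × W => t e y.1 - s e y.1 * d.1 y.2) (c := fun y : Z × W => d.2 y.2)
    (A := fun y : Z × W => β' e (p y.1) / (1 - β' e (p y.1) * d.1 y.2))
    (B := fun y : Z × W => α' e (p y.1) * (1 - β' e (p y.1) * d.1 y.2) ^ 2) hb1 hb0 ?_ ?_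
  · filter_upwards [keo_ev hτ hz hV (w := w), ht1.eventually_ne ht] with y hy hy2
    rw [(hF.val y.1 hy.1 hy.2).2.2.2, div_div]
    congr 1
    field_simp
  · filter_upwards [keo_ev hτ hz hV (w := w), ht1.eventually_ne ht] with y hy hy2
    rw [(hF.val y.1 hy.1 hy.2).2.2.2, (hF.val y.1 hy.1 hy.2).2.2.1, ← mul_pow]
    congr 1
    field_simp

end Pool.Agent.Kum
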