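import Pool.Agent.Lib.MP_1d980c_gt.Kum.KSmOn

/-! Injectivity of the derivative of the charts along the exceptional curves. -/

set_option autoImplicit false
open Topology Complex ComplexConjugate Pool.Agent.S4T2 Pool.Agent.BlowC
open scoped Manifold ContDiff

namespace Pool.Agent.Kum

variable {M EW HW W R : Type} [TopologicalSpace M] [ChartedSpace E4 M] [IsManifold (𝓡 4) ∞ M]
  [NormedAddCommGroup EW] [NormedSpace ℝ EW] [TopologicalSpace HW] {JW : ModelWithCorners ℝ EW HW}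
  [TopologicalSpace W] [ChartedSpace HW W] [NormedAddCommGroup R] [NormedSpace ℂ R]

section gen

variable {E' H N : Type} [NormedAddCommGroup E'] [NormedSpace ℝ E'] [TopologicalSpace H]
  {I : ModelWithCorners ℝ E' H} [TopologicalSpace N] [ChartedSpace H N]

private theorem kio_comp {F1 F2 : Type} [NormedAddCommGroup F1] [NormedSpace ℝ F1]
    [NormedAddCommGroup F2] [NormedSpace ℝ F2] {G : N → F1} {x : N}
    (hG : MDifferentiableAt I 𝓘(ℝ, F1) G x) {ξ : TangentSpace I x}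
    (h0 : mfderiv I 𝓘(ℝ, F1) G x ξ = 0) {Φ : F1 → F2} (hΦ : DifferentiableAt ℝ Φ (G x))
    {f : N → F2} (hf : f =ᶠ[𝓝 x] Φ ∘ G) : mfderiv I 𝓘(ℝ, F2) f x ξ = 0 := by
  rw [hf.mfderiv_eq, mfderiv_comp x hΦ.mdifferentiableAt hG]
  show mfderiv 𝓘(ℝ, F1) 𝓘(ℝ, F2) Φ (G x) (mfderiv I 𝓘(ℝ, F1) G x ξ) = 0
  rw [h0, map_zero]

private theorem kio_pair {F1 F2 : Type} [NormedAddCommGroup F1] [NormedSpace ℝ F1]
    [NormedAddCommGroup F2] [NormedSpace ℝ F2] {G : N → F1} {K : N → F2} {x : N}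
    (hG : MDifferentiableAt I 𝓘(ℝ, F1) G x) (hK : MDifferentiableAt I 𝓘(ℝ, F2) K x)
    {ξ : TangentSpace I x} (h0 : mfderiv I 𝓘(ℝ, F1) G x ξ = 0)
    (h1 : mfderiv I 𝓘(ℝ, F2) K x ξ = 0) :
    mfderiv I 𝓘(ℝ, F1 × F2) (fun z => (G z, K z)) x ξ = 0 := by
  have hp : MDifferentiableAt I 𝓘(ℝ, F1 × F2) (fun z => (G z, K z)) x := hG.prodMk_space hK
  have e1 : mfderiv I 𝓘(ℝ, F1) G x ξ
      = (mfderiv I 𝓘(ℝ, F1 × F2) (fun z => (G z, K z)) x ξ : F1 × F2).1 := by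
    have h := HasMFDerivAt.comp x
      ((ContinuousLinearMap.fst ℝ F1 F2).hasMFDerivAt (x := (G x, K x))) hp.hasMFDerivAt
    exact congrArg (fun L => L ξ) h.mfderiv
  have e2 : mfderiv I 𝓘(ℝ, F2) K x ξ
      = (mfderiv I 𝓘(ℝ, F1 × F2) (fun z => (G z, K z)) x ξ : F1 × F2).2 := by
    have h := HasMFDerivAt.comp x
      ((ContinuousLinearMap.snd ℝ F1 F2).hasMFDerivAt (x := (G x, K x))) hp.hasMFDerivAt
    exact congrArg (fun L => L ξ) h.mfderiv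
  exact Prod.ext (e1.symm.trans h0) (e2.symm.trans h1)

end gen

private theorem kio_fst {F : Type} [NormedAddCommGroup F] [NormedSpace ℝ F] {y : M × W} {u : M → F}
    (hu : MDifferentiableAt (𝓡 4) 𝓘(ℝ, F) u y.1) (ξ : TangentSpace ((𝓡 4).prod JW) y) :
    mfderiv ((𝓡 4).prod JW) 𝓘(ℝ, F) (fun y : M × W => u y.1) y ξ =
      mfderiv (𝓡 4) 𝓘(ℝ, F) u y.1 ξ.1 := by
  have h1 : HasMFDerivAt ((𝓡 4).prod JW) 𝓘(ℝ, F) (fun y : M × W => u y.1) y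
      ((mfderiv (𝓡 4) 𝓘(ℝ, F) u y.1).comp
        (ContinuousLinearMap.fst ℝ (TangentSpace (𝓡 4) y.1) (TangentSpace JW y.2))) :=
    hu.hasMFDerivAt.comp y (hasMFDerivAt_fst (I := 𝓡 4) (I' := JW) y)
  rw [h1.mfderiv]
  rfl

private theorem kio_snd {F : Type} [NormedAddCommGroup F] [NormedSpace ℝ F] {y : M × W} {u : W → F}
    (hu : MDifferentiableAt JW 𝓘(ℝ, F) u y.2) (ξ : TangentSpace ((𝓡 4).prod JW) y) :
    mfderiv ((𝓡 4).prod JW) 𝓘(ℝ, F) (fun y : M × W => u y.2) y ξ =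
      mfderiv JW 𝓘(ℝ, F) u y.2 ξ.2 := by
  have h1 : HasMFDerivAt ((𝓡 4).prod JW) 𝓘(ℝ, F) (fun y : M × W => u y.2) y
      ((mfderiv JW 𝓘(ℝ, F) u y.2).comp
        (ContinuousLinearMap.snd ℝ (TangentSpace (𝓡 4) y.1) (TangentSpace JW y.2))) :=
    hu.hasMFDerivAt.comp y (hasMFDerivAt_snd (I := 𝓡 4) (I' := JW) y)
  rw [h1.mfderiv]
  rfl

/-- common part: a chart `G` from which `a`, `b`, `ρ` can be recovered, with the help of `κ`. -/
private theorem kio_main {y : M} {w : W} {a b : M → ℂ} {d : (W → ℂ) × (W → R)}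
    (h : CoordAt a b y)
    (hd : ContMDiffAt JW 𝓘(ℝ, ℂ) ∞ d.1 w ∧ ContMDiffAt JW 𝓘(ℝ, R) ∞ d.2 w)
    (hi : Function.Injective (mfderiv JW 𝓘(ℝ, R) d.2 w)) {G : M × W → ℂ × ℂ × R}
    (hG : ContMDiffAt ((𝓡 4).prod JW) 𝓘(ℝ, ℂ × ℂ × R) ∞ G (y, w))
    (hG3 : ∀ x, (G x).2.2 = d.2 x.2) {A B : (ℂ × ℂ × R) × ℂ → ℂ}
    (hA : DifferentiableAt ℝ A (G (y, w), d.1 w)) (hB : DifferentiableAt ℝ B (G (y, w), d.1 w))
    (hAe : ∀ᶠ x in 𝓝 (y, w), a x.1 = A (G x, d.1 x.2))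
    (hBe : ∀ᶠ x in 𝓝 (y, w), b x.1 = B (G x, d.1 x.2)) :
    Function.Injective (mfderiv ((𝓡 4).prod JW) 𝓘(ℝ, ℂ × ℂ × R) G (y, w)) := by
  have hGd := hG.mdifferentiableAt (by simp)
  have h1d : MDifferentiableAt JW 𝓘(ℝ, ℂ) d.1 w := hd.1.mdifferentiableAt (by simp)
  have h2d : MDifferentiableAt JW 𝓘(ℝ, R) d.2 w := hd.2.mdifferentiableAt (by simp)
  have hκ : MDifferentiableAt ((𝓡 4).prod JW) 𝓘(ℝ, ℂ) (fun x : M × W => d.1 x.2) (y, w) :=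
    MDifferentiableAt.comp (y, w) h1d mdifferentiableAt_snd
  rw [injective_iff_map_eq_zero]
  intro ξ hξ
  have hz1 : mfderiv ((𝓡 4).prod JW) 𝓘(ℝ, R) (fun x : M × W => d.2 x.2) (y, w) ξ = 0 := by
    refine kio_comp hGd hξ (Φ := fun q : ℂ × ℂ × R => q.2.2) (by fun_prop) ?_
    exact Filter.Eventually.of_forall fun x => (hG3 x).symm
  have hz : ξ.2 = 0 := by
    apply hi
    exact ((kio_snd (y := (y, w)) h2d ξ).symm.trans hz1).trans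
      (map_zero (mfderiv JW 𝓘(ℝ, R) d.2 w)).symm
  have hκ0 : mfderiv ((𝓡 4).prod JW) 𝓘(ℝ, ℂ) (fun x : M × W => d.1 x.2) (y, w) ξ = 0 :=
    (kio_snd (y := (y, w)) h1d ξ).trans ((congrArg (mfderiv JW 𝓘(ℝ, ℂ) d.1 w) hz).trans
      (map_zero (mfderiv JW 𝓘(ℝ, ℂ) d.1 w)))
  have hp0 := kio_pair hGd hκ hξ hκ0
  have hpd : MDifferentiableAt ((𝓡 4).prod JW) 𝓘(ℝ, (ℂ × ℂ × R) × ℂ)
      (fun x : M × W => (G x, d.1 x.2)) (y, w) := hGd.prodMk_space hκ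
  have hu : mfderiv (𝓡 4) 𝓘(ℝ, ℂ) a y ξ.1 = 0 := by
    rw [← kio_fst (JW := JW) (y := (y, w)) (h.smooth_u.mdifferentiableAt (by simp)) ξ]
    exact kio_comp hpd hp0 hA hAe
  have hv : mfderiv (𝓡 4) 𝓘(ℝ, ℂ) b y ξ.1 = 0 := by
    rw [← kio_fst (JW := JW) (y := (y, w)) (h.smooth_v.mdifferentiableAt (by simp)) ξ]
    exact kio_comp hpd hp0 hB hBe
  exact Prod.ext (h.inj ξ.1 hu hv) hz

/-- the kernel: `dρ η = 0` gives `η = 0`, then `da ξ = 0`, `db ξ = 0` give `ξ = 0`. -/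
theorem ch1_inj {y : M} {w : W} {a b : M → ℂ} {d : (W → ℂ) × (W → R)} (h : CoordAt a b y)
    (hd : ContMDiffAt JW 𝓘(ℝ, ℂ) ∞ d.1 w ∧ ContMDiffAt JW 𝓘(ℝ, R) ∞ d.2 w)
    (hi : Function.Injective (mfderiv JW 𝓘(ℝ, R) d.2 w)) :
    Function.Injective (mfderiv ((𝓡 4).prod JW) 𝓘(ℝ, ℂ × ℂ × R) (ch1 a b d) (y, w)) := by
  refine kio_main h hd hi (ch1_smooth h hd) (fun x => rfl)
    (A := fun q => q.1.1) (B := fun q => q.1.2.1 + q.2) (by fun_prop) (by fun_prop)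
    (Filter.Eventually.of_forall fun x => rfl) (Filter.Eventually.of_forall fun x => ?_)
  show b x.1 = b x.1 - d.1 x.2 + d.1 x.2
  ring

/-- the same, with `b / (1 - b κ)` and `a (1 - b κ) ^ 2` in place of `a`, `b - κ`. Hint: compose
`ch2` near `(y, w)` with a local inverse, i.e. `b` and `a` are smooth functions of
`C = b / (1 - b κ)`, `D = a (1 - b κ) ^ 2` and `κ`: `b = C / (1 + C κ)`,
`a = D (1 + C κ) ^ 2` (and `1 + C κ = 1 / (1 - b κ)`); so `(a, b, ρ) = Φ(C, D, κ, ρ)`, and a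
vector `(ξ, η)` in the kernel has `dρ η = 0`, so `η = 0`, `dκ η = 0`. -/
theorem ch2_inj {y : M} {w : W} {a b : M → ℂ} {d : (W → ℂ) × (W → R)} (h : CoordAt a b y)
    (hd : ContMDiffAt JW 𝓘(ℝ, ℂ) ∞ d.1 w ∧ ContMDiffAt JW 𝓘(ℝ, R) ∞ d.2 w)
    (hi : Function.Injective (mfderiv JW 𝓘(ℝ, R) d.2 w)) (hne : 1 - b y * d.1 w ≠ 0) :
    Function.Injective (mfderiv ((𝓡 4).prod JW) 𝓘(ℝ, ℂ × ℂ × R) (ch2 a b d) (y, w)) := by
  have hne' : ∀ᶠ x : M × W in 𝓝 (y, w), 1 - b x.1 * d.1 x.2 ≠ 0 := by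
    have hc : ContinuousAt (fun x : M × W => 1 - b x.1 * d.1 x.2) (y, w) := by
      refine continuousAt_const.sub (ContinuousAt.mul ?_ ?_)
      · exact ContinuousAt.comp (g := b) (f := Prod.fst) h.smooth_v.continuousAt
          continuousAt_fst
      · exact ContinuousAt.comp (g := d.1) (f := Prod.snd) hd.1.continuousAt continuousAt_snd
    exact hc.eventually_ne hne
  have hval : 1 + (b y / (1 - b y * d.1 w)) * d.1 w ≠ 0 := by
    have : 1 + (b y / (1 - b y * d.1 w)) * d.1 w = 1 / (1 - b y * d.1 w) := by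
      field_simp
      ring
    rw [this]
    exact one_div_ne_zero hne
  refine kio_main h hd hi (ch2_smooth h hd hne) (fun x => rfl)
    (A := fun q => q.1.2.1 * (1 + q.1.1 * q.2) ^ 2) (B := fun q => q.1.1 / (1 + q.1.1 * q.2))
    (by fun_prop) ?_ ?_ ?_
  · have h1 : DifferentiableAt ℝ (fun q : (ℂ × ℂ × R) × ℂ => 1 + q.1.1 * q.2)
        (ch2 a b d (y, w), d.1 w) := by
      fun_prop
    have h2 : DifferentiableAt ℝ (fun q : (ℂ × ℂ × R) × ℂ => q.1.1 * (1 + q.1.1 * q.2)⁻¹)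
        (ch2 a b d (y, w), d.1 w) := DifferentiableAt.mul (by fun_prop) (h1.inv hval)
    simpa only [div_eq_mul_inv] using h2
  · filter_upwards [hne'] with x hx
    show a x.1 = (a x.1 * (1 - b x.1 * d.1 x.2) ^ 2)
      * (1 + b x.1 / (1 - b x.1 * d.1 x.2) * d.1 x.2) ^ 2
    have e1 : 1 + b x.1 / (1 - b x.1 * d.1 x.2) * d.1 x.2 = 1 / (1 - b x.1 * d.1 x.2) := by
      field_simp
      ring
    rw [e1]
    field_simp
  · filter_upwards [hne'] with x hx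
    show b x.1 = b x.1 / (1 - b x.1 * d.1 x.2) / (1 + b x.1 / (1 - b x.1 * d.1 x.2) * d.1 x.2)
    have e1 : 1 + b x.1 / (1 - b x.1 * d.1 x.2) * d.1 x.2 = 1 / (1 - b x.1 * d.1 x.2) := by
      field_simp
      ring
    rw [e1]
    field_simp

end Pool.Agent.Kum
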