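import Pool.Agent.Lib.MP_1d980c_gt.Kum.KAlgA
import Pool.Agent.Lib.MP_1d980c_gt.Kum.KLoc

/-! Smoothness, injectivity and relations at the regular points. -/

set_option autoImplicit false
open Topology Complex ComplexConjugate Pool.Agent.S4T2 Pool.Agent.BlowC
open scoped Manifold ContDiff

namespace Pool.Agent.Kum

variable {EZ HZ Z M EW HW W R : Type} [NormedAddCommGroup EZ] [NormedSpace ℝ EZ]
  [FiniteDimensional ℝ EZ]
  [TopologicalSpace HZ] {IZ : ModelWithCorners ℝ EZ HZ} [IZ.Boundaryless]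
  [TopologicalSpace Z] [ChartedSpace HZ Z] [IsManifold IZ ∞ Z] [T2Space Z]
  [TopologicalSpace M] [ChartedSpace E4 M] [IsManifold (𝓡 4) ∞ M] [T2Space M]
  [NormedAddCommGroup EW] [NormedSpace ℝ EW] [TopologicalSpace HW] {JW : ModelWithCorners ℝ EW HW}
  [TopologicalSpace W] [ChartedSpace HW W] [NormedAddCommGroup R] [NormedSpace ℂ R]
  {τ : Z → Z} {s t : Z → Z → ℂ} {p : Z → M} {k : Z → OnePoint ℂ → M}
  {α β α' β' : Z → M → ℂ} {V : Z → Set Z}
  {Gm : Z × W → Set (Z × W → ℂ × ℂ × R)} {Sp : Z × W → Set ((W → ℂ) × (W → R))}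

omit [T2Space M] in
private theorem koff_data (hτ : Continuous τ) (hK : IsKum IZ τ s t p k) {z : Z} (w : W)
    (hz : τ z ≠ z) :
    ∃ Q : M × W → Z × W, Q (p z, w) = (z, w) ∧
      ContMDiffAt ((𝓡 4).prod JW) (IZ.prod JW) ∞ Q (p z, w) ∧
      (∀ᶠ y in 𝓝 (p z, w), (p (Q y).1, (Q y).2) = y) := by
  obtain ⟨e, he1, he2, he3⟩ := exists_loc (IZ := IZ) (p := p) (x := z)
    ((hK.reg_near hτ hz).mono fun y hy => hy.2)
  have hpz : e z = p z := he2 z he1
  have hpt : p z ∈ e.target := by rw [← hpz]; exact e.map_source he1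
  have hsy : e.symm (p z) = z := by rw [← hpz]; exact e.left_inv he1
  refine ⟨fun y => (e.symm y.1, y.2), Prod.ext hsy rfl, ?_, ?_⟩
  · have h1 : ContMDiffAt ((𝓡 4).prod JW) IZ ∞ (fun y : M × W => e.symm y.1) (p z, w) :=
      ContMDiffAt.comp (x := (p z, w)) (g := e.symm) (f := fun y : M × W => y.1) (he3 _ hpt)
        contMDiffAt_fst
    exact h1.prodMk contMDiffAt_snd
  · have h2 : ∀ᶠ y in 𝓝 (p z), y ∈ e.target := e.open_target.mem_nhds hpt
    filter_upwards [(continuousAt_fst (p := (p z, w))).eventually h2] with y hy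
    have h3 : p (e.symm y.1) = y.1 := by
      rw [← he2 _ (e.map_target hy)]
      exact e.right_inv hy
    exact Prod.ext h3 rfl

/-- local inverse of `p × id`: a germ `g` at `(p z, w)` is recovered from its pull-back. -/
theorem pull_smooth (hτ : Continuous τ) (hK : IsKum IZ τ s t p k) {z : Z} {w : W} (hz : τ z ≠ z)
    {g : M × W → ℂ × ℂ × R}
    (h : ContMDiffAt (IZ.prod JW) 𝓘(ℝ, ℂ × ℂ × R) ∞ (fun x => g (p x.1, x.2)) (z, w)) :
    ContMDiffAt ((𝓡 4).prod JW) 𝓘(ℝ, ℂ × ℂ × R) ∞ g (p z, w) := by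
  obtain ⟨Q, hQ1, hQ2, hQ3⟩ := koff_data (JW := JW) hτ hK w hz
  rw [← hQ1] at h
  have h1 := ContMDiffAt.comp (p z, w) h hQ2
  refine h1.congr_of_eventuallyEq ?_
  filter_upwards [hQ3] with y hy
  simp only [Function.comp_apply, hy]

/-- chain rule: `d(g ∘ (p × id)) = dg ∘ (dp × id)` and `dp × id` is surjective. -/
theorem pull_inj (hτ : Continuous τ) (hK : IsKum IZ τ s t p k) {z : Z} {w : W} (hz : τ z ≠ z)
    {g : M × W → ℂ × ℂ × R}
    (h : ContMDiffAt (IZ.prod JW) 𝓘(ℝ, ℂ × ℂ × R) ∞ (fun x => g (p x.1, x.2)) (z, w))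
    (hi : Function.Injective
      (mfderiv (IZ.prod JW) 𝓘(ℝ, ℂ × ℂ × R) (fun x => g (p x.1, x.2)) (z, w))) :
    Function.Injective (mfderiv ((𝓡 4).prod JW) 𝓘(ℝ, ℂ × ℂ × R) g (p z, w)) := by
  obtain ⟨Q, hQ1, hQ2, hQ3⟩ := koff_data (JW := JW) hτ hK w hz
  have hP : MDifferentiableAt (IZ.prod JW) ((𝓡 4).prod JW) (fun x : Z × W => (p x.1, x.2))
      (z, w) := by
    have h1 : MDifferentiableAt (IZ.prod JW) (𝓡 4) (fun x : Z × W => p x.1) (z, w) :=
      MDifferentiableAt.comp (x := (z, w)) (g := p) (f := fun y : Z × W => y.1)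
        ((hK.reg z hz).1.mdifferentiableAt (by simp)) mdifferentiableAt_fst
    exact h1.prodMk mdifferentiableAt_snd
  have hG : MDifferentiableAt (IZ.prod JW) 𝓘(ℝ, ℂ × ℂ × R) (fun x => g (p x.1, x.2)) (z, w) :=
    h.mdifferentiableAt (by simp)
  have hQ : MDifferentiableAt ((𝓡 4).prod JW) (IZ.prod JW) Q (p z, w) :=
    hQ2.mdifferentiableAt (by simp)
  rw [← hQ1] at hP hG hi
  have e1 : mfderiv ((𝓡 4).prod JW) 𝓘(ℝ, ℂ × ℂ × R) g (p z, w) =
      (mfderiv (IZ.prod JW) 𝓘(ℝ, ℂ × ℂ × R) (fun x => g (p x.1, x.2)) (Q (p z, w))).comp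
        (mfderiv ((𝓡 4).prod JW) (IZ.prod JW) Q (p z, w)) := by
    rw [← mfderiv_comp (p z, w) hG hQ]
    apply Filter.EventuallyEq.mfderiv_eq
    filter_upwards [hQ3] with y hy
    simp only [Function.comp_apply, hy]
  have e2 : (mfderiv (IZ.prod JW) ((𝓡 4).prod JW) (fun x : Z × W => (p x.1, x.2))
        (Q (p z, w))).comp (mfderiv ((𝓡 4).prod JW) (IZ.prod JW) Q (p z, w)) =
      mfderiv ((𝓡 4).prod JW) ((𝓡 4).prod JW) (fun y : M × W => y) (p z, w) := by
    rw [← mfderiv_comp (p z, w) hP hQ]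
    apply Filter.EventuallyEq.mfderiv_eq
    filter_upwards [hQ3] with y hy
    simp only [Function.comp_apply, hy]
  have e3 : Function.Injective (mfderiv ((𝓡 4).prod JW) (IZ.prod JW) Q (p z, w)) := by
    have h4 : mfderiv ((𝓡 4).prod JW) ((𝓡 4).prod JW) (fun y : M × W => y) (p z, w) =
        ContinuousLinearMap.id ℝ _ := mfderiv_id
    rw [h4] at e2
    have h5 : ∀ u : E4 × EW, (mfderiv (IZ.prod JW) ((𝓡 4).prod JW)
        (fun x : Z × W => (p x.1, x.2)) (Q (p z, w)) : (EZ × EW) →L[ℝ] (E4 × EW))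
        ((mfderiv ((𝓡 4).prod JW) (IZ.prod JW) Q (p z, w) : (E4 × EW) →L[ℝ] (EZ × EW)) u) = u :=
      fun u => congrArg (fun L : (E4 × EW) →L[ℝ] (E4 × EW) => L u) e2
    intro u v huv
    exact (h5 u).symm.trans ((congrArg (mfderiv (IZ.prod JW) ((𝓡 4).prod JW)
        (fun x : Z × W => (p x.1, x.2)) (Q (p z, w)) : (EZ × EW) →L[ℝ] (E4 × EW)) huv).trans (h5 v))
  rw [e1]
  exact hi.comp e3

/-- relations are recovered from the pull-backs (local homeomorphism). -/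
theorem pull_rel (hτ : Continuous τ) (hK : IsKum IZ τ s t p k) {z : Z} {w : W} (hz : τ z ≠ z)
    {f g : M × W → ℂ × ℂ × R}
    (h : HolRel (z, w) (fun x => f (p x.1, x.2)) (fun x => g (p x.1, x.2))) :
    HolRel (p z, w) f g := by
  obtain ⟨e, he1, he2, he3⟩ := exists_loc (IZ := IZ) (p := p) (x := z)
    ((hK.reg_near hτ hz).mono fun y hy => hy.2)
  have hpz : e z = p z := he2 z he1
  have hpt : p z ∈ e.target := by rw [← hpz]; exact e.map_source he1
  have hsy : e.symm (p z) = z := by rw [← hpz]; exact e.left_inv he1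
  obtain ⟨H, hH1, hH2⟩ := h
  refine ⟨H, hH1, ?_⟩
  have hc : ContinuousAt (fun y : M × W => (e.symm y.1, y.2)) (p z, w) := by
    refine ContinuousAt.prodMk ?_ continuousAt_snd
    exact ContinuousAt.comp (f := fun y : M × W => y.1) (g := e.symm)
      (e.continuousAt_symm hpt) continuousAt_fst
  have hc2 : Filter.Tendsto (fun y : M × W => (e.symm y.1, y.2)) (𝓝 (p z, w)) (𝓝 (z, w)) := by
    have h1 := hc.tendsto
    simp only [hsy] at h1
    exact h1
  have h2 : ∀ᶠ y in 𝓝 (p z), y ∈ e.target := e.open_target.mem_nhds hpt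
  filter_upwards [hc2.eventually hH2, (continuousAt_fst (p := (p z, w))).eventually h2] with y hy hy2
  have h3 : p (e.symm y.1) = y.1 := by
    rw [← he2 _ (e.map_target hy2)]
    exact e.right_inv hy2
  simp only [h3] at hy
  exact hy

end Pool.Agent.Kum
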