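import Pool.Agent.Lib.MP_1d980c_gt.Kum.KOff

/-! Relations at the regular points. -/

set_option autoImplicit false
open Topology Complex ComplexConjugate Pool.Agent.S4T2 Pool.Agent.BlowC
open scoped Manifold ContDiff

namespace Pool.Agent.Kum

variable {EZ HZ Z M EW HW W R : Type} [NormedAddCommGroup EZ] [NormedSpace ℝ EZ]
  [FiniteDimensional ℝ EZ]
  [TopologicalSpace HZ] {IZ : ModelWithCorners ℝ EZ HZ} [IZ.Boundaryless]
  [TopologicalSpace Z] [ChartedSpace HZ Z] [IsManifold IZ ∞ Z] [T2Space Z]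
  [TopologicalSpace M] [ChartedSpace E4 M] [IsManifold (𝓡 4) ∞ M] [T2Space M]
  [NormedAddCommGroup EW] [NormedSpace ℝ EW] [TopologicalSpace HW] {JW : ModelWithCorners ℝ EW HW}
  [TopologicalSpace W] [ChartedSpace HW W] [NormedAddCommGroup R] [NormedSpace ℂ R]
  {τ : Z → Z} {s t : Z → Z → ℂ} {p : Z → M} {k : Z → OnePoint ℂ → M}
  {α β α' β' : Z → M → ℂ} {V : Z → Set Z}
  {Gm : Z × W → Set (Z × W → ℂ × ℂ × R)} {Sp : Z × W → Set ((W → ℂ) × (W → R))}

/-- Two representatives `z, z'` of `y` are equal or exchanged by `τ` (`hK.fib`). In the second case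
pull back `g` by `τ × id` (`Eqv.comp`): near `(z, w)` one has `p ∘ τ = p` (again `hK.fib`, at
points with `τ x ≠ x`, note `τ (τ x) ≠ τ x`), and `hG.invr`. -/
theorem gmX_rel_off (hτ : Continuous τ) (hττ : ∀ x, τ (τ x) = x) (hK : IsKum IZ τ s t p k)
    (hG : KGerms IZ JW τ s t Gm Sp) {z z' : Z} {w : W} (hz : τ z ≠ z) (hz' : τ z' ≠ z')
    (hzz : p z' = p z) {f g : M × W → ℂ × ℂ × R} {f' g' : Z × W → ℂ × ℂ × R}
    (hf' : f' ∈ Gm (z, w)) (hf : Eqv (z, w) f' (fun x => f (p x.1, x.2)))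
    (hg' : g' ∈ Gm (z', w)) (hg : Eqv (z', w) g' (fun x => g (p x.1, x.2))) :
    HolRel (p z, w) f g := by
  refine pull_rel hτ hK hz ?_
  have key : Eqv (z, w) f' (fun x => g (p x.1, x.2)) := by
    rcases (hK.fib z z' hz hz').1 hzz.symm with h | h
    · subst h
      have h1 : Eqv (z', w) f' g' :=
        ⟨hG.rel (z', w) hz f' hf' g' hg', hG.rel (z', w) hz g' hg' f' hf'⟩
      exact h1.trans hg
    · subst h
      have h1 : Eqv (z, w) f' (fun y => g' (τ y.1, y.2)) := hG.invr (z, w) hz f' hf' g' hg'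
      have hb : ContinuousAt (fun y : Z × W => (τ y.1, y.2)) (z, w) :=
        ((hτ.comp continuous_fst).prodMk continuous_snd).continuousAt
      have h2 : Eqv (z, w) (g' ∘ fun y : Z × W => (τ y.1, y.2))
          ((fun x => g (p x.1, x.2)) ∘ fun y : Z × W => (τ y.1, y.2)) := Eqv.comp hb hg
      have h3 : ((fun x => g (p x.1, x.2)) ∘ fun y : Z × W => (τ y.1, y.2)) =ᶠ[𝓝 (z, w)]
          (fun x => g (p x.1, x.2)) := by
        have hne : ∀ᶠ y : Z × W in 𝓝 (z, w), τ y.1 ≠ y.1 :=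
          (isOpen_ne_fun (hτ.comp continuous_fst) continuous_fst).mem_nhds hz
        filter_upwards [hne] with y hy
        have hy' : τ (τ y.1) ≠ τ y.1 := by rw [hττ]; exact fun h => hy h.symm
        have : p y.1 = p (τ y.1) := (hK.fib y.1 (τ y.1) hy hy').2 (Or.inr rfl)
        show g (p (τ y.1), y.2) = g (p y.1, y.2)
        rw [this]
      exact (h1.trans h2).trans (Eqv.of_eventuallyEq h3)
  exact holRel_trans hf.2 key.1

end Pool.Agent.Kum
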