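import Pool.Agent.Lib.MP_1d980c_gt.Kum.KAlgA
import Pool.Agent.Lib.MP_1d980c_gt.Kum.KFun2

/-! Relations along the exceptional curves. -/

set_option autoImplicit false
open Topology Complex ComplexConjugate Pool.Agent.S4T2 Pool.Agent.BlowC
open scoped Manifold ContDiff

namespace Pool.Agent.Kum

variable {EZ HZ Z M EW HW W R : Type} [NormedAddCommGroup EZ] [NormedSpace ℝ EZ]
  [FiniteDimensional ℝ EZ]
  [TopologicalSpace HZ] {IZ : ModelWithCorners ℝ EZ HZ} [IZ.Boundaryless]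
  [TopologicalSpace Z] [ChartedSpace HZ Z] [IsManifold IZ ∞ Z] [T2Space Z]
  [TopologicalSpace M] [ChartedSpace E4 M] [IsManifold (𝓡 4) ∞ M] [T2Space M]
  [NormedAddCommGroup EW] [NormedSpace ℝ EW] [TopologicalSpace HW] {JW : ModelWithCorners ℝ EW HW}
  [TopologicalSpace W] [ChartedSpace HW W] [NormedAddCommGroup R] [NormedSpace ℂ R]
  {τ : Z → Z} {s t : Z → Z → ℂ} {p : Z → M} {k : Z → OnePoint ℂ → M}
  {α β α' β' : Z → M → ℂ} {V : Z → Set Z}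
  {Gm : Z × W → Set (Z × W → ℂ × ℂ × R)} {Sp : Z × W → Set ((W → ℂ) × (W → R))}

/-- `β - κ' = (β - κ) - h(ρ)`, `ρ' = H(ρ)`. -/
theorem rel_11 (hG : KGerms IZ JW τ s t Gm Sp) {e : Z} (he : τ e = e) {w : W} (y : M)
    {d d' : (W → ℂ) × (W → R)} (hd : d ∈ Sp (e, w)) (hd' : d' ∈ Sp (e, w)) (a b : M → ℂ) :
    HolRel (y, w) (ch1 a b d) (ch1 a b d') := by
  obtain ⟨h, H, hh, hH, hev⟩ := hG.sp_rel e w he d hd d' hd'
  refine ⟨fun x => (x.1, x.2.1 - h x.2.2, H x.2.2), ?_, ?_⟩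
  · have h22 : ContDiffAt ℂ ∞ (fun x : ℂ × ℂ × R => x.2.2) (ch1 a b d (y, w)) :=
      contDiffAt_snd.snd
    have h1 : ContDiffAt ℂ ∞ (fun x : ℂ × ℂ × R => h x.2.2) (ch1 a b d (y, w)) :=
      ContDiffAt.comp (ch1 a b d (y, w)) (g := h) (by exact hh) h22
    have h2 : ContDiffAt ℂ ∞ (fun x : ℂ × ℂ × R => H x.2.2) (ch1 a b d (y, w)) :=
      ContDiffAt.comp (ch1 a b d (y, w)) (g := H) (by exact hH) h22
    exact contDiffAt_fst.prodMk ((contDiffAt_snd.fst.sub h1).prodMk h2)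
  · have hc : Filter.Tendsto (fun x : M × W => x.2) (𝓝 (y, w)) (𝓝 w) := continuousAt_snd
    filter_upwards [hc.eventually hev] with x hx
    simp only [ch1, hx.1, hx.2, Prod.mk.injEq, true_and, and_true]
    ring

/-- with `C = β' / (1 - β' κ)`, `D = α' (1 - β' κ) ^ 2`: `1 - β' κ' = (1 - β' κ) (1 - C h)`,
`C' = C / (1 - C h)`, `D' = D (1 - C h) ^ 2`. -/
theorem rel_22 (hG : KGerms IZ JW τ s t Gm Sp) {e : Z} (he : τ e = e) {w : W} (y : M)
    {d d' : (W → ℂ) × (W → R)} (hd : d ∈ Sp (e, w)) (hd' : d' ∈ Sp (e, w)) {a b : M → ℂ}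
    (ha : ContinuousAt a y) (hb : ContinuousAt b y)
    (h1 : 1 - b y * d.1 w ≠ 0) (h2 : 1 - b y * d'.1 w ≠ 0) :
    HolRel (y, w) (ch2 a b d) (ch2 a b d') := by
  obtain ⟨h, H, hh, hH, hev⟩ := hG.sp_rel e w he d hd d' hd'
  have hd1 : ContinuousAt d.1 w := (hG.sp_smooth e w he d hd).1.continuousAt
  have key : ∀ u v z : ℂ, 1 - u * v ≠ 0 →
      1 - u * (v + z) = (1 - u * v) * (1 - u / (1 - u * v) * z) := by
    intro u v z huv
    field_simp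
    ring
  refine ⟨fun x => (x.1 / (1 - x.1 * h x.2.2), x.2.1 * (1 - x.1 * h x.2.2) ^ 2, H x.2.2), ?_, ?_⟩
  · have h22 : ContDiffAt ℂ ∞ (fun x : ℂ × ℂ × R => x.2.2) (ch2 a b d (y, w)) :=
      contDiffAt_snd.snd
    have e1 : ContDiffAt ℂ ∞ (fun x : ℂ × ℂ × R => h x.2.2) (ch2 a b d (y, w)) :=
      ContDiffAt.comp (ch2 a b d (y, w)) (g := h) (by exact hh) h22
    have e2 : ContDiffAt ℂ ∞ (fun x : ℂ × ℂ × R => H x.2.2) (ch2 a b d (y, w)) :=
      ContDiffAt.comp (ch2 a b d (y, w)) (g := H) (by exact hH) h22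
    have e3 : ContDiffAt ℂ ∞ (fun x : ℂ × ℂ × R => 1 - x.1 * h x.2.2) (ch2 a b d (y, w)) :=
      contDiffAt_const.sub (contDiffAt_fst.mul e1)
    have hne : (fun x : ℂ × ℂ × R => 1 - x.1 * h x.2.2) (ch2 a b d (y, w)) ≠ 0 := by
      have e4 := hev.self_of_nhds.1
      have e5 := key (b y) (d.1 w) (h (d.2 w)) h1
      rw [← e4] at e5
      intro h0
      apply h2
      rw [e5]
      have : 1 - b y / (1 - b y * d.1 w) * h (d.2 w) = 0 := h0
      rw [this, mul_zero]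
    exact (contDiffAt_fst.div e3 hne).prodMk
      ((contDiffAt_snd.fst.mul (e3.pow 2)).prodMk e2)
  · have hc : Filter.Tendsto (fun x : M × W => x.2) (𝓝 (y, w)) (𝓝 w) := continuousAt_snd
    have hne : ∀ᶠ x : M × W in 𝓝 (y, w), 1 - b x.1 * d.1 x.2 ≠ 0 := by
      have hcont : ContinuousAt (fun x : M × W => 1 - b x.1 * d.1 x.2) (y, w) :=
        continuousAt_const.sub
          ((ContinuousAt.comp (f := Prod.fst) (g := b) (x := (y, w)) hb continuousAt_fst).mul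
          (ContinuousAt.comp (f := Prod.snd) (g := d.1) (x := (y, w)) hd1 continuousAt_snd))
      exact hcont.eventually_ne h1
    filter_upwards [hc.eventually hev, hne] with x hx hx1
    have e5 := key (b x.1) (d.1 x.2) (h (d.2 x.2)) hx1
    simp only [ch2, hx.1, hx.2, e5, Prod.mk.injEq, and_true]
    refine ⟨?_, ?_⟩
    · rw [div_div]
    · ring

/-- with `A = α`, `B = β - κ ≠ 0`: `β' / (1 - β' κ) = 1 / B`, `α' (1 - β' κ) ^ 2 = A B ^ 2`. -/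
theorem eqv_12 {y : M} {w : W} {d : (W → ℂ) × (W → R)} {a b a' b' : M → ℂ}
    (hb : ContinuousAt b y) (hd : ContinuousAt d.1 w) (hc : ContinuousAt d.2 w)
    (ha : ContinuousAt a y)
    (h : ∀ᶠ y in 𝓝 y, a' y = a y * b y ^ 2 ∧ b' y = (b y)⁻¹ ∧ b y ≠ 0)
    (hne : 1 - b' y * d.1 w ≠ 0) :
    Eqv (y, w) (ch1 a b d) (ch2 a' b' d) := by
  have hB0 : b y - d.1 w ≠ 0 := by
    obtain ⟨-, e2, e3⟩ := h.self_of_nhds
    rw [e2] at hne
    intro h0
    apply hne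
    have e4 : 1 - (b y)⁻¹ * d.1 w = (b y - d.1 w) / b y := by field_simp
    rw [e4, h0, zero_div]
  have hBev : ∀ᶠ x : M × W in 𝓝 (y, w), b x.1 - d.1 x.2 ≠ 0 := by
    have hcont : ContinuousAt (fun x : M × W => b x.1 - d.1 x.2) (y, w) :=
      (ContinuousAt.comp (f := Prod.fst) (g := b) (x := (y, w)) hb continuousAt_fst).sub
        (ContinuousAt.comp (f := Prod.snd) (g := d.1) (x := (y, w)) hd continuousAt_snd)
    exact hcont.eventually_ne hB0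
  have hf : Filter.Tendsto (fun x : M × W => x.1) (𝓝 (y, w)) (𝓝 y) := continuousAt_fst
  have hval : ∀ x : M × W, a' x.1 = a x.1 * b x.1 ^ 2 → b' x.1 = (b x.1)⁻¹ → b x.1 ≠ 0 →
      b x.1 - d.1 x.2 ≠ 0 →
      ch2 a' b' d x = ((b x.1 - d.1 x.2)⁻¹, a x.1 * (b x.1 - d.1 x.2) ^ 2, d.2 x.2) := by
    intro x e1 e2 e3 e4
    have e5 : 1 - b' x.1 * d.1 x.2 = (b x.1 - d.1 x.2) / b x.1 := by
      rw [e2]; field_simp
    simp only [ch2, e5, Prod.mk.injEq, and_true]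
    rw [e1, e2]
    refine ⟨?_, ?_⟩
    · field_simp
    · field_simp
  have hev := hf.eventually h
  refine ⟨⟨fun x => (x.2.1⁻¹, x.1 * x.2.1 ^ 2, x.2.2), ?_, ?_⟩,
    ⟨fun x => (x.2.1 * x.1 ^ 2, x.1⁻¹, x.2.2), ?_, ?_⟩⟩
  · have e1 : ContDiffAt ℂ ∞ (fun x : ℂ × ℂ × R => x.2.1) (ch1 a b d (y, w)) :=
      contDiffAt_snd.fst
    exact (e1.inv hB0).prodMk ((contDiffAt_fst.mul (e1.pow 2)).prodMk contDiffAt_snd.snd)
  · filter_upwards [hev, hBev] with x hx hx1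
    rw [hval x hx.1 hx.2.1 hx.2.2 hx1]
    rfl
  · have e0 : (ch2 a' b' d (y, w)).1 ≠ 0 := by
      obtain ⟨e1, e2, e3⟩ := h.self_of_nhds
      rw [hval (y, w) e1 e2 e3 hB0]
      exact inv_ne_zero hB0
    have e1 : ContDiffAt ℂ ∞ (fun x : ℂ × ℂ × R => x.1) (ch2 a' b' d (y, w)) :=
      contDiffAt_fst
    exact (contDiffAt_snd.fst.mul (e1.pow 2)).prodMk ((e1.inv e0).prodMk contDiffAt_snd.snd)
  · filter_upwards [hev, hBev] with x hx hx1
    rw [hval x hx.1 hx.2.1 hx.2.2 hx1]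
    simp only [ch1, inv_inv, Prod.mk.injEq, and_true]
    field_simp

end Pool.Agent.Kum
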