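import Pool.Agent.Lib.MP_1d980c_gt.Kum.KRelOn

/-! Relations along the exceptional curves. -/

set_option autoImplicit false
open Topology Complex ComplexConjugate Pool.Agent.S4T2 Pool.Agent.BlowC
open scoped Manifold ContDiff

namespace Pool.Agent.Kum

variable {EZ HZ Z M EW HW W R : Type} [NormedAddCommGroup EZ] [NormedSpace ℝ EZ]
  [FiniteDimensional ℝ EZ]
  [TopologicalSpace HZ] {IZ : ModelWithCorners ℝ EZ HZ} [IZ.Boundaryless]
  [TopologicalSpace Z] [ChartedSpace HZ Z] [IsManifold IZ ∞ Z] [T2Space Z]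
  [TopologicalSpace M] [ChartedSpace E4 M] [IsManifold (𝓡 4) ∞ M] [T2Space M]
  [NormedAddCommGroup EW] [NormedSpace ℝ EW] [TopologicalSpace HW] {JW : ModelWithCorners ℝ EW HW}
  [TopologicalSpace W] [ChartedSpace HW W] [NormedAddCommGroup R] [NormedSpace ℂ R]
  {τ : Z → Z} {s t : Z → Z → ℂ} {p : Z → M} {k : Z → OnePoint ℂ → M}
  {α β α' β' : Z → M → ℂ} {V : Z → Set Z}
  {Gm : Z × W → Set (Z × W → ℂ × ℂ × R)} {Sp : Z × W → Set ((W → ℂ) × (W → R))}

private theorem kro_aux (hK : IsKum IZ τ s t p k) {e : Z} (he : τ e = e) {a b : ℂ}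
    (h : k e a = k e (inv b)) : a ≠ 0 ∧ a = b⁻¹ := by
  have h1 := (hK.kinj e e _ _ he he h).2
  by_cases hb : b = 0
  · rw [inv, if_pos hb] at h1
    exact absurd h1 (OnePoint.coe_ne_infty a)
  · rw [inv, if_neg hb] at h1
    have h2 : a = b⁻¹ := OnePoint.coe_injective h1
    exact ⟨by rw [h2]; exact inv_ne_zero hb, h2⟩

private theorem kro_mix {e : Z}
    (hkf : KF τ e (s e) (t e) p (k e) (α e) (β e) (α' e) (β' e) (V e))
    (hG : KGerms IZ JW τ s t Gm Sp) (he : τ e = e) {y : M} {w : W} {d : (W → ℂ) × (W → R)}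
    (hd : d ∈ Sp (e, w)) {a : ℂ} (ha : a ≠ 0) (hy : y = k e a)
    (hne : 1 - β' e y * d.1 w ≠ 0) :
    Eqv (y, w) (ch1 (α e) (β e) d) (ch2 (α' e) (β' e) d) := by
  subst hy
  obtain ⟨h1, h2, -⟩ := hG.sp_smooth e w he d hd
  have hc := hkf.cont a
  exact eqv_12 hc.2 h1.continuousAt h2.continuousAt hc.1 (hkf.trans_fun ha) hne

/-- all four combinations; the point is `k e a` or `k e (inv b)`, and in the mixed cases
`inv b` is the complex number `b⁻¹` (`b ≠ 0`, because `k e` is injective by `hK.kinj` and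
`inv 0 = ∞`), use `KF.trans_fun`. -/
theorem gmX_rel_on (hK : IsKum IZ τ s t p k) (hF : KFam τ s t p k α β α' β' V)
    (hG : KGerms IZ JW τ s t Gm Sp) {e : Z} (he : τ e = e) {x : M × W}
    {f g : M × W → ℂ × ℂ × R}
    (hf : ∃ d ∈ Sp (e, x.2), (∃ a : ℂ, x.1 = k e a ∧ f = ch1 (α e) (β e) d) ∨
      (∃ b : ℂ, x.1 = k e (inv b) ∧ 1 - b * d.1 x.2 ≠ 0 ∧ f = ch2 (α' e) (β' e) d))
    (hg : ∃ d ∈ Sp (e, x.2), (∃ a : ℂ, x.1 = k e a ∧ g = ch1 (α e) (β e) d) ∨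
      (∃ b : ℂ, x.1 = k e (inv b) ∧ 1 - b * d.1 x.2 ≠ 0 ∧ g = ch2 (α' e) (β' e) d)) :
    HolRel x f g := by
  obtain ⟨y, w⟩ := x
  obtain ⟨d, hd, hf⟩ := hf
  obtain ⟨d', hd', hg⟩ := hg
  dsimp only at hd hd' hf hg
  have hkf := hF.kf e he
  rcases hf with ⟨a, hy, rfl⟩ | ⟨b, hy, h1, rfl⟩ <;> rcases hg with ⟨a', hy', rfl⟩ | ⟨b', hy', h2, rfl⟩
  · exact rel_11 hG he y hd hd' _ _
  · obtain ⟨ha, hab⟩ := kro_aux hK he (hy.symm.trans hy')
    have hbe : β' e y = b' := by rw [hy']; exact (hkf.inf b').2.1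
    exact holRel_trans (rel_11 hG he y hd hd' _ _)
      (kro_mix hkf hG he hd' ha hy (by rw [hbe]; exact h2)).1
  · obtain ⟨ha, hab⟩ := kro_aux hK he (hy'.symm.trans hy)
    have hbe : β' e y = b := by rw [hy]; exact (hkf.inf b).2.1
    exact holRel_trans (kro_mix hkf hG he hd ha hy' (by rw [hbe]; exact h1)).2
      (rel_11 hG he y hd hd' _ _)
  · have hbe : β' e y = b := by rw [hy]; exact (hkf.inf b).2.1
    have hbe' : β' e y = b' := by rw [hy']; exact (hkf.inf b').2.1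
    have hc := hkf.cont' b
    rw [← hy] at hc
    exact rel_22 hG he y hd hd' hc.1 hc.2 (by rw [hbe]; exact h1) (by rw [hbe']; exact h2)

end Pool.Agent.Kum
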