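import Pool.Agent.Lib.MP_1d980c_gt.Kum.KFun2

/-! Smoothness of the charts along the exceptional curves. -/

set_option autoImplicit false
open Topology Complex ComplexConjugate Pool.Agent.S4T2 Pool.Agent.BlowC
open scoped Manifold ContDiff

namespace Pool.Agent.Kum

variable {M EW HW W R : Type} [TopologicalSpace M] [ChartedSpace E4 M] [IsManifold (𝓡 4) ∞ M]
  [NormedAddCommGroup EW] [NormedSpace ℝ EW] [TopologicalSpace HW] {JW : ModelWithCorners ℝ EW HW}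
  [TopologicalSpace W] [ChartedSpace HW W] [NormedAddCommGroup R] [NormedSpace ℂ R]

private theorem ksm_quad {y : M} {w : W} {a b : M → ℂ} {d : (W → ℂ) × (W → R)}
    (h : CoordAt a b y)
    (hd : ContMDiffAt JW 𝓘(ℝ, ℂ) ∞ d.1 w ∧ ContMDiffAt JW 𝓘(ℝ, R) ∞ d.2 w) :
    ContMDiffAt ((𝓡 4).prod JW) 𝓘(ℝ, ℂ × ℂ × ℂ × R) ∞
      (fun x : M × W => (a x.1, b x.1, d.1 x.2, d.2 x.2)) (y, w) := by
  have ha : ContMDiffAt ((𝓡 4).prod JW) 𝓘(ℝ, ℂ) ∞ (fun x : M × W => a x.1) (y, w) :=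
    ContMDiffAt.comp (y, w) h.smooth_u contMDiffAt_fst
  have hb : ContMDiffAt ((𝓡 4).prod JW) 𝓘(ℝ, ℂ) ∞ (fun x : M × W => b x.1) (y, w) :=
    ContMDiffAt.comp (y, w) h.smooth_v contMDiffAt_fst
  have h1 : ContMDiffAt ((𝓡 4).prod JW) 𝓘(ℝ, ℂ) ∞ (fun x : M × W => d.1 x.2) (y, w) :=
    ContMDiffAt.comp (y, w) hd.1 contMDiffAt_snd
  have h2 : ContMDiffAt ((𝓡 4).prod JW) 𝓘(ℝ, R) ∞ (fun x : M × W => d.2 x.2) (y, w) :=
    ContMDiffAt.comp (y, w) hd.2 contMDiffAt_snd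
  exact ha.prodMk_space (hb.prodMk_space (h1.prodMk_space h2))

theorem ch1_smooth {y : M} {w : W} {a b : M → ℂ} {d : (W → ℂ) × (W → R)} (h : CoordAt a b y)
    (hd : ContMDiffAt JW 𝓘(ℝ, ℂ) ∞ d.1 w ∧ ContMDiffAt JW 𝓘(ℝ, R) ∞ d.2 w) :
    ContMDiffAt ((𝓡 4).prod JW) 𝓘(ℝ, ℂ × ℂ × R) ∞ (ch1 a b d) (y, w) := by
  have hq := ksm_quad (JW := JW) h hd
  have hK : ContDiffAt ℝ ∞ (fun q : ℂ × ℂ × ℂ × R => (q.1, q.2.1 - q.2.2.1, q.2.2.2))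
      (a y, b y, d.1 w, d.2 w) := by
    fun_prop
  exact ContMDiffAt.comp (y, w) hK.contMDiffAt hq

theorem ch2_smooth {y : M} {w : W} {a b : M → ℂ} {d : (W → ℂ) × (W → R)} (h : CoordAt a b y)
    (hd : ContMDiffAt JW 𝓘(ℝ, ℂ) ∞ d.1 w ∧ ContMDiffAt JW 𝓘(ℝ, R) ∞ d.2 w)
    (hne : 1 - b y * d.1 w ≠ 0) :
    ContMDiffAt ((𝓡 4).prod JW) 𝓘(ℝ, ℂ × ℂ × R) ∞ (ch2 a b d) (y, w) := by
  have hq := ksm_quad (JW := JW) h hd
  have hK : ContDiffAt ℝ ∞ (fun q : ℂ × ℂ × ℂ × R =>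
      (q.2.1 / (1 - q.2.1 * q.2.2.1), q.1 * (1 - q.2.1 * q.2.2.1) ^ 2, q.2.2.2))
      (a y, b y, d.1 w, d.2 w) := by
    have h1 : ContDiffAt ℝ ∞ (fun q : ℂ × ℂ × ℂ × R => 1 - q.2.1 * q.2.2.1)
        (a y, b y, d.1 w, d.2 w) := by
      fun_prop
    have h2 : ContDiffAt ℝ ∞ (fun q : ℂ × ℂ × ℂ × R => q.2.1 / (1 - q.2.1 * q.2.2.1))
        (a y, b y, d.1 w, d.2 w) := by
      have h3 : ContDiffAt ℝ ∞ (fun q : ℂ × ℂ × ℂ × R => q.2.1 * (1 - q.2.1 * q.2.2.1)⁻¹)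
          (a y, b y, d.1 w, d.2 w) := by
        refine ContDiffAt.mul (by fun_prop) (h1.inv hne)
      simpa only [div_eq_mul_inv] using h3
    exact h2.prodMk (by fun_prop)
  exact ContMDiffAt.comp (y, w) hK.contMDiffAt hq

end Pool.Agent.Kum
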