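import Pool.Agent.Lib.MP_1d980c_gt.Kum.KExOff
import Pool.Agent.Lib.MP_1d980c_gt.Kum.KExFin
import Pool.Agent.Lib.MP_1d980c_gt.Kum.KExInf
import Pool.Agent.Lib.MP_1d980c_gt.Kum.KRelOff
import Pool.Agent.Lib.MP_1d980c_gt.Kum.KRelOn2
import Pool.Agent.Lib.MP_1d980c_gt.Kum.KInjOn

/-! The germ atlas on the resolution times `W`. -/

set_option autoImplicit false
open Topology Complex ComplexConjugate Pool.Agent.S4T2 Pool.Agent.BlowC
open scoped Manifold ContDiff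

namespace Pool.Agent.Kum

variable {EZ HZ Z M EW HW W R : Type} [NormedAddCommGroup EZ] [NormedSpace ℝ EZ]
  [FiniteDimensional ℝ EZ]
  [TopologicalSpace HZ] {IZ : ModelWithCorners ℝ EZ HZ} [IZ.Boundaryless]
  [TopologicalSpace Z] [ChartedSpace HZ Z] [IsManifold IZ ∞ Z] [T2Space Z]
  [TopologicalSpace M] [ChartedSpace E4 M] [IsManifold (𝓡 4) ∞ M] [T2Space M]
  [NormedAddCommGroup EW] [NormedSpace ℝ EW] [TopologicalSpace HW] {JW : ModelWithCorners ℝ EW HW}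
  [TopologicalSpace W] [ChartedSpace HW W] [NormedAddCommGroup R] [NormedSpace ℂ R]
  {τ : Z → Z} {s t : Z → Z → ℂ} {p : Z → M} {k : Z → OnePoint ℂ → M}
  {α β α' β' : Z → M → ℂ} {V : Z → Set Z}
  {Gm : Z × W → Set (Z × W → ℂ × ℂ × R)} {Sp : Z × W → Set ((W → ℂ) × (W → R))}

include τ in
theorem gmX_ex (hτ : Continuous τ) (hK : IsKum IZ τ s t p k) (hF : KFam τ s t p k α β α' β' V)
    (hG : KGerms IZ JW τ s t Gm Sp) (x : M × W) :
    ∃ f ∈ GmX τ p k α β α' β' Gm Sp x, ∀ᶠ y in 𝓝 x, f ∈ GmX τ p k α β α' β' Gm Sp y := by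
  obtain ⟨y, w⟩ := x
  rcases hK.cover y with ⟨z, hz, rfl⟩ | ⟨e, a, he, rfl⟩
  · exact gmX_ex_off hτ hK hG hz w
  · induction a using OnePoint.rec with
    | infty => exact gmX_ex_inf hτ hK hF hG he w
    | coe a => exact gmX_ex_fin hτ hK hF hG he a w

theorem gmX_smooth (hτ : Continuous τ) (hK : IsKum IZ τ s t p k) (hF : KFam τ s t p k α β α' β' V)
    (hG : KGerms IZ JW τ s t Gm Sp) (x : M × W) (f : M × W → ℂ × ℂ × R)
    (hf : f ∈ GmX τ p k α β α' β' Gm Sp x) :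
    ContMDiffAt ((𝓡 4).prod JW) 𝓘(ℝ, ℂ × ℂ × R) ∞ f x := by
  obtain ⟨y, w⟩ := x
  rcases hf with ⟨z, hz, hzy, f', hf', hff⟩ | ⟨e, he, d, hd, ⟨a, hy, rfl⟩ | ⟨b, hy, hne, rfl⟩⟩
  · change p z = y at hzy
    subst hzy
    exact pull_smooth hτ hK hz (hff.smooth (hG.smooth (z, w) hz f' hf'))
  · change y = k e a at hy
    subst hy
    have h1 := hG.sp_smooth e w he d hd
    exact ch1_smooth ((hF.kf e he).fin a).2.2 ⟨h1.1, h1.2.1⟩
  · change y = k e (inv b) at hy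
    subst hy
    have h1 := hG.sp_smooth e w he d hd
    have h2 := (hF.kf e he).inf b
    refine ch2_smooth h2.2.2 ⟨h1.1, h1.2.1⟩ ?_
    rw [h2.2.1]
    exact hne

theorem gmX_inj (hτ : Continuous τ) (hK : IsKum IZ τ s t p k) (hF : KFam τ s t p k α β α' β' V)
    (hG : KGerms IZ JW τ s t Gm Sp) (x : M × W) (f : M × W → ℂ × ℂ × R)
    (hf : f ∈ GmX τ p k α β α' β' Gm Sp x) :
    Function.Injective (mfderiv ((𝓡 4).prod JW) 𝓘(ℝ, ℂ × ℂ × R) f x) := by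
  obtain ⟨y, w⟩ := x
  rcases hf with ⟨z, hz, hzy, f', hf', hff⟩ | ⟨e, he, d, hd, ⟨a, hy, rfl⟩ | ⟨b, hy, hne, rfl⟩⟩
  · change p z = y at hzy
    subst hzy
    have h1 := hG.smooth (z, w) hz f' hf'
    exact pull_inj hτ hK hz (hff.smooth h1) (hff.inj h1 (hG.inj (z, w) hz f' hf'))
  · change y = k e a at hy
    subst hy
    have h1 := hG.sp_smooth e w he d hd
    exact ch1_inj ((hF.kf e he).fin a).2.2 ⟨h1.1, h1.2.1⟩ h1.2.2
  · change y = k e (inv b) at hy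
    subst hy
    have h1 := hG.sp_smooth e w he d hd
    have h2 := (hF.kf e he).inf b
    refine ch2_inj h2.2.2 ⟨h1.1, h1.2.1⟩ h1.2.2 ?_
    rw [h2.2.1]
    exact hne

theorem gmX_rel (hτ : Continuous τ) (hττ : ∀ x, τ (τ x) = x) (hK : IsKum IZ τ s t p k)
    (hF : KFam τ s t p k α β α' β' V)
    (hG : KGerms IZ JW τ s t Gm Sp) (x : M × W) (f : M × W → ℂ × ℂ × R)
    (hf : f ∈ GmX τ p k α β α' β' Gm Sp x) (g : M × W → ℂ × ℂ × R)
    (hg : g ∈ GmX τ p k α β α' β' Gm Sp x) :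
    HolRel x f g := by
  rcases hf with ⟨z, hz, hzy, f', hf', hff⟩ | ⟨e, he, hf⟩
  · rcases hg with ⟨z', hz', hzy', g', hg', hgg⟩ | ⟨e, he, d, hd, ⟨a, hy, -⟩ | ⟨b, hy, -, -⟩⟩
    · obtain ⟨y, w⟩ := x
      change p z = y at hzy
      subst hzy
      exact gmX_rel_off hτ hττ hK hG hz hz' hzy' hf' hff hg' hgg
    · exact absurd (hzy.trans hy) (hK.disj e a z he hz)
    · exact absurd (hzy.trans hy) (hK.disj e (inv b) z he hz)
  · rcases hg with ⟨z, hz, hzy, g', hg', hgg⟩ | ⟨e', he', hg⟩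
    · obtain ⟨d, hd, ⟨a, hy, -⟩ | ⟨b, hy, -, -⟩⟩ := hf
      · exact absurd (hzy.trans hy) (hK.disj e a z he hz)
      · exact absurd (hzy.trans hy) (hK.disj e (inv b) z he hz)
    · have hee : e = e' := by
        obtain ⟨d, hd, ⟨a, hy, -⟩ | ⟨b, hy, -, -⟩⟩ := hf <;>
          obtain ⟨d', hd', ⟨a', hy', -⟩ | ⟨b', hy', -, -⟩⟩ := hg <;>
          exact (hK.kinj _ _ _ _ he he' (hy.symm.trans hy')).1
      subst hee
      exact gmX_rel_on hK hF hG he hf hg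

theorem kstep (hτ : Continuous τ) (hττ : ∀ x, τ (τ x) = x) (hK : IsKum IZ τ s t p k)
    (hF : KFam τ s t p k α β α' β' V) (hG : KGerms IZ JW τ s t Gm Sp) :
    HolGerms ((𝓡 4).prod JW) (GmX τ p k α β α' β' Gm Sp) where
  ex := gmX_ex hτ hK hF hG
  smooth := gmX_smooth hτ hK hF hG
  inj := gmX_inj hτ hK hF hG
  rel := gmX_rel hτ hττ hK hF hG

end Pool.Agent.Kum
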