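import Pool.Agent.Lib.MP_1d980c_gt.Kum.ADefs

/-! Products of two odd dimensional spheres: products of germs. -/

set_option autoImplicit false
open Topology Complex ComplexConjugate Pool.Agent.S4T2 Pool.Agent.BlowC
open scoped Manifold ContDiff

namespace Pool.Agent.Kum

section
variable {E H S R : Type} [NormedAddCommGroup E] [NormedSpace ℝ E] [TopologicalSpace H]
  (J : ModelWithCorners ℝ E H) [TopologicalSpace S] [ChartedSpace H S] [NormedAddCommGroup R]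
  [NormedSpace ℂ R]

/-- germs `(b, r)`: `r` is a submersion onto a complex vector space with one dimensional fibres,
`b` is a coordinate of the fibres with constant imaginary part. -/
structure SGerms (G : S → Set ((S → ℂ) × (S → R))) : Prop where
  ex : ∀ w, ∃ d, d ∈ G w
  opn : ∀ w, ∀ d ∈ G w, ∀ᶠ w' in 𝓝 w, d ∈ G w'
  smooth : ∀ w, ∀ d ∈ G w, ContMDiffAt J 𝓘(ℝ, ℂ) ∞ d.1 w ∧ ContMDiffAt J 𝓘(ℝ, R) ∞ d.2 w
  real : ∀ w, ∀ d ∈ G w, ∀ ξ, dm J d.2 w ξ = 0 → (dm J d.1 w ξ).im = 0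
  inj : ∀ w, ∀ d ∈ G w, ∀ ξ, dm J d.2 w ξ = 0 → dm J d.1 w ξ = 0 → ξ = 0
  trans : ∀ w, ∀ d ∈ G w, ∀ d' ∈ G w, ∃ (h : R → ℂ) (T : R → R),
    ContDiffAt ℂ ∞ h (d.2 w) ∧ ContDiffAt ℂ ∞ T (d.2 w) ∧
    ∀ᶠ w' in 𝓝 w, d'.1 w' = d.1 w' + h (d.2 w') ∧ d'.2 w' = T (d.2 w')

end

variable {E1 H1 S1 R1 E2 H2 S2 R2 : Type} [NormedAddCommGroup E1] [NormedSpace ℝ E1]
  [TopologicalSpace H1] {J1 : ModelWithCorners ℝ E1 H1} [TopologicalSpace S1] [ChartedSpace H1 S1]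
  [NormedAddCommGroup R1] [NormedSpace ℂ R1] [NormedAddCommGroup E2] [NormedSpace ℝ E2]
  [TopologicalSpace H2] {J2 : ModelWithCorners ℝ E2 H2} [TopologicalSpace S2] [ChartedSpace H2 S2]
  [NormedAddCommGroup R2] [NormedSpace ℂ R2]

/-- the product of two families of germs. -/
def GP (G1 : S1 → Set ((S1 → ℂ) × (S1 → R1))) (G2 : S2 → Set ((S2 → ℂ) × (S2 → R2)))
    (w : S1 × S2) : Set ((S1 × S2 → ℂ) × (S1 × S2 → ℂ) × (S1 × S2 → R1 × R2)) :=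
  {d | ∃ d1 ∈ G1 w.1, ∃ d2 ∈ G2 w.2,
    d = (fun x => d1.1 x.1, fun x => d2.1 x.2, fun x => (d1.2 x.1, d2.2 x.2))}

private theorem hm_fst {F : Type} [NormedAddCommGroup F] [NormedSpace ℝ F] {f : S1 → F}
    {w : S1 × S2} (hf : MDifferentiableAt J1 𝓘(ℝ, F) f w.1) :
    HasMFDerivAt (J1.prod J2) 𝓘(ℝ, F) (fun x : S1 × S2 => f x.1) w
      ((mfderiv J1 𝓘(ℝ, F) f w.1 : E1 →L[ℝ] F).comp (ContinuousLinearMap.fst ℝ E1 E2)) :=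
  hf.hasMFDerivAt.comp w (hasMFDerivAt_fst (I := J1) (I' := J2) w)

private theorem hm_snd {F : Type} [NormedAddCommGroup F] [NormedSpace ℝ F] {f : S2 → F}
    {w : S1 × S2} (hf : MDifferentiableAt J2 𝓘(ℝ, F) f w.2) :
    HasMFDerivAt (J1.prod J2) 𝓘(ℝ, F) (fun x : S1 × S2 => f x.2) w
      ((mfderiv J2 𝓘(ℝ, F) f w.2 : E2 →L[ℝ] F).comp (ContinuousLinearMap.snd ℝ E1 E2)) :=
  hf.hasMFDerivAt.comp w (hasMFDerivAt_snd (I := J1) (I' := J2) w)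

private theorem dm_fst {F : Type} [NormedAddCommGroup F] [NormedSpace ℝ F] {f : S1 → F}
    {w : S1 × S2} (hf : MDifferentiableAt J1 𝓘(ℝ, F) f w.1) (ξ : E1 × E2) :
    dm (J1.prod J2) (fun x : S1 × S2 => f x.1) w ξ = dm J1 f w.1 ξ.1 := by
  unfold dm
  rw [(hm_fst (J2 := J2) hf).mfderiv]
  rfl

private theorem dm_snd {F : Type} [NormedAddCommGroup F] [NormedSpace ℝ F] {f : S2 → F}
    {w : S1 × S2} (hf : MDifferentiableAt J2 𝓘(ℝ, F) f w.2) (ξ : E1 × E2) :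
    dm (J1.prod J2) (fun x : S1 × S2 => f x.2) w ξ = dm J2 f w.2 ξ.2 := by
  unfold dm
  rw [(hm_snd (J1 := J1) hf).mfderiv]
  rfl

private theorem dm_pair {F1 F2 : Type} [NormedAddCommGroup F1] [NormedSpace ℝ F1]
    [NormedAddCommGroup F2] [NormedSpace ℝ F2] {f : S1 → F1} {g : S2 → F2}
    {w : S1 × S2} (hf : MDifferentiableAt J1 𝓘(ℝ, F1) f w.1)
    (hg : MDifferentiableAt J2 𝓘(ℝ, F2) g w.2) (ξ : E1 × E2) :
    dm (J1.prod J2) (fun x : S1 × S2 => (f x.1, g x.2)) w ξ =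
      (dm J1 f w.1 ξ.1, dm J2 g w.2 ξ.2) := by
  have h1 := hm_fst (J2 := J2) hf
  have h2 := hm_snd (J1 := J1) hg
  have h3 : HasMFDerivAt (J1.prod J2) 𝓘(ℝ, F1 × F2) (fun x : S1 × S2 => (f x.1, g x.2)) w
      (((mfderiv J1 𝓘(ℝ, F1) f w.1 : E1 →L[ℝ] F1).comp (ContinuousLinearMap.fst ℝ E1 E2)).prod
      ((mfderiv J2 𝓘(ℝ, F2) g w.2 : E2 →L[ℝ] F2).comp (ContinuousLinearMap.snd ℝ E1 E2))) :=
    ⟨h1.1.prodMk h2.1, h1.2.prodMk h2.2⟩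
  unfold dm
  rw [h3.mfderiv]
  rfl

/-- all fields come from those of the factors; the derivative of `x ↦ d1.1 x.1` in the direction
`(ξ₁, ξ₂)` is `dm J1 d1.1 w.1 ξ₁`. -/
theorem wgerms_prod {G1 : S1 → Set ((S1 → ℂ) × (S1 → R1))}
    {G2 : S2 → Set ((S2 → ℂ) × (S2 → R2))} (h1 : SGerms J1 G1) (h2 : SGerms J2 G2) :
    WGerms (J1.prod J2) (GP G1 G2) := by
  refine ⟨?_, ?_, ?_, ?_, ?_, ?_⟩
  · rintro ⟨w1, w2⟩
    obtain ⟨d1, hd1⟩ := h1.ex w1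
    obtain ⟨d2, hd2⟩ := h2.ex w2
    exact ⟨_, d1, hd1, d2, hd2, rfl⟩
  · rintro ⟨w1, w2⟩ d ⟨d1, hd1, d2, hd2, rfl⟩
    have e1 : ∀ᶠ w' : S1 × S2 in 𝓝 (w1, w2), d1 ∈ G1 w'.1 :=
      (continuous_fst.tendsto (w1, w2)).eventually (h1.opn w1 d1 hd1)
    have e2 : ∀ᶠ w' : S1 × S2 in 𝓝 (w1, w2), d2 ∈ G2 w'.2 :=
      (continuous_snd.tendsto (w1, w2)).eventually (h2.opn w2 d2 hd2)
    filter_upwards [e1, e2] with w' k1 k2
    exact ⟨d1, k1, d2, k2, rfl⟩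
  · rintro ⟨w1, w2⟩ d ⟨d1, hd1, d2, hd2, rfl⟩
    obtain ⟨a1, a2⟩ := h1.smooth w1 d1 hd1
    obtain ⟨b1, b2⟩ := h2.smooth w2 d2 hd2
    have hf : ContMDiffAt (J1.prod J2) J1 ∞ (Prod.fst : S1 × S2 → S1) (w1, w2) := contMDiffAt_fst
    have hg : ContMDiffAt (J1.prod J2) J2 ∞ (Prod.snd : S1 × S2 → S2) (w1, w2) := contMDiffAt_snd
    have c3 : ContMDiffAt (J1.prod J2) 𝓘(ℝ, ℂ) ∞ (fun x : S1 × S2 => d1.1 x.1) (w1, w2) :=
      a1.comp (w1, w2) hf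
    have c4 : ContMDiffAt (J1.prod J2) 𝓘(ℝ, ℂ) ∞ (fun x : S1 × S2 => d2.1 x.2) (w1, w2) :=
      b1.comp (w1, w2) hg
    refine ⟨c3, c4, ?_⟩
    have c1 : ContMDiffAt (J1.prod J2) 𝓘(ℝ, R1) ∞ (fun x : S1 × S2 => d1.2 x.1) (w1, w2) :=
      a2.comp (w1, w2) hf
    have c2 : ContMDiffAt (J1.prod J2) 𝓘(ℝ, R2) ∞ (fun x : S1 × S2 => d2.2 x.2) (w1, w2) :=
      b2.comp (w1, w2) hg
    exact c1.prodMk_space c2
  · rintro ⟨w1, w2⟩ d ⟨d1, hd1, d2, hd2, rfl⟩ ⟨ξ1, ξ2⟩ hξ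
    obtain ⟨a1, a2⟩ := h1.smooth w1 d1 hd1
    obtain ⟨b1, b2⟩ := h2.smooth w2 d2 hd2
    have hr : dm (J1.prod J2) (fun x : S1 × S2 => (d1.2 x.1, d2.2 x.2)) (w1, w2) (ξ1, ξ2) = 0 := hξ
    rw [dm_pair (w := (w1, w2)) (a2.mdifferentiableAt (by simp))
      (b2.mdifferentiableAt (by simp))] at hr
    have r1 : dm J1 d1.2 w1 ξ1 = 0 := congrArg Prod.fst hr
    have r2 : dm J2 d2.2 w2 ξ2 = 0 := congrArg Prod.snd hr
    refine ⟨?_, ?_⟩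
    · have := h1.real w1 d1 hd1 ξ1 r1
      have e := dm_fst (J2 := J2) (w := (w1, w2)) (a1.mdifferentiableAt (by simp)) (ξ1, ξ2)
      exact (congrArg Complex.im e).trans this
    · have := h2.real w2 d2 hd2 ξ2 r2
      have e := dm_snd (J1 := J1) (w := (w1, w2)) (b1.mdifferentiableAt (by simp)) (ξ1, ξ2)
      exact (congrArg Complex.im e).trans this
  · rintro ⟨w1, w2⟩ d ⟨d1, hd1, d2, hd2, rfl⟩ ⟨ξ1, ξ2⟩ hξ hb1 hb2
    obtain ⟨a1, a2⟩ := h1.smooth w1 d1 hd1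
    obtain ⟨b1, b2⟩ := h2.smooth w2 d2 hd2
    have hr : dm (J1.prod J2) (fun x : S1 × S2 => (d1.2 x.1, d2.2 x.2)) (w1, w2) (ξ1, ξ2) = 0 := hξ
    rw [dm_pair (w := (w1, w2)) (a2.mdifferentiableAt (by simp))
      (b2.mdifferentiableAt (by simp))] at hr
    have r1 : dm J1 d1.2 w1 ξ1 = 0 := congrArg Prod.fst hr
    have r2 : dm J2 d2.2 w2 ξ2 = 0 := congrArg Prod.snd hr
    have e1 := dm_fst (J2 := J2) (w := (w1, w2)) (a1.mdifferentiableAt (by simp)) (ξ1, ξ2)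
    have e2 := dm_snd (J1 := J1) (w := (w1, w2)) (b1.mdifferentiableAt (by simp)) (ξ1, ξ2)
    have k1 := h1.inj w1 d1 hd1 ξ1 r1 (e1.symm.trans hb1)
    have k2 := h2.inj w2 d2 hd2 ξ2 r2 (e2.symm.trans hb2)
    rw [k1, k2]
    rfl
  · rintro ⟨w1, w2⟩ d ⟨d1, hd1, d2, hd2, rfl⟩ d' ⟨d1', hd1', d2', hd2', rfl⟩
    obtain ⟨g1, T1, hg1, hT1, ev1⟩ := h1.trans w1 d1 hd1 d1' hd1'
    obtain ⟨g2, T2, hg2, hT2, ev2⟩ := h2.trans w2 d2 hd2 d2' hd2'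
    refine ⟨fun r => g1 r.1, fun r => g2 r.2, fun r => (T1 r.1, T2 r.2), ?_, ?_, ?_, ?_⟩
    · exact ContDiffAt.comp (d1.2 w1, d2.2 w2) (g := g1) (f := Prod.fst) hg1 contDiffAt_fst
    · exact ContDiffAt.comp (d1.2 w1, d2.2 w2) (g := g2) (f := Prod.snd) hg2 contDiffAt_snd
    · exact (ContDiffAt.comp (d1.2 w1, d2.2 w2) (g := T1) (f := Prod.fst) hT1 contDiffAt_fst).prodMk
        (ContDiffAt.comp (d1.2 w1, d2.2 w2) (g := T2) (f := Prod.snd) hT2 contDiffAt_snd)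
    · have e1 := (continuous_fst.tendsto ((w1, w2) : S1 × S2)).eventually ev1
      have e2 := (continuous_snd.tendsto ((w1, w2) : S1 × S2)).eventually ev2
      filter_upwards [e1, e2] with w' k1 k2
      exact ⟨k1.1, k2.1, Prod.ext k1.2 k2.2⟩

end Pool.Agent.Kum
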